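import Pool.Agent.MP_a9d3bd_y.St

/-! A valuative bound gives an equation that is monic of its total degree. -/

namespace Pool.Agent.MP_a9d3bd_y

open MvPolynomial Pool.Agent.MP_a9d3bd_h Pool.Agent.MP_a9d3bd_q Pool.Agent.MP_a9d3bd_g

section
variable (K : Type) [Field K] {E σ : Type} [Field E] [Algebra K E]

/-- Polynomials whose `m`-th coefficient is a polynomial of degree at most `m` in `v`. -/
def bnd_S (v : σ → E) : Subring (Polynomial E) where
  carrier := {q | ∀ m, ∃ d : MvPolynomial σ K, d.totalDegree ≤ m ∧ aeval v d = q.coeff m}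
  zero_mem' := fun m => ⟨0, by simp, by simp⟩
  one_mem' := fun m => by
    by_cases h : m = 0
    · exact ⟨1, by simp, by simp [h]⟩
    · exact ⟨0, by simp, by simp [Polynomial.coeff_one, h]⟩
  add_mem' := fun {p q} hp hq m => by
    obtain ⟨d, hd, hd'⟩ := hp m
    obtain ⟨e, he, he'⟩ := hq m
    exact ⟨d + e, (totalDegree_add d e).trans (max_le hd he), by simp [hd', he']⟩
  neg_mem' := fun {p} hp m => by
    obtain ⟨d, hd, hd'⟩ := hp m
    exact ⟨-d, by simpa using hd, by simp [hd']⟩
  mul_mem' := fun {p q} hp hq m => by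
    choose d hd hd' using hp
    choose e he he' using hq
    refine ⟨∑ x ∈ Finset.HasAntidiagonal.antidiagonal m, d x.1 * e x.2, ?_, ?_⟩
    · refine totalDegree_finsetSum_le fun x hx => (totalDegree_mul _ _).trans ?_
      rw [← Finset.HasAntidiagonal.mem_antidiagonal.1 hx]
      exact add_le_add (hd _) (he _)
    · rw [Polynomial.coeff_mul, map_sum]
      exact Finset.sum_congr rfl fun x _ => by rw [map_mul, hd', he']

theorem bnd_C (v : σ → E) (c : K) : Polynomial.C (algebraMap K E c) ∈ bnd_S K v := fun m => by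
  by_cases h : m = 0
  · exact ⟨C c, by simp, by simp [h]⟩
  · exact ⟨0, by simp, by simp [Polynomial.coeff_C, h]⟩

theorem bnd_X (v : σ → E) (o : Option σ) :
    Polynomial.C (oe 1 v o) * Polynomial.X ∈ bnd_S K v := fun m => by
  by_cases h : m = 1
  · cases o with
    | none => exact ⟨1, by simp, by simp [h, oe]⟩
    | some k => exact ⟨X k, by simp [h], by simp [h, oe]⟩
  · refine ⟨0, by simp, ?_⟩
    rw [Polynomial.coeff_C_mul, Polynomial.coeff_X_of_ne_one h]
    simp

theorem bnd_int [Fintype σ] (v : σ → E) (b : E)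
    (h : ∀ V : ValuationSubring E, (∀ c : K, algebraMap K E c ∈ V) → ∀ γ, 1 ≤ γ →
      (∀ k, V.valuation (v k) ≤ γ) → V.valuation b ≤ γ) :
    ∃ p : Polynomial (bnd_S K v), p.Monic ∧
      Polynomial.eval₂ (bnd_S K v).subtype (Polynomial.C b * Polynomial.X) p = 0 := by
  let F := FractionRing (Polynomial E)
  let a : Polynomial E →+* F := algebraMap _ _
  have ha : Function.Injective a := IsFractionRing.injective _ _
  let s : Set F := Set.range (a.comp (bnd_S K v).subtype)
  have h1 := iInf_valuationSubring_superset (s := s)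
  have h2 : a (Polynomial.C b * Polynomial.X) ∈
      (integralClosure (Subring.closure s) F).toSubring := by
    rw [← h1, Subring.mem_iInf]
    rintro ⟨V1, hV1⟩
    let V : ValuationSubring E := V1.comap (a.comp Polynomial.C)
    obtain ⟨o, ho⟩ := Finite.exists_max fun o : Option σ => V.valuation (oe 1 v o)
    have hb := h V (fun c => hV1 ⟨⟨_, bnd_C K v c⟩, rfl⟩) (V.valuation (oe 1 v o))
      (by simpa [oe] using ho none) fun k => ho (some k)
    obtain ⟨t, ht⟩ := (V.valuation_le_iff _ _).1 hb
    have h3 : a (Polynomial.C (oe 1 v o) * Polynomial.X) ∈ V1 := hV1 ⟨⟨_, bnd_X K v o⟩, rfl⟩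
    have h4 : a (Polynomial.C (t : E)) ∈ V1 := t.2
    have h5 := V1.mul_mem _ _ h4 h3
    rw [← map_mul, ← mul_assoc, ← map_mul, ht] at h5
    exact h5
  obtain ⟨p, hp, hpu⟩ : IsIntegral (Subring.closure s) (a (Polynomial.C b * Polynomial.X)) := h2
  let f : bnd_S K v →+* Subring.closure s :=
    (a.comp (bnd_S K v).subtype).codRestrict _ fun k => Subring.subset_closure ⟨k, rfl⟩
  have hf : Function.Surjective f := by
    rintro ⟨z, hz⟩
    have : z ∈ (a.comp (bnd_S K v).subtype).range :=
      (Subring.closure_le (t := (a.comp (bnd_S K v).subtype).range)).2 (fun _ hw => hw) hz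
    obtain ⟨k, rfl⟩ := this
    exact ⟨k, rfl⟩
  obtain ⟨q, hq, -, hqm⟩ := Polynomial.lifts_and_degree_eq_and_monic
    ((Polynomial.mem_lifts p).2 (Polynomial.map_surjective f hf p)) hp
  refine ⟨q, hqm, ha ?_⟩
  rw [← hq, Polynomial.eval₂_map] at hpu
  rw [Polynomial.hom_eval₂, map_zero]
  exact hpu

theorem bnd_coeff (d : MvPolynomial σ K) (k N : ℕ) (h : k < N) :
    coeff (Finsupp.single none N) (rename some d * X none ^ k) = 0 := by
  classical
  rw [X_pow_eq_monomial, coeff_mul_monomial']
  split_ifs with h1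
  · rw [coeff_rename_eq_zero, zero_mul]
    intro u hu
    have h2 := DFunLike.congr_fun hu none
    rw [Finsupp.mapDomain_of_notMem_range _ _ (by simp)] at h2
    simp at h2
    omega
  · rfl

end

theorem sBnd (K : Type) [Field K] [IsAlgClosed K] : SBnd K := by
  classical
  intro E σ _ _ _ v b h
  obtain ⟨p, hp, hpu⟩ := bnd_int K v b h
  have hc : ∀ k, ∃ d : MvPolynomial σ K, d.totalDegree ≤ p.natDegree - k ∧
      aeval v d = (p.coeff k : Polynomial E).coeff (p.natDegree - k) :=
    fun k => (p.coeff k).2 _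
  choose d hd hd' using hc
  let G : MvPolynomial (Option σ) K := X none ^ p.natDegree +
    ∑ k ∈ Finset.range p.natDegree, rename some (d k) * X none ^ k
  have h1 : coeff (Finsupp.single none p.natDegree) G = 1 := by
    rw [coeff_add, coeff_sum, Finset.sum_eq_zero fun k hk =>
      bnd_coeff K (d k) k _ (Finset.mem_range.1 hk), coeff_X_pow]
    simp
  have h2 : G.totalDegree ≤ p.natDegree := by
    refine (totalDegree_add _ _).trans (max_le (by simp) ?_)
    refine totalDegree_finsetSum_le fun k hk => (totalDegree_mul _ _).trans ?_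
    have h3 := (totalDegree_rename_le some (d k)).trans (hd k)
    have h4 := Finset.mem_range.1 hk
    rw [totalDegree_X_pow]
    omega
  have h3 : p.natDegree ≤ G.totalDegree := by
    have h4 := le_totalDegree (mem_support_iff.2 (by rw [h1]; exact one_ne_zero) :
      Finsupp.single none p.natDegree ∈ G.support)
    simpa using h4
  refine ⟨G, ?_, by rw [le_antisymm h2 h3]; exact h1⟩
  have h4 := congrArg (fun q => Polynomial.coeff q p.natDegree) hpu
  rw [Polynomial.eval₂_eq_sum_range, Finset.sum_range_succ, hp.coeff_natDegree] at h4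
  simp only [map_one, one_mul, Polynomial.coeff_add, Polynomial.finsetSum_coeff,
    Polynomial.coeff_zero, mul_pow, ← Polynomial.C_pow, Polynomial.coeff_C_mul,
    Polynomial.coeff_X_pow, if_true, mul_one] at h4
  have h5 : ∀ k ∈ Finset.range p.natDegree,
      ((bnd_S K v).subtype (p.coeff k) * (Polynomial.C (b ^ k) * Polynomial.X ^ k)).coeff
        p.natDegree = aeval v (d k) * b ^ k := by
    intro k hk
    have h6 := Finset.mem_range.1 hk
    rw [← mul_assoc, Polynomial.coeff_mul_X_pow', if_pos h6.le, Polynomial.coeff_mul_C, hd']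
    rfl
  rw [Finset.sum_congr rfl h5] at h4
  have h7 : (oe b v) ∘ some = v := rfl
  simp only [G, map_add, map_pow, map_sum, map_mul, aeval_X, aeval_rename, h7]
  rw [add_comm]
  exact h4

end Pool.Agent.MP_a9d3bd_y
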