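import Pool.Agent.MP_a9d3bd_y.St

namespace Pool.Agent.MP_a9d3bd_y

open MvPolynomial Pool.Agent.MP_a9d3bd_h Pool.Agent.MP_a9d3bd_q Pool.Agent.MP_a9d3bd_g

theorem bval_eq {K B σ : Type} [Field K] [CommRing B] [Algebra K B] [Fintype σ] {v : σ → B} {b : B}
    (h : Bnd K v b) : ∃ (N : ℕ) (T : Finset (Option σ →₀ ℕ)) (c : (Option σ →₀ ℕ) → K),
      (∀ s ∈ T, s none < N ∧ ∑ k, s (some k) + s none ≤ N) ∧
      b ^ N + ∑ s ∈ T, algebraMap K B (c s) * (∏ k, v k ^ s (some k)) * b ^ s none = 0 := by
  classical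
  obtain ⟨G, h0, h1⟩ := h
  have hm : Finsupp.single none G.totalDegree ∈ G.support := mem_support_iff.2 (by simp [h1])
  refine ⟨G.totalDegree, G.support.erase (Finsupp.single none G.totalDegree), fun s => coeff s G,
    fun s hs => ?_, ?_⟩
  · obtain ⟨h2, h3⟩ := Finset.mem_erase.1 hs
    have h4 := le_totalDegree h3
    rw [Finsupp.sum_fintype _ _ (fun _ => rfl), Fintype.sum_option] at h4
    refine ⟨lt_of_le_of_ne (by omega) fun e => h2 ?_, by omega⟩
    have h5 : ∑ k, s (some k) = 0 := by omega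
    ext o
    cases o with
    | none => simpa using e
    | some k => simpa using Finset.sum_eq_zero_iff.1 h5 k (Finset.mem_univ k)
  · rw [aeval_def, eval₂_eq', ← Finset.add_sum_erase _ _ hm, h1] at h0
    rw [← h0]
    congr 1
    · simp [Fintype.prod_option, oe]
    · refine Finset.sum_congr rfl fun s _ => ?_
      simp only [Fintype.prod_option, oe, Option.elim]
      ring

theorem sBval (K : Type) [Field K] [IsAlgClosed K]  : SBval K := by
  intro B σ _ _ _ v b h
  obtain ⟨N, T, c, h1, h2⟩ := bval_eq h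
  refine ⟨?_, fun E _ _ j V hV γ g1 g2 => ?_⟩
  · have hm : ∀ s : Option σ →₀ ℕ, algebraMap K B (c s) * ∏ k, v k ^ s (some k) ∈
        Algebra.adjoin K (Set.range v) := fun s => mul_mem (Subalgebra.algebraMap_mem _ _)
      (prod_mem fun k _ => pow_mem (Algebra.subset_adjoin (Set.mem_range_self k)) _)
    refine ⟨Polynomial.X ^ N + ∑ s ∈ T, Polynomial.C ⟨_, hm s⟩ * Polynomial.X ^ s none,
      Polynomial.monic_X_pow_add ?_, ?_⟩
    · refine (Polynomial.degree_sum_le _ _).trans_lt
        ((Finset.sup_lt_iff (WithBot.bot_lt_coe _)).2 fun s hs => ?_)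
      exact (Polynomial.degree_C_mul_X_pow_le _ _).trans_lt (by exact_mod_cast (h1 s hs).1)
    · rw [← h2]
      simp [Polynomial.eval₂_finsetSum]
  · by_contra hn
    have hlt : γ < V.valuation (j b) := lt_of_not_ge hn
    have b0 : 0 < V.valuation (j b) := (zero_lt_one.trans_le g1).trans hlt
    have e := congrArg j h2
    rw [map_add, map_zero, map_sum, map_pow, add_eq_zero_iff_eq_neg] at e
    have e2 : V.valuation (∑ s ∈ T,
        j (algebraMap K B (c s) * (∏ k, v k ^ s (some k)) * b ^ s none)) <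
        V.valuation (j b) ^ N := by
      refine V.valuation.map_sum_lt (pow_pos b0 N).ne' fun s hs => ?_
      obtain ⟨a1, a2⟩ := h1 s hs
      have a3 : V.valuation (algebraMap K E (c s)) ≤ 1 := (V.valuation_le_one_iff _).2 (hV _)
      have a4 : ∏ k, V.valuation (j (v k)) ^ s (some k) ≤ γ ^ (N - s none) := by
        refine (Finset.prod_le_prod' fun k _ => pow_le_pow_left' (g2 k) (s (some k))).trans ?_
        rw [Finset.prod_pow_eq_pow_sum]
        exact pow_le_pow_right₀ g1 (by omega)
      have a5 : γ ^ (N - s none) < V.valuation (j b) ^ (N - s none) :=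
        pow_lt_pow_left₀ hlt zero_le (by omega)
      simp only [map_mul, map_pow, map_prod, AlgHom.commutes]
      rw [← pow_sub_mul_pow (V.valuation (j b)) a1.le]
      refine mul_lt_mul_of_pos_right (lt_of_le_of_lt ?_ a5) (pow_pos b0 _)
      exact (mul_le_mul' a3 a4).trans_eq (one_mul _)
    rw [← V.valuation.map_neg, ← e, map_pow] at e2
    exact lt_irrefl _ e2

end Pool.Agent.MP_a9d3bd_y
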