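import Pool.Agent.MP_a9d3bd_y.TSt

namespace Pool.Agent.MP_a9d3bd_y

open MvPolynomial Pool.Agent.MP_a9d3bd_h Pool.Agent.MP_a9d3bd_q Pool.Agent.MP_a9d3bd_g

section
variable {K B σ : Type} [Field K] [CommRing B] [Algebra K B] {v : σ → B}

theorem tle_mono {a : B} {n m : ℕ} (h : Le K v a n) (hm : n ≤ m) : Le K v a m :=
  fun Ω _ φ V h1 g h2 h3 => (h Ω φ V h1 g h2 h3).trans (pow_le_pow_right₀ h2 hm)

theorem tle_adj {a : B} (ha : a ∈ Algebra.adjoin K (Set.range v)) : ∃ n, Le K v a n := by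
  induction ha using Algebra.adjoin_induction with
  | mem x hx =>
    obtain ⟨i, rfl⟩ := hx
    exact ⟨1, fun Ω _ φ V _ g _ h3 => by simpa using h3 i⟩
  | algebraMap c =>
    exact ⟨0, fun Ω _ φ V h1 g _ _ => by
      rw [pow_zero]
      exact (V.valuation_le_one_iff _).2 (h1 c)⟩
  | add x y _ _ hx hy =>
    obtain ⟨n, hn⟩ := hx
    obtain ⟨m, hm⟩ := hy
    refine ⟨n + m, fun Ω _ φ V h1 g h2 h3 => ?_⟩
    rw [map_add]
    exact V.valuation.map_add_le (tle_mono hn (Nat.le_add_right n m) Ω φ V h1 g h2 h3)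
      (tle_mono hm (Nat.le_add_left m n) Ω φ V h1 g h2 h3)
  | mul x y _ _ hx hy =>
    obtain ⟨n, hn⟩ := hx
    obtain ⟨m, hm⟩ := hy
    refine ⟨n + m, fun Ω _ φ V h1 g h2 h3 => ?_⟩
    rw [map_mul, map_mul, pow_add]
    exact mul_le_mul' (hn Ω φ V h1 g h2 h3) (hm Ω φ V h1 g h2 h3)

theorem tle_int {b : B} (h : IsIntegral (Algebra.adjoin K (Set.range v)) b) :
    ∃ n, Le K v b n := by
  obtain ⟨p, hp, h0⟩ := h
  choose n hn using fun i => tle_adj (p.coeff i).2
  refine ⟨(Finset.range p.natDegree).sup n, fun Ω _ φ V h1 g h2 h3 => ?_⟩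
  by_contra hc
  have hlt := lt_of_not_ge hc
  have b1 : 1 ≤ V.valuation (φ b) := (one_le_pow₀ h2).trans hlt.le
  have b0 : 0 < V.valuation (φ b) := zero_lt_one.trans_le b1
  rw [hp.as_sum, Polynomial.eval₂_add, Polynomial.eval₂_finsetSum, Polynomial.eval₂_X_pow,
    add_eq_zero_iff_eq_neg] at h0
  have e := congrArg φ h0
  rw [map_pow, map_neg, map_sum] at e
  have e2 : V.valuation (∑ i ∈ Finset.range p.natDegree, φ (Polynomial.eval₂
      (algebraMap (Algebra.adjoin K (Set.range v)) B) b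
        (Polynomial.C (p.coeff i) * Polynomial.X ^ i))) < V.valuation (φ b) ^ p.natDegree := by
    refine V.valuation.map_sum_lt (pow_pos b0 _).ne' fun i hi => ?_
    have a1 := tle_mono (hn i) (Finset.le_sup (f := n) hi) Ω φ V h1 g h2 h3
    rw [Polynomial.eval₂_mul, Polynomial.eval₂_C, Polynomial.eval₂_X_pow, map_mul, map_mul,
      map_pow, map_pow]
    refine lt_of_lt_of_le (mul_lt_mul_of_pos_right (a1.trans_lt hlt) (pow_pos b0 i)) ?_
    rw [← pow_succ']
    exact pow_le_pow_right₀ b1 (Finset.mem_range.1 hi)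
  rw [← V.valuation.map_neg, ← e, map_pow] at e2
  exact lt_irrefl _ e2

end

theorem tLe (K : Type) [Field K] [IsAlgClosed K] (h : SBnd K) : TLe K := by
  intro B σ _ _ _ v b
  refine ⟨fun hb => ?_, fun _ hb => ?_⟩
  · obtain ⟨n, hn⟩ := tle_int hb
    exact ⟨n, fun m hm => tle_mono hn hm⟩
  · obtain ⟨G, h0, h1⟩ := h (FractionRing B) σ (fun k => algebraMap B _ (v k))
      (algebraMap B _ b) fun V hV γ g1 g2 => by
        simpa using hb (FractionRing B) (algebraMap B _) V (fun k => by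
          rw [← IsScalarTower.algebraMap_apply]
          exact hV k) γ g1 g2
    refine ⟨G, IsFractionRing.injective B (FractionRing B) ?_, h1⟩
    rw [map_zero, ← h0, ← aeval_algebraMap_apply]
    congr 2
    funext o
    cases o <;> rfl

end Pool.Agent.MP_a9d3bd_y
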