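import Pool.Agent.MP_a9d3bd_y.St

namespace Pool.Agent.MP_a9d3bd_y

open MvPolynomial Pool.Agent.MP_a9d3bd_h Pool.Agent.MP_a9d3bd_q Pool.Agent.MP_a9d3bd_g

open Pointwise in
theorem con_abs {R B : Type} [CommRing R] [IsDomain R] [IsIntegrallyClosed R] [CommRing B]
    [IsDomain B] [Algebra R B] (hinj : Function.Injective (algebraMap R B))
    (hint : ∀ a : B, IsIntegral R a) (b : B)
    (hbir : ∀ a : B, ∃ g₁ g₂ : Polynomial R, Polynomial.aeval b g₂ ≠ 0 ∧
      Polynomial.aeval b g₁ = a * Polynomial.aeval b g₂) (a : B) :
    ∃ g : Polynomial R, Polynomial.aeval b g =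
      Polynomial.aeval b (Polynomial.derivative (minpoly R b)) * a := by
  by_cases h0 : Polynomial.aeval b (Polynomial.derivative (minpoly R b)) = 0
  · exact ⟨0, by rw [h0, zero_mul, map_zero]⟩
  have : FaithfulSMul R B := (faithfulSMul_iff_algebraMap_injective R B).2 hinj
  let L := FractionRing B
  let k := FractionRing R
  have hBL : Function.Injective (algebraMap B L) := IsFractionRing.injective B L
  let : Algebra k L := FractionRing.liftAlgebra R L
  have : IsScalarTower R k L := FractionRing.isScalarTower_liftAlgebra R L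
  set x : L := algebraMap B L b with hx
  have hRx : IsIntegral R x := (hint b).algebraMap
  have hkx : IsIntegral k x := hRx.tower_top
  have hev : ∀ g : Polynomial R, algebraMap B L (Polynomial.aeval b g) = Polynomial.aeval x g :=
    fun g => (Polynomial.aeval_algebraMap_apply L b g).symm
  have hmem : ∀ g : Polynomial R, Polynomial.aeval x g ∈ IntermediateField.adjoin k {x} := by
    intro g
    rw [← Polynomial.aeval_map_algebraMap k]
    exact IntermediateField.algebra_adjoin_le_adjoin k _ (Polynomial.aeval_mem_adjoin_singleton k x)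
  have hB : ∀ c : B, algebraMap B L c ∈ IntermediateField.adjoin k {x} := by
    intro c
    obtain ⟨g₁, g₂, h1, h2⟩ := hbir c
    have h3 : algebraMap B L (Polynomial.aeval b g₂) ≠ 0 := fun e =>
      h1 (hBL (e.trans (map_zero _).symm))
    have h4 : algebraMap B L c = Polynomial.aeval x g₁ / Polynomial.aeval x g₂ := by
      rw [← hev, ← hev, h2, map_mul, mul_div_cancel_right₀ _ h3]
    rw [h4]
    exact div_mem (hmem _) (hmem _)
  have htop : IntermediateField.adjoin k {x} = ⊤ := by
    refine eq_top_iff.2 fun y _ => ?_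
    obtain ⟨c, d, -, rfl⟩ := IsFractionRing.div_surjective B y
    exact div_mem (hB c) (hB d)
  have hadj : Algebra.adjoin k {x} = ⊤ := by
    rw [← IntermediateField.adjoin_simple_toSubalgebra_of_isAlgebraic hkx.isAlgebraic, htop]
    rfl
  have hmin : minpoly k x = (minpoly R b).map (algebraMap R k) :=
    minpoly.isIntegrallyClosed_eq_field_fractions k L (hint b)
  have hder : Polynomial.aeval x (Polynomial.derivative (minpoly k x)) =
      algebraMap B L (Polynomial.aeval b (Polynomial.derivative (minpoly R b))) := by
    rw [hmin, Polynomial.derivative_map, Polynomial.aeval_map_algebraMap, hev]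
  have hne : Polynomial.aeval x (Polynomial.derivative (minpoly k x)) ≠ 0 := by
    rw [hder]
    exact fun e => h0 (hBL (e.trans (map_zero _).symm))
  have hsep : IsSeparable k x :=
    (Polynomial.separable_iff_derivative_ne_zero (minpoly.irreducible hkx)).2 fun e =>
      hne (by rw [e, map_zero])
  have e : (IntermediateField.adjoin k {x}) ≃ₐ[k] L :=
    (IntermediateField.equivOfEq htop).trans IntermediateField.topEquiv
  have : FiniteDimensional k L :=
    have := IntermediateField.adjoin.finiteDimensional hkx
    e.toLinearEquiv.finiteDimensional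
  have : Algebra.IsSeparable k L :=
    have := (IntermediateField.isSeparable_adjoin_simple_iff_isSeparable k L).2 hsep
    Algebra.IsSeparable.of_algHom k _ e.symm.toAlgHom
  have hd : algebraMap B L a ∈
      (Algebra.traceForm k L).dualSubmodule (Subalgebra.toSubmodule (Algebra.adjoin R {x})) := by
    intro y hy
    have hyi : IsIntegral R y := adjoin_le_integralClosure hRx hy
    have h1 : IsIntegral R (Algebra.trace k L (algebraMap B L a * y)) :=
      Algebra.isIntegral_trace ((hint a).algebraMap.mul hyi)
    obtain ⟨r, hr⟩ := IsIntegrallyClosed.algebraMap_eq_of_integral h1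
    exact Submodule.mem_one.2 ⟨r, hr⟩
  rw [traceForm_dualSubmodule_adjoin R k hadj hRx] at hd
  obtain ⟨y, hy, hya⟩ := (Submodule.mem_smul_pointwise_iff_exists _ _ _).1 hd
  rw [Subalgebra.mem_toSubmodule, Algebra.adjoin_singleton_eq_range_aeval] at hy
  obtain ⟨g, rfl⟩ := hy
  refine ⟨g, hBL ?_⟩
  rw [map_mul, ← hder, ← hya, smul_eq_mul, mul_inv_cancel_left₀ hne, hev]
  rfl

theorem con_der {K σ : Type} [Field K] (G : MvPolynomial (Option σ) K) :
    optionEquivLeft K σ (pderiv none G) = Polynomial.derivative (optionEquivLeft K σ G) := by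
  induction G using MvPolynomial.induction_on with
  | C c => simp
  | add p q hp hq => simp only [map_add, hp, hq]
  | mul_X p i hp =>
    cases i with
    | none => simp [hp, Polynomial.derivative_mul, mul_comm]
    | some i => simp [hp, Polynomial.derivative_mul, mul_comm]

theorem sCon (K : Type) [Field K] [IsAlgClosed K] : SCon K := by
  intro B σ _ _ _ _ v b H hv hit hH hbir a
  let : Algebra (MvPolynomial σ K) B := (aeval v : MvPolynomial σ K →ₐ[K] B).toRingHom.toAlgebra
  have hφ : ∀ r : MvPolynomial σ K, algebraMap (MvPolynomial σ K) B r = aeval v r := fun _ => rfl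
  have hev : ∀ G : MvPolynomial (Option σ) K,
      aeval (oe b v) G = Polynomial.aeval b (optionEquivLeft K σ G) := by
    intro G
    induction G using MvPolynomial.induction_on with
    | C c => simp [hφ]
    | add p q hp hq => simp only [map_add, hp, hq]
    | mul_X p i hp =>
      cases i with
      | none => simp [hp, oe]
      | some i => simp [hp, oe, hφ]
  have hinj : Function.Injective (algebraMap (MvPolynomial σ K) B) := hv
  have hint : ∀ c : B, IsIntegral (MvPolynomial σ K) c := by
    intro c
    obtain ⟨p, hp, hc⟩ := hit c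
    let ψ : MvPolynomial σ K →+* Algebra.adjoin K (Set.range v) :=
      (aeval v : MvPolynomial σ K →ₐ[K] B).toRingHom.codRestrict _ fun r => by
        rw [Algebra.adjoin_range_eq_range_aeval]
        exact ⟨r, rfl⟩
    have hψ : Function.Surjective ψ := by
      rintro ⟨y, hy⟩
      rw [Algebra.adjoin_range_eq_range_aeval] at hy
      obtain ⟨r, rfl⟩ := hy
      exact ⟨r, rfl⟩
    obtain ⟨q, hq, -, hm⟩ := Polynomial.lifts_and_degree_eq_and_monic
      ((Polynomial.mem_lifts p).2 (Polynomial.map_surjective ψ hψ p)) hp
    refine ⟨q, hm, ?_⟩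
    rw [← hq, Polynomial.eval₂_map] at hc
    exact hc
  have : FaithfulSMul (MvPolynomial σ K) B := (faithfulSMul_iff_algebraMap_injective _ B).2 hinj
  obtain ⟨g, hg⟩ := con_abs hinj hint b (fun c => by
    obtain ⟨G₁, G₂, h1, h2⟩ := hbir c
    rw [hev] at h1
    rw [hev, hev] at h2
    exact ⟨_, _, h1, h2⟩) a
  have hz : Polynomial.aeval b (optionEquivLeft K σ H) = 0 := by
    rw [← hev]
    exact (hH.2.2.2 H).2 dvd_rfl
  obtain ⟨u, hu⟩ := minpoly.isIntegrallyClosed_dvd (hint b) hz
  refine ⟨(optionEquivLeft K σ).symm (u * g), ?_⟩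
  rw [hev, hev, AlgEquiv.apply_symm_apply, con_der, hu, Polynomial.derivative_mul, map_add,
    map_mul, map_mul, map_mul, minpoly.aeval, hg]
  ring

end Pool.Agent.MP_a9d3bd_y
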