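import Pool.Agent.MP_a9d3bd_y.St

/-! The multiplicities on a section. -/

namespace Pool.Agent.MP_a9d3bd_y

open MvPolynomial Pool.Agent.MP_a9d3bd_h Pool.Agent.MP_a9d3bd_q Pool.Agent.MP_a9d3bd_g

theorem dvc_res {K E : Type} [Field K] [Field E] [Algebra K E] (O : DV K E) {z : E} {a : K}
    (hz : z ∈ O.O) (h : MP_a9d3bd_yy.Near O.O z a) : O.res z = algebraMap K O.K a := by
  have h1 := (O.res_eq_zero_iff' (sub_mem hz (O.const a))).2 ((O.O.mem_nonunits_iff).2 h)
  rwa [O.res_sub hz (O.const a), O.res_algebraMap, sub_eq_zero] at h1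

theorem dvc_ak {K : Type} [Field K] {x y : Fin 3 → K} : ak K y = ak K x ↔ y = x := by
  refine ⟨fun h => funext fun k => ?_, fun h => by rw [h]⟩
  have h1 : (X k - C (x k) : MvPolynomial (Fin 3) K) ∈ (ak K x).asIdeal := by
    rw [mem_ak]; simp
  rw [← h, mem_ak] at h1
  simpa [sub_eq_zero] using h1

theorem sDvc (K : Type) [Field K] [IsAlgClosed K] (h1 : MP_a9d3bd_yy.SPl K)
    (h2 : MP_a9d3bd_yy.SDv K) (h3 : MP_a9d3bd_yy.SCtr K) : SDvc K := by
  intro A _ _ _ _ _ _ _ _ _ _ _ _ _ _ _ _ _ u ν ζ F G N hE hD _ hB hG hFG x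
  have hinj := IsFractionRing.injective A (FractionRing A)
  have hev : ∀ H : R3 K, aeval (fun k => algebraMap A (FractionRing A) (ζ k)) H =
      algebraMap A (FractionRing A) (aeval ζ H) := fun H =>
    (MvPolynomial.comp_aeval_apply (IsScalarTower.toAlgHom K A (FractionRing A)) (f := ζ) H).symm
  have hA : ∀ a : A, algebraMap A (FractionRing A) a ∈
      af K fun k => algebraMap A (FractionRing A) (ζ k) := fun a => by
    obtain ⟨G₁, G₂, e1, e2⟩ := hB a
    have e3 : algebraMap A (FractionRing A) (aeval ζ G₂) ≠ 0 := (map_ne_zero_iff _ hinj).2 e1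
    refine (mem_af_iff _ _).2 ⟨G₁, G₂, by rwa [hev], ?_⟩
    rw [hev, hev, e2, map_mul, mul_div_cancel_right₀ _ e3]
  have htop : (af K fun k => algebraMap A (FractionRing A) (ζ k)) = ⊤ := by
    rw [eq_top_iff]
    intro z _
    obtain ⟨a, b, -, rfl⟩ := IsFractionRing.div_surjective (A := A) z
    exact div_mem (hA a) (hA b)
  have p1 : ptd (ak K fun k => algebraMap A (FractionRing A) (ζ k)) = 1 := by
    rw [ptd_ak, htop, td_top, hE.td_eq]
  have p0 : ptd (ak K x) = 0 := by
    rw [ptd_ak]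
    exact Nat.le_zero.1 (tr_td_le (ff_self (k := K)).tr _)
  obtain ⟨s, hs, -, -, h4⟩ := bl_main (j := 0) hE (nda_of_top htop) (ak K x) p0
  have key : ∀ H : R3 K, algebraMap A (FractionRing A) (aeval ζ H) ≠ 0 →
      dvc H (ak K fun k => algebraMap A (FractionRing A) (ζ k)) (ak K x) =
        ∑ O ∈ s, (O.ord (algebraMap A (FractionRing A) (aeval ζ H)) : ℚ) := by
    intro H hH
    have h5 := h4 H (by rwa [hev])
    rw [htop, IntermediateField.finrank_top, Nat.cast_one, one_mul] at h5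
    rw [dvc, if_pos ⟨by rwa [mem_ak, hev], by rw [p1, p0]⟩, ← h5]
    refine Finset.sum_congr rfl fun O _ => ?_
    have h6 : af K (O.ra fun k => algebraMap A (FractionRing A) (ζ k)) = ⊤ := by
      rw [eq_top_iff]
      intro z _
      obtain ⟨f, hf, rfl⟩ := O.res_surj z
      obtain ⟨a, ha⟩ := (h3 _ hE O).1 f hf
      rw [dvc_res O hf ha]
      exact IntermediateField.algebraMap_mem _ a
    rw [h6, IntermediateField.finrank_top, Nat.cast_one, mul_one, hev]
  have hu : u ≠ 0 := hD.1
  have hG' : algebraMap A (FractionRing A) (aeval ζ G) ≠ 0 := (map_ne_zero_iff _ hinj).2 hG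
  have hF' : algebraMap A (FractionRing A) (aeval ζ F) ≠ 0 := by
    rw [hFG]
    exact mul_ne_zero (pow_ne_zero _ hu) hG'
  obtain ⟨ν₁, hD₁, -, -, last⟩ := h2 A hE u hu fun O hO => by
    have h5 := (hD.2 O.O O.const).1 hO
    refine (O.ord_eq_zero_iff u).2 ⟨(O.O.valuation_le_one_iff _).1 h5.le,
      (O.O.valuation_le_one_iff _).1 ?_⟩
    rw [map_inv₀, h5, inv_one]
  have hνν : ν = ν₁ := by
    ext β
    obtain ⟨O, hO⟩ := (h1 A hE).1 β
    have hn : ∀ a : A, O.O.valuation (algebraMap A (FractionRing A)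
        (a - algebraMap K A (β a))) < 1 := fun a => by
      rw [map_sub, ← IsScalarTower.algebraMap_apply]
      exact hO a
    have hk : RingHom.ker β ≠ ⊥ := by
      intro h0
      have h5 : ∀ a : A, algebraMap A (FractionRing A) a = algebraMap K _ (β a) := fun a => by
        have : a - algebraMap K A (β a) ∈ RingHom.ker β := by
          rw [RingHom.mem_ker]; simp
        rw [h0, Ideal.mem_bot, sub_eq_zero] at this
        rw [IsScalarTower.algebraMap_apply K A (FractionRing A), ← this]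
      refine O.ne_top (eq_top_iff.2 fun z _ => ?_)
      obtain ⟨a, b, -, rfl⟩ := IsFractionRing.div_surjective (A := A) z
      rw [h5, h5, ← map_div₀]
      exact O.const _
    obtain ⟨π, hπ, hπ2⟩ := Ideal.exists_mem_pow_notMem_pow_succ (RingHom.ker β) hk
      (RingHom.ker_ne_top β) 1
    rw [pow_one, RingHom.mem_ker] at hπ
    have e1 := (hD.2 O.O O.const).2 β hn π hπ hπ2
    have e2 := (hD₁.2 O.O O.const).2 β hn π hπ hπ2
    have hπ0 : π ≠ 0 := by
      rintro rfl
      exact hπ2 (zero_mem _)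
    have e3 := hn π
    rw [hπ, map_zero, sub_zero] at e3
    exact (zpow_right_inj₀ (zero_lt_iff.2 ((map_ne_zero _).2 ((map_ne_zero_iff _ hinj).2 hπ0)))
      e3.ne).1 (e1.symm.trans e2)
  have h7 := last (fun β => (fun k => β (ζ k)) = x) (fun O => O ∈ s) fun β O hO => by
    have hI : O.Int fun k => algebraMap A (FractionRing A) (ζ k) :=
      fun k => (h3 _ hE O).2.1 _ _ (hO (ζ k))
    have h5 : (O.ra fun k => algebraMap A (FractionRing A) (ζ k)) =
        fun k => Algebra.ofId K O.K (β (ζ k)) := funext fun k => dvc_res O (hI k) (hO (ζ k))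
    rw [hs, h5, ak_map, dvc_ak]
    exact ⟨fun h => ⟨hI, h⟩, fun h => h.2⟩
  rw [finsum_eq_sum_of_support_subset (s := s) _ fun O hO => by
    by_contra hc
    exact hO (if_neg hc)] at h7
  have h8 : (ν.sum fun β n => (open Classical in if (fun k => β (ζ k)) = x then (n : ℚ) else 0)) =
      ∑ O ∈ s, (O.ord u : ℚ) := by
    rw [hνν]
    refine Eq.trans (Finsupp.sum_congr fun β _ => ?_) (h7.trans
      (Finset.sum_congr rfl fun O hO => if_pos hO))
    by_cases h : (fun k => β (ζ k)) = x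
    · rw [if_pos h, if_pos h]
    · rw [if_neg h, if_neg h]
  rw [key F hF', key G hG', h8, ← Finset.sum_sub_distrib, Finset.mul_sum]
  refine Finset.sum_congr rfl fun O _ => ?_
  rw [hFG, O.ord_mul (pow_ne_zero _ hu) hG', O.ord_pow]
  push_cast
  ring

end Pool.Agent.MP_a9d3bd_y
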