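import Pool.Agent.MP_a9d3bd_y.St

namespace Pool.Agent.MP_a9d3bd_y

open MvPolynomial Pool.Agent.MP_a9d3bd_h Pool.Agent.MP_a9d3bd_q Pool.Agent.MP_a9d3bd_g

theorem eta_main (K : Type) [Field K] (A Ω : Type) [CommRing A] [Algebra K A] [Field Ω]
    [Algebra K Ω] (S : Set (A →ₐ[K] Ω)) (G : Finset A) (hK : Infinite K) (hS : S.Finite)
    (hG : Algebra.adjoin K (G : Set A) = ⊤) :
    ∃ η ∈ Submodule.span K (G : Set A), ∀ τ ∈ S, ∀ τ' ∈ S, τ η = τ' η → τ = τ' := by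
  classical
  let V : Submodule K A := Submodule.span K (G : Set A)
  let W : (A →ₐ[K] Ω) × (A →ₐ[K] Ω) → Subspace K V := fun x =>
    (LinearMap.eqLocus x.1.toLinearMap x.2.toLinearMap).comap V.subtype
  let T : Finset ((A →ₐ[K] Ω) × (A →ₐ[K] Ω)) :=
    (hS.toFinset ×ˢ hS.toFinset).filter fun x => x.1 ≠ x.2
  have hT : ⊤ ∉ T.image W := by
    intro h
    obtain ⟨x, hx, hW⟩ := Finset.mem_image.1 h
    apply (Finset.mem_filter.1 hx).2
    apply AlgHom.ext_of_adjoin_eq_top hG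
    intro a ha
    have h1 : (⟨a, Submodule.subset_span ha⟩ : V) ∈ W x := by
      rw [hW]
      exact Submodule.mem_top
    exact h1
  have hne := Subspace.biUnion_ne_univ_of_top_notMem hT
  obtain ⟨η, hη⟩ := (Set.ne_univ_iff_exists_notMem _).1 hne
  refine ⟨η.1, η.2, fun τ hτ τ' hτ' h => ?_⟩
  by_contra hn
  apply hη
  have hx : (τ, τ') ∈ T := Finset.mem_filter.2
    ⟨Finset.mem_product.2 ⟨hS.mem_toFinset.2 hτ, hS.mem_toFinset.2 hτ'⟩, hn⟩
  exact Set.mem_biUnion (Finset.mem_coe.2 (Finset.mem_image_of_mem W hx)) h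

theorem sEta (K : Type) [Field K] [IsAlgClosed K] : SEta K :=
  fun A Ω _ _ _ _ S G hK hS hG => eta_main K A Ω S G hK hS hG

end Pool.Agent.MP_a9d3bd_y
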