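import Pool.Agent.MP_a9d3bd_y.St

namespace Pool.Agent.MP_a9d3bd_y

open MvPolynomial Pool.Agent.MP_a9d3bd_h Pool.Agent.MP_a9d3bd_q Pool.Agent.MP_a9d3bd_g

theorem fib_root {K B Ω σ : Type} [Field K] [CommRing B] [Algebra K B] [Field Ω] [Algebra K Ω]
    (v : σ → B) (τ₀ τ : B →ₐ[K] Ω) (h : ∀ k, τ (v k) = τ₀ (v k))
    (a : Algebra.adjoin K (Set.range v)) : τ a = τ₀ a := by
  have hle : Algebra.adjoin K (Set.range v) ≤ AlgHom.equalizer τ τ₀ := by
    rw [Algebra.adjoin_le_iff]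
    rintro _ ⟨k, rfl⟩
    exact h k
  exact hle a.2

theorem sFib (K : Type) [Field K] [IsAlgClosed K] : SFib K := by
  intro B σ Ω _ _ _ _ v ω hB hI
  rcases Set.eq_empty_or_nonempty {τ : B →ₐ[K] Ω | ∀ k, τ (v k) = ω k} with he | ⟨τ₀, h₀⟩
  · rw [he]
    exact Set.finite_empty
  obtain ⟨s, hs⟩ := hB.out
  choose p hp hp0 using hI
  let f : Algebra.adjoin K (Set.range v) →+* Ω :=
    (τ₀ : B →+* Ω).comp (algebraMap (Algebra.adjoin K (Set.range v)) B)
  have hfin : (Set.univ.pi fun b : s => {x : Ω | ((p b).map f).IsRoot x}).Finite :=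
    Set.Finite.pi fun b => Polynomial.finite_setOfPred_isRoot ((hp b).map f).ne_zero
  refine Set.Finite.of_finite_image (f := fun τ (b : s) => τ b) (hfin.subset ?_) ?_
  · rintro _ ⟨τ, hτ, rfl⟩ b -
    have h1 : (τ : B →+* Ω).comp (algebraMap (Algebra.adjoin K (Set.range v)) B) = f :=
      RingHom.ext fun a => fib_root v τ₀ τ (fun k => (hτ k).trans (h₀ k).symm) a
    have h2 := congrArg (τ : B →+* Ω) (hp0 b)
    rw [Polynomial.hom_eval₂, h1, map_zero] at h2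
    rw [Set.mem_ofPred_eq, Polynomial.IsRoot.def, Polynomial.eval_map]
    exact h2
  · intro τ _ τ' _ h
    exact AlgHom.ext_of_adjoin_eq_top hs fun b hb => congrFun h ⟨b, hb⟩

end Pool.Agent.MP_a9d3bd_y
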