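import Pool.Agent.MP_a9d3bd_y.St

/-! The minimal equation. -/

namespace Pool.Agent.MP_a9d3bd_y

open MvPolynomial Pool.Agent.MP_a9d3bd_h Pool.Agent.MP_a9d3bd_q Pool.Agent.MP_a9d3bd_g

theorem min_top {K σ : Type} [Field K] (G : MvPolynomial (Option σ) K) (n : ℕ) :
    coeff 0 ((optionEquivLeft K σ G).coeff n) = coeff (Finsupp.single none n) G := by
  have h := optionEquivLeft_coeff_some_coeff_none K σ (Finsupp.single none n) G
  rw [Finsupp.some_single_none, Finsupp.single_eq_same] at h
  exact h

theorem min_le {K σ : Type} [Field K] (G : MvPolynomial (Option σ) K) :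
    (optionEquivLeft K σ G).natDegree ≤ G.totalDegree := by
  rw [natDegree_optionEquivLeft]
  exact degreeOf_le_totalDegree _ _

theorem min_coeff {K σ : Type} [Field K] (G : MvPolynomial (Option σ) K)
    (h : coeff (Finsupp.single none G.totalDegree) G = 1) :
    (optionEquivLeft K σ G).coeff G.totalDegree = 1 := by
  have h1 := totalDegree_coeff_optionEquivLeft_add_le K σ G G.totalDegree le_rfl
  have h2 : ((optionEquivLeft K σ G).coeff G.totalDegree).totalDegree = 0 := by omega
  rw [totalDegree_eq_zero_iff_eq_C] at h2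
  rw [h2, min_top, h, map_one]

theorem min_ev {K B σ : Type} [Field K] [CommRing B] [Algebra K B] (v : σ → B) (b : B)
    (G : MvPolynomial (Option σ) K) :
    aeval (oe b v) G = Polynomial.eval₂ (aeval v : MvPolynomial σ K →ₐ[K] B).toRingHom b
      (optionEquivLeft K σ G) := by
  induction G using MvPolynomial.induction_on with
  | C a => simp [optionEquivLeft_C]
  | add p q hp hq => rw [map_add, map_add, Polynomial.eval₂_add, hp, hq]
  | mul_X p o hp =>
    rw [map_mul, map_mul, Polynomial.eval₂_mul, hp]
    cases o with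
    | none => simp [oe, optionEquivLeft_X_none]
    | some k => simp [oe, optionEquivLeft_X_some]

theorem sMin (K : Type) [Field K] [IsAlgClosed K] : SMin K := by
  intro B σ _ _ _ _ v b hv hb
  obtain ⟨G, hG0, hG1⟩ := hb
  let _ : Algebra (MvPolynomial σ K) B := (aeval v : MvPolynomial σ K →ₐ[K] B).toRingHom.toAlgebra
  have hinj : Function.Injective (algebraMap (MvPolynomial σ K) B) := hv
  have _ : FaithfulSMul (MvPolynomial σ K) B :=
    (faithfulSMul_iff_algebraMap_injective _ _).2 hinj
  have hev : ∀ G' : MvPolynomial (Option σ) K,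
      aeval (oe b v) G' = Polynomial.aeval b (optionEquivLeft K σ G') := fun G' => min_ev v b G'
  have hc := min_coeff G hG1
  have hmon : (optionEquivLeft K σ G).Monic :=
    Polynomial.monic_of_natDegree_le_of_coeff_eq_one _ (min_le G) hc
  have hdeg : (optionEquivLeft K σ G).natDegree = G.totalDegree :=
    le_antisymm (min_le G) (Polynomial.le_natDegree_of_ne_zero (by rw [hc]; exact one_ne_zero))
  have hint : IsIntegral (MvPolynomial σ K) b :=
    ⟨_, hmon, by rw [← Polynomial.aeval_def, ← hev]; exact hG0⟩
  have hker : ∀ G' : MvPolynomial (Option σ) K, aeval (oe b v) G' = 0 ↔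
      (optionEquivLeft K σ).symm (minpoly (MvPolynomial σ K) b) ∣ G' := by
    intro G'
    rw [hev, minpoly.isIntegrallyClosed_dvd_iff hint,
      ← map_dvd_iff (optionEquivLeft K σ), AlgEquiv.apply_symm_apply]
  set H := (optionEquivLeft K σ).symm (minpoly (MvPolynomial σ K) b) with hH
  have hf : optionEquivLeft K σ H = minpoly (MvPolynomial σ K) b := AlgEquiv.apply_symm_apply _ _
  have hfm := minpoly.monic hint
  obtain ⟨Q, hQ⟩ := (hker G).1 hG0
  have hG : G ≠ 0 := by
    intro h
    rw [h, coeff_zero] at hG1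
    exact zero_ne_one hG1
  have hH0 : H ≠ 0 := fun h => hG (by rw [hQ, h, zero_mul])
  have hQ0 : Q ≠ 0 := fun h => hG (by rw [hQ, h, mul_zero])
  have h1 : G.totalDegree = H.totalDegree + Q.totalDegree := by
    rw [hQ, totalDegree_mul_of_isDomain hH0 hQ0]
  have h2 : (optionEquivLeft K σ G).natDegree =
      (optionEquivLeft K σ H).natDegree + (optionEquivLeft K σ Q).natDegree := by
    rw [hQ, map_mul, Polynomial.natDegree_mul ((map_ne_zero_iff _ (AlgEquiv.injective _)).2 hH0)
      ((map_ne_zero_iff _ (AlgEquiv.injective _)).2 hQ0)]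
  have h3 := min_le H
  have h4 := min_le Q
  have h5 : H.totalDegree = (minpoly (MvPolynomial σ K) b).natDegree := by
    rw [← hf]; omega
  refine ⟨H, ?_, ?_, ?_, hker⟩
  · exact (MulEquiv.irreducible_iff (optionEquivLeft K σ).symm).2 (minpoly.irreducible hint)
  · rw [← min_top, hf, h5, hfm.coeff_natDegree, coeff_zero_one]
  · rw [h5]; exact minpoly.natDegree_pos hint

end Pool.Agent.MP_a9d3bd_y
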