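import Pool.Agent.MP_a9d3bd_y.St
import Pool.Agent.MP_a9d3bd_g.ANF

namespace Pool.Agent.MP_a9d3bd_y

open MvPolynomial Pool.Agent.MP_a9d3bd_h Pool.Agent.MP_a9d3bd_q Pool.Agent.MP_a9d3bd_g
open Pool.Agent.MP_a9d3bd_yy (xA xL Dvs)

variable {K : Type} [Field K]

theorem pos_one {E : Type} [Field E] (V : ValuationSubring E) (u : E) :
    V.valuation u = 1 ↔ u ≠ 0 ∧ u ∈ V ∧ u⁻¹ ∈ V := by
  rw [← V.valuation_le_one_iff, ← V.valuation_le_one_iff, map_inv₀]
  constructor
  · intro h
    refine ⟨fun h0 => ?_, h.le, by rw [h, inv_one]⟩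
    rw [h0, map_zero] at h
    exact zero_ne_one h
  · rintro ⟨h0, h1, h2⟩
    exact le_antisymm h1 ((inv_le_one₀ (zero_lt_iff.2 ((map_ne_zero _).2 h0))).1 h2)

theorem pos_int {A L : Type} [CommRing A] [Algebra K A] [Algebra (Polynomial K) A]
    [IsScalarTower K (Polynomial K) A] [Module.Finite (Polynomial K) A] [Field L] [Algebra A L]
    [Algebra K L] [IsScalarTower K A L] (O : ValuationSubring L)
    (hc : ∀ c : K, algebraMap K L c ∈ O) (hx : algebraMap A L (xA K A) ∈ O) (a : A) :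
    algebraMap A L a ∈ O := by
  have h1 : ∀ p : Polynomial K, ((algebraMap A L).comp (algebraMap (Polynomial K) A)) p ∈
      O.toSubring := by
    intro p
    induction p using Polynomial.induction_on with
    | C c =>
      have := hc c
      rwa [IsScalarTower.algebraMap_apply K A L,
        IsScalarTower.algebraMap_apply K (Polynomial K) A] at this
    | add p q hp hq => rw [map_add]; exact add_mem hp hq
    | monomial n c h => rw [pow_succ, ← mul_assoc, map_mul]; exact mul_mem h hx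
  have h2 : IsIntegral O (algebraMap A L a) :=
    IsIntegral.map_of_comp_eq (T := O) (RingHom.codRestrict _ O.toSubring h1) (algebraMap A L) rfl
      (Algebra.IsIntegral.isIntegral (R := Polynomial K) a)
  obtain ⟨y, hy⟩ := IsIntegrallyClosed.isIntegral_iff.1 h2
  rw [← hy]
  exact y.2

theorem pos_lift [IsAlgClosed K] {A : Type} [CommRing A] [Algebra K A] {ζ : Fin 3 → A}
    (h : It K ζ) (x : Fin 3 → K) (hx : ∀ F : R3 K, aeval ζ F = 0 → eval x F = 0) :
    ∃ β : A →+* K, ∀ F : R3 K, β (aeval ζ F) = eval x F := by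
  have h1 : ∀ F : R3 K, aeval ζ F ∈ Algebra.adjoin K (Set.range ζ) := fun F => by
    rw [Algebra.adjoin_range_eq_range_aeval]; exact ⟨F, rfl⟩
  let φ : R3 K →+* Algebra.adjoin K (Set.range ζ) :=
    ((aeval ζ : R3 K →ₐ[K] A).codRestrict _ h1).toRingHom
  have h2 : Function.Surjective φ := by
    rintro ⟨y, hy⟩
    rw [Algebra.adjoin_range_eq_range_aeval] at hy
    obtain ⟨F, rfl⟩ := hy
    exact ⟨F, rfl⟩
  have h3 := RingHom.IsIntegral.trans φ (algebraMap _ A) (φ.isIntegral_of_surjective h2) h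
  let _ : Algebra (R3 K) A := ((algebraMap _ A).comp φ).toAlgebra
  have : Algebra.IsIntegral (R3 K) A := ⟨h3⟩
  exact NF_ext (A := R3 K) (B := A) (eval x) fun F hF => hx F hF

theorem sPos (K : Type) [Field K] [IsAlgClosed K] : SPos K := by
  intro A B J Ω _ _ _ _ _ _ _ _ _ _ _ _ _ _ u ν ζ H g N a b hFF hD hI hH hg hGp hab ha hb hb0
  have hinj := IsFractionRing.injective A (FractionRing A)
  have hev : ∀ F : R3 K, aeval (fun k => algebraMap A (FractionRing A) (ζ k)) F =
      algebraMap A (FractionRing A) (aeval ζ F) := fun F =>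
    MvPolynomial.aeval_algebraMap_apply (FractionRing A) ζ F
  have hmem : ∀ F : R3 K, F ∈ (ak K fun k => algebraMap A (FractionRing A) (ζ k)).asIdeal ↔
      aeval ζ F = 0 := fun F => by
    rw [← map_eq_zero_iff _ hinj, ← hev]; rfl
  have htop : af K (fun k => algebraMap A (FractionRing A) (ζ k)) = ⊤ := by
    have h1 : ∀ c : A, algebraMap A (FractionRing A) c ∈
        af K (fun k => algebraMap A (FractionRing A) (ζ k)) := fun c => by
      obtain ⟨f, hf⟩ := hg.con c
      have h2 : algebraMap A (FractionRing A) (aeval ζ (pderiv 1 g)) ≠ 0 :=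
        (map_ne_zero_iff _ hinj).2 hg.ne
      refine (mem_af_iff _ _).2 ⟨f, pderiv 1 g, by rwa [hev], ?_⟩
      rw [hev, hev, hf, map_mul, mul_div_cancel_left₀ _ h2]
    refine eq_top_iff.2 fun z _ => ?_
    obtain ⟨c, d, -, rfl⟩ := IsFractionRing.div_surjective (A := A) z
    exact div_mem (h1 c) (h1 d)
  have hF : ∀ c : A, aeval ζ (pderiv 1 g * pderiv 2 H) ∣ c - 1 → ∃ F : R3 K, aeval ζ F = c := by
    rintro c ⟨c₁, hc⟩
    obtain ⟨f, hf⟩ := hg.con c₁
    refine ⟨1 + pderiv 2 H * f, ?_⟩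
    rw [map_mul] at hc
    rw [map_add, map_one, map_mul, hf]
    linear_combination -hc
  obtain ⟨F, hFa⟩ := hF a ha
  obtain ⟨G, hGb⟩ := hF b hb
  have ha0 : a ≠ 0 := by
    rw [← map_ne_zero_iff _ hinj, hab]
    exact mul_ne_zero (pow_ne_zero _ hD.1) ((map_ne_zero_iff _ hinj).2 hb0)
  refine ⟨fun c => ?_, htop, F, G, hFa, hGb, (hmem H).2 hH, ?_, (hmem g).2 hg.on, hGp, ?_, ?_, ?_⟩
  · obtain ⟨f, hf⟩ := hg.con c
    exact ⟨f, pderiv 1 g, hg.ne, by rw [hf, mul_comm]⟩
  · rw [dim_eq, ptd_ak, htop, td_top, hFF.td_eq]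
  · rw [hmem, map_mul, hFa, hGb]
    exact mul_ne_zero ha0 hb0
  · intro V hc hi
    obtain ⟨i, hi⟩ := hi
    let e₀ := Ideal.ResidueField.lift
      (ak K fun k => algebraMap A (FractionRing A) (ζ k)).asIdeal
      (aeval (fun k => algebraMap A (FractionRing A) (ζ k)) : R3 K →ₐ[K] _).toRingHom le_rfl
      fun f hf => isUnit_iff_ne_zero.2 hf
    have he₀ : ∀ f : R3 K, e₀ (algebraMap _ _ f) = algebraMap A (FractionRing A) (aeval ζ f) :=
      fun f => (Ideal.ResidueField.lift_algebraMap _ _ _ _ f).trans (hev f)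
    have hs : Function.Surjective e₀ := fun z => by
      obtain ⟨f₁, f₂, -, rfl⟩ := (mem_af_iff _ z).1 (htop ▸ IntermediateField.mem_top)
      exact ⟨algebraMap _ _ f₁ / algebraMap _ _ f₂, by rw [map_div₀, he₀, he₀, hev, hev]⟩
    let e := (RingEquiv.ofBijective e₀ ⟨e₀.injective, hs⟩).symm
    have he : ∀ f : R3 K, e (algebraMap A (FractionRing A) (aeval ζ f)) = algebraMap _ _ f :=
      fun f => (RingEquiv.symm_apply_eq _).2 (he₀ f).symm
    have hc' : ∀ c : K, algebraMap K (FractionRing A) c ∈ V.comap e.toRingHom := fun c => by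
      have := hc c
      rw [← he, aeval_C, ← IsScalarTower.algebraMap_apply] at this
      exact this
    have hx : algebraMap A (FractionRing A) (xA K A) ∉ V.comap e.toRingHom := fun hx => by
      have := pos_int _ hc' hx (ζ i)
      rw [← he, aeval_X] at hi
      exact hi this
    obtain ⟨h0, h1, h2⟩ := (pos_one _ _).1 ((hD.2 _ hc').1 hx)
    have h3 : V.valuation (e u) = 1 :=
      (pos_one _ _).2 ⟨(map_ne_zero e).2 h0, h1, by rw [← map_inv₀]; exact h2⟩
    rw [← he, ← he, hFa, hGb, hab, map_mul, map_pow, map_mul, map_pow, h3, one_pow, one_mul]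
  · intro x hx h0 h1
    obtain ⟨β, hβ⟩ := pos_lift hI x fun f hf => by
      have := hx ((hmem f).2 hf)
      rwa [← coe_aeval_eq_eval]
    rw [← hβ] at h0 h1
    obtain ⟨a₁, ha⟩ := ha
    obtain ⟨b₁, hb⟩ := hb
    rw [map_mul, hFa, hGb, eq_add_of_sub_eq ha, eq_add_of_sub_eq hb] at h0
    simp only [map_mul β, map_add, h1, zero_mul, zero_add, map_one, mul_one] at h0
    exact one_ne_zero h0

end Pool.Agent.MP_a9d3bd_y
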