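import Pool.Agent.MP_a9d3bd_y.St

/-! The components of the surface over a ring. -/

namespace Pool.Agent.MP_a9d3bd_y

open MvPolynomial Pool.Agent.MP_a9d3bd_h Pool.Agent.MP_a9d3bd_q Pool.Agent.MP_a9d3bd_g
open Pool.Agent.MP_a9d3bd_yy (xA)

section
variable {K B B' : Type} [Field K] [CommRing B] [Algebra K B] [CommRing B'] [Algebra K B']

theorem cmp_ev (Q : R3 K) (x w : B) (ψ : B →ₐ[K] B') (θ : B') :
    (fE Q x w).eval₂ (ψ : B →+* B') θ = aeval ![ψ x, θ, ψ w] Q := by
  have h := comp_aeval_apply (f := ![Polynomial.C x, Polynomial.X, Polynomial.C w])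
    (Polynomial.eval₂AlgHom ψ θ fun _ => Commute.all _ _) Q
  refine h.trans ?_
  congr 2
  funext i
  fin_cases i
  · exact Polynomial.eval₂_C _ _
  · exact Polynomial.eval₂_X _ _
  · exact Polynomial.eval₂_C _ _

theorem cmp_der (Q : R3 K) (x w : B) :
    Polynomial.derivative (fE Q x w) = fE (pderiv 1 Q) x w := by
  unfold fE
  induction Q using MvPolynomial.induction_on with
  | C a => simp [Polynomial.algebraMap_apply]
  | add p q hp hq => simp only [map_add, hp, hq]
  | mul_X p i hp =>
    rw [map_mul, Polynomial.derivative_mul, hp, Derivation.leibniz, smul_eq_mul, smul_eq_mul,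
      map_add, map_mul, map_mul, aeval_X, add_comm, mul_comm (aeval _ (pderiv 1 p))]
    congr 2
    fin_cases i <;> simp [pderiv_X]

theorem cmp_coeff (P : R3 K) (x w : B) (n : ℕ) (hn : P.totalDegree ≤ n) :
    (fE P x w).coeff n = algebraMap K B (coeff (Finsupp.single 1 n) P) := by
  classical
  have h : ∀ (m : Fin 3 →₀ ℕ) (c : K), (m.sum fun _ e => e) ≤ n →
      (fE (monomial m c) x w).coeff n =
        algebraMap K B (coeff (Finsupp.single 1 n) (monomial m c)) := by
    intro m c hm
    rw [Finsupp.sum_fintype _ _ (by simp), Fin.sum_univ_three] at hm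
    have e : fE (monomial m c) x w =
        Polynomial.C (algebraMap K B c * x ^ m 0 * w ^ m 2) * Polynomial.X ^ m 1 := by
      rw [fE, aeval_monomial, Finsupp.prod_fintype _ _ (by simp), Fin.prod_univ_three]
      simp only [Polynomial.algebraMap_apply, map_mul, map_pow, Matrix.cons_val_zero,
        Matrix.cons_val_one, Matrix.cons_val]
      ring
    rw [e, Polynomial.coeff_C_mul_X_pow, coeff_monomial]
    by_cases h1 : n = m 1
    · have h0 : m 0 = 0 := by omega
      have h2 : m 2 = 0 := by omega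
      have : m = Finsupp.single 1 n := by
        ext i
        fin_cases i <;> simp [h0, h2, ← h1]
      rw [if_pos h1, if_pos this, h0, h2]
      simp
    · rw [if_neg h1, if_neg fun k => h1 (by simp [k]), map_zero]
  have e1 : fE P x w = ∑ m ∈ P.support, fE (monomial m (coeff m P)) x w := by
    conv_lhs => rw [P.as_sum]
    simp only [fE, map_sum]
  have e2 : coeff (Finsupp.single 1 n) P =
      ∑ m ∈ P.support, coeff (Finsupp.single 1 n) (monomial m (coeff m P)) := by
    rw [← coeff_sum, ← P.as_sum]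
  rw [e1, e2, Polynomial.finsetSum_coeff, map_sum]
  exact Finset.sum_congr rfl fun m hm => h m _ ((le_totalDegree hm).trans hn)

theorem cmp_monic (P : R3 K) (hP : Top P) (x w : B) : ∃ c : K, c ≠ 0 ∧
    (Polynomial.C (algebraMap K B c) * fE P x w).Monic := by
  refine ⟨_, inv_ne_zero hP.2,
    Polynomial.monic_of_natDegree_le_of_coeff_eq_one P.totalDegree ?_ ?_⟩
  · refine Polynomial.natDegree_le_iff_coeff_eq_zero.2 fun n hn => ?_
    rw [Polynomial.coeff_C_mul, cmp_coeff P x w n hn.le,
      coeff_eq_zero_of_totalDegree_lt (d := Finsupp.single 1 n), map_zero, mul_zero]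
    rw [Finsupp.support_single _ (by omega), Finset.sum_singleton, Finsupp.single_eq_same]
    exact hn
  · rw [Polynomial.coeff_C_mul, cmp_coeff P x w _ le_rfl, ← map_mul, inv_mul_cancel₀ hP.2,
      map_one]

end

theorem cmp_prime {R : Type} [CommRing R] [IsDomain R] [IsIntegrallyClosed R] {q : Polynomial R}
    (hq : q.Monic) (hi : Irreducible q) : Prime q := by
  have h := ((hq.irreducible_iff_irreducible_map_fraction_map (K := FractionRing R)).1 hi).prime
  have hf := IsFractionRing.injective R (FractionRing R)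
  refine ⟨hi.ne_zero, hi.not_isUnit, fun a b hab => ?_⟩
  rw [← Polynomial.map_dvd_map _ hf hq, Polynomial.map_mul] at hab
  exact (h.dvd_or_dvd hab).imp (Polynomial.map_dvd_map _ hf hq).1
    (Polynomial.map_dvd_map _ hf hq).1

theorem cmp_fac {R S : Type} [CommRing R] [IsDomain R] [CommRing S] [IsDomain S] (ψ : R →+* S)
    (θ : S) (n : ℕ) : ∀ p : Polynomial R, p.natDegree < n → p.Monic → p.eval₂ ψ θ = 0 →
      ∃ q : Polynomial R, q.Monic ∧ q ∣ p ∧ Irreducible q ∧ q.eval₂ ψ θ = 0 := by
  induction n with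
  | zero => exact fun p h => absurd h (Nat.not_lt_zero _)
  | succ n ih =>
    intro p hn hp h0
    by_cases hi : Irreducible p
    · exact ⟨p, hp, dvd_rfl, hi, h0⟩
    have h1 : p ≠ 1 := by
      rintro rfl
      simp at h0
    rw [hp.irreducible_iff_natDegree] at hi
    push Not at hi
    obtain ⟨f, g, hf, hg, rfl, f0, g0⟩ := hi h1
    rw [hf.natDegree_mul hg] at hn
    rw [Polynomial.eval₂_mul, mul_eq_zero] at h0
    rcases h0 with h0 | h0
    · obtain ⟨q, a, b, c⟩ := ih f (by omega) hf h0
      exact ⟨q, a, b.mul_right _, c⟩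
    · obtain ⟨q, a, b, c⟩ := ih g (by omega) hg h0
      exact ⟨q, a, b.mul_left _, c⟩

theorem sCmp (K : Type) [Field K] [IsAlgClosed K] : SCmp K := by
  intro A _ _ _ _ P hP
  obtain ⟨c, hc, hp⟩ := cmp_monic P hP (Polynomial.C (xA K A)) (Polynomial.X : Polynomial A)
  set p0 := fE P (Polynomial.C (xA K A)) (Polynomial.X : Polynomial A) with hp0
  have hu : IsUnit (Polynomial.C (algebraMap K (Polynomial A) c)) :=
    ((Ne.isUnit hc).map _).map _
  let I : Type := {q : Polynomial (Polynomial A) // q.Monic ∧ q ∣ p0 ∧ Irreducible q}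
  have hpr : ∀ k : I, Prime k.1 := fun k => cmp_prime k.2.1 k.2.2.2
  refine ⟨I, fun k => AdjoinRoot k.1, fun _ => inferInstance,
    fun k => AdjoinRoot.isDomain_of_prime (hpr k), fun _ => inferInstance,
    fun k => (AdjoinRoot.ofAlgHom K k.1).comp Polynomial.CAlgHom,
    fun k => AdjoinRoot.of k.1 Polynomial.X, fun k => AdjoinRoot.root k.1,
    fun k => ⟨?_, ?_, fun f hf => ?_⟩, fun t w h => ?_, fun k k' ξ ξ' h1 h2 h3 h4 => ?_⟩
  · exact (cmp_ev P (Polynomial.C (xA K A)) Polynomial.X (AdjoinRoot.ofAlgHom K k.1) _).symm.trans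
      (Polynomial.eval₂_eq_zero_of_dvd_of_eval₂_eq_zero _ _ k.2.2.1 (AdjoinRoot.eval₂_root k.1))
  · refine Algebra.eq_top_iff.2 fun b => ?_
    have hof : ∀ g : Polynomial A, AdjoinRoot.of k.1 g ∈ Algebra.adjoin K
        (Set.range ((AdjoinRoot.ofAlgHom K k.1).comp Polynomial.CAlgHom) ∪
          {AdjoinRoot.of k.1 Polynomial.X, AdjoinRoot.root k.1}) := by
      intro g
      induction g using Polynomial.induction_on' with
      | add p q hp hq => rw [map_add]; exact add_mem hp hq
      | monomial n a =>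
        rw [← Polynomial.C_mul_X_pow_eq_monomial, map_mul, map_pow]
        refine mul_mem (Algebra.subset_adjoin (Or.inl ⟨a, rfl⟩)) (pow_mem ?_ n)
        exact Algebra.subset_adjoin (Or.inr (Or.inl rfl))
    induction b using AdjoinRoot.induction_on with
    | ih f =>
      induction f using Polynomial.induction_on' with
      | add p q hp hq => rw [map_add]; exact add_mem hp hq
      | monomial n a =>
        rw [← Polynomial.C_mul_X_pow_eq_monomial, map_mul, map_pow]
        refine mul_mem (hof a) (pow_mem ?_ n)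
        exact Algebra.subset_adjoin (Or.inr (Or.inr rfl))
  · refine AdjoinRoot.of.injective_of_degree_ne_zero (f := k.1)
      (fun e => k.2.2.2.not_isUnit ?_) ?_
    · rw [k.2.1.degree_le_zero_iff_eq_one.1 e.le]
      exact isUnit_one
    · rw [map_zero, ← hf]
      conv_lhs => rw [← Polynomial.eval₂_C_X (p := f), Polynomial.hom_eval₂]
      rfl
  · let ψ : Polynomial A →ₐ[K] A := (Polynomial.aeval w).restrictScalars K
    have hC : ∀ a, ψ (Polynomial.C a) = a := fun a => Polynomial.aeval_C w a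
    have hX : ψ Polynomial.X = w := Polynomial.aeval_X w
    obtain ⟨q, a, b, d, e⟩ := cmp_fac (ψ : Polynomial A →+* A) t _ _ (Nat.lt_succ_self _) hp (by
      rw [Polynomial.eval₂_mul, hp0, cmp_ev, hC, hX, h, mul_zero])
    refine ⟨⟨q, a, (hu.dvd_mul_left).1 b, d⟩, AdjoinRoot.liftAlgHom q ψ t e, fun z => ?_, ?_, ?_⟩
    · exact (AdjoinRoot.liftAlgHom_of q ψ t e _).trans (hC z)
    · exact AdjoinRoot.liftAlgHom_root q ψ t e
    · exact (AdjoinRoot.liftAlgHom_of q ψ t e _).trans hX
  · by_contra hne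
    apply h4
    let ψ : Polynomial A →ₐ[K] K := ξ.comp (AdjoinRoot.ofAlgHom K k.1)
    let ψ' : Polynomial A →ₐ[K] K := ξ'.comp (AdjoinRoot.ofAlgHom K k'.1)
    have hψ : (ψ : Polynomial A →+* K) = ψ' :=
      Polynomial.ringHom_ext (fun a => DFunLike.congr_fun h1 a) h3
    have z1 : k.1.eval₂ (ψ : Polynomial A →+* K) (ξ (AdjoinRoot.root k.1)) = 0 := by
      have := congrArg ξ (AdjoinRoot.eval₂_root k.1)
      rw [map_zero] at this
      exact (Polynomial.hom_eval₂ k.1 _ (ξ : AdjoinRoot k.1 →+* K) _).symm.trans this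
    have z2 : k'.1.eval₂ (ψ : Polynomial A →+* K) (ξ (AdjoinRoot.root k.1)) = 0 := by
      have := congrArg ξ' (AdjoinRoot.eval₂_root k'.1)
      rw [map_zero] at this
      rw [hψ, h2]
      exact (Polynomial.hom_eval₂ k'.1 _ (ξ' : AdjoinRoot k'.1 →+* K) _).symm.trans this
    obtain ⟨r, hr⟩ := k.2.2.1
    have hd : k'.1 ∣ r := by
      refine ((hpr k').dvd_or_dvd (k'.2.2.1.trans hr.dvd)).resolve_left fun hd => hne (Subtype.ext ?_)
      exact (Polynomial.eq_of_monic_of_associated k'.2.1 k.2.1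
        (k'.2.2.2.associated_of_dvd k.2.2.2 hd)).symm
    obtain ⟨s, rfl⟩ := hd
    have := cmp_ev (pderiv 1 P) (Polynomial.C (xA K A)) Polynomial.X ψ (ξ (AdjoinRoot.root k.1))
    rw [← cmp_der, ← hp0, congrArg Polynomial.derivative hr] at this
    simp only [Polynomial.derivative_mul, Polynomial.eval₂_add, Polynomial.eval₂_mul, z1, z2,
      zero_mul, mul_zero, add_zero] at this
    rw [← coe_aeval_eq_eval]
    exact this.symm

end Pool.Agent.MP_a9d3bd_y
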