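import Pool.Agent.MP_a9d3bd_y.TSt
import Pool.Agent.MP_a9d3bd_y.Cmp

/-! The components of a finite cover of the affine line over a ring. -/

namespace Pool.Agent.MP_a9d3bd_y

open MvPolynomial Pool.Agent.MP_a9d3bd_h Pool.Agent.MP_a9d3bd_q Pool.Agent.MP_a9d3bd_g

theorem tcmp_ev {K A : Type} [Field K] [CommRing A] [Algebra K A] (q : Polynomial (Polynomial A)) :
    ev ((AdjoinRoot.ofAlgHom K q).comp Polynomial.CAlgHom) (AdjoinRoot.of q Polynomial.X)
      (AdjoinRoot.root q) = AdjoinRoot.mk q := by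
  refine Polynomial.ringHom_ext' (Polynomial.ringHom_ext (fun a => ?_) ?_) ?_
  · exact (Polynomial.eval₂_C _ _).trans (Polynomial.eval₂_C _ _)
  · exact (Polynomial.eval₂_C _ _).trans (Polynomial.eval₂_X _ _)
  · exact Polynomial.eval₂_X _ _

theorem tCmp (K : Type) [Field K] [IsAlgClosed K] : TCmp K := by
  intro A _ _ _ P hp
  let I : Type := {q : Polynomial (Polynomial A) // q.Monic ∧ q ∣ P ∧ Irreducible q}
  have hpr : ∀ k : I, Prime k.1 := fun k => cmp_prime k.2.1 k.2.2.2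
  refine ⟨I, fun k => AdjoinRoot k.1, fun _ => inferInstance,
    fun k => AdjoinRoot.isDomain_of_prime (hpr k), fun _ => inferInstance,
    fun k => (AdjoinRoot.ofAlgHom K k.1).comp Polynomial.CAlgHom,
    fun k => AdjoinRoot.of k.1 Polynomial.X, fun k => AdjoinRoot.root k.1,
    fun k => ⟨?_, ?_, fun f hf => ?_⟩, fun t w h => ?_, fun k k' ξ ξ' h1 h3 h2 h4 => ?_⟩
  · exact (DFunLike.congr_fun (tcmp_ev (K := K) k.1) P).trans (AdjoinRoot.mk_eq_zero.2 k.2.2.1)
  · intro b
    obtain ⟨f, rfl⟩ := AdjoinRoot.mk_surjective b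
    exact ⟨f, DFunLike.congr_fun (tcmp_ev (K := K) k.1) f⟩
  · refine AdjoinRoot.of.injective_of_degree_ne_zero (f := k.1)
      (fun e => k.2.2.2.not_isUnit ?_) ?_
    · rw [k.2.1.degree_le_zero_iff_eq_one.1 e.le]
      exact isUnit_one
    · rw [map_zero, ← hf]
      conv_lhs => rw [← Polynomial.eval₂_C_X (p := f), Polynomial.hom_eval₂]
      rfl
  · let ψ : Polynomial A →ₐ[K] A := (Polynomial.aeval t).restrictScalars K
    have hC : ∀ a, ψ (Polynomial.C a) = a := fun a => Polynomial.aeval_C t a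
    have hX : ψ Polynomial.X = t := Polynomial.aeval_X t
    have hψ : (ψ : Polynomial A →+* A) = Polynomial.evalRingHom t :=
      Polynomial.ringHom_ext (fun a => (hC a).trans Polynomial.eval_C.symm)
        (hX.trans Polynomial.eval_X.symm)
    obtain ⟨q, a, b, d, e⟩ := cmp_fac (ψ : Polynomial A →+* A) w _ _ (Nat.lt_succ_self _) hp
      (by rw [hψ, Polynomial.eval₂_evalRingHom, h])
    refine ⟨⟨q, a, b, d⟩, AdjoinRoot.liftAlgHom q ψ w e, fun z => ?_, ?_, ?_⟩
    · exact (AdjoinRoot.liftAlgHom_of q ψ w e _).trans (hC z)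
    · exact (AdjoinRoot.liftAlgHom_of q ψ w e _).trans hX
    · exact AdjoinRoot.liftAlgHom_root q ψ w e
  · by_contra hne
    apply h4
    have e : ∀ f, ξ (AdjoinRoot.mk k.1 f) = ξ' (AdjoinRoot.mk k'.1 f) := fun f =>
      DFunLike.congr_fun (f := (ξ : AdjoinRoot k.1 →+* K).comp (AdjoinRoot.mk k.1))
        (g := (ξ' : AdjoinRoot k'.1 →+* K).comp (AdjoinRoot.mk k'.1))
        (Polynomial.ringHom_ext'
          (Polynomial.ringHom_ext (fun a => DFunLike.congr_fun h1 a) h3) h2) f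
    have z1 : ξ (AdjoinRoot.mk k.1 k.1) = 0 := by rw [AdjoinRoot.mk_self, map_zero]
    have z2 : ξ (AdjoinRoot.mk k.1 k'.1) = 0 := by rw [e, AdjoinRoot.mk_self, map_zero]
    obtain ⟨r, hr⟩ := k.2.2.1
    have hd : k'.1 ∣ r := by
      refine ((hpr k').dvd_or_dvd (k'.2.2.1.trans hr.dvd)).resolve_left fun hd =>
        hne (Subtype.ext ?_)
      exact (Polynomial.eq_of_monic_of_associated k'.2.1 k.2.1
        (k'.2.2.2.associated_of_dvd k.2.2.2 hd)).symm
    obtain ⟨s, rfl⟩ := hd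
    refine (congrArg ξ (DFunLike.congr_fun (tcmp_ev (K := K) k.1) _)).trans ?_
    rw [congrArg Polynomial.derivative hr]
    simp only [Polynomial.derivative_mul, map_add, map_mul, z1, z2, zero_mul, mul_zero, add_zero]

end Pool.Agent.MP_a9d3bd_y
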