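import Pool.Agent.MP_a9d3bd_y.TSt
import Pool.Agent.MP_a9d3bd_g.CDimW

/-! The function field of a component; from the components to all sections. -/

namespace Pool.Agent.MP_a9d3bd_y

open MvPolynomial Pool.Agent.MP_a9d3bd_h Pool.Agent.MP_a9d3bd_q Pool.Agent.MP_a9d3bd_g

theorem tFf (K : Type) [Field K] [IsAlgClosed K] : TFf K := by
  intro B _ _ _ z H W srf hW hcon hne
  obtain ⟨j, hj⟩ : ∃ j : B →ₐ[K] FractionRing B, ∀ b, algebraMap B (FractionRing B) b = j b :=
    ⟨IsScalarTower.toAlgHom K B _, fun _ => rfl⟩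
  have inj : Function.Injective j := fun a b e =>
    IsFractionRing.injective B (FractionRing B) (by rw [hj, hj, e])
  have fr : ∀ w : FractionRing B, ∃ a b, w = j a / j b := fun w => by
    obtain ⟨a, b, -, e⟩ := IsFractionRing.div_surjective (A := B) w
    exact ⟨a, b, by rw [← e, hj, hj]⟩
  simp only [hj]
  have top : af K (fun k => j (z k)) = ⊤ := by
    have m : ∀ b, j b ∈ af K fun k => j (z k) := fun b => by
      obtain ⟨f, e⟩ := hcon b
      refine (mem_af_iff _ _).2 ⟨f, pderiv 2 H, ?_, ?_⟩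
      · rw [← comp_aeval_apply]
        exact (map_ne_zero_iff j inj).2 hne
      · rw [← comp_aeval_apply, ← comp_aeval_apply, e, map_mul,
          mul_div_cancel_left₀ _ ((map_ne_zero_iff j inj).2 hne)]
    refine eq_top_iff.2 fun w _ => ?_
    obtain ⟨a, b, rfl⟩ := fr w
    exact div_mem (m a) (m b)
  have ker : ak K (fun k => j (z k)) = W := by
    ext G
    rw [mem_ak, ← comp_aeval_apply, map_eq_zero_iff j inj, hW]
  refine ⟨?_, top, ker⟩
  have f0 := ff_of_gens top
  have e := dimW srf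
  rw [← ker, ptd_ak, top, td_top] at e
  rwa [e] at f0

theorem tff_ev {K A B : Type} [Field K] [CommRing A] [Algebra K A] [CommRing B] [Algebra K B]
    (i : A →ₐ[K] B) (T Θ : B) (φ : B →ₐ[K] A) (h : ∀ a, φ (i a) = a)
    (G : Polynomial (Polynomial A)) : φ (ev i T Θ G) = G.evalEval (φ T) (φ Θ) := by
  have e : (φ : B →+* A).comp (ev i T Θ) = Polynomial.evalEvalRingHom (φ T) (φ Θ) := by
    refine Polynomial.ringHom_ext' (Polynomial.ringHom_ext' (RingHom.ext fun a => ?_) ?_) ?_
    · simp [ev, h]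
    · simp [ev]
    · simp [ev]
  exact RingHom.congr_fun e G

theorem tAll {K ι : Type} [Field K] [IsAlgClosed K] (S : Set (MvPolynomial ι K))
    (L : MP_a9d3bd_x.LF K ι) (h1 : TCmp K) (h2 : TOne S L) : CoreT S L := by
  intro A _ _ _ _ _ _ _ hsr hF P Y N hm hG J _ t w u ν r hon hD hadm hsep hY hcl
  classical
  obtain ⟨C, B, _, _, _, i, T, Θ, s1, s2, s3⟩ := h1 A P hm
  choose k φ p1 p2 p3 using fun j => s2 (t j) (w j) (hon j)
  rw [← Finset.sum_fiberwise_of_maps_to (s := Finset.univ) (t := Finset.univ.image k) (g := k)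
    fun j hj => Finset.mem_image_of_mem k hj]
  refine Finset.sum_eq_zero fun c hc => ?_
  rw [Finset.sum_subtype (p := fun j => k j = c) _ (by simp)]
  have tr : ∀ j : {j // k j = c}, ∃ ψ : B c →ₐ[K] A,
      (∀ a, ψ (i c a) = a) ∧ ψ (T c) = t j ∧ ψ (Θ c) = w j := by
    rintro ⟨j, rfl⟩
    exact ⟨φ j, p1 j, p2 j, p3 j⟩
  choose ψ q1 q2 q3 using tr
  have key := h2 A (B c) {j // k j = c} P Y N (i c) (T c) (Θ c) ψ (fun j => u j)
    (fun j => ν j) (fun j => r j) hG ⟨hm, hsr, hF, s1 c, q1, fun j => by rw [q2]; exact hadm j,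
      fun j => by rw [q2, q3]; exact hsep j⟩ (fun j => hD j)
    (fun j => by rw [q2, q3]; exact hY j)
    fun β t0 w0 => by
      simp only [q2, q3]
      by_cases hx : ∃ j : {j // k j = c}, (β (t j) = t0 ∧ β (w j) = w0) ∧ ν j β ≠ 0
      · obtain ⟨j0, ⟨a1, a2⟩, a3⟩ := hx
        refine Eq.trans ?_ (hcl β t0 w0)
        rw [← Finset.sum_filter_of_ne (s := Finset.univ) (p := fun j => k j = c) fun j _ hj => ?_,
          Finset.sum_subtype (p := fun j => k j = c) _ (by simp)]
        have b : β (t j) = t0 ∧ β (w j) = w0 := by_contra fun h => hj (if_neg h)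
        refine ((s3 (k j0) (k j) (β.comp (φ j0)) (β.comp (φ j)) (AlgHom.ext fun a => ?_) ?_ ?_
          ?_).symm).trans j0.2
        · simp only [AlgHom.comp_apply, p1]
        · simp only [AlgHom.comp_apply, p2, a1, b.1]
        · simp only [AlgHom.comp_apply, p3, a2, b.2]
        · rw [AlgHom.comp_apply, tff_ev _ _ _ _ (p1 j0), p2, p3]
          exact hsep j0 β (Finsupp.mem_support_iff.2 a3)
      · refine Finset.sum_eq_zero fun j _ => ?_
        split_ifs with h
        · rw [not_not.1 fun h' => hx ⟨j, h, h'⟩, Int.cast_zero, mul_zero]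
        · rfl
  simp only [q2, q3] at key
  exact key

end Pool.Agent.MP_a9d3bd_y
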