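import Pool.Agent.MP_a9d3bd_y.TSt

/-! Zeros of a function on a curve; a separating additive polynomial. -/

namespace Pool.Agent.MP_a9d3bd_y

open MvPolynomial Pool.Agent.MP_a9d3bd_h Pool.Agent.MP_a9d3bd_q Pool.Agent.MP_a9d3bd_g

theorem tFin (K : Type) [Field K] [IsAlgClosed K] : TFin K := by
  intro A _ _ _ a ha
  have hI : Ideal.span {a} ≠ (⊥ : Ideal A) := by
    rwa [Ne, Ideal.span_singleton_eq_bot]
  have hf := Ideal.finite_factors hI
  have hf2 : ((fun v : IsDedekindDomain.HeightOneSpectrum A => v.asIdeal) ''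
      {v | v.asIdeal ∣ Ideal.span {a}}).Finite := hf.image _
  refine Set.Finite.of_finite_image (f := fun β : A →ₐ[K] K => RingHom.ker β) (hf2.subset ?_) ?_
  · rintro _ ⟨β, hβ, rfl⟩
    have hm : a ∈ RingHom.ker β := hβ
    refine ⟨⟨RingHom.ker β, RingHom.ker_isPrime β, fun e => ha ?_⟩, ?_, rfl⟩
    · rw [e] at hm
      exact hm
    · exact Ideal.dvd_iff_le.2 ((Ideal.span_singleton_le_iff_mem _).2 hm)
  · intro β _ β' _ e
    ext x
    have h1 : x - algebraMap K A (β x) ∈ RingHom.ker β := by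
      rw [RingHom.mem_ker, map_sub, AlgHom.commutes]
      exact sub_self _
    have e' : RingHom.ker β = RingHom.ker β' := e
    rw [e', RingHom.mem_ker, map_sub, AlgHom.commutes, sub_eq_zero] at h1
    exact h1.symm

theorem tfin_avoid {K α : Type} [Field K] [Infinite K] (Y : Set α) (hY : Y.Finite)
    (u v : α → α → K) : ∃ c : K, c ≠ 0 ∧ ∀ p ∈ Y, ∀ q ∈ Y, u p q + c * v p q = 0 → v p q = 0 := by
  have hf : (insert (0 : K) ((fun z : α × α => -u z.1 z.2 / v z.1 z.2) '' (Y ×ˢ Y))).Finite :=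
    ((hY.prod hY).image _).insert 0
  obtain ⟨c, hc⟩ := hf.exists_notMem
  refine ⟨c, fun e => hc (e ▸ Set.mem_insert _ _), fun p hp q hq h => ?_⟩
  by_contra hv
  refine hc (Set.mem_insert_of_mem _ ⟨(p, q), ⟨hp, hq⟩, ?_⟩)
  show -u p q / v p q = c
  rw [div_eq_iff hv]
  linear_combination -h

theorem tAv (K : Type) [Field K] [IsAlgClosed K] : TAv K := by
  intro Y M hY
  obtain ⟨a, ha, h1⟩ := tfin_avoid Y hY (fun p q => p.1 ^ M - q.1 ^ M) (fun p q => p.1 - q.1)
  obtain ⟨c, -, h2⟩ := tfin_avoid Y hY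
    (fun p q => p.1 ^ M - q.1 ^ M + a * (p.1 - q.1)) (fun p q => p.2 - q.2)
  refine ⟨a, c, ha, fun p hp q hq h => ?_⟩
  have e2 : p.2 - q.2 = 0 := h2 p hp q hq (by linear_combination h)
  have e1 : p.1 - q.1 = 0 := h1 p hp q hq (by linear_combination h - c * e2)
  exact Prod.ext (sub_eq_zero.1 e1) (sub_eq_zero.1 e2)

end Pool.Agent.MP_a9d3bd_y
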