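import Pool.Agent.MP_a9d3bd_y.St

/-! The plane equation of a section. -/

namespace Pool.Agent.MP_a9d3bd_y

open MvPolynomial Pool.Agent.MP_a9d3bd_h Pool.Agent.MP_a9d3bd_q Pool.Agent.MP_a9d3bd_g

/-- The embedding of the two variables. -/
def gj_r : Option (Fin 1) → Fin 3 := fun o => o.elim 1 fun _ => 0

theorem gj_left : (![some 0, none, none] : Fin 3 → Option (Fin 1)) ∘ gj_r = id := by
  funext o
  cases o with
  | none => rfl
  | some k => obtain rfl : k = 0 := Subsingleton.elim _ _; rfl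

theorem gj_inj : Function.Injective gj_r :=
  Function.LeftInverse.injective (g := (![some 0, none, none] : Fin 3 → Option (Fin 1)))
    fun o => congrFun gj_left o

theorem gj_ev {K B : Type} [Field K] [CommRing B] [Algebra K B] (a : Fin 3 → B)
    (G : MvPolynomial (Option (Fin 1)) K) :
    aeval a (rename gj_r G) = aeval (oe (a 1) ![a 0]) G := by
  rw [aeval_rename]
  have : a ∘ gj_r = oe (a 1) ![a 0] := by
    funext o
    cases o with
    | none => rfl
    | some k => obtain rfl : k = 0 := Subsingleton.elim _ _; rfl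
  rw [this]

theorem gj_ev2 {K B : Type} [Field K] [CommRing B] [Algebra K B] (s b : B)
    (G : MvPolynomial (Fin 2) K) :
    aeval (oe b ![s]) (rename (![some 0, none] : Fin 2 → Option (Fin 1)) G) = aeval ![s, b] G := by
  rw [aeval_rename]
  have : oe b ![s] ∘ (![some 0, none] : Fin 2 → Option (Fin 1)) = ![s, b] := by
    funext o
    fin_cases o <;> rfl
  rw [this]

theorem gj_deg {K : Type} [Field K] (G : MvPolynomial (Option (Fin 1)) K) :
    (rename gj_r G).totalDegree = G.totalDegree := by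
  refine le_antisymm (totalDegree_rename_le _ _) ?_
  have h := totalDegree_rename_le (![some 0, none, none] : Fin 3 → Option (Fin 1)) (rename gj_r G)
  rwa [rename_rename, gj_left, rename_id, AlgHom.id_apply] at h

theorem gj_d2 {K : Type} [Field K] (G : MvPolynomial (Option (Fin 1)) K) :
    (rename gj_r G).degreeOf 2 = 0 := by
  classical
  rw [degreeOf_def, Multiset.count_eq_zero]
  intro h
  obtain ⟨o, _, ho⟩ := Multiset.mem_map.1 (degrees_rename gj_r G h)
  cases o with
  | none => exact absurd ho (by decide)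
  | some k => exact absurd (show (0 : Fin 3) = 2 from ho) (by decide)

theorem gj_pd {K : Type} [Field K] (G : MvPolynomial (Option (Fin 1)) K) :
    pderiv 1 (rename gj_r G) = rename gj_r (pderiv none G) :=
  pderiv_rename gj_inj none G

theorem gj_top {K : Type} [Field K] (G : MvPolynomial (Option (Fin 1)) K) (d : ℕ) :
    coeff (Finsupp.single 1 d) (rename gj_r G) = coeff (Finsupp.single none d) G := by
  have h := coeff_rename_mapDomain gj_r gj_inj G (Finsupp.single none d)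
  rw [Finsupp.mapDomain_single] at h
  exact h

theorem gj_ind {K B : Type} [Field K] [CommRing B] [Algebra K B] {s : B}
    (h : Transcendental K s) : AlgebraicIndependent K ![s] :=
  algebraicIndependent_unique_type_iff.2 h

theorem sGj (K : Type) [Field K] [IsAlgClosed K] (h1 : SHh1 K) (h3 : SMin K) (h4 : SPrim K)
    (h5 : SSim K) (h6 : SUnr K) (h7 : SCon K) : SGj K := by
  intro A B J Ω _ _ _ _ _ _ _ _ _ _ _ _ _ _ P i T Θ φ ν ι s η c₁ c z hy hι hc j
  obtain ⟨ftA, -, hi, hs, -⟩ := h1 A B J Ω P i T Θ φ ν ι s η c₁ c z hy hι hc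
  have hz0 : φ j (z 0) = s := by rw [hc.z0, hy.sec]
  have hind := gj_ind hs
  obtain ⟨g0, hg0⟩ := h3 A (Fin 1) ![s] (φ j (z 1)) hind (hc.ba j)
  have hinj : Function.Injective (ι.comp i) := hι.comp hi
  obtain ⟨hne, hbir⟩ := h4 A (Fin 1) Ω (ι.comp i) ![s] (φ j (z 1)) g0 ftA hinj hind hg0 hc.sp
    fun τ a1 a2 => hc.e1 j τ (a1 0) a2
  have hcon := h7 A (Fin 1) ![s] (φ j (z 1)) g0 hind hc.it hg0 hbir
  have hev : ∀ G : MvPolynomial (Option (Fin 1)) K,
      aeval (fun k => φ j (z k)) (rename gj_r G) = aeval (oe (φ j (z 1)) ![s]) G := by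
    intro G
    rw [gj_ev]
    simp only [hz0]
  refine ⟨rename gj_r g0, ⟨gj_d2 _, ?_, ?_, ?_, ?_, ?_⟩, ?_⟩
  · rw [gj_deg, gj_top]; exact hg0.2.1
  · rw [hev]; exact (hg0.2.2.2 g0).2 dvd_rfl
  · rw [gj_pd, hev]; exact hne
  · intro b
    obtain ⟨G, hG⟩ := hcon b
    exact ⟨rename gj_r G, by rw [gj_pd, hev, hev, hG]⟩
  · intro E _ _ a ha h0 G
    rw [gj_ev] at h0
    obtain ⟨H1, hH1⟩ := h3 E (Fin 1) ![a 0] (a 1) (gj_ind ha) ⟨g0, h0, hg0.2.1⟩
    have hd : H1 ∣ g0 := (hH1.2.2.2 g0).1 h0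
    have hd' : g0 ∣ H1 := hH1.1.dvd_symm hg0.1 hd
    simp only [hz0]
    rw [← gj_ev2, ← gj_ev2, hH1.2.2.2, hg0.2.2.2]
    exact ⟨fun h => hd'.trans h, fun h => hd.trans h⟩
  · intro β hβ h0
    rw [gj_pd, hev] at h0
    refine h5 A (Fin 1) Ω (ι.comp i) (pt Ω β) ![s] (φ j (z 1)) g0 hinj hind hc.it hg0 hne ?_ ?_
    · intro τ ξ' a1 a2 a3 a4 a5
      obtain rfl : ξ' = pt Ω β := hc.e2 j β hβ ξ' (a2 0) a5
      exact a3 (by rw [h6 A Ω (ι.comp i) τ β s ftA (hc.et j β hβ) (a1 0) a4])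
    · show (Algebra.ofId K Ω) (β _) = 0
      rw [h0, map_zero]

end Pool.Agent.MP_a9d3bd_y
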