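import Pool.Agent.MP_a9d3bd_y.St

/-! The curves over the plane curve of a section are unramified. -/

namespace Pool.Agent.MP_a9d3bd_y

open MvPolynomial Pool.Agent.MP_a9d3bd_h Pool.Agent.MP_a9d3bd_q Pool.Agent.MP_a9d3bd_g
open Pool.Agent.MP_a9d3bd_yy (xA)

theorem gp_dep {K E : Type} [Field K] [CommRing E] [Algebra K E] {f : R3 K}
    (hf : f.degreeOf 2 = 0) {a b : Fin 3 → E} (h0 : a 0 = b 0) (h1 : a 1 = b 1) :
    aeval a (pderiv 1 f) = aeval b (pderiv 1 f) := by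
  refine eval₂Hom_congr' rfl (fun k hk _ => ?_) rfl
  fin_cases k
  · exact h0
  · exact h1
  · obtain ⟨d, h2, h3⟩ := (mem_vars_iff_mem_support _).1 hk
    rw [mem_support_iff, coeff_pderiv] at h2
    have h4 := monomial_le_degreeOf 2 (mem_support_iff.2 (left_ne_zero_of_mul h2))
    rw [hf, Finsupp.add_apply] at h4
    exact (Finsupp.mem_support_iff.1 h3 (show d 2 = 0 by omega)).elim

theorem gp_map {K B E : Type} [Field K] [CommRing B] [CommRing E] [Algebra K B] [Algebra K E]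
    (ξ : B →ₐ[K] E) (z : Fin 3 → B) (f : R3 K) : ξ (aeval z f) = aeval (fun k => ξ (z k)) f := by
  rw [← AlgHom.comp_apply, comp_aeval]

theorem gp_fE {K B E : Type} [Field K] [CommRing B] [CommRing E] [Algebra K B] [Algebra K E]
    (ξ : B →ₐ[K] E) (P : R3 K) (x w : B) :
    (fE P x w).map (ξ : B →+* E) = fE P (ξ x) (ξ w) := by
  refine (gp_map (Polynomial.mapAlgHom ξ) _ P).trans ?_
  unfold fE
  congr 2
  funext k
  fin_cases k <;> simp

theorem sGp (K : Type) [Field K] [IsAlgClosed K] (h1 : SHh1 K) (h2 : SPtz K) (h3 : SDisc K) :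
    SGp K := by
  intro A B J Ω _ _ _ _ _ _ _ _ _ _ _ _ _ _ P i T Θ φ ν ι s η c₁ c z H g W j hy hι ch hs hW hU hg
  obtain ⟨-, -, hi, hts, -, -, hit, -, -⟩ := h1 A B J Ω P i T Θ φ ν ι s η c₁ c z hy hι ch
  obtain ⟨δ, hδ⟩ := h3 P hy.top
  have hj : Function.Injective (ι.comp i) := hι.comp hi
  have k1 : ∀ ξ : B →ₐ[K] Ω, (fE P (ξ (i (xA K A))) (ξ T)).Separable →
      aeval ![ξ (i (xA K A)), ξ Θ, ξ T] (pderiv 1 P) ≠ 0 := fun ξ h => by
    obtain ⟨e1, e2⟩ := (hδ Ω (ξ (i (xA K A))) (ξ T)).2 (ξ Θ)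
    rw [← e2]
    refine h.eval₂_derivative_ne_zero (RingHom.id Ω) (e1.trans ?_)
    have e3 := gp_map ξ ![i (xA K A), Θ, T] P
    rw [hy.sf.on, map_zero] at e3
    rw [e3]
    congr 2
    funext k
    fin_cases k <;> rfl
  have e0 : φ j (z 0) = s := by rw [ch.z0, hy.sec]
  have k2 : ∀ ξ : B →ₐ[K] Ω, ξ (z 0) = ι (i (φ j (z 0))) → ξ (z 1) = ι (i (φ j (z 1))) →
      ξ (aeval z (pderiv 2 H)) ≠ 0 := fun ξ a0 a1 => by
    rw [e0] at a0
    refine hU ξ (Or.inl ⟨by rw [a0, ch.z0], Or.inr ⟨j, a1⟩⟩) (k1 ξ ?_) (Or.inl ?_)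
    · have e1 := ch.e3 j (ξ.comp i) (by rw [← a0, ch.z0]; rfl)
      have e2 : ι (i (φ j (z 1))) - c₁ • (ξ.comp i) η = ξ T := by
        rw [← a1, ch.z1, map_add, map_smul]
        exact add_sub_cancel_right _ _
      rwa [e2] at e1
    · rw [a0]
      exact fun h => hts ((isAlgebraic_algHom_iff (ι.comp i) hj).1 h)
  refine ⟨⟨hg.d2, hg.top, fun Z a1 a2 a3 a4 => ?_⟩, fun h => ?_, fun β hβ h => ?_⟩
  · obtain ⟨ξ, b0, b1, hZ⟩ := h2 A B J Ω i ι z _ H g W Z hj hs hW hit hg a1 a2 a3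
    rw [hZ, map_mul, map_mul] at a4
    refine mul_ne_zero ?_ (k2 ξ b0 b1) a4
    rw [gp_map, gp_dep hg.d2 (b := fun k => ι.comp i (φ j (z k))) b0 b1, ← gp_map]
    exact (map_ne_zero_iff _ hj).2 hg.ne
  · refine k2 ((ι.comp i).comp (φ j)) rfl rfl ?_
    rw [AlgHom.comp_apply, gp_map (φ j), h, map_zero]
  · have e1 : ∀ a, ((pt Ω β).comp (φ j)) (i a) = pt Ω β a := fun a => by
      rw [AlgHom.comp_apply, hy.sec]
    refine hU ((pt Ω β).comp (φ j)) (Or.inr ⟨j, β, hβ, rfl, rfl⟩) (k1 _ ?_)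
      (Or.inr ⟨j, β, hβ, AlgHom.ext e1⟩) ?_
    · rw [e1]
      have e2 := (hy.sep j β hβ).map (f := (Algebra.ofId K Ω : K →+* Ω))
      exact gp_fE (Algebra.ofId K Ω) P _ _ ▸ e2
    · rw [AlgHom.comp_apply, gp_map (φ j), pt, AlgHom.comp_apply, h, map_zero]

end Pool.Agent.MP_a9d3bd_y
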