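import Pool.Agent.MP_a9d3bd_y.TSt
import Pool.Agent.MP_a9d3bd_y.Gj
import Pool.Agent.MP_a9d3bd_y.Gp
import Pool.Agent.MP_a9d3bd_g.ANF

/-! The plane equations of the sections. -/

namespace Pool.Agent.MP_a9d3bd_y

open MvPolynomial Pool.Agent.MP_a9d3bd_h Pool.Agent.MP_a9d3bd_q Pool.Agent.MP_a9d3bd_g

theorem tgj_lift {K A σ : Type} [Field K] [IsAlgClosed K] [CommRing A] [Algebra K A] {ζ : σ → A}
    (h : It K ζ) (x : σ → K) (hx : ∀ F : MvPolynomial σ K, aeval ζ F = 0 → eval x F = 0) :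
    ∃ β : A →ₐ[K] K, ∀ k, β (ζ k) = x k := by
  have h1 : ∀ F : MvPolynomial σ K, aeval ζ F ∈ Algebra.adjoin K (Set.range ζ) := fun F => by
    rw [Algebra.adjoin_range_eq_range_aeval]; exact ⟨F, rfl⟩
  let φ : MvPolynomial σ K →+* Algebra.adjoin K (Set.range ζ) :=
    ((aeval ζ : MvPolynomial σ K →ₐ[K] A).codRestrict _ h1).toRingHom
  have h2 : Function.Surjective φ := by
    rintro ⟨y, hy⟩
    rw [Algebra.adjoin_range_eq_range_aeval] at hy
    obtain ⟨F, rfl⟩ := hy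
    exact ⟨F, rfl⟩
  have h3 := RingHom.IsIntegral.trans φ (algebraMap _ A) (φ.isIntegral_of_surjective h2) h
  let _ : Algebra (MvPolynomial σ K) A := ((algebraMap _ A).comp φ).toAlgebra
  have : Algebra.IsIntegral (MvPolynomial σ K) A := ⟨h3⟩
  obtain ⟨β, hβ⟩ := NF_ext (A := MvPolynomial σ K) (B := A) (eval x) fun F hF => hx F hF
  have hβ' : ∀ F : MvPolynomial σ K, β (aeval ζ F) = eval x F := hβ
  refine ⟨⟨β, fun c => ?_⟩, fun k => ?_⟩
  · have := hβ' (C c)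
    rw [aeval_C, eval_C] at this
    exact this
  · have := hβ' (X k)
    rw [aeval_X, eval_X] at this
    exact this

theorem tgj_mono {K A σ τ : Type} [Field K] [CommRing A] [Algebra K A] {v : σ → A} {w : τ → A}
    (h : It K v) (hs : Set.range v ⊆ Set.range w) : It K w := fun b =>
  IsIntegral.map_of_comp_eq (T := Algebra.adjoin K (Set.range w))
    (Subalgebra.inclusion (Algebra.adjoin_mono hs)).toRingHom (RingHom.id A) rfl (h b)

theorem tgj_ev {K A σ : Type} [Field K] [CommRing A] [Algebra K A] (β : A →ₐ[K] K) (ζ : σ → A)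
    (x : σ → K) (h : ∀ k, β (ζ k) = x k) (F : MvPolynomial σ K) : β (aeval ζ F) = eval x F := by
  rw [← AlgHom.comp_apply, comp_aeval, ← coe_aeval_eq_eval]
  simp only [h]
  rfl

theorem tGj (K : Type) [Field K] [IsAlgClosed K] (h1 : TLe K) (h3 : SMin K) (h4 : TSim K)
    (h5 : SCon K) (h6 : TGp K) : TGj K := by
  intro A B J _ _ _ _ _ _ _ _ _ _ _ i T φ ν N s s₀ z H W ch hh j
  have hz0 : φ j (z 0) = s := by rw [ch.z0, ch.sec]
  have hind := gj_ind ch.tr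
  obtain ⟨g0, hg0⟩ := h3 A (Fin 1) ![s] (φ j (z 1)) hind
    ((h1 A (Fin 1) ![s] (φ j (z 1))).2 inferInstance (ch.ba j))
  have hsim : ∀ β : A →ₐ[K] K, (β ∈ (ν j).support ∨ β s = s₀) →
      β (aeval (oe (φ j (z 1)) ![s]) (pderiv none g0)) ≠ 0 ∧ Bir K (oe (φ j (z 1)) ![s]) :=
    fun β hβ => h4 A (Fin 1) ![s] (φ j (z 1)) g0 β ch.ftA hind ch.it hg0 (ch.nA j β hβ).1
      fun β' a1 a2 => (ch.nA j β hβ).2 β' (a1 0) a2
  obtain ⟨β₀, hβ₀⟩ := tgj_lift ch.it ![s₀] fun F hF => by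
    rw [hind.eq_zero_of_aeval_eq_zero F hF, map_zero]
  have hb0 : β₀ s = s₀ := hβ₀ 0
  obtain ⟨hne0, hbir⟩ := hsim β₀ (Or.inr hb0)
  have hne : aeval (oe (φ j (z 1)) ![s]) (pderiv none g0) ≠ 0 := fun h => hne0 (by rw [h, map_zero])
  have hcon := h5 A (Fin 1) ![s] (φ j (z 1)) g0 hind ch.it hg0 hbir
  have hev : ∀ G : MvPolynomial (Option (Fin 1)) K,
      aeval (fun k => φ j (z k)) (rename gj_r G) = aeval (oe (φ j (z 1)) ![s]) G := by
    intro G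
    rw [gj_ev]
    simp only [hz0]
  have htop : coeff (Finsupp.single 1 (rename gj_r g0).totalDegree) (rename gj_r g0) = 1 := by
    rw [gj_deg, gj_top]; exact hg0.2.1
  have hH : ∀ β : A →ₐ[K] K, (β ∈ (ν j).support ∨ β s = s₀) →
      β (aeval (fun k => φ j (z k)) (pderiv 2 H)) ≠ 0 := fun β hβ => by
    rw [← gp_map (φ j)]
    refine hh.ne j β (β.comp (φ j)) ?_
    rcases hβ with hβ | hβ
    · exact Or.inl ⟨hβ, rfl⟩
    · exact Or.inr ⟨hβ, by rw [AlgHom.comp_apply, hz0, hβ], rfl⟩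
  refine ⟨rename gj_r g0, ⟨gj_d2 _, htop, ?_, ?_, ?_, ?_⟩, ?_, ?_, ?_, ?_⟩
  · rw [hev]; exact (hg0.2.2.2 g0).2 dvd_rfl
  · rw [gj_pd, hev]; exact hne
  · intro b
    obtain ⟨G, hG⟩ := hcon b
    exact ⟨rename gj_r G, by rw [gj_pd, hev, hev, hG]⟩
  · intro E _ _ a ha h0 G
    rw [gj_ev] at h0
    obtain ⟨H1, hH1⟩ := h3 E (Fin 1) ![a 0] (a 1) (gj_ind ha) ⟨g0, h0, hg0.2.1⟩
    have hd : H1 ∣ g0 := (hH1.2.2.2 g0).1 h0
    have hd' : g0 ∣ H1 := hH1.1.dvd_symm hg0.1 hd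
    simp only [hz0]
    rw [← gj_ev2, ← gj_ev2, hH1.2.2.2, hg0.2.2.2]
    exact ⟨fun h => hd'.trans h, fun h => hd.trans h⟩
  · refine h6 H _ s₀ hh.srf.top (gj_d2 _) htop fun ξ a0 a1 a2 => ?_
    obtain ⟨b, hb⟩ := tgj_lift hh.it ξ fun F hF => by
      have := (hh.ker F).2 hF
      rw [hh.srf.eq, Ideal.mem_span_singleton] at this
      obtain ⟨G, rfl⟩ := this
      rw [map_mul, a1, zero_mul]
    have e : ∀ G : MvPolynomial (Option (Fin 1)) K,
        eval ξ (rename gj_r G) = eval (oe (ξ 1) ![ξ 0]) G := fun G => by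
      have := gj_ev ξ G
      rwa [← coe_aeval_eq_eval, ← coe_aeval_eq_eval]
    obtain ⟨β, hβ⟩ := tgj_lift (ζ := oe (φ j (z 1)) ![s])
      (tgj_mono ch.it (by rintro _ ⟨k, rfl⟩; exact ⟨some k, rfl⟩)) (oe (ξ 1) ![ξ 0])
      fun F hF => by
        obtain ⟨G, rfl⟩ := (hg0.2.2.2 F).1 hF
        rw [map_mul, ← e, a2, zero_mul]
    have c0 : β s = s₀ := (hβ (some 0)).trans a0
    have c1 : β (φ j (z 1)) = ξ 1 := hβ none
    rw [map_mul]
    refine mul_ne_zero ?_ ?_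
    · rw [gj_pd, e, ← tgj_ev β _ _ hβ]
      exact (hsim β (Or.inr c0)).1
    · rw [← tgj_ev b _ _ hb]
      exact hh.ne j β b (Or.inr ⟨c0, (hb 0).trans a0, (hb 1).trans c1.symm⟩)
  · exact tgj_mono ch.it (by
      rintro _ ⟨k, rfl⟩
      obtain rfl : k = 0 := Subsingleton.elim _ _
      exact ⟨0, hz0⟩)
  · exact fun h => hH β₀ (Or.inr hb0) (by rw [h, map_zero])
  · intro β hβ
    rw [map_mul, map_mul]
    refine mul_ne_zero ?_ (hH β (Or.inl hβ))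
    rw [gj_pd, hev]
    exact (hsim β (Or.inl hβ)).1

end Pool.Agent.MP_a9d3bd_y
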