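import Pool.Agent.MP_a9d3bd_y.St

namespace Pool.Agent.MP_a9d3bd_y

open MvPolynomial Pool.Agent.MP_a9d3bd_h Pool.Agent.MP_a9d3bd_q Pool.Agent.MP_a9d3bd_g

theorem it_coeff {K R : Type} [Field K] [CommRing R] [Algebra K R] (P : R3 K) (x w : R) (n : ℕ) :
    (fE P x w).coeff n = ∑ m ∈ P.support,
      if n = m 1 then algebraMap K R (coeff m P) * x ^ m 0 * w ^ m 2 else 0 := by
  unfold fE
  rw [aeval_def, eval₂_eq', Polynomial.finsetSum_coeff]
  refine Finset.sum_congr rfl fun m _ => ?_
  have e : algebraMap K (Polynomial R) (coeff m P) *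
      ∏ i, ![Polynomial.C x, Polynomial.X, Polynomial.C w] i ^ m i =
      Polynomial.C (algebraMap K R (coeff m P) * x ^ m 0 * w ^ m 2) * Polynomial.X ^ m 1 := by
    rw [Fin.prod_univ_three, Polynomial.algebraMap_apply]
    simp only [Matrix.cons_val_zero, Matrix.cons_val_one, Matrix.cons_val, map_mul, map_pow]
    ring
  rw [e, Polynomial.coeff_C_mul_X_pow]

theorem it_le {K : Type} [Field K] {P : R3 K} {m : Fin 3 →₀ ℕ} (hm : m ∈ P.support) :
    m 0 + m 1 + m 2 ≤ P.totalDegree := by
  have h := le_totalDegree hm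
  rwa [Finsupp.sum_fintype _ _ (fun _ => rfl), Fin.sum_univ_three] at h

theorem it_top {K R B : Type} [Field K] [CommRing R] [Algebra K R] [CommRing B] [Algebra K B]
    [Algebra R B] [IsScalarTower K R B] {P : R3 K} (hP : Top P) (x w : R) (Θ : B)
    (h : aeval ![algebraMap R B x, Θ, algebraMap R B w] P = 0) : IsIntegral R Θ := by
  have h1 : (fE P x w).natDegree ≤ P.totalDegree := by
    rw [Polynomial.natDegree_le_iff_coeff_eq_zero]
    intro n hn
    rw [it_coeff]
    refine Finset.sum_eq_zero fun m hm => if_neg fun e => ?_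
    have := it_le hm
    omega
  have h2 : (fE P x w).coeff P.totalDegree =
      algebraMap K R (coeff (Finsupp.single 1 P.totalDegree) P) := by
    rw [it_coeff, Finset.sum_eq_single (Finsupp.single 1 P.totalDegree)]
    · simp
    · intro m hm hne
      refine if_neg fun e => hne ?_
      have := it_le hm
      ext j
      fin_cases j <;> simp <;> omega
    · intro hm
      exact absurd (mem_support_iff.2 hP.2) hm
  have h3 : Polynomial.aeval Θ (fE P x w) = 0 := by
    have e : ((Polynomial.aeval Θ : Polynomial R →ₐ[R] B).restrictScalars K).comp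
        (aeval ![Polynomial.C x, Polynomial.X, Polynomial.C w]) =
        (aeval ![algebraMap R B x, Θ, algebraMap R B w] : R3 K →ₐ[K] B) := by
      ext j
      fin_cases j <;> simp
    rw [← h, ← e]
    rfl
  refine ⟨Polynomial.C (algebraMap K R (coeff (Finsupp.single 1 P.totalDegree) P)⁻¹) * fE P x w,
    Polynomial.monic_of_natDegree_le_of_coeff_eq_one P.totalDegree
      ((Polynomial.natDegree_C_mul_le _ _).trans h1) ?_, ?_⟩
  · rw [Polynomial.coeff_C_mul, h2, ← map_mul, inv_mul_cancel₀ hP.2, map_one]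
  · rw [← Polynomial.aeval_def, map_mul, h3, mul_zero]

theorem it_ind {K A B : Type} [Field K] [CommRing A] [Algebra K A] [CommRing B] [Algebra K B]
    (i : A →ₐ[K] B) (hi : Function.Injective i) (t : B)
    (tr : ∀ f : Polynomial A, f.eval₂ (i : A →+* B) t = 0 → f = 0) (a : A)
    (ha : Transcendental K a) : AlgebraicIndependent K ![i a, t] := by
  have h1 : AlgebraicIndependent K ![i a] := by
    rw [algebraicIndependent_unique_type_iff]
    exact fun h => ha ((isAlgebraic_algHom_iff i hi).1 h)
  have h2 : Transcendental (Algebra.adjoin K (Set.range ![i a])) t := by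
    rw [transcendental_iff]
    intro p hp
    have hle : Algebra.adjoin K (Set.range ![i a]) ≤ i.range :=
      Algebra.adjoin_le (by rintro _ ⟨j, rfl⟩; fin_cases j; exact ⟨a, rfl⟩)
    have hl : p.map (algebraMap _ B) ∈ Polynomial.lifts (i : A →+* B) := by
      rw [Polynomial.lifts_iff_coeff_lifts]
      intro n
      rw [Polynomial.coeff_map]
      exact hle (p.coeff n).2
    obtain ⟨f, hf⟩ := (Polynomial.mem_lifts _).1 hl
    have h0 : f = 0 := tr f (by
      rw [Polynomial.eval₂_eq_eval_map, hf, Polynomial.eval_map, ← Polynomial.aeval_def, hp])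
    rw [h0, Polynomial.map_zero] at hf
    exact (Polynomial.map_eq_zero_iff (f := algebraMap _ B) Subtype.val_injective).1 hf.symm
  have h3 := (AlgebraicIndependent.option_iff.2 ⟨h1, h2⟩).comp
    (![some 0, none] : Fin 2 → Option (Fin 1)) (by decide)
  convert h3 using 1
  ext j
  fin_cases j <;> rfl

theorem sIt (K : Type) [Field K] [IsAlgClosed K] : SIt K := by
  intro A B J Ω _ _ _ _ _ _ _ _ _ _ _ _ _ _ P i T Θ s η c₁ hP hS hI
  have fA : Algebra.FiniteType K A :=
    Algebra.FiniteType.trans (inferInstance : Algebra.FiniteType K (Polynomial K)) inferInstance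
  have fB : Algebra.FiniteType K B := by
    classical
    obtain ⟨G, hG⟩ := fA.out
    refine ⟨⟨G.image i ∪ {T, Θ}, top_le_iff.1 ?_⟩⟩
    rw [← hS.gen]
    refine Algebra.adjoin_le (Set.union_subset ?_ ?_)
    · rintro _ ⟨a, rfl⟩
      have h1 : i a ∈ (Algebra.adjoin K (G : Set A)).map i := ⟨a, by rw [hG]; trivial, rfl⟩
      rw [AlgHom.map_adjoin] at h1
      refine Algebra.adjoin_mono ?_ h1
      rw [Finset.coe_union, Finset.coe_image]
      exact Set.subset_union_left
    · refine fun b hb => Algebra.subset_adjoin ?_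
      rw [Finset.coe_union, Finset.coe_pair]
      exact Or.inr hb
  have hi : Function.Injective i := (injective_iff_map_eq_zero i).2 fun a ha =>
    Polynomial.C_eq_zero.1 (hS.tr (Polynomial.C a) (by rw [Polynomial.eval₂_C]; exact ha))
  have hx : Transcendental K (MP_a9d3bd_yy.xA K A) := by
    rw [transcendental_iff]
    intro p hp
    rw [Polynomial.aeval_algebraMap_apply, Polynomial.aeval_X_left_apply] at hp
    exact (map_eq_zero_iff _ (FaithfulSMul.algebraMap_injective (Polynomial K) A)).1 hp
  have hs : Transcendental K s := by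
    intro h
    have : Algebra.IsIntegral K (Algebra.adjoin K (Set.range ![s])) :=
      Algebra.IsIntegral.adjoin (by rintro _ ⟨j, rfl⟩; fin_cases j; exact h.isIntegral)
    exact hx (isIntegral_trans (R := K) _ (hI _)).isAlgebraic
  have tr' : ∀ f : Polynomial A, f.eval₂ (i : A →+* B) (T + c₁ • i η) = 0 → f = 0 := by
    intro f hf
    refine Polynomial.comp_X_add_C_eq_zero_iff.1
      (hS.tr (f.comp (Polynomial.X + Polynomial.C (c₁ • η))) ?_)
    rw [Polynomial.eval₂_comp, Polynomial.eval₂_add, Polynomial.eval₂_X, Polynomial.eval₂_C, ← hf]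
    simp
  refine ⟨fA, fB, hi, hx, hs, it_ind i hi _ tr' s hs, it_ind i hi _ hS.tr _ hx, fun b => ?_⟩
  set R := Algebra.adjoin K (Set.range ![i s, T + c₁ • i η]) with hR
  have m0 : ∀ y : Algebra.adjoin K (Set.range ![s]), i y ∈ R := by
    intro y
    have h1 : i y ∈ (Algebra.adjoin K (Set.range ![s])).map i := ⟨y, y.2, rfl⟩
    rw [AlgHom.map_adjoin] at h1
    refine Algebra.adjoin_mono ?_ h1
    rintro _ ⟨_, ⟨j, rfl⟩, rfl⟩
    fin_cases j
    exact ⟨0, rfl⟩
  have m1 : ∀ a : A, IsIntegral R (i a) := fun a =>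
    (hI a).map_of_comp_eq
      (((i : A →+* B).comp (algebraMap (Algebra.adjoin K (Set.range ![s])) A)).codRestrict R m0)
      (i : A →+* B) (RingHom.ext fun _ => rfl)
  have m2 : IsIntegral R T := by
    have h1 : IsIntegral R (T + c₁ • i η) :=
      isIntegral_algebraMap (x := (⟨_, Algebra.subset_adjoin ⟨1, rfl⟩⟩ : R))
    have h2 := h1.sub (m1 (c₁ • η))
    rwa [map_smul, add_sub_cancel_right] at h2
  have m3 : IsIntegral R Θ :=
    isIntegral_trans (R := R) (A := integralClosure R B) _
      (it_top hP (⟨_, m1 (MP_a9d3bd_yy.xA K A)⟩ : integralClosure R B) ⟨T, m2⟩ Θ hS.on)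
  have hle : (⊤ : Subalgebra K B) ≤ (integralClosure R B).restrictScalars K := by
    rw [← hS.gen]
    refine Algebra.adjoin_le (Set.union_subset ?_ ?_)
    · rintro _ ⟨a, rfl⟩
      exact m1 a
    · rintro _ (rfl | rfl)
      · exact m2
      · exact m3
  exact hle Algebra.mem_top

end Pool.Agent.MP_a9d3bd_y
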