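import Pool.Agent.MP_a9d3bd_y.TSt
import Pool.Agent.MP_a9d3bd_y.It
import Pool.Agent.MP_a9d3bd_g.ANF

namespace Pool.Agent.MP_a9d3bd_y

open MvPolynomial Pool.Agent.MP_a9d3bd_h Pool.Agent.MP_a9d3bd_q Pool.Agent.MP_a9d3bd_g

theorem tgp_pos {K B : Type} [Field K] [CommRing B] [Nontrivial B] [Algebra K B] (v : Fin 3 → B)
    {G : R3 K} (j : Fin 3) (h : coeff (Finsupp.single j G.totalDegree) G = 1)
    (h0 : aeval v G = 0) : 0 < G.totalDegree := by
  refine Nat.pos_of_ne_zero fun e => ?_
  rw [e, Finsupp.single_zero] at h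
  rw [totalDegree_eq_zero_iff_eq_C.1 e, h, map_one, map_one] at h0
  exact one_ne_zero h0

theorem tgp_z {K B : Type} [Field K] [CommRing B] [Algebra K B] (v : Fin 3 → B) {g : R3 K}
    (h : g.degreeOf 2 = 0) : aeval ![v 0, v 1, 0] g = aeval v g := by
  rw [aeval_def, aeval_def, eval₂_eq', eval₂_eq']
  refine Finset.sum_congr rfl fun m hm => ?_
  have h2 : m 2 = 0 := Nat.le_zero.1 ((monomial_le_degreeOf 2 hm).trans h.le)
  rw [Fin.prod_univ_three, Fin.prod_univ_three, h2]
  simp

theorem tgp_pt {K B : Type} [Field K] [IsAlgClosed K] [CommRing B] [Nontrivial B] [Algebra K B]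
    (v : Fin 3 → B) (hv : Function.Surjective (aeval v : R3 K →ₐ[K] B)) {H g : R3 K}
    (hH : coeff (Finsupp.single 2 H.totalDegree) H = 1) (hg2 : g.degreeOf 2 = 0)
    (hg : coeff (Finsupp.single 1 g.totalDegree) g = 1) (h1 : aeval v H = 0) (h2 : aeval v g = 0)
    (ht : ¬ Algebra.IsAlgebraic K B) (s₀ : K) :
    ∃ y : B →+* K, y (v 0) = s₀ ∧ ∀ k, y (algebraMap K B k) = k := by
  let _ : Algebra (Polynomial K) B := (Polynomial.aeval (v 0) : Polynomial K →ₐ[K] B).toAlgebra
  have ea : ∀ p, algebraMap (Polynomial K) B p = Polynomial.aeval (v 0) p := fun _ => rfl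
  have : IsScalarTower K (Polynomial K) B := IsScalarTower.of_algebraMap_eq fun k => by
    rw [ea, AlgHom.commutes]
  have e0 : algebraMap (Polynomial K) B Polynomial.X = v 0 := by rw [ea, Polynomial.aeval_X]
  have m0 : IsIntegral (Polynomial K) (v 0) := e0 ▸ isIntegral_algebraMap
  have m1 : IsIntegral (Polynomial K) (v 1) := by
    refine it_top (P := g) ⟨tgp_pos v 1 hg h2, by rw [hg]; exact one_ne_zero⟩ Polynomial.X 0 _ ?_
    rw [e0, map_zero, tgp_z v hg2, h2]
  have m2 : IsIntegral (Polynomial K) (v 2) := by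
    have d : (rename (Equiv.swap (1 : Fin 3) 2) H).totalDegree = H.totalDegree :=
      totalDegree_renameEquiv (Equiv.swap (1 : Fin 3) 2) H
    have c := coeff_rename_mapDomain _ (Equiv.swap (1 : Fin 3) 2).injective H
      (Finsupp.single 2 H.totalDegree)
    rw [Finsupp.mapDomain_single, Equiv.swap_apply_right, hH] at c
    refine isIntegral_trans (R := Polynomial K) (A := integralClosure (Polynomial K) B) _
      (it_top (P := rename (Equiv.swap (1 : Fin 3) 2) H)
        ⟨d ▸ tgp_pos v 2 hH h1, by rw [d, c]; exact one_ne_zero⟩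
        (⟨_, m0⟩ : integralClosure (Polynomial K) B) ⟨_, m1⟩ _ ?_)
    rw [aeval_rename, ← h1]
    congr 2
    ext j
    fin_cases j <;> rfl
  have : Algebra.IsIntegral (Polynomial K) B := ⟨fun b => by
    obtain ⟨f, rfl⟩ := hv b
    induction f using MvPolynomial.induction_on with
    | C a =>
      rw [aeval_C, IsScalarTower.algebraMap_apply K (Polynomial K) B]
      exact isIntegral_algebraMap
    | add p q hp hq => rw [map_add]; exact hp.add hq
    | mul_X p j hp =>
      rw [map_mul, aeval_X]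
      refine hp.mul ?_
      fin_cases j
      · exact m0
      · exact m1
      · exact m2⟩
  have tr : Transcendental K (v 0) := by
    intro h
    apply ht
    have hi : Algebra.IsIntegral K (Algebra.adjoin K {v 0}) :=
      Algebra.IsIntegral.adjoin (by rintro _ rfl; exact h.isIntegral)
    refine ⟨fun b => (isIntegral_trans (R := K) (A := Algebra.adjoin K {v 0}) b ?_).isAlgebraic⟩
    refine (Algebra.IsIntegral.isIntegral (R := Polynomial K) b).map_of_comp_eq
      ((algebraMap (Polynomial K) B).codRestrict (Algebra.adjoin K {v 0}) fun p => ?_)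
      (RingHom.id B) (RingHom.ext fun _ => rfl)
    rw [ea]
    exact Polynomial.aeval_mem_adjoin_singleton K _
  obtain ⟨y, hy⟩ := NF_ext (B := B) (Polynomial.evalRingHom s₀) fun p hp => by
    rw [RingHom.mem_ker, ea] at hp
    rw [transcendental_iff.1 tr p hp]
    exact zero_mem _
  refine ⟨y, by rw [← e0, hy]; simp, fun k => ?_⟩
  rw [IsScalarTower.algebraMap_apply K (Polynomial K) B, hy]
  simp

theorem tGp (K : Type) [Field K] [IsAlgClosed K] : TGp K := by
  intro H g s₀ hH hg2 hg h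
  refine ⟨hg2, hg, fun Z h1 h2 hd h3 => ?_⟩
  have hZ := Z.isPrime
  have ea : ∀ f : R3 K, aeval (fun k => Ideal.Quotient.mk Z.asIdeal (X k)) f =
      Ideal.Quotient.mk Z.asIdeal f := fun f =>
    AlgHom.congr_fun (show (aeval (fun k => Ideal.Quotient.mk Z.asIdeal (X k)) : R3 K →ₐ[K] _) =
      Ideal.Quotient.mkₐ K Z.asIdeal from algHom_ext fun k => aeval_X _ _) f
  obtain ⟨y, y0, yk⟩ := tgp_pt (K := K) (fun k => Ideal.Quotient.mk Z.asIdeal (X k))
    (fun b => by
      obtain ⟨f, rfl⟩ := Ideal.Quotient.mk_surjective b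
      exact ⟨f, ea f⟩) hH hg2 hg
    (by rw [ea]; exact Ideal.Quotient.eq_zero_iff_mem.2 h1)
    (by rw [ea]; exact Ideal.Quotient.eq_zero_iff_mem.2 h2)
    (fun ha => by
      unfold dim at hd
      rw [trdeg_eq_zero] at hd
      simp at hd) s₀
  have e : eval (fun k => y (Ideal.Quotient.mk Z.asIdeal (X k))) =
      y.comp (Ideal.Quotient.mk Z.asIdeal) :=
    ringHom_ext (fun k => by rw [eval_C]; exact (yk k).symm) fun k => eval_X _
  have z : ∀ f ∈ Z.asIdeal, eval (fun k => y (Ideal.Quotient.mk Z.asIdeal (X k))) f = 0 :=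
    fun f hf => by rw [e, RingHom.comp_apply, Ideal.Quotient.eq_zero_iff_mem.2 hf, map_zero]
  exact h _ y0 (z _ h1) (z _ h2) (z _ h3)

end Pool.Agent.MP_a9d3bd_y
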