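import Pool.Agent.MP_a9d3bd_y.TSt
import Pool.Agent.MP_a9d3bd_g.ANF

namespace Pool.Agent.MP_a9d3bd_y

open MvPolynomial Pool.Agent.MP_a9d3bd_h Pool.Agent.MP_a9d3bd_q Pool.Agent.MP_a9d3bd_g

theorem thh_pts {K B σ : Type} [Field K] [IsAlgClosed K] [CommRing B] [Algebra K B] {v : σ → B}
    (hv : AlgebraicIndependent K v) (hi : It K v) (w : σ → K) :
    ∃ β : B →ₐ[K] K, ∀ k, β (v k) = w k := by
  have : Algebra.IsIntegral (Algebra.adjoin K (Set.range v)) B := ⟨hi⟩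
  let x : Algebra.adjoin K (Set.range v) →ₐ[K] K := (aeval w).comp hv.aevalEquiv.symm.toAlgHom
  obtain ⟨y, hy⟩ := NF_ext (B := B) (x : Algebra.adjoin K (Set.range v) →+* K) fun a ha => by
    have h0 : a = 0 := Subtype.ext ha
    rw [h0]
    exact zero_mem _
  refine ⟨⟨y, fun c => ?_⟩, fun k => ?_⟩
  · exact (hy (algebraMap K _ c)).trans (x.commutes c)
  · have e : algebraMap (Algebra.adjoin K (Set.range v)) B (hv.aevalEquiv (X k)) = v k := by
      rw [hv.algebraMap_aevalEquiv, aeval_X]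
    have h1 := hy (hv.aevalEquiv (X k))
    rw [e] at h1
    refine h1.trans ?_
    simp [x]

theorem thh_pt {K A : Type} [Field K] [IsAlgClosed K] [CommRing A] [Algebra K A] {s : A}
    (ht : Transcendental K s) (hi : It K ![s]) (s₀ : K) : ∃ β : A →ₐ[K] K, β s = s₀ := by
  obtain ⟨β, h⟩ := thh_pts (algebraicIndependent_unique_type_iff.2 ht) hi fun _ => s₀
  exact ⟨β, h 0⟩

theorem tHh (K : Type) [Field K] [IsAlgClosed K] (h1 : TLe K) (h2 : STwo K) (h3 : SMin K)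
    (h4 : TSim K) (h5 : SCon K) : THh K := by
  intro A B J _ _ _ _ _ _ _ _ _ _ _ i T φ ν N s s₀ z hJ ch
  obtain ⟨j0⟩ := hJ
  obtain ⟨H0, hM⟩ := h3 B (Fin 2) ![z 0, z 1] (z 2) ch.ind
    ((h1 B (Fin 2) _ _).2 inferInstance ch.b2)
  let e : Option (Fin 2) ≃ Fin 3 := finSuccEquivLast.symm
  have e2 : e none = 2 := rfl
  have he : z ∘ e = oe (z 2) ![z 0, z 1] := by
    funext o
    rcases o with _ | k
    · rfl
    · fin_cases k <;> rfl
  have hev : ∀ G : MvPolynomial (Option (Fin 2)) K,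
      aeval z (rename e G) = aeval (oe (z 2) ![z 0, z 1]) G := fun G => by
    rw [aeval_rename, he]
  have key : ∀ j (β : A →ₐ[K] K) (ξ : B →ₐ[K] K), ((β ∈ (ν j).support ∧ ξ = β.comp (φ j)) ∨
      (β s = s₀ ∧ ξ (z 0) = s₀ ∧ ξ (z 1) = β (φ j (z 1)))) →
      ξ (aeval (oe (z 2) ![z 0, z 1]) (pderiv none H0)) ≠ 0 ∧ Bir K (oe (z 2) ![z 0, z 1]) :=
    fun j β ξ h => h4 B (Fin 2) ![z 0, z 1] (z 2) H0 ξ ch.ftB ch.ind ch.itB hM (ch.nB j β ξ h).1
      fun ξ' a a' => (ch.nB j β ξ h).2 ξ' fun k => by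
        fin_cases k
        · exact a 0
        · exact a 1
        · exact a'
  obtain ⟨β0, hβ0⟩ := thh_pt ch.tr ch.it s₀
  obtain ⟨hd, hbir⟩ := key j0 β0 (β0.comp (φ j0)) (Or.inr ⟨hβ0, by
    rw [AlgHom.comp_apply, ch.z0, ch.sec, hβ0], rfl⟩)
  have hdeg : (rename e H0).totalDegree = H0.totalDegree := totalDegree_renameEquiv e H0
  have hirr : Irreducible (rename e H0) :=
    (MulEquiv.irreducible_iff (renameEquiv K e)).2 hM.1
  have hpd : aeval z (pderiv 2 (rename e H0)) =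
      aeval (oe (z 2) ![z 0, z 1]) (pderiv none H0) := by
    rw [← hev, ← pderiv_rename e.injective, e2]
  refine ⟨rename e H0, ⟨Ideal.span {rename e H0},
    (Ideal.span_singleton_prime hirr.ne_zero).2 hirr.prime⟩, ⟨hirr, ?_, ?_, ?_, rfl⟩, ?_, ?_, ?_,
    fun j β ξ h => hpd ▸ (key j β ξ h).1⟩
  · rw [hdeg, ← e2, ← Finsupp.mapDomain_single, coeff_rename_mapDomain _ e.injective]
    exact hM.2.1
  · rw [hdeg]
    refine h2 A B J K i s (z 1) (z 2) H0 ch.inj ch.it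
      ((h1 A (Fin 1) _ _).2 inferInstance ch.bx2) ?_ ?_ ?_
    · rw [← ch.z0]; exact ch.ind
    · rw [← ch.z0]; exact hM
    · rw [← ch.z0]; exact hbir
  · intro h
    rw [h, map_zero] at hpd
    rw [← hpd, map_zero] at hd
    exact hd rfl
  · intro G
    obtain ⟨G, rfl⟩ := (renameEquiv K e).surjective G
    rw [renameEquiv_apply, hev, hM.2.2.2, Ideal.mem_span_singleton]
    exact map_dvd_iff (renameEquiv K e)
  · intro b
    have hle : Algebra.adjoin K (Set.range ![z 0, z 1]) ≤ Algebra.adjoin K (Set.range z) :=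
      Algebra.adjoin_mono (by
        rintro _ ⟨k, rfl⟩
        fin_cases k
        exacts [⟨0, rfl⟩, ⟨1, rfl⟩])
    obtain ⟨p, hp, hp0⟩ := ch.itB b
    refine ⟨p.map (Subalgebra.inclusion hle).toRingHom, hp.map _, ?_⟩
    rw [Polynomial.eval₂_map]
    exact hp0
  · intro b
    obtain ⟨G, hG⟩ := h5 B (Fin 2) ![z 0, z 1] (z 2) H0 ch.ind ch.itB hM hbir b
    exact ⟨rename e G, by rw [hev, hpd, hG]⟩

end Pool.Agent.MP_a9d3bd_y
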