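import Pool.Agent.MP_a9d3bd_y.TSt

namespace Pool.Agent.MP_a9d3bd_y

open MvPolynomial Pool.Agent.MP_a9d3bd_h Pool.Agent.MP_a9d3bd_q Pool.Agent.MP_a9d3bd_g

theorem thi_int {K B E σ : Type} [Field K] [CommRing B] [Algebra K B] [Field E] [Algebra K E]
    (j : B →ₐ[K] E) {v : σ → B} (h : It K v) (R : Subring E) (hc : ∀ c, algebraMap K E c ∈ R)
    (hv : ∀ k, j (v k) ∈ R) (b : B) : IsIntegral R (j b) := by
  have h1 : ∀ y : Algebra.adjoin K (Set.range v),
      ((j : B →+* E).comp (algebraMap (Algebra.adjoin K (Set.range v)) B)) y ∈ R := by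
    rintro ⟨y, hy⟩
    change j y ∈ R
    induction hy using Algebra.adjoin_induction with
    | mem x hx =>
      obtain ⟨k, rfl⟩ := hx
      exact hv k
    | algebraMap r =>
      rw [j.commutes]
      exact hc r
    | add x y _ _ hx hy =>
      rw [map_add]
      exact add_mem hx hy
    | mul x y _ _ hx hy =>
      rw [map_mul]
      exact mul_mem hx hy
  exact IsIntegral.map_of_comp_eq (T := R) (RingHom.codRestrict _ R h1) (j : B →+* E) rfl (h b)

theorem tHi (K : Type) [Field K] [IsAlgClosed K] : THi K := by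
  intro F _ _ O hF
  refine ⟨fun B _ _ j v z hv hz h1 ⟨b, hb⟩ => ?_, fun a b ha h => ?_⟩
  · have hB : ∀ c, j c ∈ O.O := fun c => by
      have h2 : IsIntegral O.O (j c) := thi_int j hv O.O.toSubring O.const h1 c
      obtain ⟨y, hy⟩ := IsIntegrallyClosed.isIntegral_iff.1 h2
      rw [← hy]
      exact y.2
    refine ⟨fun k => hB _, ?_⟩
    let θ : B →ₐ[K] O.K :=
      { toFun := fun a => O.res (j a)
        map_one' := by rw [map_one, O.res_one]
        map_mul' := fun a b => by rw [map_mul, O.res_mul (hB a) (hB b)]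
        map_zero' := by rw [map_zero, O.res_zero]
        map_add' := fun a b => by rw [map_add, O.res_add (hB a) (hB b)]
        commutes' := fun r => by rw [AlgHom.commutes, O.res_algebraMap] }
    have hK : FF K O.K 1 := DV.ff_K O hF
    refine (tr_alg_iff hK.tr _).2 (le_antisymm (tr_td_le hK.tr _) (Nat.pos_of_ne_zero fun h0 => ?_))
    have h3 := (tr_td_zero hK.tr _).1 h0
    have h4 : IsIntegral (af K (O.ra fun k => j (z k))) (θ b) :=
      thi_int θ hz (af K (O.ra fun k => j (z k))).toSubfield.toSubring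
        (fun c => (af K _).algebraMap_mem c) (fun k => mem_af (O.ra fun k => j (z k)) k) b
    have : Algebra.IsAlgebraic K (af K (O.ra fun k => j (z k))) :=
      ⟨fun y => IntermediateField.isAlgebraic_iff.2 (h3 y.1 y.2)⟩
    have h5 : IsIntegral K (θ b) := (h4.isAlgebraic.restrictScalars K).isIntegral
    obtain ⟨k, hk⟩ := minpoly.mem_range_of_degree_eq_one K (θ b)
      (IsAlgClosed.degree_eq_one_of_irreducible K (minpoly.irreducible h5))
    exact hb k hk.symm
  · have h0 : O.ord a < 0 := (O.ord_neg_iff a).2 ha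
    have a0 : a ≠ 0 := fun e => ha (by rw [e]; exact zero_mem _)
    refine ⟨h0, ?_⟩
    by_cases b0 : b = 0
    · rw [b0, O.ord_zero]
      exact h0.le
    · have h2 : b / a ∈ O.O := by
        rw [← O.O.valuation_le_one_iff, map_div₀]
        exact div_le_one_of_le₀ h zero_le
      have h3 := (O.ord_nonneg_iff _).2 h2
      rw [O.ord_div b0 a0] at h3
      omega

end Pool.Agent.MP_a9d3bd_y
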