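import Pool.Agent.MP_a9d3bd_y.St

/-! The choice of the first coordinate. -/

namespace Pool.Agent.MP_a9d3bd_y

open MvPolynomial Pool.Agent.MP_a9d3bd_h Pool.Agent.MP_a9d3bd_q Pool.Agent.MP_a9d3bd_g
open Pool.Agent.MP_a9d3bd_yy (xA xL Gal)

theorem sel_int {R L : Type} [CommRing R] [Field L] [Algebra R L] (b : L)
    (h : ∀ V : ValuationSubring L, (∀ r, algebraMap R L r ∈ V) → b ∈ V) : IsIntegral R b := by
  by_contra hb
  have : IsIntegrallyClosedIn (integralClosure R L).toSubring L :=
    inferInstanceAs (IsIntegrallyClosedIn (integralClosure R L) L)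
  obtain ⟨V, h1, h2⟩ := Subring.exists_le_valuationSubring_of_isIntegrallyClosedIn
    (R := (integralClosure R L).toSubring) (x := b) hb
  exact h2 (h V fun r => h1 ((integralClosure R L).algebraMap_mem r))

theorem sel_poly {K L : Type} [Field K] [Field L] [Algebra K L] (V : ValuationSubring L)
    (hV : ∀ c : K, algebraMap K L c ∈ V) (x : L) (f : Polynomial K) (M : ℕ)
    (hM : f.natDegree ≤ M) :
    V.valuation (Polynomial.aeval x f) ≤ max 1 (V.valuation x) ^ M := by
  rw [Polynomial.aeval_eq_sum_range]
  refine Valuation.map_sum_le _ fun i hi => ?_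
  have hi' : i ≤ M := (Nat.lt_succ_iff.1 (Finset.mem_range.1 hi)).trans hM
  rw [Algebra.smul_def, map_mul, map_pow]
  calc V.valuation (algebraMap K L (f.coeff i)) * V.valuation x ^ i
      ≤ 1 * max 1 (V.valuation x) ^ i :=
        mul_le_mul' ((V.valuation_le_one_iff _).2 (hV _)) (pow_le_pow_left' (le_max_right _ _) _)
    _ ≤ max 1 (V.valuation x) ^ M := by
        rw [one_mul]
        exact pow_le_pow_right₀ (le_max_left _ _) hi'

theorem sel_root {L : Type} [Field L] (V : ValuationSubring L) (p : Polynomial L) (hp : p.Monic)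
    (a : L) (ha : p.eval a = 0) (Γ : V.ValueGroup) (h1 : 1 ≤ Γ)
    (hc : ∀ i, V.valuation (p.coeff i) ≤ Γ) : V.valuation a ≤ Γ := by
  by_contra hlt
  rw [not_le] at hlt
  have h0 : 1 < V.valuation a := lt_of_le_of_lt h1 hlt
  have h0' : 0 < V.valuation a := zero_lt_one.trans h0
  rw [hp.as_sum, Polynomial.eval_add, Polynomial.eval_pow, Polynomial.eval_X,
    Polynomial.eval_finsetSum, add_eq_zero_iff_eq_neg] at ha
  have h2 := congrArg V.valuation ha
  rw [Valuation.map_neg, map_pow] at h2
  refine absurd h2.symm (ne_of_lt (Valuation.map_sum_lt _ (pow_pos h0' _).ne' fun i hi => ?_))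
  rw [Polynomial.eval_mul, Polynomial.eval_C, Polynomial.eval_pow, Polynomial.eval_X, map_mul,
    map_pow]
  calc V.valuation (p.coeff i) * V.valuation a ^ i < V.valuation a * V.valuation a ^ i :=
        mul_lt_mul_of_pos_right (lt_of_le_of_lt (hc i) hlt) (pow_pos h0' _)
    _ = V.valuation a ^ (i + 1) := (pow_succ' _ _).symm
    _ ≤ V.valuation a ^ p.natDegree := pow_le_pow_right₀ h0.le (Finset.mem_range.1 hi)

theorem sel_chain {K L : Type} [Field K] [Field L] [Algebra K L] (x π : L) (c : K) (N : ℕ)
    (G : MvPolynomial (Option (Fin 1)) K) :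
    aeval (oe x ![π + c • x ^ N]) (aeval (fun o : Option (Fin 1) =>
      o.elim (X (some 0) - C c * X none ^ N) fun _ => (X none : MvPolynomial (Option (Fin 1)) K)) G) =
      aeval (oe π ![x]) G ∧
    aeval (oe x ![π + c • x ^ N]) (pderiv none (aeval (fun o : Option (Fin 1) =>
      o.elim (X (some 0) - C c * X none ^ N) fun _ => (X none : MvPolynomial (Option (Fin 1)) K)) G)) =
      aeval (oe π ![x]) (pderiv (some 0) G) -
        c • ((N : L) * x ^ (N - 1) * aeval (oe π ![x]) (pderiv none G)) := by
  induction G using MvPolynomial.induction_on with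
  | C a => simp
  | add p q hp hq =>
    refine ⟨by simp only [map_add, hp.1, hq.1], ?_⟩
    simp only [map_add, hp.2, hq.2, mul_add, smul_add]
    ring
  | mul_X p o hp =>
    rcases o with _ | j
    · refine ⟨?_, ?_⟩
      · rw [map_mul, map_mul, map_mul, hp.1]
        simp [oe, Algebra.smul_def]
      · rw [map_mul, Derivation.leibniz, Derivation.leibniz, Derivation.leibniz]
        simp only [smul_eq_mul, map_add, map_mul, hp.1, hp.2]
        simp [oe, Algebra.smul_def]
        ring
    · obtain rfl : j = 0 := Subsingleton.elim _ _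
      refine ⟨?_, ?_⟩
      · rw [map_mul, map_mul, map_mul, hp.1]
        simp [oe]
      · rw [map_mul, Derivation.leibniz, Derivation.leibniz, Derivation.leibniz]
        simp only [smul_eq_mul, map_add, map_mul, hp.1, hp.2]
        simp [oe, Algebra.smul_def]
        ring

theorem sel_pull {K A L σ : Type} [Field K] [CommRing A] [Algebra K A] [CommRing L] [Algebra K L]
    (j : A →ₐ[K] L) (v : σ → A) (a : A) (G : MvPolynomial (Option σ) K) :
    aeval (oe (j a) fun k => j (v k)) G = j (aeval (oe a v) G) := by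
  have e : (oe (j a) fun k => j (v k)) = fun o => j (oe a v o) := by
    funext o
    cases o <;> rfl
  rw [e, ← MvPolynomial.comp_aeval]
  rfl

section
variable {K A : Type} [Field K] [CommRing A] [IsDomain A] [Algebra K A]
  [Algebra (Polynomial K) A] [IsScalarTower K (Polynomial K) A]

omit [IsDomain A] in
theorem sel_alg (f : Polynomial K) :
    algebraMap A (FractionRing A) (algebraMap (Polynomial K) A f) =
      Polynomial.aeval (xL K A) f := by
  have h1 : algebraMap (Polynomial K) A f = Polynomial.aeval (xA K A) f := by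
    rw [Polynomial.aeval_algebraMap_apply, Polynomial.aeval_X_left_apply]
  rw [h1]
  exact (Polynomial.aeval_algebraMap_apply _ _ _).symm

theorem sel_bd [Module.Finite (Polynomial K) A] (a : A) : ∃ M : ℕ,
    ∀ V : ValuationSubring (FractionRing A), (∀ c : K, algebraMap K _ c ∈ V) →
      V.valuation (algebraMap A _ a) ≤ max 1 (V.valuation (xL K A)) ^ M := by
  obtain ⟨p, hp, ha⟩ : IsIntegral (Polynomial K) a := Algebra.IsIntegral.isIntegral a
  refine ⟨p.support.sup fun i => (p.coeff i).natDegree, fun V hV => ?_⟩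
  refine sel_root V (p.map ((algebraMap A (FractionRing A)).comp (algebraMap (Polynomial K) A)))
    (hp.map _) _ ?_ _ (one_le_pow₀ (le_max_left _ _)) fun i => ?_
  · rw [Polynomial.eval_map, ← Polynomial.hom_eval₂, ha, map_zero]
  · rw [Polynomial.coeff_map, RingHom.comp_apply, sel_alg]
    refine sel_poly V hV _ _ _ ?_
    by_cases hi : i ∈ p.support
    · exact Finset.le_sup (f := fun i => (p.coeff i).natDegree) hi
    · rw [Polynomial.notMem_support_iff.1 hi]
      simp

theorem sel_sep (hG : Gal K A) (M : Type) [Field M] [Algebra K M] [Algebra M (FractionRing A)]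
    [IsScalarTower K M (FractionRing A)] (y : M) (hy : algebraMap M (FractionRing A) y = xL K A)
    (a : A) : IsSeparable M (algebraMap A (FractionRing A) a) := by
  classical
  have := hG.fin
  have := Fintype.ofFinite (A ≃ₐ[Polynomial K] A)
  let O : Finset A := Finset.univ.image fun g : A ≃ₐ[Polynomial K] A => g a
  let Q : Polynomial A := ∏ b ∈ O, (Polynomial.X - Polynomial.C b)
  have hQ : ∀ g : A ≃ₐ[Polynomial K] A, Q.map (g : A →+* A) = Q := by
    intro g
    have hO : O.image g = O := by
      refine Finset.eq_of_subset_of_card_le (fun b hb => ?_)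
        (Finset.card_image_of_injective O g.injective).ge
      obtain ⟨b', hb', rfl⟩ := Finset.mem_image.1 hb
      obtain ⟨g', -, rfl⟩ := Finset.mem_image.1 hb'
      exact Finset.mem_image.2 ⟨g * g', Finset.mem_univ _, rfl⟩
    calc Q.map (g : A →+* A) = ∏ b ∈ O, (Polynomial.X - Polynomial.C (g b)) := by
          simp [Q, Polynomial.map_prod]
      _ = ∏ b ∈ O.image g, (Polynomial.X - Polynomial.C b) :=
          (Finset.prod_image (f := fun b => Polynomial.X - Polynomial.C b)
            fun _ _ _ _ h => g.injective h).symm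
      _ = Q := by rw [hO]
  obtain ⟨Q0, hQ0⟩ : Q ∈ Polynomial.lifts (algebraMap (Polynomial K) A) := by
    rw [Polynomial.lifts_iff_coeff_lifts]
    intro n
    refine hG.inv _ fun g => ?_
    have h := congrArg (fun p => Polynomial.coeff p n) (hQ g)
    simpa using h
  have hQ0' : Q0.map (algebraMap (Polynomial K) A) = Q := hQ0
  let φ : Polynomial K →+* M := (Polynomial.aeval y : Polynomial K →ₐ[K] M).toRingHom
  have e : (algebraMap M (FractionRing A)).comp φ =
      (algebraMap A (FractionRing A)).comp (algebraMap (Polynomial K) A) := by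
    refine RingHom.ext fun f => ?_
    rw [RingHom.comp_apply, RingHom.comp_apply, sel_alg, ← hy, Polynomial.aeval_algebraMap_apply]
    rfl
  have e2 : (Q0.map φ).map
      (algebraMap M (FractionRing A)) =
      ∏ b ∈ O, (Polynomial.X - Polynomial.C (algebraMap A (FractionRing A) b)) := by
    rw [Polynomial.map_map, e, ← Polynomial.map_map, hQ0']
    simp [Q, Polynomial.map_prod]
  have hs : (Q0.map φ).Separable := by
    rw [← Polynomial.separable_map (algebraMap M (FractionRing A)), e2,
      Polynomial.separable_prod_X_sub_C_iff']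
    exact fun _ _ _ _ h => IsFractionRing.injective A (FractionRing A) h
  refine hs.of_dvd (minpoly.dvd _ _ ?_)
  rw [Polynomial.aeval_def, ← Polynomial.eval_map, e2, Polynomial.eval_prod]
  refine Finset.prod_eq_zero (i := a) (Finset.mem_image.2 ⟨1, Finset.mem_univ _, rfl⟩) ?_
  simp

end

theorem sel_one {K : Type} [Field K] (T : Set K)
    (h : ∀ c ∈ T, ∀ c' ∈ T, c ≠ c' → False) : T.Finite :=
  Set.Subsingleton.finite fun c hc c' hc' => by
    by_contra hne
    exact h c hc c' hc' hne

theorem sSel (K : Type) [Field K] [IsAlgClosed K] (h1 : SBnd K) (h2 : SSpi K) : SSel K := by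
  classical
  intro A _ _ _ _ _ _ _ hG S G
  have hi := IsFractionRing.injective A (FractionRing A)
  have hiA : Function.Injective (algebraMap (Polynomial K) A) :=
    FaithfulSMul.algebraMap_injective (Polynomial K) A
  let j : A →ₐ[K] FractionRing A := IsScalarTower.toAlgHom K A (FractionRing A)
  have hj : ∀ a, j a = algebraMap A (FractionRing A) a := fun _ => rfl
  have hx0 : xL K A ≠ 0 := by
    rw [Ne, map_eq_zero_iff _ hi, map_eq_zero_iff _ hiA]
    exact Polynomial.X_ne_zero
  let W : (A →ₐ[K] K) → Submodule K A := fun β =>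
    ((RingHom.ker β ^ 2 : Ideal A).restrictScalars K).comap
      (LinearMap.id - (Algebra.linearMap K A).comp β.toLinearMap)
  have hW : ∀ β a, a ∈ W β ↔ a - algebraMap K A (β a) ∈ RingHom.ker β ^ 2 := fun _ _ => Iff.rfl
  have hWt : ∀ β : S, W β ≠ ⊤ := by
    intro β hβ
    have hb : RingHom.ker β.1 ≠ ⊥ := by
      intro h
      have h3 : xA K A - algebraMap K A (β.1 (xA K A)) ∈ RingHom.ker β.1 := by
        rw [RingHom.mem_ker, map_sub, AlgHom.commutes]
        simp
      rw [h, Ideal.mem_bot, IsScalarTower.algebraMap_apply K (Polynomial K) A, ← map_sub,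
        map_eq_zero_iff _ hiA] at h3
      exact Polynomial.X_sub_C_ne_zero _ h3
    refine (Ideal.pow_lt_self _ hb (RingHom.ker_ne_top β.1) 2 le_rfl).not_ge fun a ha => ?_
    have h3 := (hW β a).1 (hβ ▸ Submodule.mem_top)
    rwa [(RingHom.mem_ker).1 ha, map_zero, sub_zero] at h3
  obtain ⟨π, hπ⟩ := Submodule.exists_forall_notMem_of_forall_ne_top (fun β : S => W β) hWt
  choose M hM using sel_bd (K := K) (A := A)
  obtain ⟨N, hN, hNK⟩ : ∃ N : ℕ, (insert π G).sup M < N ∧ (N : K) ≠ 0 := by
    by_cases h : (((insert π G).sup M + 1 : ℕ) : K) = 0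
    · refine ⟨(insert π G).sup M + 1 + 1, by omega, ?_⟩
      rw [Nat.cast_succ, h, zero_add]
      exact one_ne_zero
    · exact ⟨_, Nat.lt_succ_self _, h⟩
  obtain ⟨Φ, hΦ0, hΦ1⟩ : Sp K ![xL K A] (j π) := (h2 _ _ _ _).2
    (sel_sep hG _ ⟨xL K A, IntermediateField.subset_adjoin K _ ⟨0, rfl⟩⟩ rfl π)
  have hD : (N : FractionRing A) * xL K A ^ (N - 1) *
      aeval (oe (j π) ![xL K A]) (pderiv none Φ) ≠ 0 := by
    refine mul_ne_zero (mul_ne_zero ?_ (pow_ne_zero _ hx0)) hΦ1
    rw [← map_natCast (algebraMap K (FractionRing A))]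
    exact (map_ne_zero _).2 hNK
  have f1 : {c : K | aeval (oe (j π) ![xL K A]) (pderiv (some 0) Φ) -
      c • ((N : FractionRing A) * xL K A ^ (N - 1) *
        aeval (oe (j π) ![xL K A]) (pderiv none Φ)) = 0}.Finite := by
    refine sel_one _ fun c hc c' hc' hne => hne ?_
    have e := (sub_eq_zero.1 hc).symm.trans (sub_eq_zero.1 hc')
    exact smul_left_injective K hD e
  have f2 : (⋃ β ∈ S, {c : K | π + c • xA K A ^ N ∈ W β}).Finite := by
    refine S.finite_toSet.biUnion fun β hβ => sel_one _ fun c hc c' hc' hne => ?_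
    have e1 : (c - c') • xA K A ^ N ∈ W β := by
      have := (W β).sub_mem hc hc'
      rwa [add_sub_add_left_eq_sub, ← sub_smul] at this
    have e2 : xA K A ^ N ∈ W β := ((W β).smul_mem_iff (sub_ne_zero.2 hne)).1 e1
    have e3 := (W β).sub_mem hc ((W β).smul_mem c e2)
    rw [add_sub_cancel_right] at e3
    exact hπ ⟨β, hβ⟩ e3
  obtain ⟨c, hc⟩ := ((f1.union f2).union (Set.finite_singleton (0 : K))).exists_notMem
  have hc1 : aeval (oe (j π) ![xL K A]) (pderiv (some 0) Φ) -
      c • ((N : FractionRing A) * xL K A ^ (N - 1) *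
        aeval (oe (j π) ![xL K A]) (pderiv none Φ)) ≠ 0 := fun h => hc (Or.inl (Or.inl h))
  have hc2 : ∀ β ∈ S, π + c • xA K A ^ N ∉ W β := fun β hβ h =>
    hc (Or.inl (Or.inr (Set.mem_biUnion hβ h)))
  have hc3 : c ≠ 0 := fun h => hc (Or.inr h)
  have hs : j (π + c • xA K A ^ N) = j π + c • xL K A ^ N := by
    rw [map_add, map_smul, map_pow]
    rfl
  generalize π + c • xA K A ^ N = s at hc2 hs
  have hv : (![j s] : Fin 1 → FractionRing A) = fun k => j (![s] k) := by
    funext k
    fin_cases k
    rfl
  have hval : ∀ V : ValuationSubring (FractionRing A), (∀ c : K, algebraMap K _ c ∈ V) →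
      ∀ γ, 1 ≤ γ → V.valuation (j s) ≤ γ → max 1 (V.valuation (xL K A)) ^ N ≤ γ := by
    intro V hV γ hγ hle
    rcases le_or_gt (V.valuation (xL K A)) 1 with h | h
    · rwa [max_eq_left h, one_pow]
    · have hcv : V.valuation (algebraMap K _ c) = 1 := by
        refine le_antisymm ((V.valuation_le_one_iff _).2 (hV c)) ?_
        have h3 := (V.valuation_le_one_iff _).2 (hV c⁻¹)
        rw [map_inv₀, map_inv₀] at h3
        refine (inv_le_one₀ ?_).1 h3
        exact zero_lt_iff.2 ((map_ne_zero _).2 ((map_ne_zero _).2 hc3))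
      have e1 : V.valuation (c • xL K A ^ N) = V.valuation (xL K A) ^ N := by
        rw [Algebra.smul_def, map_mul, hcv, one_mul, map_pow]
      have e2 := hM π V hV
      rw [max_eq_right h.le] at e2 ⊢
      have e3 : V.valuation (j π) < V.valuation (c • xL K A ^ N) := by
        rw [e1]
        exact lt_of_le_of_lt e2 (pow_lt_pow_right₀ h
          (lt_of_le_of_lt (Finset.le_sup (Finset.mem_insert_self _ _)) hN))
      rwa [hs, Valuation.map_add_eq_of_lt_right _ e3, e1] at hle
  refine ⟨s, fun b => ?_, fun a ha => ?_, fun a => ?_, fun β hβ => hc2 β hβ⟩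
  · rw [← isIntegral_algebraMap_iff hi]
    refine sel_int _ fun V hV => ?_
    have hK : ∀ c : K, algebraMap K (FractionRing A) c ∈ V := fun c => by
      have := hV (algebraMap K _ c)
      rwa [← IsScalarTower.algebraMap_apply] at this
    have h3 := hval V hK 1 le_rfl ((V.valuation_le_one_iff _).2
      (hV ⟨s, Algebra.subset_adjoin ⟨0, rfl⟩⟩))
    have h4 : max 1 (V.valuation (xL K A)) ≤ 1 := (pow_le_one_iff (by omega)).1 h3
    rw [← V.valuation_le_one_iff]
    exact (hM b V hK).trans (pow_le_one' h4 _)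
  · obtain ⟨H, hH, hH'⟩ := h1 _ _ ![j s] (j a) fun V hV γ hγ hle => by
      have h3 := hval V hV γ hγ (hle 0)
      induction ha using Submodule.span_induction with
      | mem g hg =>
        refine (hM g V hV).trans (le_trans (pow_le_pow_right₀ (le_max_left _ _) ?_) h3)
        exact (Finset.le_sup (Finset.mem_insert_of_mem hg)).trans hN.le
      | zero => simp
      | add a b _ _ ha hb =>
        rw [map_add]
        exact Valuation.map_add_le _ ha hb
      | smul r a _ ha =>
        rw [map_smul, Algebra.smul_def, map_mul]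
        exact (mul_le_of_le_one_left' ((V.valuation_le_one_iff _).2 (hV r))).trans ha
    rw [hv, sel_pull] at hH
    exact ⟨H, (map_eq_zero_iff _ hi).1 hH, hH'⟩
  · have hx : IsSeparable (IntermediateField.adjoin K (Set.range ![j s])) (xL K A) := by
      refine (h2 _ _ _ _).1 ?_
      rw [hs]
      exact ⟨_, (sel_chain (xL K A) (j π) c N Φ).1.trans hΦ0,
        fun h => hc1 ((sel_chain (xL K A) (j π) c N Φ).2.symm.trans h)⟩
    have := (IntermediateField.isSeparable_adjoin_simple_iff_isSeparable _ _).2 hx
    have : IsScalarTower K (IntermediateField.adjoin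
        (IntermediateField.adjoin K (Set.range ![j s])) {xL K A}) (FractionRing A) :=
      IsScalarTower.of_algebraMap_eq fun _ => rfl
    have h3 := sel_sep hG (IntermediateField.adjoin
      (IntermediateField.adjoin K (Set.range ![j s])) {xL K A})
      ⟨xL K A, IntermediateField.mem_adjoin_simple_self _ _⟩ rfl a
    obtain ⟨H, hH, hH'⟩ := (h2 _ _ ![j s] (j a)).2
      (IsSeparable.of_algebra_isSeparable_of_isSeparable _ h3)
    rw [hv, sel_pull] at hH hH'
    exact ⟨H, (map_eq_zero_iff _ hi).1 hH, fun h => hH' (by rw [h, map_zero])⟩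

end Pool.Agent.MP_a9d3bd_y
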