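import Pool.Agent.MP_a9d3bd_y.TSt
import Pool.Agent.MP_a9d3bd_y.Sel

/-! The choice of the first coordinate without a group. -/

namespace Pool.Agent.MP_a9d3bd_y

open MvPolynomial Pool.Agent.MP_a9d3bd_h Pool.Agent.MP_a9d3bd_q Pool.Agent.MP_a9d3bd_g
open Pool.Agent.MP_a9d3bd_yy (xA)

section
variable {K A : Type} [Field K] [CommRing A] [Algebra K A]
  [Algebra (Polynomial K) A] [IsScalarTower K (Polynomial K) A]

theorem tsel_ch0 {β : A →ₐ[K] K} {δ : A →ₗ[K] K} (h : Der β δ) (f : Polynomial K) :
    δ (algebraMap (Polynomial K) A f) =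
      β (algebraMap (Polynomial K) A (Polynomial.derivative f)) * δ (xA K A) := by
  induction f using Polynomial.induction_on with
  | C a =>
    rw [Polynomial.derivative_C, map_zero, map_zero, zero_mul, Polynomial.C_eq_algebraMap,
      ← IsScalarTower.algebraMap_apply]
    exact h.const a
  | add p q hp hq => simp only [map_add, hp, hq, add_mul]
  | monomial n a ih =>
    rw [pow_succ, ← mul_assoc, map_mul, h, ih, Polynomial.derivative_mul (g := Polynomial.X),
      Polynomial.derivative_X, mul_one, map_add, map_add,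
      map_mul (algebraMap (Polynomial K) A) _ Polynomial.X, map_mul β]
    ring

theorem tsel_ch (a : A) (Φ : Polynomial (Polynomial K)) : ∃ r : A,
    ∀ (β : A →ₐ[K] K) (δ : A →ₗ[K] K), Der β δ → δ (Polynomial.aeval a Φ) =
      β (Polynomial.aeval a (Polynomial.derivative Φ)) * δ a + β r * δ (xA K A) := by
  induction Φ using Polynomial.induction_on with
  | C f =>
    refine ⟨algebraMap (Polynomial K) A (Polynomial.derivative f), fun β δ h => ?_⟩
    rw [Polynomial.aeval_C, Polynomial.derivative_C, map_zero, map_zero, zero_mul, zero_add,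
      tsel_ch0 h]
  | add p q hp hq =>
    obtain ⟨r, hr⟩ := hp
    obtain ⟨r', hr'⟩ := hq
    refine ⟨r + r', fun β δ h => ?_⟩
    simp only [map_add, hr β δ h, hr' β δ h]
    ring
  | monomial n f ih =>
    obtain ⟨r, hr⟩ := ih
    refine ⟨a * r, fun β δ h => ?_⟩
    rw [pow_succ, ← mul_assoc, map_mul, h, hr β δ h,
      Polynomial.derivative_mul (g := Polynomial.X), Polynomial.derivative_X, mul_one, map_add,
      map_add, map_mul (Polynomial.aeval a) _ Polynomial.X, Polynomial.aeval_X, map_mul β,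
      map_mul β]
    ring

theorem tsel_bd [Module.Finite (Polynomial K) A] (a : A) : ∃ M : ℕ,
    ∀ (Ω : Type) [Field Ω] (φ : A →+* Ω) (V : ValuationSubring Ω),
      (∀ c : K, φ (algebraMap K A c) ∈ V) →
      V.valuation (φ a) ≤ max 1 (V.valuation (φ (xA K A))) ^ M := by
  obtain ⟨p, hp, ha⟩ : IsIntegral (Polynomial K) a := Algebra.IsIntegral.isIntegral a
  refine ⟨p.support.sup fun i => (p.coeff i).natDegree, fun Ω _ φ V hV => ?_⟩
  let _ : Algebra K Ω := (φ.comp (algebraMap K A)).toAlgebra
  let ψ : A →ₐ[K] Ω := { φ with commutes' := fun _ => rfl }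
  refine sel_root V (p.map (φ.comp (algebraMap (Polynomial K) A)))
    (hp.map _) _ ?_ _ (one_le_pow₀ (le_max_left _ _)) fun i => ?_
  · rw [Polynomial.eval_map, ← Polynomial.hom_eval₂, ha, map_zero]
  · have h1 : algebraMap (Polynomial K) A (p.coeff i) = Polynomial.aeval (xA K A) (p.coeff i) := by
      rw [Polynomial.aeval_algebraMap_apply, Polynomial.aeval_X_left_apply]
    have h2 : φ (Polynomial.aeval (xA K A) (p.coeff i)) =
        Polynomial.aeval (φ (xA K A)) (p.coeff i) :=
      (Polynomial.aeval_algHom_apply ψ _ _).symm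
    rw [Polynomial.coeff_map, RingHom.comp_apply, h1, h2]
    refine sel_poly V hV _ _ _ ?_
    by_cases hi : i ∈ p.support
    · exact Finset.le_sup (f := fun i => (p.coeff i).natDegree) hi
    · rw [Polynomial.notMem_support_iff.1 hi]
      simp

end

theorem tsel_uni {K A : Type} [Field K] [CommRing A] [IsDedekindDomain A] [Algebra K A]
    (β : A →ₐ[K] K) (s : A) (hs : s - algebraMap K A (β s) ∉ RingHom.ker β ^ 2) :
    Ur ![s] β := by
  intro δ h h0
  have hk : ∀ v : A, v - algebraMap K A (β v) ∈ RingHom.ker β := fun v => by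
    simp [RingHom.mem_ker]
  obtain ⟨I, hI⟩ : RingHom.ker β ∣ Ideal.span {s - algebraMap K A (β s)} :=
    Ideal.dvd_iff_le.2 ((Ideal.span_singleton_le_iff_mem _).2 (hk s))
  have h1 : ¬ I ≤ RingHom.ker β := by
    intro c
    apply hs
    rw [← Ideal.span_singleton_le_iff_mem, hI, sq]
    exact Ideal.mul_mono_right c
  obtain ⟨u, hu, hu'⟩ := SetLike.not_le_iff_exists.1 h1
  ext a
  have h2 : (a - algebraMap K A (β a)) * u ∈ Ideal.span {s - algebraMap K A (β s)} := by
    rw [hI]
    exact Ideal.mul_mem_mul (hk a) hu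
  obtain ⟨b, hb⟩ := Ideal.mem_span_singleton'.1 h2
  have h3 := congrArg δ hb
  have h4 : δ s = 0 := h0 0
  rw [h, h, (RingHom.mem_ker).1 (hk s), (RingHom.mem_ker).1 (hk a), map_sub, map_sub, h.const,
    h.const, h4, sub_zero, sub_zero, mul_zero, zero_mul, zero_mul, add_zero, zero_add] at h3
  exact (mul_eq_zero.1 h3.symm).resolve_left hu'

theorem tSel (K : Type) [Field K] [IsAlgClosed K] : TSel K := by
  classical
  intro A _ _ _ _ _ _ _ hS S G
  have hi := IsFractionRing.injective A (FractionRing A)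
  have hiA : Function.Injective (algebraMap (Polynomial K) A) :=
    FaithfulSMul.algebraMap_injective (Polynomial K) A
  have hx0 : xA K A ≠ 0 := by
    rw [Ne, map_eq_zero_iff _ hiA]
    exact Polynomial.X_ne_zero
  let W : (A →ₐ[K] K) → Submodule K A := fun β =>
    ((RingHom.ker β ^ 2 : Ideal A).restrictScalars K).comap
      (LinearMap.id - (Algebra.linearMap K A).comp β.toLinearMap)
  have hW : ∀ β a, a ∈ W β ↔ a - algebraMap K A (β a) ∈ RingHom.ker β ^ 2 := fun _ _ => Iff.rfl
  have hWt : ∀ β : S, W β ≠ ⊤ := by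
    intro β hβ
    have hb : RingHom.ker β.1 ≠ ⊥ := by
      intro h
      have h3 : xA K A - algebraMap K A (β.1 (xA K A)) ∈ RingHom.ker β.1 := by
        rw [RingHom.mem_ker, map_sub, AlgHom.commutes]
        simp
      rw [h, Ideal.mem_bot, IsScalarTower.algebraMap_apply K (Polynomial K) A, ← map_sub,
        map_eq_zero_iff _ hiA] at h3
      exact Polynomial.X_sub_C_ne_zero _ h3
    refine (Ideal.pow_lt_self _ hb (RingHom.ker_ne_top β.1) 2 le_rfl).not_ge fun a ha => ?_
    have h3 := (hW β a).1 (hβ ▸ Submodule.mem_top)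
    rwa [(RingHom.mem_ker).1 ha, map_zero, sub_zero] at h3
  obtain ⟨π, hπ⟩ := Submodule.exists_forall_notMem_of_forall_ne_top (fun β : S => W β) hWt
  choose M hM using tsel_bd (K := K) (A := A)
  obtain ⟨N, hN, hNK⟩ : ∃ N : ℕ, (insert π G).sup M < N ∧ (N : K) ≠ 0 := by
    by_cases h : (((insert π G).sup M + 1 : ℕ) : K) = 0
    · refine ⟨(insert π G).sup M + 1 + 1, by omega, ?_⟩
      rw [Nat.cast_succ, h, zero_add]
      exact one_ne_zero
    · exact ⟨_, Nat.lt_succ_self _, h⟩
  choose Φ hΦ0 hΦ1 using hS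
  choose r hr using fun a => tsel_ch (K := K) a (Φ a)
  have hrel : ∀ a (β : A →ₐ[K] K) (δ : A →ₗ[K] K), Der β δ →
      β (Polynomial.aeval a (Polynomial.derivative (Φ a))) * δ a + β (r a) * δ (xA K A) = 0 := by
    intro a β δ h
    rw [← hr a β δ h, hΦ0, map_zero]
  set D : A := (N : A) * xA K A ^ (N - 1) * Polynomial.aeval π (Polynomial.derivative (Φ π))
    with hDd
  have hD : D ≠ 0 := by
    refine mul_ne_zero (mul_ne_zero ?_ (pow_ne_zero _ hx0)) (hΦ1 π)
    rw [← map_natCast (algebraMap K A)]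
    exact (map_ne_zero _).2 hNK
  have f1 : {c : K | r π - c • D = 0}.Finite := by
    refine sel_one _ fun c hc c' hc' hne => hne ?_
    have e := (sub_eq_zero.1 hc).symm.trans (sub_eq_zero.1 hc')
    exact smul_left_injective K hD e
  have f2 : (⋃ β ∈ S, {c : K | π + c • xA K A ^ N ∈ W β}).Finite := by
    refine S.finite_toSet.biUnion fun β hβ => sel_one _ fun c hc c' hc' hne => ?_
    have e1 : (c - c') • xA K A ^ N ∈ W β := by
      have := (W β).sub_mem hc hc'
      rwa [add_sub_add_left_eq_sub, ← sub_smul] at this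
    have e2 : xA K A ^ N ∈ W β := ((W β).smul_mem_iff (sub_ne_zero.2 hne)).1 e1
    have e3 := (W β).sub_mem hc ((W β).smul_mem c e2)
    rw [add_sub_cancel_right] at e3
    exact hπ ⟨β, hβ⟩ e3
  obtain ⟨c, hc⟩ := ((f1.union f2).union (Set.finite_singleton (0 : K))).exists_notMem
  have hc1 : r π - c • D ≠ 0 := fun h => hc (Or.inl (Or.inl h))
  have hc2 : ∀ β ∈ S, π + c • xA K A ^ N ∉ W β := fun β hβ h =>
    hc (Or.inl (Or.inr (Set.mem_biUnion hβ h)))
  have hc3 : c ≠ 0 := fun h => hc (Or.inr h)
  obtain ⟨s, hs⟩ : ∃ s, s = π + c • xA K A ^ N := ⟨_, rfl⟩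
  rw [← hs] at hc2
  have hval : ∀ (Ω : Type) [Field Ω] (φ : A →+* Ω) (V : ValuationSubring Ω),
      (∀ c : K, φ (algebraMap K A c) ∈ V) →
      ∀ γ, 1 ≤ γ → V.valuation (φ s) ≤ γ → max 1 (V.valuation (φ (xA K A))) ^ N ≤ γ := by
    intro Ω _ φ V hV γ hγ hle
    rcases le_or_gt (V.valuation (φ (xA K A))) 1 with h | h
    · rwa [max_eq_left h, one_pow]
    · have hcv : V.valuation (φ (algebraMap K A c)) = 1 := by
        have h3 := (V.valuation_le_one_iff _).2 (hV c)
        have h4 := (V.valuation_le_one_iff _).2 (hV c⁻¹)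
        have h5 : V.valuation (φ (algebraMap K A c)) * V.valuation (φ (algebraMap K A c⁻¹)) = 1 := by
          rw [← map_mul, ← map_mul, ← map_mul, mul_inv_cancel₀ hc3, map_one, map_one, map_one]
        exact le_antisymm h3 (h5.symm.le.trans (mul_le_of_le_one_right' h4))
      have e1 : V.valuation (φ (c • xA K A ^ N)) = V.valuation (φ (xA K A)) ^ N := by
        rw [Algebra.smul_def, map_mul, map_mul, hcv, one_mul, map_pow, map_pow]
      have e2 := hM π Ω φ V hV
      rw [max_eq_right h.le] at e2 ⊢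
      have e3 : V.valuation (φ π) < V.valuation (φ (c • xA K A ^ N)) := by
        rw [e1]
        exact lt_of_le_of_lt e2 (pow_lt_pow_right₀ h
          (lt_of_le_of_lt (Finset.le_sup (Finset.mem_insert_self _ _)) hN))
      rwa [hs, map_add, Valuation.map_add_eq_of_lt_right _ e3, e1] at hle
  obtain ⟨T, hT⟩ : (⊤ : Submodule (Polynomial K) A).FG := Module.Finite.fg_top
  refine ⟨s, (r π - c • D) * ∏ a ∈ T, Polynomial.aeval a (Polynomial.derivative (Φ a)),
    fun b => ?_, mul_ne_zero hc1 (Finset.prod_ne_zero_iff.2 fun a _ => hΦ1 a),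
    fun a ha Ω _ φ V hV γ hγ hle => ?_, fun β hβ => ?_⟩
  · rw [← isIntegral_algebraMap_iff hi]
    refine sel_int _ fun V hV => ?_
    have hK : ∀ c : K, algebraMap A (FractionRing A) (algebraMap K A c) ∈ V := fun c =>
      hV (algebraMap K _ c)
    have h3 := hval _ (algebraMap A (FractionRing A)) V hK 1 le_rfl ((V.valuation_le_one_iff _).2
      (hV ⟨s, Algebra.subset_adjoin ⟨0, rfl⟩⟩))
    have h4 : max 1 (V.valuation (algebraMap A (FractionRing A) (xA K A))) ≤ 1 :=
      (pow_le_one_iff (by omega)).1 h3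
    rw [← V.valuation_le_one_iff]
    exact (hM b _ _ V hK).trans (pow_le_one' h4 _)
  · have h3 := hval Ω φ V hV γ hγ (hle 0)
    rw [pow_one]
    induction ha using Submodule.span_induction with
    | mem g hg =>
      refine (hM g Ω φ V hV).trans (le_trans (pow_le_pow_right₀ (le_max_left _ _) ?_) h3)
      exact (Finset.le_sup (Finset.mem_insert_of_mem hg)).trans hN.le
    | zero => simp
    | add a b _ _ ha hb =>
      rw [map_add]
      exact Valuation.map_add_le _ ha hb
    | smul k a _ ha =>
      rw [Algebra.smul_def, map_mul, map_mul]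
      exact (mul_le_of_le_one_left' ((V.valuation_le_one_iff _).2 (hV k))).trans ha
  · rcases hβ with hβ | hβ
    · exact tsel_uni β s (hc2 β hβ)
    · intro δ h h0
      rw [map_mul, map_prod, mul_ne_zero_iff, Finset.prod_ne_zero_iff] at hβ
      have h4 : δ s = 0 := h0 0
      have h5 : δ (xA K A ^ N) = β ((N : A) * xA K A ^ (N - 1)) * δ (xA K A) := by
        have := tsel_ch0 h (Polynomial.X ^ N)
        rwa [Polynomial.derivative_X_pow, map_pow (algebraMap (Polynomial K) A),
          map_mul (algebraMap (Polynomial K) A), map_pow (algebraMap (Polynomial K) A),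
          Polynomial.C_eq_natCast, map_natCast (algebraMap (Polynomial K) A)] at this
      rw [hs, map_add, map_smul, h5, smul_eq_mul] at h4
      have h6 : δ (xA K A) = 0 := by
        refine (mul_eq_zero.1 ?_).resolve_left hβ.1
        rw [map_sub, map_smul, hDd, map_mul β, smul_eq_mul]
        linear_combination hrel π β δ h -
          β (Polynomial.aeval π (Polynomial.derivative (Φ π))) * h4
      ext a
      have ha : a ∈ Submodule.span (Polynomial K) (T : Set A) := hT ▸ Submodule.mem_top
      show δ a = 0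
      induction ha using Submodule.span_induction with
      | mem g hg =>
        have h7 := hrel g β δ h
        rw [h6, mul_zero, add_zero] at h7
        exact (mul_eq_zero.1 h7).resolve_left (hβ.2 g hg)
      | zero => exact map_zero δ
      | add a b _ _ ha hb => rw [map_add, ha, hb, add_zero]
      | smul f a _ ha => rw [Algebra.smul_def, h, ha, tsel_ch0 h, h6]; ring

end Pool.Agent.MP_a9d3bd_y
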