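import Pool.Agent.MP_a9d3bd_y.TSt

/-! An unramified point that is determined by its value is a simple root. -/

namespace Pool.Agent.MP_a9d3bd_y

open MvPolynomial Pool.Agent.MP_a9d3bd_h Pool.Agent.MP_a9d3bd_q Pool.Agent.MP_a9d3bd_g

theorem tsim_der {K σ : Type} [Field K] (G : MvPolynomial (Option σ) K) :
    optionEquivLeft K σ (pderiv none G) = Polynomial.derivative (optionEquivLeft K σ G) := by
  induction G using MvPolynomial.induction_on with
  | C c => simp
  | add p q hp hq => simp only [map_add, hp, hq]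
  | mul_X p i hp =>
    cases i with
    | none => simp [hp, Polynomial.derivative_mul, mul_comm]
    | some i => simp [hp, Polynomial.derivative_mul, mul_comm]

theorem tSim (K : Type) [Field K] [IsAlgClosed K] : TSim K := by
  intro B σ _ _ _ _ v b H ξ hft hv hit hH hur hsep
  let : Algebra (MvPolynomial σ K) B := (aeval v : MvPolynomial σ K →ₐ[K] B).toRingHom.toAlgebra
  have hφ : ∀ r : MvPolynomial σ K, algebraMap (MvPolynomial σ K) B r = aeval v r := fun _ => rfl
  have : IsScalarTower K (MvPolynomial σ K) B :=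
    IsScalarTower.of_algebraMap_eq fun r => by rw [hφ, AlgHom.commutes]
  have hev : ∀ G : MvPolynomial (Option σ) K,
      aeval (oe b v) G = Polynomial.aeval b (optionEquivLeft K σ G) := by
    intro G
    induction G using MvPolynomial.induction_on with
    | C c => simp [hφ]
    | add p q hp hq => simp only [map_add, hp, hq]
    | mul_X p i hp =>
      cases i with
      | none => simp [hp, oe]
      | some i => simp [hp, oe, hφ]
  have hinj : Function.Injective (algebraMap (MvPolynomial σ K) B) := hv
  have hint : ∀ c : B, IsIntegral (MvPolynomial σ K) c := by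
    intro c
    obtain ⟨p, hp, hc⟩ := hit c
    let ψ : MvPolynomial σ K →+* Algebra.adjoin K (Set.range v) :=
      (aeval v : MvPolynomial σ K →ₐ[K] B).toRingHom.codRestrict _ fun r => by
        rw [Algebra.adjoin_range_eq_range_aeval]
        exact ⟨r, rfl⟩
    have hψ : Function.Surjective ψ := by
      rintro ⟨y, hy⟩
      rw [Algebra.adjoin_range_eq_range_aeval] at hy
      obtain ⟨r, rfl⟩ := hy
      exact ⟨r, rfl⟩
    obtain ⟨q, hq, -, hm⟩ := Polynomial.lifts_and_degree_eq_and_monic
      ((Polynomial.mem_lifts p).2 (Polynomial.map_surjective ψ hψ p)) hp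
    refine ⟨q, hm, ?_⟩
    rw [← hq, Polynomial.eval₂_map] at hc
    exact hc
  have : FaithfulSMul (MvPolynomial σ K) B := (faithfulSMul_iff_algebraMap_injective _ B).2 hinj
  have : Algebra.IsIntegral (MvPolynomial σ K) B := ⟨hint⟩
  have : Algebra.FiniteType (MvPolynomial σ K) B :=
    Algebra.FiniteType.of_restrictScalars_finiteType K _ B
  have : Module.Finite (MvPolynomial σ K) B := Algebra.IsIntegral.finite
  obtain ⟨⟨Q, hQ, hQ'⟩, hd⟩ := simple (K := K) (R := MvPolynomial σ K) b ξ
    (fun ξ' h1 h2 => hsep ξ' (fun k => by simpa [hφ] using h1 (X k)) h2)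
    (fun δ h1 h2 => hur δ h1 fun k => by simpa [hφ] using h2 (X k))
  refine ⟨fun h0 => hd ?_, fun u => ?_⟩
  · have hz : Polynomial.aeval b (optionEquivLeft K σ H) = 0 := by
      rw [← hev]
      exact (hH.2.2.2 H).2 dvd_rfl
    obtain ⟨w, hw⟩ := (hH.2.2.2 ((optionEquivLeft K σ).symm (minpoly (MvPolynomial σ K) b))).1
      (by rw [hev, AlgEquiv.apply_symm_apply, minpoly.aeval])
    have hm : minpoly (MvPolynomial σ K) b = optionEquivLeft K σ H * optionEquivLeft K σ w := by
      rw [← map_mul, ← hw, AlgEquiv.apply_symm_apply]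
    rw [hev, tsim_der] at h0
    rw [hm, Polynomial.derivative_mul, map_add, map_mul, map_mul, hz, zero_mul, add_zero, map_mul,
      h0, zero_mul]
  · obtain ⟨Q', h⟩ := hQ' u
    refine ⟨(optionEquivLeft K σ).symm Q', (optionEquivLeft K σ).symm Q, ?_, ?_⟩
    · rw [hev, AlgEquiv.apply_symm_apply]
      intro e
      rw [e, map_zero] at hQ
      exact zero_ne_one hQ
    · rw [hev, hev, AlgEquiv.apply_symm_apply, AlgEquiv.apply_symm_apply, ← h, mul_comm]

end Pool.Agent.MP_a9d3bd_y
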