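import Pool.Agent.MP_a9d3bd_y.St

namespace Pool.Agent.MP_a9d3bd_y

open MvPolynomial Pool.Agent.MP_a9d3bd_h Pool.Agent.MP_a9d3bd_q Pool.Agent.MP_a9d3bd_g
open Pool.Agent.MP_a9d3bd_yy (xA)

theorem two_ev {K B σ : Type} [Field K] [CommRing B] [Algebra K B] (v : σ → B) (b : B)
    (G : MvPolynomial (Option σ) K) : aeval (oe b v) G =
      (optionEquivLeft K σ G).eval₂ (aeval v : MvPolynomial σ K →ₐ[K] B).toRingHom b := by
  induction G using MvPolynomial.induction_on with
  | C a => simp
  | add p q hp hq => simp [hp, hq, Polynomial.eval₂_add]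
  | mul_X p o hp =>
    rw [map_mul, map_mul, Polynomial.eval₂_mul, hp]
    cases o <;> simp [oe]

theorem two_mon {K σ : Type} [Field K] (G : MvPolynomial (Option σ) K)
    (h : coeff (Finsupp.single none G.totalDegree) G = 1) :
    (optionEquivLeft K σ G).Monic ∧ (optionEquivLeft K σ G).natDegree = G.totalDegree := by
  have h1 : (optionEquivLeft K σ G).natDegree ≤ G.totalDegree := by
    rw [natDegree_optionEquivLeft]
    exact degreeOf_le_totalDegree _ _
  have h2 : (optionEquivLeft K σ G).coeff G.totalDegree = 1 := by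
    have h3 := totalDegree_coeff_optionEquivLeft_add_le K σ G G.totalDegree le_rfl
    rw [totalDegree_eq_zero_iff_eq_C.1 (show ((optionEquivLeft K σ G).coeff
      G.totalDegree).totalDegree = 0 by omega), optionEquivLeft_coeff_coeff]
    have e : (0 : σ →₀ ℕ).optionElim G.totalDegree = Finsupp.single none G.totalDegree := by
      ext o
      cases o <;> simp
    rw [e, h, C_1]
  exact ⟨Polynomial.monic_of_natDegree_le_of_coeff_eq_one _ h1 h2,
    Polynomial.natDegree_eq_of_le_of_coeff_ne_zero h1 (by rw [h2]; exact one_ne_zero)⟩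

theorem two_pow {K σ : Type} [Field K] (f : MvPolynomial σ K) (hf : f ≠ 0) (n : ℕ) :
    (f ^ n).totalDegree = n * f.totalDegree := by
  induction n with
  | zero => simp
  | succ n ih => rw [pow_succ, totalDegree_mul_of_isDomain (pow_ne_zero _ hf) hf, ih]; ring

theorem two_deg {K σ : Type} [Field K] (f : MvPolynomial σ K) (q : Polynomial (MvPolynomial σ K))
    (hq : q.Monic) (hd : ∀ k < q.natDegree, (q.coeff k).totalDegree + k ≤ q.natDegree)
    (h : q.eval (f ^ 2) = 0) : f.totalDegree = 0 := by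
  by_contra hm
  have hf : f ≠ 0 := fun h0 => hm (by rw [h0, totalDegree_zero])
  rw [Polynomial.eval_eq_sum_range, Finset.sum_range_succ, hq.coeff_natDegree, one_mul,
    add_eq_zero_iff_neg_eq] at h
  rcases Nat.eq_zero_or_pos q.natDegree with h0 | h0
  · rw [h0] at h
    simp at h
  have h1 := congrArg totalDegree h
  rw [totalDegree_neg, ← pow_mul, two_pow f hf] at h1
  have h2 : (∑ k ∈ Finset.range q.natDegree, q.coeff k * (f ^ 2) ^ k).totalDegree ≤
      2 * q.natDegree * f.totalDegree - 1 := by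
    refine totalDegree_finsetSum_le fun k hk => (totalDegree_mul _ _).trans ?_
    have hk' := Finset.mem_range.1 hk
    have h3 := hd k hk'
    rw [← pow_mul, two_pow f hf]
    obtain ⟨j, hj⟩ := Nat.exists_eq_add_of_lt hk'
    obtain ⟨m, hm'⟩ := Nat.exists_eq_succ_of_ne_zero hm
    rw [hj] at h3 ⊢
    rw [hm']
    apply Nat.le_sub_one_of_lt
    simp only [Nat.succ_eq_add_one]
    nlinarith [Nat.zero_le (j * m), Nat.zero_le m]
  have h4 : 0 < 2 * q.natDegree * f.totalDegree := by
    have := Nat.pos_of_ne_zero hm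
    positivity
  omega

theorem two_int {R B : Type} [CommRing R] [IsDomain R] [IsIntegrallyClosed R] [CommRing B]
    [IsDomain B] (φ : R →+* B) (hφ : Function.Injective φ) (g₁ g₂ : R) (x : B) (h2 : φ g₂ ≠ 0)
    (h : φ g₁ = x * φ g₂) (q : Polynomial R) (hq : q.Monic) (hx : q.eval₂ φ (x ^ 2) = 0) :
    ∃ f, φ f = x := by
  have hB := IsFractionRing.injective B (FractionRing B)
  have hi : Function.Injective ((algebraMap B (FractionRing B)).comp φ) := hB.comp hφ
  let ψ : FractionRing R →+* FractionRing B := IsFractionRing.lift hi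
  have hψ : ∀ a, ψ (algebraMap R _ a) = algebraMap B _ (φ a) := fun a =>
    IsFractionRing.lift_algebraMap hi a
  have hr : ψ (algebraMap R _ g₁ / algebraMap R _ g₂) = algebraMap B _ x := by
    have : algebraMap B (FractionRing B) (φ g₂) ≠ 0 := fun h0 => h2 (hB (by rw [h0, map_zero]))
    rw [map_div₀, hψ, hψ, h, map_mul, mul_div_assoc, div_self this, mul_one]
  have hint : IsIntegral R (algebraMap R (FractionRing R) g₁ / algebraMap R _ g₂) := by
    refine IsIntegral.of_pow two_pos ⟨q, hq, ψ.injective ?_⟩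
    have e : ψ.comp (algebraMap R (FractionRing R)) = (algebraMap B (FractionRing B)).comp φ :=
      RingHom.ext hψ
    rw [Polynomial.hom_eval₂, e, map_pow, hr, ← map_pow, ← Polynomial.hom_eval₂, hx, map_zero,
      map_zero]
  obtain ⟨f, hf⟩ := IsIntegrallyClosed.isIntegral_iff.1 hint
  exact ⟨f, hB (by rw [← hψ, hf, hr])⟩

theorem sTwo (K : Type) [Field K] [IsAlgClosed K] : STwo K := by
  intro A B J Ω _ _ _ _ _ _ _ _ _ _ _ _ _ _ i s t θ H hi _ hb hind hH hbir
  by_contra hlt
  have h1 : H.totalDegree = 1 := by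
    have := hH.2.2.1
    omega
  set φ : MvPolynomial (Fin 2) K →ₐ[K] B := aeval ![i s, t] with hφ
  have hinj : Function.Injective φ := hind
  obtain ⟨m1, m2⟩ := two_mon H hH.2.1
  have h0 := (hH.2.2.2 H).2 dvd_rfl
  rw [two_ev, m1.eq_X_add_C (m2.trans h1)] at h0
  set a := (optionEquivLeft K (Fin 2) H).coeff 0
  have hθ : θ = φ (-a) := by
    rw [Polynomial.eval₂_add, Polynomial.eval₂_X, Polynomial.eval₂_C] at h0
    rw [map_neg]
    exact eq_neg_of_add_eq_zero_left h0
  have hev : ∀ G : MvPolynomial (Option (Fin 2)) K,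
      aeval (oe θ ![i s, t]) G = φ (aeval (oe (-a) X) G) := fun G => by
    have e : (aeval (oe θ ![i s, t]) : MvPolynomial (Option (Fin 2)) K →ₐ[K] B) =
        φ.comp (aeval (oe (-a) X)) := by
      ext o
      cases o with
      | none => simp [oe, hθ]
      | some k => simp [oe, hφ]
    rw [e]
    rfl
  obtain ⟨G₁, G₂, g1, g2⟩ := hbir (i (xA K A))
  rw [hev] at g1
  rw [hev, hev] at g2
  obtain ⟨G, k1, k2⟩ := hb
  obtain ⟨n1, n2⟩ := two_mon G k2
  rw [two_ev] at k1
  let κ : MvPolynomial (Fin 1) K →ₐ[K] MvPolynomial (Fin 2) K := rename fun _ => 0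
  have hκ : φ.toRingHom.comp κ.toRingHom =
      i.toRingHom.comp (aeval ![s] : MvPolynomial (Fin 1) K →ₐ[K] A).toRingHom := by
    have : φ.comp κ = i.comp (aeval ![s]) := by
      ext k
      fin_cases k
      simp [κ, hφ]
    exact congrArg AlgHom.toRingHom this
  have hq : ((optionEquivLeft K (Fin 1) G).map κ.toRingHom).eval₂ φ.toRingHom
      (i (xA K A) ^ 2) = 0 := by
    rw [Polynomial.eval₂_map, hκ, ← map_pow]
    have := Polynomial.hom_eval₂ (optionEquivLeft K (Fin 1) G)
      (aeval ![s] : MvPolynomial (Fin 1) K →ₐ[K] A).toRingHom i.toRingHom (xA K A ^ 2)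
    rw [k1, map_zero] at this
    exact this.symm
  obtain ⟨f, hf⟩ := two_int φ.toRingHom hinj _ _ _ g1 g2 _ (n1.map κ.toRingHom) hq
  have hf' : φ f = i (xA K A) := hf
  have hd : f.totalDegree = 0 := by
    refine two_deg f _ (n1.map κ.toRingHom) (fun k hk => ?_) (hinj ?_)
    · rw [n1.natDegree_map, n2] at hk ⊢
      rw [Polynomial.coeff_map]
      exact (Nat.add_le_add_right (totalDegree_rename_le _ _) k).trans
        (totalDegree_coeff_optionEquivLeft_add_le K _ G k hk.le)
    · rw [map_zero, ← hq, ← hf', ← map_pow]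
      exact (Polynomial.eval₂_at_apply φ.toRingHom (f ^ 2)).symm
  rw [totalDegree_eq_zero_iff_eq_C.1 hd, algHom_C, ← i.commutes] at hf'
  have hx := hi hf'
  have hz : (Polynomial.X - Polynomial.C (coeff 0 f) : Polynomial K) • (1 : A) = 0 := by
    rw [Algebra.smul_def, mul_one, map_sub, sub_eq_zero, Polynomial.C_eq_algebraMap,
      ← IsScalarTower.algebraMap_apply]
    exact hx.symm
  rcases smul_eq_zero.1 hz with h | h
  · exact Polynomial.X_sub_C_ne_zero _ h
  · exact one_ne_zero h

end Pool.Agent.MP_a9d3bd_y
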