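import Pool.Agent.MP_a9d3bd_y.TSt
import Pool.Agent.MP_a9d3bd_y.It

namespace Pool.Agent.MP_a9d3bd_y

open MvPolynomial Pool.Agent.MP_a9d3bd_h Pool.Agent.MP_a9d3bd_q Pool.Agent.MP_a9d3bd_g

theorem tbas_ev {A B : Type} [CommRing A] [CommRing B] (C : Subring B) (ρ : A →+* B) (t : B)
    (h : ∀ a, ρ a ∈ C) (ht : t ∈ C) (f : Polynomial A) : f.eval₂ ρ t ∈ C := by
  induction f using Polynomial.induction_on' with
  | add f g hf hg => rw [Polynomial.eval₂_add]; exact C.add_mem hf hg
  | monomial n a => rw [Polynomial.eval₂_monomial]; exact C.mul_mem (h a) (C.pow_mem ht n)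

theorem tbas_root {K A B : Type} [Field K] [CommRing A] [CommRing B] [Algebra K B]
    (R : Subalgebra K B) (ρ : A →+* B) (h : ∀ a, IsIntegral R (ρ a)) (P : Polynomial A)
    (hP : P.Monic) (hd : 0 < P.degree) [Nontrivial B] (t : B)
    (ht : IsIntegral R (P.eval₂ ρ t)) : IsIntegral R t := by
  refine isIntegral_trans (R := R) (A := integralClosure R B) _
    ⟨P.map (ρ.codRestrict (integralClosure R B) h) - Polynomial.C ⟨_, ht⟩,
      (hP.map _).sub_of_left (Polynomial.degree_C_le.trans_lt (by rwa [hP.degree_map])), ?_⟩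
  rw [Polynomial.eval₂_sub, Polynomial.eval₂_map, Polynomial.eval₂_C]
  exact sub_self _

theorem tbas_all {K A B : Type} [Field K] [CommRing A] [Algebra K A] [CommRing B] [Algebra K B]
    [Nontrivial B] {P : Polynomial (Polynomial A)} {i : A →ₐ[K] B} {T Θ : B} (hP : P.Monic)
    (hS : Sg P i T Θ) (R : Subalgebra K B) (h : ∀ a, IsIntegral R (i a)) (hT : IsIntegral R T)
    (b : B) : IsIntegral R b := by
  have h1 : ∀ f, IsIntegral R (Polynomial.eval₂RingHom (i : A →+* B) T f) :=
    tbas_ev (integralClosure R B).toSubring _ T h hT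
  have h2 : IsIntegral R Θ :=
    isIntegral_trans (R := R) (A := integralClosure R B) _
      ⟨P.map ((Polynomial.eval₂RingHom (i : A →+* B) T).codRestrict (integralClosure R B) h1),
        hP.map _, by rw [Polynomial.eval₂_map]; exact hS.on⟩
  obtain ⟨G, rfl⟩ := hS.gen b
  exact tbas_ev (integralClosure R B).toSubring _ Θ h1 h2 G

theorem tbas_up {K A B : Type} [Field K] [CommRing A] [Algebra K A] [CommRing B] [Algebra K B]
    (i : A →ₐ[K] B) {s : A} (hI : It K ![s]) (z : B) (a : A) :
    IsIntegral (Algebra.adjoin K (Set.range ![i s, z])) (i a) := by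
  have m0 : ∀ y : Algebra.adjoin K (Set.range ![s]),
      i y ∈ Algebra.adjoin K (Set.range ![i s, z]) := by
    intro y
    have h1 : i y ∈ (Algebra.adjoin K (Set.range ![s])).map i := ⟨y, y.2, rfl⟩
    rw [AlgHom.map_adjoin] at h1
    refine Algebra.adjoin_mono ?_ h1
    rintro _ ⟨_, ⟨j, rfl⟩, rfl⟩
    fin_cases j
    exact ⟨0, rfl⟩
  exact (hI a).map_of_comp_eq
    (((i : A →+* B).comp (algebraMap (Algebra.adjoin K (Set.range ![s])) A)).codRestrict _ m0)
    (i : A →+* B) (RingHom.ext fun _ => rfl)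

theorem tbas_snd {K B : Type} [Field K] [CommRing B] [Algebra K B] (y z : B) :
    IsIntegral (Algebra.adjoin K (Set.range ![y, z])) z :=
  isIntegral_algebraMap
    (x := (⟨z, Algebra.subset_adjoin ⟨1, rfl⟩⟩ : Algebra.adjoin K (Set.range ![y, z])))

theorem tBas (K : Type) [Field K] [IsAlgClosed K] : TBas K := by
  intro A B J _ _ _ _ _ _ _ _ _ _ _ P i T Θ hP hS
  have fA : Algebra.FiniteType K A :=
    Algebra.FiniteType.trans (inferInstance : Algebra.FiniteType K (Polynomial K)) inferInstance
  have fB : Algebra.FiniteType K B := by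
    have f1 : Algebra.FiniteType K (Polynomial A) := fA.trans inferInstance
    have f2 : Algebra.FiniteType K (Polynomial (Polynomial A)) := f1.trans inferInstance
    refine f2.of_surjective { ev i T Θ with commutes' := fun k => ?_ } hS.gen
    simp [ev, Polynomial.algebraMap_apply]
  have hi : Function.Injective i := (injective_iff_map_eq_zero i).2 fun a ha =>
    Polynomial.C_eq_zero.1 (hS.tr (Polynomial.C a) (by rw [Polynomial.eval₂_C]; exact ha))
  have ex : ∀ p : Polynomial K,
      Polynomial.aeval (MP_a9d3bd_yy.xA K A) p = algebraMap (Polynomial K) A p := fun p => by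
    rw [Polynomial.aeval_algebraMap_apply, Polynomial.aeval_X_left_apply]
  have hx : Transcendental K (MP_a9d3bd_yy.xA K A) := by
    rw [transcendental_iff]
    intro p hp
    rw [ex] at hp
    exact (map_eq_zero_iff _ (FaithfulSMul.algebraMap_injective (Polynomial K) A)).1 hp
  have ix : It K ![MP_a9d3bd_yy.xA K A] := fun a => by
    have m : ∀ p, algebraMap (Polynomial K) A p ∈
        Algebra.adjoin K (Set.range ![MP_a9d3bd_yy.xA K A]) := fun p => by
      rw [← ex]
      refine Algebra.adjoin_mono ?_ (Polynomial.aeval_mem_adjoin_singleton K _)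
      rintro _ rfl
      exact ⟨0, rfl⟩
    exact (Algebra.IsIntegral.isIntegral (R := Polynomial K) a).map_of_comp_eq
      ((algebraMap (Polynomial K) A).codRestrict _ m) (RingHom.id A) (RingHom.ext fun _ => rfl)
  refine ⟨fA, fB, hi, tbas_all hP hS _ (tbas_up i ix T) (tbas_snd _ _),
    fun s η a c M hI hM => ?_⟩
  have hs : Transcendental K s := by
    intro h
    have : Algebra.IsIntegral K (Algebra.adjoin K (Set.range ![s])) :=
      Algebra.IsIntegral.adjoin (by rintro _ ⟨j, rfl⟩; fin_cases j; exact h.isIntegral)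
    exact hx (isIntegral_trans (R := K) _ (hI _)).isAlgebraic
  obtain ⟨f, hf⟩ : ∃ f : Polynomial A, f = Polynomial.X ^ M +
      (Polynomial.C (algebraMap K A a) * Polynomial.X + Polynomial.C (c • η)) := ⟨_, rfl⟩
  have lt : (Polynomial.C (algebraMap K A a) * Polynomial.X + Polynomial.C (c • η)).degree <
      (M : WithBot ℕ) := Polynomial.degree_linear_le.trans_lt (by exact_mod_cast hM)
  have fm : f.Monic := hf ▸ Polynomial.monic_X_pow_add lt
  have fd : f.degree = M := by
    rw [hf, Polynomial.degree_add_eq_left_of_degree_lt (by rwa [Polynomial.degree_X_pow]),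
      Polynomial.degree_X_pow]
  have f0 : 0 < f.degree := by rw [fd]; exact_mod_cast (by omega : 0 < M)
  have fe : f.eval₂ (i : A →+* B) T = T ^ M + a • T + c • i η := by
    simp [hf, Algebra.smul_def, add_assoc]
  have tr' : ∀ g : Polynomial A, g.eval₂ (i : A →+* B) (T ^ M + a • T + c • i η) = 0 → g = 0 := by
    intro g hg
    rcases Polynomial.comp_eq_zero_iff.1
      (hS.tr (g.comp f) (by rw [Polynomial.eval₂_comp, fe, hg])) with h | h
    · exact h
    · rw [h.2] at f0
      exact absurd Polynomial.degree_C_le (not_le.2 f0)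
  refine ⟨hs, it_ind i hi _ tr' s hs, tbas_all hP hS _ (tbas_up i hI _) ?_⟩
  refine tbas_root _ (i : A →+* B) (tbas_up i hI _) f fm f0 T ?_
  rw [fe]
  exact tbas_snd _ _

end Pool.Agent.MP_a9d3bd_y
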