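import Pool.Agent.MP_a9d3bd_y.TSt2
import Pool.Agent.MP_a9d3bd_y.TBas

namespace Pool.Agent.MP_a9d3bd_y

open MvPolynomial Pool.Agent.MP_a9d3bd_h Pool.Agent.MP_a9d3bd_q Pool.Agent.MP_a9d3bd_g

theorem uBas (K : Type) [Field K] [IsAlgClosed K] : UBas K := by
  intro A B J _ _ _ _ _ _ _ _ _ _ _ P i T Θ hP hS
  obtain ⟨fA, fB, hi, h4, h5⟩ := tBas K A B J P i T Θ hP hS
  refine ⟨fA, fB, hi, h4, fun s hI => ?_⟩
  have hs : Transcendental K s := (h5 s 0 0 0 2 hI le_rfl).1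
  exact ⟨hs, it_ind i hi _ hS.tr s hs, tbas_all hP hS _ (tbas_up i hI _) (tbas_snd _ _)⟩

end Pool.Agent.MP_a9d3bd_y
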