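import Pool.Agent.MP_a9d3bd_y.TSt2

namespace Pool.Agent.MP_a9d3bd_y

open MvPolynomial Pool.Agent.MP_a9d3bd_h Pool.Agent.MP_a9d3bd_q Pool.Agent.MP_a9d3bd_g
open Pool.Agent.MP_a9d3bd_yy (xA Dvs)

theorem ucho_fib {K : Type} [Field K] (h2 : SFib K) {B σ Ω : Type} [CommRing B] [Algebra K B]
    [Field Ω] [Algebra K Ω] [Finite σ] (v : σ → B) (hf : Algebra.FiniteType K B) (hi : It K v)
    {U : Set Ω} (hU : U.Finite) : {τ : B →ₐ[K] Ω | ∀ k, τ (v k) ∈ U}.Finite := by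
  refine ((Set.Finite.pi' fun _ : σ => hU).biUnion fun ω _ => h2 B σ Ω v ω hf hi).subset ?_
  intro τ hτ
  exact Set.mem_biUnion (x := fun k => τ (v k)) hτ fun _ => rfl

theorem ucho_sec {K A B : Type} [Field K] [CommRing A] [Algebra K A] [CommRing B] [Algebra K B]
    (f : B →ₐ[K] A) (i : A →ₐ[K] B) (h : ∀ a, f (i a) = a) (T Θ : B)
    (Q : Polynomial (Polynomial A)) : f (ev i T Θ Q) = Q.evalEval (f T) (f Θ) := by
  have : (f : B →+* A).comp (ev i T Θ) = Polynomial.evalEvalRingHom (f T) (f Θ) := by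
    refine Polynomial.ringHom_ext' (Polynomial.ringHom_ext (fun a => ?_) ?_) ?_ <;> simp [ev, h]
  exact congrArg (fun g => g Q) this

theorem ucho_top {K A B : Type} [Field K] [CommRing A] [Algebra K A] [CommRing B] [Algebra K B]
    (i : A →ₐ[K] B) (T Θ : B) (hs : Function.Surjective (ev i T Θ)) (G : Set A)
    (hG : Algebra.adjoin K G = ⊤) : Algebra.adjoin K (i '' G ∪ {T, Θ}) = ⊤ := by
  rw [eq_top_iff]
  rintro b -
  obtain ⟨Q, rfl⟩ := hs b
  have ha : ∀ a, i a ∈ Algebra.adjoin K (i '' G ∪ {T, Θ}) := fun a => by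
    refine Algebra.adjoin_mono Set.subset_union_left ?_
    rw [← AlgHom.map_adjoin, hG]
    exact ⟨a, trivial, rfl⟩
  have hT : T ∈ Algebra.adjoin K (i '' G ∪ {T, Θ}) := Algebra.subset_adjoin (by simp)
  have hΘ : Θ ∈ Algebra.adjoin K (i '' G ∪ {T, Θ}) := Algebra.subset_adjoin (by simp)
  induction Q using Polynomial.induction_on with
  | C q =>
    induction q using Polynomial.induction_on with
    | C a => simpa [ev] using ha a
    | add p q hp hq =>
      rw [map_add, map_add]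
      exact add_mem hp hq
    | monomial n a h =>
      rw [pow_succ, ← mul_assoc, map_mul, map_mul]
      exact mul_mem h (by simpa [ev] using hT)
  | add p q hp hq =>
    rw [map_add]
    exact add_mem hp hq
  | monomial n a h =>
    rw [pow_succ, ← mul_assoc, map_mul]
    exact mul_mem h (by simpa [ev] using hΘ)

theorem ucho_it {K B σ : Type} [Field K] [CommRing B] [Algebra K B] (v : σ → B) (G : Set B)
    (hG : Algebra.adjoin K G = ⊤)
    (h : ∀ b ∈ G, IsIntegral (Algebra.adjoin K (Set.range v)) b) : It K v := by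
  intro b
  have hb : b ∈ Algebra.adjoin K G := hG ▸ trivial
  induction hb using Algebra.adjoin_induction with
  | mem x hx => exact h x hx
  | algebraMap r =>
    rw [IsScalarTower.algebraMap_apply K (Algebra.adjoin K (Set.range v)) B]
    exact isIntegral_algebraMap
  | add x y _ _ hx hy => exact hx.add hy
  | mul x y _ _ hx hy => exact hx.mul hy

theorem uCho (K : Type) [Field K] [IsAlgClosed K] (h1 : TSel K) (h2 : SBval K) (h3 : TFin K)
    (h4 : SFib K) (h5 : SEta K) (h6 : UAv K) (h7 : UBas K) (h8 : ULeb K) (h9 : UDer K)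
    (h10 : TLe K) (h11 : URf K) (h12 : UInd K) (h13 : USp K) : UCho K := by
  classical
  intro A B J _ _ _ _ _ _ _ _ _ _ _ p hp _ P i T Θ φ ν N hJ hy
  have hK : Infinite K := inferInstance
  have hp0 : 0 < p := hp.out.pos
  obtain ⟨ftA, ftB, inj, itT, hbas⟩ := h7 A B J P i T Θ hy.mon hy.sg
  obtain ⟨n, hn⟩ := (h10 B (Fin 2) ![i (xA K A), T] Θ).1 (itT Θ)
  obtain ⟨M, hMn, hM0⟩ : ∃ M : ℕ, (n + 1) * p < M ∧ (M : K) = 0 := by
    refine ⟨p ^ ((n + 1) * p), Nat.lt_pow_self hp.out.one_lt, ?_⟩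
    rw [Nat.cast_pow, CharP.cast_eq_zero, zero_pow (Nat.mul_pos n.succ_pos hp0).ne']
  obtain ⟨G0, hG0⟩ := ftA.out
  let G : Finset A := G0 ∪ Finset.univ.image (fun j => φ j T) ∪
    Finset.univ.image fun j => φ j Θ
  have hG : Algebra.adjoin K (G : Set A) = ⊤ := by
    rw [eq_top_iff, ← hG0]
    exact Algebra.adjoin_mono fun a ha => by simp [G, Finset.mem_coe.1 ha]
  let G' : Finset A := G.image (· ^ p) ∪ {xA K A ^ 2, xA K A ^ M, xA K A ^ (N * M)} ∪
    Finset.univ.image fun j => φ j T ^ M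
  let S : Finset (A →ₐ[K] K) := Finset.univ.biUnion fun j => (ν j).support
  have hS : ∀ j, ∀ β ∈ (ν j).support, β ∈ S := fun j β h =>
    Finset.mem_biUnion.2 ⟨j, Finset.mem_univ _, h⟩
  obtain ⟨s, e, hit, he, hle0, hur⟩ := h1 A hy.sr S G'
  have hle : ∀ b ∈ G', Le K ![s] b 1 := fun b hb => hle0 b (Submodule.subset_span hb)
  have hlp : ∀ b ∈ (G : Set A), Le K ![s] (b ^ p) 1 := fun b hb => hle _
    (Finset.mem_union_left _ (Finset.mem_union_left _ (Finset.mem_image_of_mem _ hb)))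
  have hx2 : Le K ![s] (xA K A ^ 2) 1 := hle _ (by simp [G'])
  have hxM : Le K ![s] (xA K A ^ M) 1 := hle _ (by simp [G'])
  have hxN : Le K ![s] (xA K A ^ (N * M)) 1 := hle _ (by simp [G'])
  obtain ⟨htr, hind0, hit0⟩ := hbas s hit
  have hφD : ∀ j, φ j (ev i T Θ (Polynomial.derivative P)) =
      (Polynomial.derivative P).evalEval (φ j T) (φ j Θ) := fun j => ucho_sec _ _ (hy.sec j) _ _ _
  have hD0 : ev i T Θ (Polynomial.derivative P) ≠ 0 := fun h => by
    obtain ⟨j⟩ := hJ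
    exact hy.adm j (by rw [← hφD, h, map_zero])
  have hD : e * ∏ j, (Polynomial.derivative P).evalEval (φ j T) (φ j Θ) ≠ 0 :=
    mul_ne_zero he (Finset.prod_ne_zero_iff.2 fun j _ => hy.adm j)
  obtain ⟨s₀, hs₀⟩ := (((h3 A _ hD).image fun β => β s).union
    (h11 B (i s) T _ ftB hind0 hit0 hD0)).infinite_compl.nonempty
  have k0 : ∀ β : A →ₐ[K] K, β s = s₀ →
      β e ≠ 0 ∧ ∀ j, β ((Polynomial.derivative P).evalEval (φ j T) (φ j Θ)) ≠ 0 := by
    intro β h
    have : β (e * ∏ j, (Polynomial.derivative P).evalEval (φ j T) (φ j Θ)) ≠ 0 :=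
      fun h' => hs₀ (Or.inl ⟨β, h', h⟩)
    rw [map_mul, map_prod, mul_ne_zero_iff, Finset.prod_ne_zero_iff] at this
    exact ⟨this.1, fun j => this.2 j (Finset.mem_univ _)⟩
  have hR : {ξ : B →ₐ[K] K | ξ (i s) = s₀ ∧ ξ (ev i T Θ (Polynomial.derivative P)) = 0}.Finite := by
    by_contra h
    exact hs₀ (Or.inr h)
  have hU : (insert s₀ ((fun β : A →ₐ[K] K => β s) '' (S : Set (A →ₐ[K] K)))).Finite :=
    (S.finite_toSet.image _).insert _
  have hΦ := ucho_fib h4 ![s] ftA hit hU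
  set Φ := {τ : A →ₐ[K] K | ∀ k, τ ((![s] : Fin 1 → A) k) ∈
    insert s₀ ((fun β : A →ₐ[K] K => β s) '' (S : Set (A →ₐ[K] K)))} with hΦd
  have m1 : ∀ τ : A →ₐ[K] K, τ s = s₀ → τ ∈ Φ := fun τ h k => by
    fin_cases k
    exact Or.inl h
  have m2 : ∀ j, ∀ β ∈ (ν j).support, β ∈ Φ := fun j β hβ k => by
    fin_cases k
    exact Or.inr ⟨β, hS j β hβ, rfl⟩
  have m3 : ∀ τ ∈ Φ, ∀ τ' : A →ₐ[K] K, τ' s = τ s → τ' ∈ Φ := fun τ hτ τ' h k => by
    have := hτ k
    fin_cases k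
    change τ' s ∈ _
    rw [h]
    exact this
  have hc : ((G.image i ∪ {T, Θ} : Finset B) : Set B) = i '' (G : Set A) ∪ {T, Θ} := by
    rw [Finset.coe_union, Finset.coe_image, Finset.coe_pair]
  have htop := ucho_top i T Θ hy.sg.gen _ hG
  have hX := ((Set.finite_univ.prod hΦ).image
    fun t : J × (A →ₐ[K] K) => t.2.comp (φ t.1)).union hR
  obtain ⟨u, hu, hsu⟩ := h5 B K _ (G.image i ∪ {T, Θ}) hK hX (by rw [hc]; exact htop)
  rw [hc] at hu
  obtain ⟨a, hinj⟩ := h6 _ _ (fun ξ : B →ₐ[K] K => ξ T ^ M + ξ T) (fun ξ => ξ u ^ p) hX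
    fun ξ hξ ξ' hξ' h => hsu ξ hξ ξ' hξ' (frobenius_inj K p h)
  have hz : ∀ ξ : B →ₐ[K] K, ξ (T ^ M + T + a • u ^ p) = ξ T ^ M + ξ T + a * ξ u ^ p :=
    fun ξ => by simp
  have hleb := fun θ hθ => h8 A B J i T Θ u θ s a (n + 1) p M N (G : Set A) n.succ_pos hp0 hMn
    (hn _ n.le_succ) hlp hxM hxN hu hθ
  have hitB : It K ![i s, T ^ M + T + a • u ^ p] := ucho_it _ _ htop fun b hb =>
    (h2 B (Fin 2) _ b ((h10 B (Fin 2) _ b).2 inferInstance
      (hleb b (Submodule.subset_span hb)).1)).1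
  have hind := h12 B _ _ hind0 hitB
  have hV : (insert s₀ ((fun β : A →ₐ[K] K => β s) '' (S : Set (A →ₐ[K] K))) ∪
      (fun t : J × (A →ₐ[K] K) => t.2 (φ t.1 (T ^ M + T + a • u ^ p))) ''
        (Set.univ ×ˢ Φ)).Finite := hU.union ((Set.finite_univ.prod hΦ).image _)
  have hΨ := ucho_fib h4 ![i s, T ^ M + T + a • u ^ p] ftB hitB hV
  obtain ⟨θ, hθ, hsθ⟩ := h5 B K _ (G.image i ∪ {T, Θ}) hK hΨ (by rw [hc]; exact htop)
  rw [hc] at hθ
  obtain ⟨hb2, hinf⟩ := hleb θ hθ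
  have hci : ∀ j (β : A →ₐ[K] K), (β.comp (φ j)).comp i = β := fun j β =>
    AlgHom.ext fun b => congrArg β (hy.sec j b)
  refine ⟨s, s₀, ![i s, T ^ M + T + a • u ^ p, θ], rfl, hy.sec, ftA, ftB, inj, htr, hit,
    hx2, hind, hitB, itT, hb2, fun j => ?_, hinf,
    fun j β hβ => ⟨?_, fun β' h h' => ?_⟩, fun j β ξ h => ⟨?_, fun ξ' h' => ?_⟩⟩
  · change Le K ![s] (φ j (T ^ M + T + a • u ^ p)) 1
    have q1 : φ j u ∈ Submodule.span K (G : Set A) := by
      have : Submodule.span K (i '' (G : Set A) ∪ {T, Θ}) ≤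
          (Submodule.span K (G : Set A)).comap (φ j).toLinearMap := by
        refine Submodule.span_le.2 ?_
        rintro b (⟨b, hb, rfl⟩ | rfl | rfl)
        · refine Submodule.subset_span ?_
          change φ j (i b) ∈ _
          rwa [hy.sec]
        · exact Submodule.subset_span (by simp [G])
        · exact Submodule.subset_span (by simp [G])
      exact this hu
    have q2 := (h13 A _ ![s] _ p hp0 hlp _ q1).1
    have q3 := (h13 A _ ![s] _ p hp0 hlp (φ j T) (Submodule.subset_span (by simp [G]))).2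
    have q4 : Le K ![s] (φ j T ^ M) 1 := hle _ (Finset.mem_union_right _
      (Finset.mem_image_of_mem (fun j => φ j T ^ M) (Finset.mem_univ j)))
    rw [map_add, map_add, map_pow, map_smul, map_pow]
    refine (h13 A _ ![s] {φ j T ^ M, φ j T, φ j u ^ p} 1 one_pos ?_ _ (add_mem (add_mem
      (Submodule.subset_span (by simp)) (Submodule.subset_span (by simp)))
      (Submodule.smul_mem _ _ (Submodule.subset_span (by simp))))).2
    rintro b (rfl | rfl | rfl) <;> rw [pow_one] <;> assumption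
  · exact hur β (hβ.imp (hS j β) fun h => (k0 β h).1)
  · have hb : β ∈ Φ := hβ.elim (m2 j β) (m1 β)
    have hb' := m3 β hb β' h
    have := hinj (Or.inl ⟨(j, β'), ⟨trivial, hb'⟩, rfl⟩) (Or.inl ⟨(j, β), ⟨trivial, hb⟩, rfl⟩)
      (((hz (β'.comp (φ j))).symm.trans h').trans (hz (β.comp (φ j))))
    rw [← hci j β', ← hci j β]
    exact congrArg (fun f : B →ₐ[K] K => f.comp i) this
  · change Ur ![i s, T ^ M + T + a • u ^ p] ξ
    rcases h with ⟨hβ, rfl⟩ | ⟨hβ, e0, e1⟩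
    · refine h9 A B P i T Θ u s a M p _ hy.sg hM0 (CharP.cast_eq_zero K p) ?_ ?_
      · rw [hci]
        exact hur β (Or.inl (hS j β hβ))
      · rw [AlgHom.comp_apply, hφD]
        exact hy.sep j β hβ
    · have e0' : (ξ.comp i) s = s₀ := e0
      refine h9 A B P i T Θ u s a M p _ hy.sg hM0 (CharP.cast_eq_zero K p)
        (hur _ (Or.inr (k0 _ e0').1)) fun h0 => ?_
      have : ξ = β.comp (φ j) := hinj (Or.inr ⟨e0, h0⟩)
        (Or.inl ⟨(j, β), ⟨trivial, m1 β hβ⟩, rfl⟩)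
        (((hz ξ).symm.trans e1).trans (hz (β.comp (φ j))))
      rw [this, AlgHom.comp_apply, hφD] at h0
      exact (k0 β hβ).2 j h0
  · have hξ : ∀ k, ξ ((![i s, T ^ M + T + a • u ^ p] : Fin 2 → B) k) ∈
        insert s₀ ((fun β : A →ₐ[K] K => β s) '' (S : Set (A →ₐ[K] K))) ∪
      (fun t : J × (A →ₐ[K] K) => t.2 (φ t.1 (T ^ M + T + a • u ^ p))) ''
        (Set.univ ×ˢ Φ) := by
      intro k
      rcases h with ⟨hβ, rfl⟩ | ⟨hβ, e0, e1⟩
      · fin_cases k
        · exact Or.inl (Or.inr ⟨β, hS j β hβ, (congrArg β (hy.sec j s)).symm⟩)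
        · exact Or.inr ⟨(j, β), ⟨trivial, m2 j β hβ⟩, rfl⟩
      · fin_cases k
        · exact Or.inl (Or.inl e0)
        · exact Or.inr ⟨(j, β), ⟨trivial, m1 β hβ⟩, e1.symm⟩
    refine hsθ ξ' (fun k => ?_) ξ hξ (h' 2)
    have := hξ k
    fin_cases k
    · exact (h' 0).symm ▸ this
    · exact (h' 1).symm ▸ this

end Pool.Agent.MP_a9d3bd_y
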