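import Pool.Agent.MP_a9d3bd_y.TSt

namespace Pool.Agent.MP_a9d3bd_y

open MvPolynomial Pool.Agent.MP_a9d3bd_h Pool.Agent.MP_a9d3bd_q Pool.Agent.MP_a9d3bd_g

section
variable {K B : Type} [Field K] [CommRing B] [Algebra K B] {ξ : B →ₐ[K] K} {δ : B →ₗ[K] K}

theorem tder_pow (h : Der ξ δ) (T : B) (n : ℕ) : δ (T ^ n) = n * ξ T ^ (n - 1) * δ T := by
  induction n with
  | zero => simp [h.one]
  | succ n ih =>
    rw [pow_succ, h, ih, map_pow]
    cases n with
    | zero => simp
    | succ m =>
      simp only [Nat.add_sub_cancel]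
      push_cast
      ring

theorem tder_ev {R : Type} [CommRing R] (h : Der ξ δ) (j : R →+* B) (hj : ∀ r, δ (j r) = 0)
    (T : B) (f : Polynomial R) :
    δ (f.eval₂ j T) = ξ ((Polynomial.derivative f).eval₂ j T) * δ T := by
  induction f using Polynomial.induction_on' with
  | add p q hp hq =>
    rw [Polynomial.eval₂_add, map_add, hp, hq, map_add, Polynomial.eval₂_add, map_add, add_mul]
  | monomial k a =>
    rw [Polynomial.derivative_monomial, Polynomial.eval₂_monomial, Polynomial.eval₂_monomial, h,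
      hj, tder_pow h]
    simp only [map_mul, map_natCast, map_pow]
    ring

end

theorem tDer (K : Type) [Field K] [IsAlgClosed K] : TDer K := by
  intro A B _ _ _ _ P i T Θ s η a c M ξ sg hM ha hU hP δ hδ hv
  have h1 : ∀ r, δ (i r) = 0 := fun r => by
    have := hU (δ ∘ₗ i.toLinearMap) (fun u v => by simpa using hδ (i u) (i v)) fun k => by
      fin_cases k
      simpa using hv 0
    exact LinearMap.congr_fun this r
  have h2 : δ T = 0 := by
    have := hv 1
    simp only [Matrix.cons_val_one, Matrix.cons_val_zero, map_add, map_smul, tder_pow hδ, h1, hM,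
      zero_mul, zero_add, mul_zero, add_zero, smul_eq_mul] at this
    exact (mul_eq_zero.1 this).resolve_left ha
  have h3 : ∀ f : Polynomial A, δ (Polynomial.eval₂RingHom (i : A →+* B) T f) = 0 := fun f => by
    rw [Polynomial.coe_eval₂RingHom, tder_ev hδ (i : A →+* B) h1, h2, mul_zero]
  have h4 : ∀ G, δ (ev i T Θ G) = ξ (ev i T Θ (Polynomial.derivative G)) * δ Θ := fun G =>
    tder_ev hδ _ h3 Θ G
  have h5 : δ Θ = 0 := by
    have := h4 P
    rw [sg.on, map_zero] at this
    exact (mul_eq_zero.1 this.symm).resolve_left hP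
  ext b
  obtain ⟨G, rfl⟩ := sg.gen b
  rw [h4, h5, mul_zero, LinearMap.zero_apply]

end Pool.Agent.MP_a9d3bd_y
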