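import Pool.Agent.MP_a9d3bd_y.TSt2
import Pool.Agent.MP_a9d3bd_y.TDer

namespace Pool.Agent.MP_a9d3bd_y

open MvPolynomial Pool.Agent.MP_a9d3bd_h Pool.Agent.MP_a9d3bd_q Pool.Agent.MP_a9d3bd_g

theorem uDer (K : Type) [Field K] [IsAlgClosed K] : UDer K := by
  intro A B _ _ _ _ P i T Θ u s a M p ξ sg hM hp hU hP δ hδ hv
  have h2 : δ T = 0 := by
    have := hv 1
    simpa only [Matrix.cons_val_one, Matrix.cons_val_zero, map_add, map_smul, tder_pow hδ, hM, hp,
      zero_mul, zero_add, mul_zero, add_zero, smul_eq_mul] using this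
  refine tDer K A B P i T Θ s 0 1 0 M ξ sg hM one_ne_zero hU hP δ hδ fun k => ?_
  fin_cases k
  · exact hv 0
  · simp [tder_pow hδ, h2]

end Pool.Agent.MP_a9d3bd_y
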