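import Pool.Agent.MP_a9d3bd_y.TSt2

namespace Pool.Agent.MP_a9d3bd_y

open MvPolynomial Pool.Agent.MP_a9d3bd_h Pool.Agent.MP_a9d3bd_q Pool.Agent.MP_a9d3bd_g

theorem uind_a (K : Type) [Field K] (B : Type) [CommRing B] [IsDomain B] [Algebra K B]
    (v w : Fin 2 → B) (hv : AlgebraicIndependent K v)
    (hw : ∀ b : B, IsIntegral (Algebra.adjoin K (Set.range w)) b) : AlgebraicIndependent K w := by
  have : Algebra.IsAlgebraic (Algebra.adjoin K (Set.range w)) B := ⟨fun b => (hw b).isAlgebraic⟩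
  exact (Algebra.IsAlgebraic.isTranscendenceBasis_of_le_trdeg_of_finite K w
    hv.cardinalMk_le_trdeg).1

theorem uind_b (K : Type) [Field K] [Infinite K] (X : Type) (S : Set X) (f h : X → K)
    (hS : S.Finite) (hh : Set.InjOn h S) : ∃ a : K, Set.InjOn (fun x => f x + a * h x) S := by
  obtain ⟨a, ha⟩ := ((hS.prod hS).image
    fun z : X × X => (f z.2 - f z.1) / (h z.1 - h z.2)).exists_notMem
  refine ⟨a, fun x hx y hy e => ?_⟩
  by_contra hne
  have h1 : h x - h y ≠ 0 := sub_ne_zero.2 fun e' => hne (hh hx hy e')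
  refine ha ⟨(x, y), ⟨hx, hy⟩, ?_⟩
  have e1 : f x + a * h x = f y + a * h y := e
  change (f y - f x) / (h x - h y) = a
  rw [div_eq_iff h1]
  linear_combination -e1

theorem uInd (K : Type) [Field K] [IsAlgClosed K] : UInd K :=
  fun B _ _ _ v w hv hw => uind_a K B v w hv hw

theorem uAv (K : Type) [Field K] [IsAlgClosed K] : UAv K :=
  fun X S f h hS hh => uind_b K X S f h hS hh

end Pool.Agent.MP_a9d3bd_y
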