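import Pool.Agent.MP_a9d3bd_y.TSt

namespace Pool.Agent.MP_a9d3bd_y

open MvPolynomial Pool.Agent.MP_a9d3bd_h Pool.Agent.MP_a9d3bd_q Pool.Agent.MP_a9d3bd_g
open Pool.Agent.MP_a9d3bd_yy (xA)

section
variable {K A B Ω : Type} [Field K] [CommRing A] [Algebra K A] [CommRing B] [Algebra K B]
  [Field Ω] {ψ : B →+* Ω} {V : ValuationSubring Ω}

theorem tleb_smul (hk : ∀ k, ψ (algebraMap K B k) ∈ V) (a : K) (b : B) :
    V.valuation (ψ (a • b)) ≤ V.valuation (ψ b) := by
  rw [Algebra.smul_def, map_mul, map_mul]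
  exact mul_le_of_le_one_left' ((V.valuation_le_one_iff _).2 (hk a))

theorem tleb_A (hk : ∀ k, ψ (algebraMap K B k) ∈ V) (i : A →ₐ[K] B) {s b : A}
    (h : Le K ![s] b 1) {g : V.ValueGroup} (hg : 1 ≤ g) (hs : V.valuation (ψ (i s)) ≤ g) :
    V.valuation (ψ (i b)) ≤ g := by
  have a := h Ω (ψ.comp (i : A →+* B)) V (fun k => by simpa using hk k) g hg fun k => by
    fin_cases k
    exact hs
  rwa [pow_one] at a

theorem tleb_T {T : B} {M : ℕ} (hM : 2 ≤ M) {g : V.ValueGroup} (hg : 1 ≤ g)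
    (hT : V.valuation (ψ T) ^ M ≤ g) : V.valuation (ψ T) ≤ g := by
  rcases le_total (V.valuation (ψ T)) 1 with h | h
  · exact h.trans hg
  · exact (le_self_pow₀ h (by omega)).trans hT

theorem tleb_span (hk : ∀ k, ψ (algebraMap K B k) ∈ V) (i : A →ₐ[K] B) {s x : A} {T Θ θ : B}
    {M : ℕ} {G : Set A} (hM : 2 ≤ M) (hΘ : Le K ![i x, T] Θ M) (hG : ∀ b ∈ G, Le K ![s] b 1)
    (hx : Le K ![s] (x ^ M) 1) (hθ : θ ∈ Submodule.span K (i '' G ∪ {T, Θ}))
    {g : V.ValueGroup} (hg : 1 ≤ g) (hs : V.valuation (ψ (i s)) ≤ g)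
    (hT : V.valuation (ψ T) ^ M ≤ g) : V.valuation (ψ θ) ≤ g := by
  induction hθ using Submodule.span_induction with
  | mem y hy =>
    rcases hy with ⟨b, hb, rfl⟩ | rfl | rfl
    · exact tleb_A hk i (hG b hb) hg hs
    · exact tleb_T hM hg hT
    · have a := tleb_A hk i hx hg hs
      rw [map_pow, map_pow, map_pow] at a
      refine (hΘ Ω ψ V hk (max 1 (max (V.valuation (ψ (i x))) (V.valuation (ψ T))))
        (le_max_left _ _) fun k => ?_).trans ?_
      · fin_cases k
        · exact le_max_of_le_right (le_max_left _ _)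
        · exact le_max_of_le_right (le_max_right _ _)
      · rcases max_choice 1 (max (V.valuation (ψ (i x))) (V.valuation (ψ T))) with h | h
        · rw [h, one_pow]; exact hg
        · rw [h]
          rcases max_choice (V.valuation (ψ (i x))) (V.valuation (ψ T)) with h | h
          · rw [h]; exact a
          · rw [h]; exact hT
  | zero => simp
  | add y y' _ _ h h' =>
    rw [map_add]
    exact V.valuation.map_add_le h h'
  | smul a y _ h => exact (tleb_smul hk a y).trans h

end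

theorem tLeb (K : Type) [Field K] [IsAlgClosed K] : TLeb K := by
  intro A B J _ _ _ _ _ _ _ _ _ _ _ i T Θ s η a c M N G θ hM hΘ hG hη hx hxM hxN hθ
  refine ⟨fun Ω _ ψ V hk g hg hz => ?_, fun Ω _ ψ V hk hn hT => ?_⟩
  · have hs : V.valuation (ψ (i s)) ≤ g := hz 0
    have h1 : V.valuation (ψ (T ^ M + a • T + c • i η)) ≤ g := hz 1
    rw [pow_one]
    refine tleb_span hk i hM hΘ hG hxM hθ hg hs ?_
    rcases le_or_gt (V.valuation (ψ T)) 1 with h | h
    · exact (pow_le_one₀ zero_le h).trans hg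
    · have e1 : V.valuation (ψ (T ^ M + a • T)) = V.valuation (ψ T) ^ M := by
        rw [map_add, Valuation.map_add_eq_of_lt_left, map_pow, map_pow]
        rw [map_pow, map_pow]
        refine (tleb_smul hk a T).trans_lt ?_
        conv_lhs => rw [← pow_one (V.valuation (ψ T))]
        exact pow_lt_pow_right₀ h hM
      rw [← e1, ← add_sub_cancel_right (T ^ M + a • T) (c • i η), map_sub]
      exact V.valuation.map_sub_le h1 ((tleb_smul hk c _).trans (tleb_A hk i hη hg hs))
  · have h0 : ψ (i s) ∉ V := fun h =>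
      hn ((V.valuation_le_one_iff _).1
        (tleb_A hk i hx le_rfl ((V.valuation_le_one_iff _).2 h)))
    have hg : 1 ≤ V.valuation (ψ (i s)) :=
      le_of_not_ge fun h => h0 ((V.valuation_le_one_iff _).1 h)
    have hTM : V.valuation (ψ T) ^ M ≤ V.valuation (ψ (i s)) := by
      have b := tleb_A hk i hxN hg le_rfl
      rw [map_pow, map_pow, map_pow, pow_mul] at b
      exact (pow_le_pow_left₀ zero_le hT M).trans b
    refine ⟨h0, ?_, tleb_span hk i hM hΘ hG hxM hθ hg le_rfl hTM⟩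
    change V.valuation (ψ (T ^ M + a • T + c • i η)) ≤ V.valuation (ψ (i s))
    rw [map_add ψ, map_add ψ]
    refine V.valuation.map_add_le (V.valuation.map_add_le ?_ ?_) ?_
    · rw [map_pow, map_pow]; exact hTM
    · exact (tleb_smul hk a T).trans (tleb_T hM hg hTM)
    · exact (tleb_smul hk c _).trans (tleb_A hk i hη hg le_rfl)

end Pool.Agent.MP_a9d3bd_y
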