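import Pool.Agent.MP_a9d3bd_y.TSt2
import Pool.Agent.MP_a9d3bd_y.TLeb

namespace Pool.Agent.MP_a9d3bd_y

open MvPolynomial Pool.Agent.MP_a9d3bd_h Pool.Agent.MP_a9d3bd_q Pool.Agent.MP_a9d3bd_g
open Pool.Agent.MP_a9d3bd_yy (xA)

section
variable {K A B Ω : Type} [Field K] [CommRing A] [Algebra K A] [CommRing B] [Algebra K B]
  [Field Ω] {ψ : B →+* Ω} {V : ValuationSubring Ω}

theorem uleb_root {a g : V.ValueGroup} {p : ℕ} (hp : 0 < p) (hg : 1 ≤ g) (h : a ^ p ≤ g) :
    a ≤ g := by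
  rcases le_total a 1 with h1 | h1
  · exact h1.trans hg
  · exact (le_self_pow₀ h1 hp.ne').trans h

theorem uleb_span (hk : ∀ k, ψ (algebraMap K B k) ∈ V) (i : A →ₐ[K] B) {s x : A} {T Θ θ : B}
    {n p : ℕ} {G : Set A} (hn : 0 < n) (hp : 0 < p) (hΘ : Le K ![i x, T] Θ n)
    (hG : ∀ b ∈ G, Le K ![s] (b ^ p) 1) (hθ : θ ∈ Submodule.span K (i '' G ∪ {T, Θ}))
    {c m : V.ValueGroup} (hc : 1 ≤ c) (hs : V.valuation (ψ (i s)) ≤ c) (hm : 1 ≤ m)
    (hx : V.valuation (ψ (i x)) ≤ m) (hT : V.valuation (ψ T) ≤ m) (hmc : m ^ (n * p) ≤ c) :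
    V.valuation (ψ θ) ^ p ≤ c := by
  induction hθ using Submodule.span_induction with
  | mem y hy =>
    rcases hy with ⟨b, hb, rfl⟩ | rfl | rfl
    · have a := tleb_A hk i (hG b hb) hc hs
      rwa [map_pow, map_pow, map_pow] at a
    · exact (pow_le_pow_left₀ zero_le (hT.trans (le_self_pow₀ hm hn.ne')) p).trans
        (by rwa [← pow_mul])
    · refine (pow_le_pow_left₀ zero_le (hΘ Ω ψ V hk m hm fun k => ?_) p).trans (by rwa [← pow_mul])
      fin_cases k
      · exact hx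
      · exact hT
  | zero => rw [map_zero, map_zero, zero_pow hp.ne']; exact zero_le
  | add y y' _ _ h h' =>
    rw [map_add]
    rcases V.valuation.map_add' (ψ y) (ψ y') with a | a
    · exact (pow_le_pow_left₀ zero_le a p).trans h
    · exact (pow_le_pow_left₀ zero_le a p).trans h'
  | smul a y _ h => exact (pow_le_pow_left₀ zero_le (tleb_smul hk a y) p).trans h

theorem uleb_span' (hk : ∀ k, ψ (algebraMap K B k) ∈ V) (i : A →ₐ[K] B) {s x : A} {T Θ θ : B}
    {n p M : ℕ} {G : Set A} (hn : 0 < n) (hp : 0 < p) (hM : n * p < M) (hΘ : Le K ![i x, T] Θ n)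
    (hG : ∀ b ∈ G, Le K ![s] (b ^ p) 1) (hx : Le K ![s] (x ^ M) 1)
    (hθ : θ ∈ Submodule.span K (i '' G ∪ {T, Θ})) {g : V.ValueGroup} (hg : 1 ≤ g)
    (hs : V.valuation (ψ (i s)) ≤ g) (hT : V.valuation (ψ T) ^ M ≤ g) :
    V.valuation (ψ θ) ^ p ≤ g := by
  have a := tleb_A hk i hx hg hs
  rw [map_pow, map_pow, map_pow] at a
  refine uleb_span hk i hn hp hΘ hG hθ hg hs
    (m := max 1 (max (V.valuation (ψ (i x))) (V.valuation (ψ T)))) (le_max_left _ _)
    (le_max_of_le_right (le_max_left _ _)) (le_max_of_le_right (le_max_right _ _))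
    ((pow_le_pow_right₀ (le_max_left _ _) hM.le).trans ?_)
  rcases max_choice 1 (max (V.valuation (ψ (i x))) (V.valuation (ψ T))) with h | h
  · rw [h, one_pow]; exact hg
  · rw [h]
    rcases max_choice (V.valuation (ψ (i x))) (V.valuation (ψ T)) with h | h
    · rw [h]; exact a
    · rw [h]; exact hT

end

theorem uLeb (K : Type) [Field K] [IsAlgClosed K] : ULeb K := by
  intro A B J _ _ _ _ _ _ _ _ _ _ _ i T Θ u θ s a n p M N G hn hp hM hΘ hG hxM hxN hu hθ
  have hM2 : 2 ≤ M := by have := Nat.mul_pos hn hp; omega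
  have hM0 : 0 < M := by omega
  refine ⟨fun Ω _ ψ V hk g hg hz => ?_, fun Ω _ ψ V hk hx hT => ?_⟩
  · have hs : V.valuation (ψ (i s)) ≤ g := hz 0
    have h1 : V.valuation (ψ (T ^ M + T + a • u ^ p)) ≤ g := hz 1
    rw [pow_one]
    refine uleb_root hp hg (uleb_span' hk i hn hp hM hΘ hG hxM hθ hg hs ?_)
    by_contra h
    have h2 : g < V.valuation (ψ T) ^ M := not_le.1 h
    have h3 : 1 < V.valuation (ψ T) := not_le.1 fun h' => h ((pow_le_one₀ zero_le h').trans hg)
    have h4 := tleb_A hk i hxM hg hs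
    rw [map_pow, map_pow, map_pow] at h4
    have h5 := uleb_span hk i hn hp hΘ hG hu (c := max g (V.valuation (ψ T) ^ (n * p)))
      (le_max_of_le_left hg) (le_max_of_le_left hs) h3.le
      (lt_of_pow_lt_pow_left₀ M zero_le (h4.trans_lt h2)).le le_rfl (le_max_right _ _)
    have h6 := h5.trans_lt (max_lt h2 (pow_lt_pow_right₀ h3 hM))
    refine h2.not_ge (le_of_eq_of_le ?_ h1)
    rw [add_assoc, map_add ψ, Valuation.map_add_eq_of_lt_left, map_pow, map_pow]
    rw [map_pow, map_pow, map_add ψ]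
    refine V.valuation.map_add_lt ?_ ((tleb_smul hk a _).trans_lt ?_)
    · conv_lhs => rw [← pow_one (V.valuation (ψ T))]
      exact pow_lt_pow_right₀ h3 hM2
    · rwa [map_pow, map_pow]
  · have h0 : ψ (i s) ∉ V := fun h => hx ((V.valuation_le_one_iff _).1 (by
      have b := tleb_A hk i hxM le_rfl ((V.valuation_le_one_iff _).2 h)
      rw [map_pow, map_pow, map_pow] at b
      exact uleb_root hM0 le_rfl b))
    have hg : 1 ≤ V.valuation (ψ (i s)) :=
      le_of_not_ge fun h => h0 ((V.valuation_le_one_iff _).1 h)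
    have hTM : V.valuation (ψ T) ^ M ≤ V.valuation (ψ (i s)) := by
      have b := tleb_A hk i hxN hg le_rfl
      rw [map_pow, map_pow, map_pow, pow_mul] at b
      exact (pow_le_pow_left₀ zero_le hT M).trans b
    refine ⟨h0, ?_, uleb_root hp hg (uleb_span' hk i hn hp hM hΘ hG hxM hθ hg le_rfl hTM)⟩
    change V.valuation (ψ (T ^ M + T + a • u ^ p)) ≤ V.valuation (ψ (i s))
    rw [map_add ψ, map_add ψ]
    refine V.valuation.map_add_le (V.valuation.map_add_le ?_ ?_) ((tleb_smul hk a _).trans ?_)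
    · rw [map_pow, map_pow]; exact hTM
    · exact uleb_root hM0 hg hTM
    · rw [map_pow, map_pow]
      exact uleb_span' hk i hn hp hM hΘ hG hxM hu hg le_rfl hTM

end Pool.Agent.MP_a9d3bd_y
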