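import Pool.Agent.MP_a9d3bd_y.TSt2

/-! A curve on the surface meets a general fibre in finitely many points. -/

namespace Pool.Agent.MP_a9d3bd_y

open MvPolynomial Pool.Agent.MP_a9d3bd_h Pool.Agent.MP_a9d3bd_q Pool.Agent.MP_a9d3bd_g

theorem urf_ev {K E : Type} [Field K] [CommRing E] [Algebra K E] (δ : MvPolynomial (Fin 2) K)
    (a w : E) : aeval ![a, w] δ = Polynomial.eval w
      ((aeval ![Polynomial.C Polynomial.X, Polynomial.X] δ : Polynomial (Polynomial K)).map
        (Polynomial.aeval a : Polynomial K →ₐ[K] E).toRingHom) := by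
  induction δ using MvPolynomial.induction_on with
  | C r => simp [Polynomial.algebraMap_apply]
  | add p q hp hq => simp only [map_add, Polynomial.map_add, Polynomial.eval_add, hp, hq]
  | mul_X p k hp =>
    simp only [map_mul, Polynomial.map_mul, Polynomial.eval_mul, hp]
    congr 1
    fin_cases k <;> simp

theorem uRf (K : Type) [Field K] [IsAlgClosed K] (h : SFib K) : URf K := by
  intro B _ _ _ s T D hB _ hit hD
  obtain ⟨r, hr, hr0⟩ := Submodule.exists_mem_ne_zero_of_ne_bot
    (Ideal.comap_ne_bot_of_integral_mem hD (Ideal.mem_span_singleton_self D) (hit D))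
  obtain ⟨N, hN⟩ : (r : B) ∈ (aeval ![s, T] : MvPolynomial (Fin 2) K →ₐ[K] B).range := by
    rw [← Algebra.adjoin_range_eq_range_aeval]
    exact r.2
  have hN' : aeval ![s, T] N = (r : B) := hN
  obtain ⟨b, hb⟩ : D ∣ (r : B) := Ideal.mem_span_singleton.1 hr
  generalize hf : (aeval ![Polynomial.C Polynomial.X, Polynomial.X] N :
    Polynomial (Polynomial K)) = f
  have hf0 : f ≠ 0 := by
    intro e
    rw [urf_ev, hf, e] at hN'
    exact hr0 (Subtype.ext (by simpa using hN'.symm))
  refine (Polynomial.finite_setOfPred_isRoot (Polynomial.leadingCoeff_ne_zero.2 hf0)).subset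
    fun s₀ hs => ?_
  by_contra hn
  refine hs ?_
  have hg : f.map (Polynomial.aeval s₀ : Polynomial K →ₐ[K] K).toRingHom ≠ 0 := by
    intro e
    have h1 := congrArg (fun q => Polynomial.coeff q f.natDegree) e
    refine hn ?_
    simpa [Polynomial.coeff_map] using h1
  refine ((Polynomial.finite_setOfPred_isRoot hg).biUnion fun t _ =>
    h B (Fin 2) K ![s, T] ![s₀, t] hB hit).subset fun ξ hξ => ?_
  refine Set.mem_biUnion (x := ξ T) ?_ fun k => ?_
  · have e : ![s₀, ξ T] = fun k => ξ (![s, T] k) := by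
      funext k
      fin_cases k
      exacts [hξ.1.symm, rfl]
    have h1 := urf_ev N s₀ (ξ T)
    rw [hf, e, ← MvPolynomial.comp_aeval, AlgHom.comp_apply, hN', hb, map_mul, hξ.2,
      zero_mul] at h1
    exact h1.symm
  · fin_cases k
    exacts [hξ.1, rfl]

end Pool.Agent.MP_a9d3bd_y
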