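import Pool.Agent.MP_a9d3bd_y.TSt2

/-! Powers of linear combinations. -/

namespace Pool.Agent.MP_a9d3bd_y

open MvPolynomial Pool.Agent.MP_a9d3bd_h Pool.Agent.MP_a9d3bd_q Pool.Agent.MP_a9d3bd_g

theorem usp_pow {K B σ : Type} [Field K] [CommRing B] [Algebra K B] (v : σ → B) (G : Set B)
    (p : ℕ) (hp : 0 < p) (hG : ∀ b ∈ G, Le K v (b ^ p) 1) (b : B) (hb : b ∈ Submodule.span K G) :
    Le K v (b ^ p) 1 := by
  intro Ω _ φ V hK g hg hv
  rw [map_pow, map_pow, pow_one]
  induction hb using Submodule.span_induction with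
  | mem x hx =>
    have h := hG x hx Ω φ V hK g hg hv
    rwa [map_pow, map_pow, pow_one] at h
  | zero => rw [map_zero, map_zero, zero_pow hp.ne']; exact zero_le
  | add x y _ _ hx hy =>
    rw [map_add]
    rcases V.valuation.map_add' (φ x) (φ y) with h | h
    · exact (pow_le_pow_left₀ zero_le h p).trans hx
    · exact (pow_le_pow_left₀ zero_le h p).trans hy
  | smul c x _ hx =>
    rw [Algebra.smul_def, map_mul, map_mul]
    have h1 : V.valuation (φ (algebraMap K B c)) ≤ 1 := (V.valuation_le_one_iff _).2 (hK c)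
    exact (pow_le_pow_left₀ zero_le (mul_le_of_le_one_left' h1) p).trans hx

theorem uSp (K : Type) [Field K] [IsAlgClosed K] : USp K := by
  intro B σ _ _ v G p hp hG b hb
  refine ⟨usp_pow v G p hp hG b hb, fun Ω _ φ V hK g hg hv => ?_⟩
  have h := usp_pow v G p hp hG b hb Ω φ V hK g hg hv
  rw [map_pow, map_pow, pow_one] at h
  rw [pow_one]
  rcases le_total (V.valuation (φ b)) 1 with h1 | h1
  · exact h1.trans hg
  · exact (le_self_pow₀ h1 hp.ne').trans h

end Pool.Agent.MP_a9d3bd_y
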