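import Pool.Agent.MP_a9d3bd_y.St

namespace Pool.Agent.MP_a9d3bd_y

open MvPolynomial Pool.Agent.MP_a9d3bd_h Pool.Agent.MP_a9d3bd_q Pool.Agent.MP_a9d3bd_g
open Pool.Agent.MP_a9d3bd_yy (xA xL Dvs Pl fib aff Gal)

theorem all_der {K A : Type} [Field K] [CommRing A] [Algebra K A] (h2 : SDisc K) {P : R3 K}
    (hT : Top P) (β : A →ₐ[K] K) {x t w : A} (h0 : aeval ![x, t, w] P = 0)
    (hs : (fib P (β x) (β w)).Separable) : eval ![β x, β t, β w] (pderiv 1 P) ≠ 0 := by
  obtain ⟨δ, hδ⟩ := h2 P hT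
  obtain ⟨e1, e2⟩ := (hδ K (β x) (β w)).2 (β t)
  have e3 : aeval ![β x, β t, β w] P = 0 := by
    have e := congrArg β h0
    rw [← AlgHom.comp_apply, comp_aeval, map_zero] at e
    refine Eq.trans (congrArg (fun g => aeval g P) (funext fun i => ?_)) e
    fin_cases i <;> rfl
  intro h
  obtain ⟨a, b, hab⟩ : (fE P (β x) (β w)).Separable := hs
  have e := congrArg (Polynomial.eval (β t)) hab
  have h' : aeval ![β x, β t, β w] (pderiv 1 P) = 0 := h
  rw [Polynomial.eval_add, Polynomial.eval_mul, Polynomial.eval_mul, e1, e2, e3, h', mul_zero,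
    mul_zero, add_zero, Polynomial.eval_one] at e
  exact zero_ne_one e

theorem sAll (K : Type) [Field K] [IsAlgClosed K] (h1 : SCmp K) (h2 : SDisc K) : SAll K := by
  intro P Λ hT hO A _ _ _ _ _ _ _ hG hF J _ t w u ν r hon hD _ hadm hsep hcl
  classical
  obtain ⟨C, B, _, _, _, i, T, Θ, s1, s2, s3⟩ := h1 A (aff P) hT
  choose k φ p1 p2 p3 using fun j => s2 (t j) (w j) (hon j)
  rw [← Finset.sum_fiberwise_of_maps_to (s := Finset.univ) (t := Finset.univ.image k) (g := k)
    fun j hj => Finset.mem_image_of_mem k hj]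
  refine Finset.sum_eq_zero fun c hc => ?_
  rw [Finset.sum_subtype (p := fun j => k j = c) _ (by simp)]
  have tr : ∀ j : {j // k j = c}, ∃ ψ : B c →ₐ[K] A,
      (∀ a, ψ (i c a) = a) ∧ ψ (Θ c) = t j ∧ ψ (T c) = w j := by
    rintro ⟨j, rfl⟩
    exact ⟨φ j, p1 j, p2 j, p3 j⟩
  choose ψ q1 q2 q3 using tr
  obtain ⟨j1, -, -⟩ := Finset.mem_image.1 hc
  have key := hO A (B c) {j // k j = c} (AlgebraicClosure K) (i c) (T c) (Θ c) ψ (fun j => u j)
    (fun j => ν j) (fun j => r j) ⟨hT, hG, hF, s1 c, q1, (hadm j1).elim fun β h => ⟨_, _, h⟩,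
      fun j => by rw [q3]; exact hadm j, fun j => by rw [q3]; exact hsep j⟩ (fun j => hD j)
    fun β t0 w0 => by
      simp only [q2, q3]
      by_cases hx : ∃ j : {j // k j = c}, (β (t j) = t0 ∧ β (w j) = w0) ∧ ν j β ≠ 0
      · obtain ⟨j0, ⟨a1, a2⟩, a3⟩ := hx
        refine Eq.trans ?_ (hcl β t0 w0)
        rw [← Finset.sum_filter_of_ne (s := Finset.univ) (p := fun j => k j = c) fun j _ hj => ?_,
          Finset.sum_subtype (p := fun j => k j = c) _ (by simp)]
        have b : β (t j) = t0 ∧ β (w j) = w0 := by_contra fun h => hj (if_neg h)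
        refine (s3 (k j) (k j0) (β.comp (φ j)) (β.comp (φ j0)) (AlgHom.ext fun a => ?_) ?_ ?_
          ?_).trans j0.2
        · simp only [AlgHom.comp_apply, p1]
        · simp only [AlgHom.comp_apply, p2, a1, b.1]
        · simp only [AlgHom.comp_apply, p3, a2, b.2]
        · simp only [AlgHom.comp_apply, p1, p2, p3]
          rw [b.1, b.2, ← a1, ← a2]
          exact all_der h2 hT β (hon j0) (hsep j0 β (Finsupp.mem_support_iff.2 a3))
      · refine Finset.sum_eq_zero fun j _ => ?_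
        split_ifs with h
        · rw [not_not.1 fun h' => hx ⟨j, h, h'⟩, Int.cast_zero, mul_zero]
        · rfl
  simp only [q2, q3] at key
  exact key

end Pool.Agent.MP_a9d3bd_y
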