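import Pool.Agent.MP_a9d3bd_y.St

/-! The choice of the coordinates of the model. -/

namespace Pool.Agent.MP_a9d3bd_y

open MvPolynomial Pool.Agent.MP_a9d3bd_h Pool.Agent.MP_a9d3bd_q Pool.Agent.MP_a9d3bd_g
open Pool.Agent.MP_a9d3bd_yy (xA fib)

section
variable {K Ω : Type} [Field K] [Field Ω] [Algebra K Ω]

theorem cho_poly (f : Polynomial Ω) (hf : f ≠ 0) (a u : Ω) (hu : u ≠ 0) :
    {c : K | f.eval (a + c • u) = 0}.Finite := by
  refine Set.Finite.of_finite_image (f := fun c : K => a + c • u)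
    ((Polynomial.rootSet_finite f Ω).subset ?_) ?_
  · rintro _ ⟨c, hc, rfl⟩
    exact Polynomial.mem_rootSet.2 ⟨hf, by simpa [Polynomial.coe_aeval_eq_eval] using hc⟩
  · intro c _ d _ h
    exact smul_left_injective K hu (add_left_cancel h)

theorem cho_lin (a b u w : Ω) (h : u ≠ w) : {c : K | a + c • u = b + c • w}.Finite := by
  refine Set.Subsingleton.finite fun c hc d hd => ?_
  have h1 : c • (u - w) = b - a := by
    rw [smul_sub]; have : a + c • u = b + c • w := hc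
    linear_combination this
  have h2 : d • (u - w) = b - a := by
    rw [smul_sub]; have : a + d • u = b + d • w := hd
    linear_combination this
  exact smul_left_injective K (sub_ne_zero.2 h) (h1.trans h2.symm)

theorem cho_map {A E : Type} [CommRing A] [Algebra K A] [CommRing E] [Algebra K E]
    (τ : A →ₐ[K] E) (x w : A) (δ : MvPolynomial (Fin 2) K) :
    τ (aeval ![x, w] δ) = aeval ![τ x, τ w] δ := by
  have : τ.comp (aeval ![x, w]) = aeval ![τ x, τ w] := by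
    ext k; fin_cases k <;> simp
  exact DFunLike.congr_fun this δ

theorem cho_fin (δ : MvPolynomial (Fin 2) K) (x0 w0 : K) (h0 : aeval ![x0, w0] δ ≠ 0) (x a u : Ω)
    (hx : Transcendental K x) (hu : u ≠ 0) : {c : K | aeval ![x, a + c • u] δ = 0}.Finite := by
  have hev : ∀ w : Ω, (aeval ![Polynomial.C x, Polynomial.X] δ : Polynomial Ω).eval w =
      aeval ![x, w] δ := fun w => by
    have := cho_map ((Polynomial.aeval w : Polynomial Ω →ₐ[Ω] Ω).restrictScalars K)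
      (Polynomial.C x) Polynomial.X δ
    simpa [Polynomial.coe_aeval_eq_eval] using this
  have hg : (aeval ![Polynomial.X, Polynomial.C w0] δ : Polynomial K) ≠ 0 := fun h => by
    have := cho_map (Polynomial.aeval x0 : Polynomial K →ₐ[K] K) Polynomial.X (Polynomial.C w0) δ
    rw [h, map_zero] at this
    exact h0 (by simpa using this.symm)
  have hf : (aeval ![Polynomial.C x, Polynomial.X] δ : Polynomial Ω) ≠ 0 := fun h => by
    have h1 := hev (algebraMap K Ω w0)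
    rw [h, Polynomial.eval_zero] at h1
    have h2 := cho_map (Polynomial.aeval x : Polynomial K →ₐ[K] Ω) Polynomial.X
      (Polynomial.C w0) δ
    rw [Polynomial.aeval_X, Polynomial.aeval_C, ← h1] at h2
    exact hx ⟨_, hg, h2⟩
  simpa only [hev] using cho_poly (K := K) _ hf a u hu

theorem cho_tr {A : Type} [CommRing A] [Algebra K A] [Algebra (Polynomial K) A]
    [IsScalarTower K (Polynomial K) A] [Module.Finite (Polynomial K) A] (τ : A →ₐ[K] Ω) (s : A)
    (hs : Transcendental K (τ s)) : Transcendental K (τ (xA K A)) := by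
  intro hx
  have hx' : τ (xA K A) ∈ integralClosure K Ω := hx.isIntegral
  obtain ⟨p, hp, hp0⟩ := Algebra.IsIntegral.isIntegral (R := Polynomial K) s
  let g : Polynomial K →+* integralClosure K Ω :=
    (Polynomial.aeval (⟨τ (xA K A), hx'⟩ : integralClosure K Ω)).toRingHom
  have hg : (algebraMap (integralClosure K Ω) Ω).comp g =
      (τ : A →+* Ω).comp (algebraMap (Polynomial K) A) := by
    refine Polynomial.ringHom_ext (fun a => ?_) ?_
    · have : algebraMap (Polynomial K) A (Polynomial.C a) = algebraMap K A a :=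
        (IsScalarTower.algebraMap_apply K (Polynomial K) A a).symm
      simp [g, this]
    · simp [g]
  have hi : IsIntegral (integralClosure K Ω) (τ s) := by
    refine ⟨p.map g, hp.map g, ?_⟩
    rw [Polynomial.eval₂_map, hg]
    have := Polynomial.hom_eval₂ p (algebraMap (Polynomial K) A) (τ : A →+* Ω) s
    rw [hp0, map_zero] at this
    exact this.symm
  exact hs (isIntegral_trans (R := K) (A := integralClosure K Ω) (τ s) hi).isAlgebraic

end

theorem sCho (K : Type) [Field K] [IsAlgClosed K] (h1 : SSel K) (h2 : SFib K) (h3 : SEta K)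
    (h4 : SDisc K) (h5 : SIt K) : SCho K := by
  intro A B J Ω _ _ _ _ _ _ _ _ _ _ _ _ _ _ P i T Θ φ ν ι hy hι
  classical
  have hft : Algebra.FiniteType K A :=
    Algebra.FiniteType.trans (inferInstance : Algebra.FiniteType K (Polynomial K)) inferInstance
  obtain ⟨G0, hG0⟩ := hft.out
  let G : Finset A := insert (xA K A) (insert (xA K A ^ 2) (G0 ∪ Finset.univ.image fun j => φ j T))
  let S : Finset (A →ₐ[K] K) := Finset.univ.biUnion fun j => (ν j).support
  have hS : ∀ j, ∀ β ∈ (ν j).support, β ∈ S := fun j β hβ =>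
    Finset.mem_biUnion.2 ⟨j, Finset.mem_univ _, hβ⟩
  have hG : Algebra.adjoin K (G : Set A) = ⊤ := by
    refine top_le_iff.1 (hG0 ▸ Algebra.adjoin_mono fun a ha => ?_)
    simp only [G, Finset.coe_insert, Finset.coe_union, Set.mem_insert_iff, Set.mem_union]
    exact Or.inr (Or.inr (Or.inl ha))
  obtain ⟨s, hit, hb, hsp, het⟩ := h1 A hy.gal S G
  have hf1 : ∀ a : Ω, {τ : A →ₐ[K] Ω | τ s = a}.Finite := fun a => by
    refine (h2 A (Fin 1) Ω ![s] ![a] hft hit).subset fun τ hτ k => ?_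
    fin_cases k
    exact hτ
  let Φ : Set (A →ₐ[K] Ω) := {τ | τ s = ι (i s)} ∪ ⋃ β ∈ (S : Set (A →ₐ[K] K)), {τ | τ s = pt Ω β s}
  have hΦ : Φ.Finite := (hf1 _).union (S.finite_toSet.biUnion fun β _ => hf1 _)
  have hΦ1 : ∀ τ : A →ₐ[K] Ω, τ s = ι (i s) → τ ∈ Φ := fun τ h => Or.inl h
  have hΦ2 : ∀ j, ∀ β ∈ (ν j).support, ∀ τ : A →ₐ[K] Ω, τ s = pt Ω β s → τ ∈ Φ :=
    fun j β hβ τ h => Or.inr (Set.mem_biUnion (hS j β hβ) h)
  obtain ⟨η, hη, hsepη⟩ := h3 A Ω Φ G inferInstance hΦ hG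
  obtain ⟨δ, hδ⟩ := h4 P hy.top
  obtain ⟨-, hftB, hi, -, hs, -, -, -⟩ := h5 A B J Ω P i T Θ s η 0 hy.top hy.sf hit
  have hts : Transcendental K (ι (i s)) := fun h =>
    hs ((isAlgebraic_algHom_iff (ι.comp i) (hι.comp hi)).1 h)
  have hB1 : (⋃ j, ⋃ τ ∈ Φ, ⋃ τ' ∈ Φ,
      {c : K | τ ≠ τ' ∧ τ (φ j T) + c • τ η = τ' (φ j T) + c • τ' η}).Finite := by
    refine Set.finite_iUnion fun j => hΦ.biUnion fun τ hτ => hΦ.biUnion fun τ' hτ' => ?_
    by_cases h : τ = τ'
    · simp [h]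
    · exact (cho_lin _ _ _ _ fun e => h (hsepη τ hτ τ' hτ' e)).subset fun c hc => hc.2
  have hB3 : (⋃ j, ⋃ τ ∈ {τ : A →ₐ[K] Ω | τ s = ι (i s)},
      {c : K | aeval ![τ (xA K A), ι (i (φ j T)) + c • (ι (i η) - τ η)] δ = 0}).Finite := by
    refine Set.finite_iUnion fun j => (hf1 _).biUnion fun τ hτ => ?_
    obtain ⟨β, hβ⟩ := hy.adm j
    have h0 : aeval ![β (xA K A), β (φ j T)] δ ≠ 0 := (hδ K _ _).1.1 hβ
    by_cases h : τ = ι.comp i
    · have hA : aeval ![xA K A, φ j T] δ ≠ 0 := fun e => h0 (by rw [← cho_map, e, map_zero])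
      have hO : aeval ![ι (i (xA K A)), ι (i (φ j T))] δ ≠ 0 := fun e => hA (hι.comp hi (by
        have := cho_map (ι.comp i) (xA K A) (φ j T) δ
        simp only [AlgHom.comp_apply] at this
        simp only [Function.comp_apply, map_zero]
        rw [this, e]))
      subst h
      simp [hO]
    · refine cho_fin δ _ _ h0 _ _ _ (cho_tr τ s (by rw [show τ s = ι (i s) from hτ]; exact hts))
        (sub_ne_zero.2 fun e => h ?_)
      exact hsepη τ (hΦ1 τ hτ) _ (hΦ1 _ rfl) e.symm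
  obtain ⟨c₁, hc₁⟩ := (hB1.union hB3).infinite_compl.nonempty
  simp only [Set.mem_compl_iff, Set.mem_union, Set.mem_iUnion, Set.mem_ofPred_eq, not_or,
    not_exists, not_and] at hc₁
  obtain ⟨hc1, hc3⟩ := hc₁
  have hz1 : ∀ j, φ j (T + c₁ • i η) = φ j T + c₁ • η := fun j => by
    rw [map_add, map_smul, hy.sec]
  have he : ∀ j, ∀ τ ∈ Φ, ∀ τ' ∈ Φ, τ (φ j (T + c₁ • i η)) = τ' (φ j (T + c₁ • i η)) → τ = τ' := by
    intro j τ hτ τ' hτ' e
    by_contra h
    refine hc1 j τ hτ τ' hτ' h ?_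
    simpa only [hz1, map_add, map_smul] using e
  obtain ⟨-, -, -, -, -, -, -, hit2⟩ := h5 A B J Ω P i T Θ s η c₁ hy.top hy.sf hit
  have hf2 : ∀ a b : Ω, {ξ : B →ₐ[K] Ω | ξ (i s) = a ∧ ξ (T + c₁ • i η) = b}.Finite := fun a b => by
    refine (h2 B (Fin 2) Ω ![i s, T + c₁ • i η] ![a, b] hftB hit2).subset fun τ hτ k => ?_
    fin_cases k
    · exact hτ.1
    · exact hτ.2
  let Ψ : Set (B →ₐ[K] Ω) := {ξ | Base i φ ν ι ![i s, T + c₁ • i η, 0] ξ}
  have hΨ : Ψ.Finite := by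
    refine (((hf2 (ι (i s)) (ι (T + c₁ • i η))).union (Set.finite_iUnion fun j =>
      hf2 (ι (i s)) (ι (i (φ j (T + c₁ • i η)))))).union (Set.finite_iUnion fun j =>
      (ν j).support.finite_toSet.biUnion fun β _ =>
        hf2 (pt Ω β (φ j (i s))) (pt Ω β (φ j (T + c₁ • i η))))).subset ?_
    rintro ξ (⟨h0, h | ⟨j, h⟩⟩ | ⟨j, β, hβ, h⟩)
    · exact Or.inl (Or.inl ⟨h0, h⟩)
    · exact Or.inl (Or.inr (Set.mem_iUnion.2 ⟨j, h0, h⟩))
    · exact Or.inr (Set.mem_iUnion.2 ⟨j, Set.mem_biUnion hβ h⟩)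
  have hΨΦ : ∀ ξ ∈ Ψ, ξ.comp i ∈ Φ := by
    rintro ξ (⟨h0, -⟩ | ⟨j, β, hβ, h, -⟩)
    · exact hΦ1 _ h0
    · refine hΦ2 j β hβ _ ?_
      have h' : ξ (i s) = pt Ω β (φ j (i s)) := h
      rwa [hy.sec] at h'
  have hB4 : (⋃ ξ ∈ Ψ, ⋃ ξ' ∈ Ψ,
      {c : K | ξ'.comp i ≠ ξ.comp i ∧ ξ' Θ + c • ξ' (i η) = ξ Θ + c • ξ (i η)}).Finite := by
    refine hΨ.biUnion fun ξ hξ => hΨ.biUnion fun ξ' hξ' => ?_
    by_cases h : ξ'.comp i = ξ.comp i
    · simp [h]
    · exact (cho_lin _ _ _ _ fun e => h (hsepη _ (hΨΦ _ hξ') _ (hΨΦ _ hξ) e)).subset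
        fun c hc => hc.2
  obtain ⟨c, hc⟩ := hB4.infinite_compl.nonempty
  simp only [Set.mem_compl_iff, Set.mem_iUnion, Set.mem_ofPred_eq, not_exists, not_and] at hc
  have hx : xA K A ∈ Submodule.span K (G : Set A) := Submodule.subset_span (by simp [G])
  have hx2 : xA K A ^ 2 ∈ Submodule.span K (G : Set A) := Submodule.subset_span (by simp [G])
  have hw : ∀ j, φ j T ∈ Submodule.span K (G : Set A) := fun j =>
    Submodule.subset_span (by simp [G])
  refine ⟨s, η, c₁, c, ![i s, T + c₁ • i η, Θ + c • i η], rfl, rfl, rfl, hit, hb _ hx, hb _ hx2,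
    hb _ hη, fun j => ?_, hsp, fun j β hβ => het β (hS j β hβ), fun j τ hτ e => ?_,
    fun j β hβ τ hτ e => ?_, fun j τ hτ => ?_, fun ξ ξ' hξ e => ?_⟩
  · refine hb _ ?_
    show φ j (T + c₁ • i η) ∈ _
    rw [hz1]
    exact add_mem (hw j) (Submodule.smul_mem _ _ hη)
  · exact he j τ (hΦ1 τ hτ) _ (hΦ1 _ rfl) e
  · exact he j τ (hΦ2 j β hβ τ hτ) _ (hΦ2 j β hβ _ rfl) e
  · refine (hδ Ω _ _).1.2 ?_
    have e : ι (i (φ j (T + c₁ • i η))) - c₁ • τ η = ι (i (φ j T)) + c₁ • (ι (i η) - τ η) := by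
      rw [hz1, map_add, map_add, map_smul, map_smul, smul_sub, add_sub_assoc]
    show aeval ![τ (xA K A), ι (i (φ j (T + c₁ • i η))) - c₁ • τ η] δ ≠ 0
    rw [e]
    exact hc3 j τ hτ
  · have e0 : ξ' (i s) = ξ (i s) := e 0
    have e1 : ξ' (T + c₁ • i η) = ξ (T + c₁ • i η) := e 1
    have e2 : ξ' (Θ + c • i η) = ξ (Θ + c • i η) := e 2
    have hξ' : ξ' ∈ Ψ := by
      rcases hξ with ⟨h0, h | ⟨j, h⟩⟩ | ⟨j, β, hβ, h0, h⟩
      · exact Or.inl ⟨e0.trans h0, Or.inl (e1.trans h)⟩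
      · exact Or.inl ⟨e0.trans h0, Or.inr ⟨j, e1.trans h⟩⟩
      · exact Or.inr ⟨j, β, hβ, e0.trans h0, e1.trans h⟩
    by_contra h
    refine hc ξ hξ ξ' hξ' h ?_
    simpa only [map_add, map_smul] using e2

end Pool.Agent.MP_a9d3bd_y
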