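import Pool.Agent.MP_a9d3bd_y.St

namespace Pool.Agent.MP_a9d3bd_y

open MvPolynomial Pool.Agent.MP_a9d3bd_h Pool.Agent.MP_a9d3bd_q Pool.Agent.MP_a9d3bd_g

theorem dd_map {K A A' : Type} [Field K] [CommRing A] [Algebra K A] [CommRing A'] [Algebra K A']
    (φ : A →ₐ[K] A') (a b c : A) (P : MvPolynomial (Fin 3) K) :
    φ (aeval ![a, b, c] P) = aeval ![φ a, φ b, φ c] P := by
  have e : (fun i => φ (![a, b, c] i)) = ![φ a, φ b, φ c] := by
    funext i
    fin_cases i <;> rfl
  rw [comp_aeval_apply, e]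

theorem dd_ex {K B Ω : Type} [Field K] [CommRing Ω] [Algebra K Ω] (x Θ T : B)
    (P : MvPolynomial (Fin 3) K) : ∃ G : MvPolynomial (B ⊕ B) K, ∀ f g : B → Ω,
      aeval ![f x, f Θ, f T] P - aeval ![f x, g Θ, f T] P =
        (f Θ - g Θ) * aeval (Sum.elim f g) G ∧
      aeval (Sum.elim f f) G = aeval ![f x, f Θ, f T] (pderiv 1 P) := by
  induction P using MvPolynomial.induction_on with
  | C c => exact ⟨0, fun f g => by simp⟩
  | add p q hp hq =>
    obtain ⟨G, hG⟩ := hp
    obtain ⟨G', hG'⟩ := hq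
    refine ⟨G + G', fun f g => ⟨?_, ?_⟩⟩
    · simp only [map_add]
      linear_combination (hG f g).1 + (hG' f g).1
    · simp only [map_add]
      rw [(hG f g).2, (hG' f g).2]
  | mul_X p i hp =>
    obtain ⟨G, hG⟩ := hp
    fin_cases i
    · refine ⟨G * X (Sum.inl x), fun f g => ⟨?_, ?_⟩⟩
      · simp only [map_mul, aeval_X, Sum.elim_inl]
        change _ * f x - _ * f x = _
        linear_combination f x * (hG f g).1
      · simp [(hG f g).2, pderiv_X, mul_comm]
    · refine ⟨G * X (Sum.inl Θ) + aeval ![X (Sum.inl x), X (Sum.inr Θ), X (Sum.inl T)] p,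
        fun f g => ⟨?_, ?_⟩⟩
      · simp only [map_mul, map_add, aeval_X, Sum.elim_inl, Sum.elim_inr, dd_map]
        change _ * f Θ - _ * g Θ = _
        linear_combination f Θ * (hG f g).1
      · simp only [map_mul, map_add, aeval_X, Sum.elim_inl, Sum.elim_inr, dd_map]
        simp [(hG f g).2, pderiv_X, mul_comm, add_comm]
    · refine ⟨G * X (Sum.inl T), fun f g => ⟨?_, ?_⟩⟩
      · simp only [map_mul, aeval_X, Sum.elim_inl]
        change _ * f T - _ * f T = _
        linear_combination f T * (hG f g).1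
      · simp [(hG f g).2, pderiv_X, mul_comm]

theorem sDd (K : Type) [Field K] [IsAlgClosed K] : SDd K := by
  intro B Ω _ _ _ _ ι τ ξ P x Θ T hP hx hT hΘ hC
  obtain ⟨G, hG⟩ := dd_ex (Ω := Ω) x Θ T P
  have h1 : aeval ![ι x, ι Θ, ι T] P = 0 := by rw [← dd_map, hP, map_zero]
  have h2 : aeval ![ι x, τ Θ, ι T] P = 0 := by rw [← hx, ← hT, ← dd_map, hP, map_zero]
  have h3 := (hG ι τ).1
  rw [h1, h2, sub_self] at h3
  rw [← (hG ξ ξ).2]
  exact hC G ((mul_eq_zero.1 h3.symm).resolve_left (sub_ne_zero.2 hΘ.symm))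

end Pool.Agent.MP_a9d3bd_y
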