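import Pool.Agent.MP_a9d3bd_g.CDefs
import Pool.Agent.MP_a9d3bd_yy.St
import Pool.Agent.MP_a9d3bd_x.GF

/-! A model in affine three-space of a surface fibred over a curve. -/

namespace Pool.Agent.MP_a9d3bd_y

open MvPolynomial Pool.Agent.MP_a9d3bd_h Pool.Agent.MP_a9d3bd_q Pool.Agent.MP_a9d3bd_g

section
variable (K : Type) [Field K] {B σ : Type} [CommRing B] [Algebra K B]

/-- The point `(b, v)`. -/
def oe (b : B) (v : σ → B) : Option σ → B := fun o => o.elim b v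

/-- `b` satisfies an equation over `K[v]` that is monic of its total degree. -/
def Bnd (v : σ → B) (b : B) : Prop :=
  ∃ G : MvPolynomial (Option σ) K, aeval (oe b v) G = 0 ∧
    coeff (Finsupp.single none G.totalDegree) G = 1

/-- `b` is a simple root of an equation over `K[v]`. -/
def Sp (v : σ → B) (b : B) : Prop :=
  ∃ G : MvPolynomial (Option σ) K, aeval (oe b v) G = 0 ∧ aeval (oe b v) (pderiv none G) ≠ 0

/-- `B` is integral over `K[v]`. -/
def It (v : σ → B) : Prop := ∀ b : B, IsIntegral (Algebra.adjoin K (Set.range v)) b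

/-- `B` is birational to `K[z]`. -/
def Bir (z : σ → B) : Prop :=
  ∀ b : B, ∃ G₁ G₂ : MvPolynomial σ K, aeval z G₂ ≠ 0 ∧ aeval z G₁ = b * aeval z G₂

variable {K}

/-- `H` is the minimal equation of `b` over `K[v]`. -/
def Mp (v : σ → B) (b : B) (H : MvPolynomial (Option σ) K) : Prop :=
  Irreducible H ∧ coeff (Finsupp.single none H.totalDegree) H = 1 ∧ 0 < H.totalDegree ∧
    ∀ G, aeval (oe b v) G = 0 ↔ H ∣ G

/-- The pair `(ξ, ξ')` is a specialisation of the pair `(ι, τ)`. -/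
def Cmp {Ω : Type} [Field Ω] [Algebra K Ω] (ι τ ξ ξ' : B →ₐ[K] Ω) : Prop :=
  ∀ G : MvPolynomial (B ⊕ B) K, aeval (Sum.elim ι τ) G = 0 → aeval (Sum.elim ξ ξ') G = 0

/-- The equation on the line through `(x, 0, w)` in the direction of the second axis. -/
noncomputable def fE (P : R3 K) (x w : B) : Polynomial B :=
  aeval ![Polynomial.C x, Polynomial.X, Polynomial.C w] P

/-- The equation is monic in the second variable up to a constant. -/
def Top (P : R3 K) : Prop :=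
  0 < P.totalDegree ∧ coeff (Finsupp.single 1 P.totalDegree) P ≠ 0

end

variable {K : Type} [Field K]

/-- A model of the surface with generic point `y`. -/
structure Mdl (P : MvPolynomial (Fin 4) K) {F : Type} [Field F] [Algebra K F] (y : Fin 4 → F)
    (z : Fin 3 → F) (H : R3 K) (W : Pr K (Fin 3)) : Prop where
  ff : FF K F 2
  y0 : y 0 = 1
  on : aeval y P = 0
  nd : ND K y
  top : af K z = ⊤
  srf : Srf H W
  ker : ak K z = W
  int : ∀ i, IsIntegral (Algebra.adjoin K (Set.range z)) (y i)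
  inf : ∀ O : DV K F, ND K (O.red y) → ¬ O.Int z →
    z 0 ∉ O.O ∧ z 1 / z 0 ∈ O.O ∧ z 2 / z 0 ∈ O.O

open Classical in
/-- The functional on the model. -/
noncomputable def lamOf (Λ : MP_a9d3bd_x.LF K (Fin 4)) {F : Type} [Field F] [Algebra K F]
    (y : Fin 4 → F) (z : Fin 3 → F) (Z : Pr K (Fin 3)) (f : R3 K) : ℝ :=
  ((∑ᶠ O : DV K F, if O.Int z ∧ ak K (O.ra z) = Z then
    Λ O.K (O.red y) (O.res (aeval z f)) else 0 : ℚ) : ℝ)

section
variable {A B : Type} [CommRing A] [Algebra K A] [Algebra (Polynomial K) A] [CommRing B]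
  [Algebra K B]

/-- `B = A[T, Θ]` is a component of the surface over `A`. -/
structure Sf (P : R3 K) (i : A →ₐ[K] B) (T Θ : B) : Prop where
  on : aeval ![i (MP_a9d3bd_yy.xA K A), Θ, T] P = 0
  gen : Algebra.adjoin K (Set.range i ∪ {T, Θ}) = ⊤
  tr : ∀ f : Polynomial A, f.eval₂ (i : A →+* B) T = 0 → f = 0

variable {J Ω : Type} [Field Ω] [Algebra K Ω]

/-- A rational point with values in `Ω`. -/
def pt (Ω : Type) [Field Ω] [Algebra K Ω] (β : A →ₐ[K] K) : A →ₐ[K] Ω := (Algebra.ofId K Ω).comp β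

/-- The points over the finitely many base points. -/
def Base (i : A →ₐ[K] B) (φ : J → B →ₐ[K] A) (ν : J → (A →ₐ[K] K) →₀ ℤ) (ι : B →ₐ[K] Ω)
    (z : Fin 3 → B) (ξ : B →ₐ[K] Ω) : Prop :=
  (ξ (z 0) = ι (z 0) ∧ (ξ (z 1) = ι (z 1) ∨ ∃ j, ξ (z 1) = ι (i (φ j (z 1))))) ∨
    ∃ j, ∃ β ∈ (ν j).support, ξ (z 0) = pt Ω β (φ j (z 0)) ∧ ξ (z 1) = pt Ω β (φ j (z 1))

/-- The choice of the coordinates of the model. -/
structure Cho (P : R3 K) (i : A →ₐ[K] B) (T Θ : B) (φ : J → B →ₐ[K] A)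
    (ν : J → (A →ₐ[K] K) →₀ ℤ) (ι : B →ₐ[K] Ω) (s η : A) (c₁ c : K) (z : Fin 3 → B) : Prop where
  z0 : z 0 = i s
  z1 : z 1 = T + c₁ • i η
  z2 : z 2 = Θ + c • i η
  it : It K ![s]
  bx : Bnd K ![s] (MP_a9d3bd_yy.xA K A)
  bx2 : Bnd K ![s] (MP_a9d3bd_yy.xA K A ^ 2)
  be : Bnd K ![s] η
  ba : ∀ j, Bnd K ![s] (φ j (z 1))
  sp : ∀ a : A, Sp K ![s] a
  et : ∀ j, ∀ β ∈ (ν j).support, s - algebraMap K A (β s) ∉ RingHom.ker β ^ 2
  e1 : ∀ j (τ : A →ₐ[K] Ω), τ s = ι (i s) → τ (φ j (z 1)) = ι (i (φ j (z 1))) → τ = ι.comp i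
  e2 : ∀ j, ∀ β ∈ (ν j).support, ∀ τ : A →ₐ[K] Ω, τ s = pt Ω β s →
    τ (φ j (z 1)) = pt Ω β (φ j (z 1)) → τ = pt Ω β
  e3 : ∀ j (τ : A →ₐ[K] Ω), τ s = ι (i s) →
    (fE P (τ (MP_a9d3bd_yy.xA K A)) (ι (i (φ j (z 1))) - c₁ • τ η)).Separable
  e4 : ∀ ξ ξ' : B →ₐ[K] Ω, Base i φ ν ι z ξ → (∀ k, ξ' (z k) = ξ (z k)) → ξ'.comp i = ξ.comp i

end

/-- The plane equation of a section with coordinates `ζ`. -/
structure Gq {A : Type} [CommRing A] [Algebra K A] (ζ : Fin 3 → A) (g : R3 K) : Prop where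
  d2 : g.degreeOf 2 = 0
  top : coeff (Finsupp.single 1 g.totalDegree) g = 1
  on : aeval ζ g = 0
  ne : aeval ζ (pderiv 1 g) ≠ 0
  con : ∀ b : A, ∃ f : R3 K, aeval ζ f = aeval ζ (pderiv 1 g) * b
  min : ∀ (E : Type) [Field E] [Algebra K E] (a : Fin 3 → E), Transcendental K (a 0) →
    aeval a g = 0 → ∀ G : MvPolynomial (Fin 2) K,
      aeval ![a 0, a 1] G = 0 ↔ aeval ![ζ 0, ζ 1] G = 0

end Pool.Agent.MP_a9d3bd_y
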