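import Pool.Agent.MP_a9d3bd_y.St

namespace Pool.Agent.MP_a9d3bd_y

open MvPolynomial Pool.Agent.MP_a9d3bd_h Pool.Agent.MP_a9d3bd_q Pool.Agent.MP_a9d3bd_g

theorem disc_res {T : Type} [Field T] {f : Polynomial T} {n : ℕ} (h0 : f ≠ 0)
    (hn : f.natDegree = n) :
    Polynomial.resultant f (Polynomial.derivative f) n n ≠ 0 ↔ f.Separable := by
  obtain ⟨k, hk⟩ := Nat.exists_eq_add_of_le
    ((Polynomial.natDegree_derivative_le f).trans (Nat.sub_le _ 1))
  have e := Polynomial.resultant_add_right_deg f (Polynomial.derivative f) f.natDegree _ k le_rfl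
  rw [← hk, hn] at e
  rw [e, ← hn, mul_ne_zero_iff, Ne, Ne, Polynomial.resultant_eq_zero_iff, Polynomial.separable_def]
  simp [h0]

section
variable {K B : Type} [Field K] [CommRing B] [Algebra K B]

theorem disc_sum (P : R3 K) (x w : B) : fE P x w = ∑ d ∈ P.support,
    Polynomial.C (algebraMap K B (coeff d P) * x ^ d 0 * w ^ d 2) * Polynomial.X ^ d 1 := by
  unfold fE
  conv_lhs => rw [P.as_sum, map_sum]
  refine Finset.sum_congr rfl fun d _ => ?_
  rw [aeval_monomial, Finsupp.prod_fintype _ _ fun _ => pow_zero _, Fin.prod_univ_three]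
  simp only [Matrix.cons_val, map_mul, map_pow, Polynomial.algebraMap_apply]
  ring

theorem disc_le {P : R3 K} {d : Fin 3 →₀ ℕ} (hd : d ∈ P.support) :
    d 0 + d 1 + d 2 ≤ P.totalDegree := by
  have h := le_totalDegree hd
  rwa [Finsupp.sum_fintype _ _ fun _ => rfl, Fin.sum_univ_three] at h

theorem disc_deg (P : R3 K) (x w : B) : (fE P x w).natDegree ≤ P.totalDegree := by
  rw [disc_sum]
  refine Polynomial.natDegree_sum_le_of_forall_le _ _ fun d hd =>
    (Polynomial.natDegree_C_mul_X_pow_le _ _).trans ?_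
  have := disc_le hd
  omega

theorem disc_top {P : R3 K} (h : Top P) (x w : B) : (fE P x w).coeff P.totalDegree =
    algebraMap K B (coeff (Finsupp.single 1 P.totalDegree) P) := by
  rw [disc_sum, Polynomial.finsetSum_coeff, Finset.sum_eq_single_of_mem
    (Finsupp.single 1 P.totalDegree) (mem_support_iff.2 h.2)]
  · simp
  · intro d hd hne
    rw [Polynomial.coeff_C_mul_X_pow, if_neg]
    intro e
    have := disc_le hd
    refine hne (Finsupp.ext fun i => ?_)
    fin_cases i <;> simp <;> omega

theorem disc_map {B' : Type} [CommRing B'] [Algebra K B'] (φ : B →ₐ[K] B') (P : R3 K) (x w : B) :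
    (fE P x w).map (φ : B →+* B') = fE P (φ x) (φ w) := by
  simp only [disc_sum, Polynomial.map_sum, Polynomial.map_mul, Polynomial.map_pow, Polynomial.map_C,
    Polynomial.map_X, RingHom.coe_coe, map_mul, map_pow, AlgHom.commutes]

theorem disc_eval (P : R3 K) (x w t : B) : (fE P x w).eval t = aeval ![x, t, w] P ∧
    (fE P x w).derivative.eval t = aeval ![x, t, w] (pderiv 1 P) := by
  unfold fE
  induction P using MvPolynomial.induction_on with
  | C a => simp
  | add p q hp hq => simp [hp.1, hp.2, hq.1, hq.2]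
  | mul_X p i hp =>
    fin_cases i <;> simp [hp.1, hp.2, Polynomial.derivative_mul] <;> ring

end

theorem sDisc (K : Type) [Field K] [IsAlgClosed K]  : SDisc K := by
  intro P h
  refine ⟨Polynomial.resultant (fE P (X 0) (X 1)) (Polynomial.derivative (fE P (X 0) (X 1)))
    P.totalDegree P.totalDegree, fun E _ _ x w => ⟨?_, fun t => disc_eval P x w t⟩⟩
  have h1 : (fE P x w).coeff P.totalDegree ≠ 0 := by
    rw [disc_top h]
    exact (map_ne_zero _).2 h.2
  have h2 := disc_map (aeval ![x, w] : MvPolynomial (Fin 2) K →ₐ[K] E) P (X 0) (X 1)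
  rw [aeval_X, aeval_X] at h2
  have h3 := Polynomial.resultant_map_map (fE P (X 0) (X 1))
    (Polynomial.derivative (fE P (X 0) (X 1))) P.totalDegree P.totalDegree
    ((aeval ![x, w] : MvPolynomial (Fin 2) K →ₐ[K] E) : MvPolynomial (Fin 2) K →+* E)
  rw [← Polynomial.derivative_map, h2] at h3
  rw [← disc_res (fun e => h1 (by rw [e, Polynomial.coeff_zero]))
    (Polynomial.natDegree_eq_of_le_of_coeff_ne_zero (disc_deg P x w) h1)]
  exact h3 ▸ Iff.rfl

end Pool.Agent.MP_a9d3bd_y
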