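import Pool.Agent.MP_a9d3bd_y.St

namespace Pool.Agent.MP_a9d3bd_y

open MvPolynomial Pool.Agent.MP_a9d3bd_h Pool.Agent.MP_a9d3bd_q Pool.Agent.MP_a9d3bd_g

theorem hh_add {K A B Ω : Type} [Field K] [CommRing A] [Algebra K A] [CommRing B] [Algebra K B]
    [Field Ω] [Algebra K Ω] {i : A →ₐ[K] B} {τ τ' : B →ₐ[K] Ω} (h : τ.comp i = τ'.comp i)
    (T : B) (c : K) (η : A) : τ (T + c • i η) = τ' (T + c • i η) ↔ τ T = τ' T := by
  have a : τ (i η) = τ' (i η) := DFunLike.congr_fun h η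
  rw [map_add, map_add, map_smul, map_smul, a, add_left_inj]

theorem hh_ext {K A B Ω : Type} [Field K] [CommRing A] [Algebra K A] [CommRing B] [Algebra K B]
    [Field Ω] [Algebra K Ω] {i : A →ₐ[K] B} {τ τ' : B →ₐ[K] Ω} (h : τ.comp i = τ'.comp i)
    {T Θ : B} (hg : Algebra.adjoin K (Set.range i ∪ {T, Θ}) = ⊤) (h1 : τ T = τ' T)
    (h2 : τ Θ = τ' Θ) : τ = τ' := by
  refine AlgHom.ext_of_adjoin_eq_top hg ?_
  rintro _ (⟨a, rfl⟩ | rfl | rfl)
  · exact DFunLike.congr_fun h a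
  · exact h1
  · exact h2

theorem hh_cmp {K A B Ω : Type} [Field K] [CommRing A] [Algebra K A] [CommRing B] [Algebra K B]
    [Field Ω] [Algebra K Ω] (i : A →ₐ[K] B) {ι τ ξ ξ' : B →ₐ[K] Ω} (h : Cmp ι τ ξ ξ') :
    Cmp (ι.comp i) (τ.comp i) (ξ.comp i) (ξ'.comp i) := by
  intro G hG
  have e : ∀ a b : B →ₐ[K] Ω, aeval (Sum.elim a b) (rename (Sum.map i i) G) =
      aeval (Sum.elim (a.comp i) (b.comp i)) G := fun a b => by
    rw [aeval_rename]
    congr 2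
    funext x
    cases x <;> rfl
  rw [← e] at hG ⊢
  exact h _ hG

theorem sHh (K : Type) [Field K] [IsAlgClosed K] (h1 : SHh1 K) (h2 : STwo K) (h3 : SMin K)
    (h4 : SPrim K) (h5 : SSim K) (h6 : SUnr K) (h7 : SUnr0 K) (h8 : SDd K) : SHh K := by
  intro A B J Ω _ _ _ _ _ _ _ _ _ _ _ _ _ _ P i T Θ φ ν ι s η c₁ c z hy hι ch
  obtain ⟨hA, hB, hi, -, hind, hit, -, hbd, hsp⟩ := h1 A B J Ω P i T Θ φ ν ι s η c₁ c z hy hι ch
  obtain ⟨H0, hM⟩ := h3 B (Fin 2) ![z 0, z 1] (z 2) hind hbd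
  let e : Option (Fin 2) ≃ Fin 3 := finSuccEquivLast.symm
  have e2 : e none = 2 := rfl
  have he : z ∘ e = oe (z 2) ![z 0, z 1] := by
    funext o
    rcases o with _ | k
    · rfl
    · fin_cases k <;> rfl
  have hev : ∀ G : MvPolynomial (Option (Fin 2)) K,
      aeval z (rename e G) = aeval (oe (z 2) ![z 0, z 1]) G := fun G => by
    rw [aeval_rename, he]
  have uq : ∀ ξ ξ' : B →ₐ[K] Ω, Base i φ ν ι z ξ → (∀ k, ξ' (![z 0, z 1] k) = ξ (![z 0, z 1] k)) →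
      ξ' (z 2) = ξ (z 2) → ξ' = ξ := fun ξ ξ' hb h h' => by
    have a := ch.e4 ξ ξ' hb fun k => by
      fin_cases k
      · exact h 0
      · exact h 1
      · exact h'
    refine hh_ext a hy.sf.gen ((hh_add a T c₁ η).1 ?_) ((hh_add a Θ c η).1 ?_)
    · rw [← ch.z1]; exact h 1
    · rw [← ch.z2]; exact h'
  obtain ⟨hd, hbir⟩ := h4 B (Fin 2) Ω ι ![z 0, z 1] (z 2) H0 hB hι hind hM hsp
    fun τ h h' => uq ι τ (Or.inl ⟨rfl, Or.inl rfl⟩) h h'
  have hdeg : (rename e H0).totalDegree = H0.totalDegree := totalDegree_renameEquiv e H0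
  have hirr : Irreducible (rename e H0) :=
    (MulEquiv.irreducible_iff (renameEquiv K e)).2 hM.1
  have hpd : aeval z (pderiv 2 (rename e H0)) =
      aeval (oe (z 2) ![z 0, z 1]) (pderiv none H0) := by
    rw [← hev, ← pderiv_rename e.injective, e2]
  refine ⟨rename e H0, ⟨Ideal.span {rename e H0},
    (Ideal.span_singleton_prime hirr.ne_zero).2 hirr.prime⟩, ⟨hirr, ?_, ?_, ?_, rfl⟩, ?_, ?_, ?_⟩
  · rw [hdeg, ← e2, ← Finsupp.mapDomain_single, coeff_rename_mapDomain _ e.injective]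
    exact hM.2.1
  · rw [hdeg]
    refine h2 A B J Ω i s (z 1) (z 2) H0 hi ch.it ch.bx2 ?_ ?_ ?_
    · rw [← ch.z0]; exact hind
    · rw [← ch.z0]; exact hM
    · rw [← ch.z0]; exact hbir
  · intro h
    rw [h, map_zero] at hpd
    exact hd hpd.symm
  · intro G
    obtain ⟨G, rfl⟩ := (renameEquiv K e).surjective G
    rw [renameEquiv_apply, hev, hM.2.2.2, Ideal.mem_span_singleton]
    exact map_dvd_iff (renameEquiv K e)
  · intro b
    obtain ⟨G₁, G₂, a1, a2⟩ := hbir b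
    exact ⟨rename e G₁, rename e G₂, by rw [hev]; exact a1, by rw [hev, hev]; exact a2⟩
  · intro ξ hb hP hc
    rw [hpd]
    refine h5 B (Fin 2) Ω ι ξ ![z 0, z 1] (z 2) H0 hι hind hit hM hd
      fun τ ξ' hτ hξ hne hcm heq => hP ?_
    obtain rfl := uq ξ ξ' hb hξ heq
    have hs : (τ.comp i) s = (ι.comp i) s := by
      have a : τ (z 0) = ι (z 0) := hτ 0
      rw [ch.z0] at a
      exact a
    have a : τ.comp i = ι.comp i := by
      rcases hc with hc | ⟨j, β, hβ, hc⟩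
      · rw [ch.z0] at hc
        exact h7 A Ω (ι.comp i) (τ.comp i) (ξ'.comp i) s ch.it hc hs (hh_cmp i hcm)
      · refine h6 A Ω (ι.comp i) (τ.comp i) β s hA (ch.et j β hβ) hs ?_
        rw [← hc]
        exact hh_cmp i hcm
    refine h8 B Ω ι τ ξ' P _ Θ T hy.sf.on (DFunLike.congr_fun a _) ((hh_add a T c₁ η).1 ?_)
      (fun h => hne ?_) hcm
    · rw [← ch.z1]; exact hτ 1
    · rw [ch.z2]; exact (hh_add a Θ c η).2 h

end Pool.Agent.MP_a9d3bd_y
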