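import Pool.Agent.MP_a9d3bd_y.St

namespace Pool.Agent.MP_a9d3bd_y

open MvPolynomial Pool.Agent.MP_a9d3bd_h Pool.Agent.MP_a9d3bd_q Pool.Agent.MP_a9d3bd_g
open Pool.Agent.MP_a9d3bd_yy (xA fib)

section
variable {K : Type} [Field K] {B F σ τ : Type} [CommRing B] [Algebra K B] [CommRing F]
  [Algebra K F]

theorem hh1_oe (j : B →ₐ[K] F) (v : σ → B) (b : B) (G : MvPolynomial (Option σ) K) :
    aeval (oe (j b) fun k => j (v k)) G = j (aeval (oe b v) G) := by
  rw [comp_aeval_apply]
  congr 2
  funext o
  cases o <;> rfl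

theorem hh1_bnd (j : B →ₐ[K] F) (hj : Function.Injective j) {v : σ → B} {b : B}
    (h : Bnd K (fun k => j (v k)) (j b)) : Bnd K v b := by
  obtain ⟨G, h1, h2⟩ := h
  rw [hh1_oe] at h1
  exact ⟨G, hj (h1.trans (map_zero j).symm), h2⟩

theorem hh1_sp (j : B →ₐ[K] F) (hj : Function.Injective j) {v : σ → B} {b : B} :
    Sp K (fun k => j (v k)) (j b) ↔ Sp K v b := by
  unfold Sp
  simp only [hh1_oe, ne_eq, map_eq_zero_iff j hj]

theorem hh1_ren (f : σ → τ) (hf : Function.Injective f) {v : τ → B} {b : B}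
    (h : Sp K (fun k => v (f k)) b) : Sp K v b := by
  obtain ⟨G, h1, h2⟩ := h
  have e : oe b v ∘ Option.map f = oe b fun k => v (f k) := by
    funext o
    cases o <;> rfl
  refine ⟨rename (Option.map f) G, ?_, ?_⟩
  · rw [aeval_rename, e, h1]
  · have := pderiv_rename (Option.map_injective hf) none G
    rw [Option.map_none] at this
    rw [this, aeval_rename, e]
    exact h2

theorem hh1_mono {S S' : Subalgebra K B} (h : S ≤ S') {b : B} (hb : IsIntegral S b) :
    IsIntegral S' b := by
  obtain ⟨p, hp, h0⟩ := hb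
  refine ⟨p.map (Subalgebra.inclusion h : S →+* S'), hp.map _, ?_⟩
  rw [Polynomial.eval₂_map]
  exact h0

theorem hh1_top {P : R3 K} (hP : Top P) {x t w : B} (h : aeval ![x, t, w] P = 0) :
    Bnd K ![x, w] t := by
  let e : Fin 3 ≃ Option (Fin 2) := Equiv.ofBijective ![some 0, none, some 1] (by decide)
  have hc := hP.2
  have hP0 : P ≠ 0 := fun h0 => hc (by rw [h0, coeff_zero])
  have hd : (C (coeff (Finsupp.single 1 P.totalDegree) P)⁻¹ * P).totalDegree = P.totalDegree := by
    rw [totalDegree_mul_of_isDomain (C_ne_zero.2 (inv_ne_zero hc)) hP0, totalDegree_C, zero_add]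
  refine ⟨renameEquiv K e (C (coeff (Finsupp.single 1 P.totalDegree) P)⁻¹ * P), ?_, ?_⟩
  · have e1 : oe t ![x, w] ∘ e = ![x, t, w] := by
      funext k
      fin_cases k <;> rfl
    rw [renameEquiv_apply, aeval_rename, e1, map_mul, h, mul_zero]
  · have e2 : (Finsupp.single none P.totalDegree : Option (Fin 2) →₀ ℕ) =
        (Finsupp.single 1 P.totalDegree).mapDomain e := by
      rw [Finsupp.mapDomain_single]
      rfl
    rw [totalDegree_renameEquiv, hd, renameEquiv_apply, e2, coeff_rename_mapDomain _ e.injective,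
      coeff_C_mul, inv_mul_cancel₀ hc]

theorem hh1_ev (ψ : B →ₐ[K] F) (t : F) (x w : B) (P : R3 K) :
    (fE P x w).eval₂ (ψ : B →+* F) t = aeval ![ψ x, t, ψ w] P := by
  unfold fE
  induction P using MvPolynomial.induction_on with
  | C r => simp
  | add p q hp hq => rw [map_add, map_add, Polynomial.eval₂_add, hp, hq]
  | mul_X p i hp =>
    rw [map_mul, map_mul, Polynomial.eval₂_mul, hp, aeval_X, aeval_X]
    congr 1
    fin_cases i <;> simp

end

theorem hh1_root0 {K F E : Type} [Field K] [Field F] [Algebra K F] [Field E] [Algebra K E]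
    [Algebra E F] [IsScalarTower K E F] (h5 : SDisc K) {P : R3 K}
    (hP : Top P) (hg : ∃ x0 w0 : K, (fib P x0 w0).Separable) (x w : E) {t : F}
    (ai : AlgebraicIndependent K ![algebraMap E F x, algebraMap E F w])
    (h : aeval ![algebraMap E F x, t, algebraMap E F w] P = 0) : IsSeparable E t := by
  obtain ⟨δ, hδ⟩ := h5 P hP
  obtain ⟨x0, w0, hg⟩ := hg
  have h0 : δ ≠ 0 := fun e => ((hδ K x0 w0).1.1 hg) (by rw [e, map_zero])
  have hs : (fE P x w).Separable := by
    refine (hδ E x w).1.2 fun e => h0 ?_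
    have e1 := congrArg (IsScalarTower.toAlgHom K E F) e
    rw [comp_aeval_apply, map_zero] at e1
    have e2 : (fun i => IsScalarTower.toAlgHom K E F (![x, w] i)) =
        ![algebraMap E F x, algebraMap E F w] := by
      funext k
      fin_cases k <;> rfl
    rw [e2] at e1
    exact ai (e1.trans (map_zero _).symm)
  have hr : Polynomial.aeval t (fE P x w) = 0 :=
    (hh1_ev (IsScalarTower.toAlgHom K E F) t x w P).trans h
  exact hs.of_dvd (minpoly.dvd E t hr)

theorem hh1_root {K F E : Type} [Field K] [Field F] [Algebra K F] [Field E] [Algebra K E]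
    [Algebra E F] [IsScalarTower K E F] (h5 : SDisc K) {P : R3 K}
    (hP : Top P) (hg : ∃ x0 w0 : K, (fib P x0 w0).Separable)
    {x t w : F} (ai : AlgebraicIndependent K ![x, w]) (h : aeval ![x, t, w] P = 0)
    (hx : IsSeparable E x) (hw : IsSeparable E w) : IsSeparable E t := by
  have : IsScalarTower K (separableClosure E F) F :=
    IsScalarTower.of_algebraMap_eq fun _ => rfl
  exact IsSeparable.of_algebra_isSeparable_of_isSeparable (E := separableClosure E F) E
    (hh1_root0 (E := separableClosure E F) h5 hP hg ⟨x, hx⟩ ⟨w, hw⟩ ai h)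

theorem sHh1 (K : Type) [Field K] [IsAlgClosed K] (h1 : SIt K) (h2 : SBnd K) (h3 : SBval K)
    (h4 : SSpi K) (h5 : SDisc K) : SHh1 K := by
  intro A B J Ω _ _ _ _ _ _ _ _ _ _ _ _ _ _ P i T Θ φ ν ι s η c₁ c z hy _ hc
  obtain ⟨fA, fB, hi, -, hs, ai, ai', it⟩ := h1 A B J Ω P i T Θ s η c₁ hy.top hy.sf hc.it
  rw [← hc.z0, ← hc.z1] at ai it
  let j : B →ₐ[K] FractionRing B := IsScalarTower.toAlgHom K B (FractionRing B)
  have hj : Function.Injective j := IsFractionRing.injective B (FractionRing B)
  have hT : j T = j (z 1) - algebraMap K _ c₁ * j (i η) := by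
    rw [hc.z1, map_add, map_smul, Algebra.smul_def, add_sub_cancel_right]
  refine ⟨fA, fB, hi, hs, ai, it, fun b => hh1_mono (Algebra.adjoin_mono ?_) (it b), ?_,
    fun b => ?_⟩
  · rintro _ ⟨k, rfl⟩
    fin_cases k
    · exact ⟨0, rfl⟩
    · exact ⟨1, rfl⟩
  · refine hh1_bnd j hj (h2 _ (Fin 2) _ _ fun V hV γ hγ hv => ?_)
    have v0 : V.valuation (j (i s)) ≤ γ := hc.z0 ▸ hv 0
    have va : ∀ a, Bnd K ![s] a → V.valuation (j (i a)) ≤ γ := fun a ha =>
      (h3 A (Fin 1) ![s] a ha).2 _ (j.comp i) V hV γ hγ fun k => by fin_cases k; exact v0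
    have vc : ∀ (r : K) (y : FractionRing B), V.valuation y ≤ γ →
        V.valuation (algebraMap K _ r * y) ≤ γ := fun r y hy' => by
      rw [map_mul]
      exact (mul_le_mul' ((V.valuation_le_one_iff _).2 (hV r)) hy').trans (one_mul γ).le
    have vT : V.valuation (j T) ≤ γ := by
      rw [hT]
      exact V.valuation.map_sub_le (hv 1) (vc _ _ (va η hc.be))
    have vΘ : V.valuation (j Θ) ≤ γ :=
      (h3 B (Fin 2) _ Θ (hh1_top hy.top hy.sf.on)).2 _ j V hV γ hγ fun k => by
        fin_cases k
        · exact va _ hc.bx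
        · exact vT
    rw [hc.z2, map_add, map_smul, Algebra.smul_def]
    exact V.valuation.map_add_le vΘ (vc _ _ (va η hc.be))
  · refine (hh1_sp j hj).1 ((h4 _ (Fin 2) _ _).2 ?_)
    have hA : ∀ a, IsSeparable (IntermediateField.adjoin K (Set.range fun k => j (![z 0, z 1] k)))
        (j (i a)) := fun a => by
      refine (h4 _ (Fin 2) _ _).1 (hh1_ren ![0] (Function.injective_of_subsingleton _) ?_)
      have := (hh1_sp (j.comp i) (hj.comp hi)).2 (hc.sp a)
      have e : (fun k => (j.comp i) (![s] k)) = fun k : Fin 1 => j (![z 0, z 1] (![0] k)) := by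
        funext k
        fin_cases k
        exact congrArg j hc.z0.symm
      rw [e] at this
      exact this
    have h1' : j (z 1) ∈ IntermediateField.adjoin K (Set.range fun k => j (![z 0, z 1] k)) :=
      IntermediateField.subset_adjoin _ _ ⟨1, rfl⟩
    generalize IntermediateField.adjoin K (Set.range fun k => j (![z 0, z 1] k)) = E at hA h1'
    let E2 : IntermediateField K (FractionRing B) :=
      (separableClosure E (FractionRing B)).restrictScalars K
    have mT : j T ∈ E2 := by
      rw [hT]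
      exact E2.sub_mem ((separableClosure E (FractionRing B)).algebraMap_mem ⟨_, h1'⟩)
        (E2.mul_mem (E2.algebraMap_mem c₁) (hA η))
    have mΘ : j Θ ∈ E2 := by
      refine hh1_root (E := E) h5 hy.top hy.gen (x := j (i (xA K A))) (w := j T) ?_ ?_ (hA _) mT
      · have := ai'.map' hj
        have e : j ∘ ![i (xA K A), T] = ![j (i (xA K A)), j T] := by
          funext k
          fin_cases k <;> rfl
        rw [e] at this
        exact this
      · have := congrArg j hy.sf.on
        rw [comp_aeval_apply, map_zero] at this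
        have e : (fun k => j (![i (xA K A), Θ, T] k)) = ![j (i (xA K A)), j Θ, j T] := by
          funext k
          fin_cases k <;> rfl
        rw [e] at this
        exact this
    have hle : Algebra.adjoin K (Set.range i ∪ {T, Θ}) ≤ E2.toSubalgebra.comap j := by
      refine Algebra.adjoin_le ?_
      rintro y (⟨a, rfl⟩ | rfl | rfl)
      · exact hA a
      · exact mT
      · exact mΘ
    rw [hy.sf.gen] at hle
    exact hle Algebra.mem_top

end Pool.Agent.MP_a9d3bd_y
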