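import Pool.Agent.MP_a9d3bd_y.St

/-! First properties of the coordinates. -/

namespace Pool.Agent.MP_a9d3bd_y

open MvPolynomial Pool.Agent.MP_a9d3bd_h Pool.Agent.MP_a9d3bd_q Pool.Agent.MP_a9d3bd_g
open Pool.Agent.MP_a9d3bd_yy (xA)

theorem hh1_pull {K A L σ : Type} [Field K] [CommRing A] [Algebra K A] [CommRing L] [Algebra K L]
    (j : A →ₐ[K] L) (v : σ → A) (a : A) (G : MvPolynomial (Option σ) K) :
    aeval (oe (j a) fun k => j (v k)) G = j (aeval (oe a v) G) := by
  have e : (oe (j a) fun k => j (v k)) = fun o => j (oe a v o) := by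
    funext o
    cases o <;> rfl
  rw [e, ← MvPolynomial.comp_aeval]
  rfl

theorem hh1_key {K : Type} [Field K] (h4 : SSpi K) {F : Type} [Field F] [Algebra K F]
    (E : IntermediateField K F) {σ : Type} [Fintype σ] (w : σ → F) (b : F)
    (hw : ∀ k, w k ∈ separableClosure E F) (hb : Sp K w b) : b ∈ separableClosure E F := by
  have h1 := (h4 F σ w b).1 hb
  have h2 : IntermediateField.adjoin K (Set.range w) ≤ (separableClosure E F).restrictScalars K :=
    IntermediateField.adjoin_le_iff.2 (by rintro _ ⟨k, rfl⟩; exact hw k)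
  let φ : IntermediateField.adjoin K (Set.range w) →+* separableClosure E F :=
    (algebraMap (IntermediateField.adjoin K (Set.range w)) F).codRestrict _ fun x => h2 x.2
  let _ := φ.toAlgebra
  have : IsScalarTower (IntermediateField.adjoin K (Set.range w)) (separableClosure E F) F :=
    IsScalarTower.of_algebraMap_eq fun _ => rfl
  exact mem_separableClosure_iff.2 (IsSeparable.of_algebra_isSeparable_of_isSeparable E
    (IsSeparable.tower_top (separableClosure E F) h1))

/-- The renaming of the variables. -/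
def hh1_e : Fin 3 → Option (Fin 2) := ![some 0, none, some 1]

theorem hh1_inj : Function.Injective hh1_e := by decide

theorem hh1_ev {K B : Type} [Field K] [CommRing B] [Algebra K B] (x t w : B) (P : R3 K) :
    aeval (oe t ![x, w]) (rename hh1_e P) = aeval ![x, t, w] P := by
  rw [aeval_rename]
  congr 2
  funext k
  fin_cases k <;> rfl

theorem hh1_bnd {K B : Type} [Field K] [CommRing B] [Algebra K B] (x t w : B) (P : R3 K)
    (hP : Top P) (h : aeval ![x, t, w] P = 0) : Bnd K ![x, w] t := by
  have h1 : coeff (Finsupp.single none P.totalDegree)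
      ((coeff (Finsupp.single 1 P.totalDegree) P)⁻¹ • rename hh1_e P) = 1 := by
    have h2 := coeff_rename_mapDomain hh1_e hh1_inj P (Finsupp.single 1 P.totalDegree)
    rw [Finsupp.mapDomain_single] at h2
    rw [coeff_smul, show (none : Option (Fin 2)) = hh1_e 1 from rfl, h2, smul_eq_mul,
      inv_mul_cancel₀ hP.2]
  refine ⟨(coeff (Finsupp.single 1 P.totalDegree) P)⁻¹ • rename hh1_e P,
    by rw [map_smul, hh1_ev, h, smul_zero], ?_⟩
  have h3 := le_totalDegree (mem_support_iff.2 (h1.trans_ne one_ne_zero))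
  rw [Finsupp.sum_single_index rfl] at h3
  rw [le_antisymm ((totalDegree_smul_le _ _).trans (totalDegree_rename_le _ _)) h3]
  exact h1

theorem sHh1 (K : Type) [Field K] [IsAlgClosed K] (h1 : SIt K) (h2 : SBnd K) (h3 : SBval K)
    (h4 : SSpi K) (h5 : SDisc K) : SHh1 K := by
  intro A B J Ω _ _ _ _ _ _ _ _ _ _ _ _ _ _ P i T Θ φ ν ι s η c₁ c z hy hι ch
  obtain ⟨hA, hB, hi, -, hs, hind, hind2, hit⟩ := h1 A B J Ω P i T Θ s η c₁ hy.top hy.sf ch.it
  rw [← ch.z0, ← ch.z1] at hind hit
  let j : B →ₐ[K] FractionRing B := IsScalarTower.toAlgHom K B (FractionRing B)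
  have hj : Function.Injective j := IsFractionRing.injective B (FractionRing B)
  have hT : T = z 1 - c₁ • i η := by rw [ch.z1, add_sub_cancel_right]
  refine ⟨hA, hB, hi, hs, hind, hit, fun b => ?_, ?_, fun b => ?_⟩
  · have hle : Algebra.adjoin K (Set.range ![z 0, z 1]) ≤ Algebra.adjoin K (Set.range z) :=
      Algebra.adjoin_mono (by rintro _ ⟨k, rfl⟩; fin_cases k <;> exact ⟨_, rfl⟩)
    exact (hit b).map_of_comp_eq (Subalgebra.inclusion hle).toRingHom (RingHom.id _) rfl
  · obtain ⟨G, hG, hG'⟩ := h2 _ _ (fun k => j (![z 0, z 1] k)) (j (z 2)) fun V hV γ hγ hle => by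
      have hsm : ∀ (r : K) (u : B), V.valuation (j u) ≤ γ → V.valuation (j (r • u)) ≤ γ := by
        intro r u hu
        rw [map_smul, Algebra.smul_def, map_mul]
        exact (mul_le_of_le_one_left' ((V.valuation_le_one_iff _).2 (hV r))).trans hu
      have h0 : ∀ k, V.valuation ((j.comp i) (![s] k)) ≤ γ := fun k => by
        fin_cases k
        have := hle 0
        rw [ch.z0] at this
        exact this
      have hx := (h3 A _ _ _ ch.bx).2 _ (j.comp i) V hV γ hγ h0
      have he := (h3 A _ _ _ ch.be).2 _ (j.comp i) V hV γ hγ h0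
      have ht : V.valuation (j T) ≤ γ := by
        rw [hT, map_sub]
        exact Valuation.map_sub_le _ (hle 1) (hsm _ _ he)
      have hΘ := (h3 B _ _ _ (hh1_bnd _ _ _ P hy.top hy.sf.on)).2 _ j V hV γ hγ fun k => by
        fin_cases k
        exacts [hx, ht]
      rw [ch.z2, map_add]
      exact Valuation.map_add_le _ hΘ (hsm _ _ he)
    rw [hh1_pull] at hG
    exact ⟨G, (map_eq_zero_iff _ hj).1 hG, hG'⟩
  · let E := IntermediateField.adjoin K (Set.range fun k => j (![z 0, z 1] k))
    have hz : ∀ k, j (![z 0, z 1] k) ∈ separableClosure E (FractionRing B) := fun k =>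
      (separableClosure E (FractionRing B)).algebraMap_mem
        ⟨_, IntermediateField.subset_adjoin K _ ⟨k, rfl⟩⟩
    have ha : ∀ a, j (i a) ∈ separableClosure E (FractionRing B) := by
      intro a
      obtain ⟨G, hG, hG'⟩ := ch.sp a
      refine hh1_key h4 E (fun k => (j.comp i) (![s] k)) ((j.comp i) a) (fun k => ?_) ⟨G, ?_, ?_⟩
      · fin_cases k
        have := hz 0
        rw [ch.z0] at this
        exact this
      · rw [hh1_pull, hG, map_zero]
      · rw [hh1_pull]
        exact fun h => hG' ((map_eq_zero_iff _ hi).1 ((map_eq_zero_iff _ hj).1 h))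
    have ht : j T ∈ separableClosure E (FractionRing B) := by
      rw [hT, ← map_smul i, map_sub]
      exact sub_mem (hz 1) (ha _)
    have hon : aeval ![j (i (xA K A)), j Θ, j T] P = 0 := by
      have e : ![j (i (xA K A)), j Θ, j T] = fun k => j (![i (xA K A), Θ, T] k) := by
        funext k
        fin_cases k <;> rfl
      rw [e, ← MvPolynomial.comp_aeval, AlgHom.comp_apply, hy.sf.on, map_zero]
    have hΘ : j Θ ∈ separableClosure E (FractionRing B) := by
      obtain ⟨δ, hδ⟩ := h5 P hy.top
      obtain ⟨x0, w0, h0⟩ := hy.gen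
      have hδ0 : δ ≠ 0 := fun h => (hδ K x0 w0).1.1 h0 (by rw [h, map_zero])
      have hsep : (fE P (j (i (xA K A))) (j T)).Separable := by
        refine (hδ _ _ _).1.2 fun h => hδ0 (hind2 ?_)
        have e : ![j (i (xA K A)), j T] = fun k => j (![i (xA K A), T] k) := by
          funext k
          fin_cases k <;> rfl
        rw [e, ← MvPolynomial.comp_aeval, AlgHom.comp_apply] at h
        rw [map_zero]
        exact (map_eq_zero_iff _ hj).1 h
      refine hh1_key h4 E ![j (i (xA K A)), j T] (j Θ) (fun k => ?_) ⟨rename hh1_e P, ?_, ?_⟩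
      · fin_cases k
        exacts [ha _, ht]
      · rw [hh1_ev, hon]
      · rw [show (none : Option (Fin 2)) = hh1_e 1 from rfl, pderiv_rename hh1_inj, hh1_ev,
          ← ((hδ _ _ _).2 (j Θ)).2]
        exact hsep.aeval_derivative_ne_zero (((hδ _ _ _).2 (j Θ)).1.trans hon)
    have hb : b ∈ ((separableClosure E (FractionRing B)).restrictScalars K).toSubalgebra.comap j := by
      refine (Algebra.adjoin_le ?_ : Algebra.adjoin K (Set.range i ∪ {T, Θ}) ≤ _)
        (hy.sf.gen ▸ Algebra.mem_top)
      rintro _ (⟨a, rfl⟩ | rfl | rfl)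
      exacts [ha a, ht, hΘ]
    obtain ⟨G, hG, hG'⟩ := (h4 _ _ (fun k => j (![z 0, z 1] k)) (j b)).2
      (mem_separableClosure_iff.1 hb)
    rw [hh1_pull] at hG hG'
    exact ⟨G, (map_eq_zero_iff _ hj).1 hG, fun h => hG' (by rw [h, map_zero])⟩

end Pool.Agent.MP_a9d3bd_y
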