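import Pool.Agent.MP_a9d3bd_y.TSt
import Pool.Agent.MP_a9d3bd_y.TDefs2

/-! Sections of a hypersurface model of any dimension. -/

namespace Pool.Agent.MP_a9d3bd_y

open Polynomial Pool.Agent.MP_a9d3bd_q
open Pool.Agent.MP_a9d3bd_yy (xA Dvs)
open Pool.Agent.MP_a9d3bd_x (LF GF)

section
variable {K ι τ σ : Type} [Field K]

/-- The value of `G (x, θ)`. -/
noncomputable def em {B : Type} [CommRing B] [Algebra K B] (x : τ → B) (θ : B) :
    (MvPolynomial τ K)[X] →+* B :=
  eval₂RingHom (MvPolynomial.aeval x : MvPolynomial τ K →ₐ[K] B) θ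

/-- The value of a linear form. -/
def lf [Fintype ι] {B : Type} [CommRing B] [Algebra K B] (h : ι → K) (y : ι → B) : B :=
  ∑ a, h a • y a

/-- The linear forms have no common zero on `V(S)`. -/
def Nz [Fintype ι] (S : Set (MvPolynomial ι K)) (h : τ → ι → K) : Prop :=
  ∀ (E : Type) [Field E] [Algebra K E] (y : ι → E), y ≠ 0 → On S y → ∃ o, lf (h o) y ≠ 0

/-- A hypersurface `P (x, θ) = 0` with a map `Y` to `V(S)` that inverts the projection `h`. -/
structure Mo [Fintype ι] (S : Set (MvPolynomial ι K)) (h : Option τ → ι → K)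
    (P : (MvPolynomial τ K)[X]) (Y : ι → (MvPolynomial τ K)[X]) : Prop where
  mon : P.Monic
  nz : Nz S h
  on : ∀ (E : Type) [Field E] [Algebra K E] (x : τ → E) (θ : E), em x θ P = 0 →
    em x θ (derivative P) ≠ 0 → On S (fun a => em x θ (Y a)) ∧
      ∀ o, lf (h o) (fun a => em x θ (Y a)) = oe 1 x o * em x θ (derivative P)

/-- Every element is a simple root over the line. -/
def Sr (K A : Type) [Field K] [CommRing A] [Algebra K[X] A] : Prop :=
  ∀ a : A, ∃ Φ : K[X][X], aeval a Φ = 0 ∧ aeval a (derivative Φ) ≠ 0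

/-- The statement for the sections `(x, t j, w j)`. -/
def Sec (Λ : LF K ι) (P : (MvPolynomial (Option σ) K)[X])
    (Y : ι → (MvPolynomial (Option σ) K)[X]) {A J : Type} [CommRing A] [IsDomain A] [Algebra K A]
    [Algebra K[X] A] [Fintype J] (x : A) (t : J → σ → A) : Prop :=
  ∀ (w : J → A) (u : J → FractionRing A) (ν : J → (A →ₐ[K] K) →₀ ℤ) (r : J → ℚ),
    (∀ j, em (oe x (t j)) (w j) P = 0) → (∀ j, Dvs K (u j) (ν j)) →
    (∀ j, em (oe x (t j)) (w j) (derivative P) ≠ 0) →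
    (∀ j, ∀ β ∈ (ν j).support, β (em (oe x (t j)) (w j) (derivative P)) ≠ 0) →
    (∀ (β : A →ₐ[K] K) (t0 : σ → K) (w0 : K), ∑ j, (open Classical in
      if (fun s => β (t j s)) = t0 ∧ β (w j) = w0 then r j * (ν j β : ℚ) else 0) = 0) →
    ∑ j, r j * Λ (FractionRing A)
      (fun a => algebraMap A (FractionRing A) (em (oe x (t j)) (w j) (Y a))) (u j) = 0

/-- The statement for sections over a cover of the line. -/
def CoreH (Λ : LF K ι) (P : (MvPolynomial (Option σ) K)[X])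
    (Y : ι → (MvPolynomial (Option σ) K)[X]) : Prop :=
  ∀ (A : Type) [CommRing A] [IsDedekindDomain A] [Algebra K A] [Algebra K[X] A]
    [IsScalarTower K K[X] A] [Module.Finite K[X] A] [Module.IsTorsionFree K[X] A], Sr K A →
    FF K (FractionRing A) 1 → ∀ (J : Type) [Fintype J] (t : J → σ → A), Sec Λ P Y (xA K A) t

/-- The same for sections that are separated by one function. -/
def CoreN (Λ : LF K ι) (P : (MvPolynomial (Option σ) K)[X])
    (Y : ι → (MvPolynomial (Option σ) K)[X]) : Prop :=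
  ∀ (A : Type) [CommRing A] [IsDedekindDomain A] [Algebra K A] [Algebra K[X] A]
    [IsScalarTower K K[X] A] [Module.Finite K[X] A] [Module.IsTorsionFree K[X] A], Sr K A →
    FF K (FractionRing A) 1 → ∀ (J : Type) [Fintype J] (x : A) (t : J → σ → A) (μ : J → A),
    Transcendental K x →
    (∀ (β : A →ₐ[K] K) j k, β (μ j) = β (μ k) ↔ ∀ s, β (t j s) = β (t k s)) → Sec Λ P Y x t

/-- `B = A[1 / f(x)]` with the coordinate `x + 1 / f(x) ^ p`. -/
structure Lo {A B : Type} [CommRing A] [Algebra K A] [Algebra K[X] A] [CommRing B] [Algebra K B]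
    [Algebra K[X] B] (p : ℕ) (f : K[X]) (α : A →ₐ[K] B) (g : B) : Prop where
  inj : Function.Injective α
  inv : g * α (aeval (xA K A) f) = 1
  sur : ∀ b : B, ∃ (a : A) (n : ℕ), b = α a * g ^ n
  co : xA K B = α (xA K A) + g ^ p

end

variable (K : Type) [Field K]

/-- interpolation up to Frobenius -/
def UInt : Prop := ∀ (p : ℕ) [Fact p.Prime] (R σ J : Type) [CommRing R] [CharP R p] [Finite σ]
  [Finite J] (μ : J → R) (t : J → σ → R),
  (∀ j k s, t j s - t k s ∈ (Ideal.span {μ j - μ k}).radical) →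
  ∃ m₀ : ℕ, ∀ m, m₀ ≤ m → ∃ c : σ → R[X], ∀ j s, (c s).eval (μ j) = t j s ^ p ^ m

/-- the Nullstellensatz -/
def URad : Prop := ∀ (A : Type) [CommRing A] [Algebra K A], Algebra.FiniteType K A → ∀ a D : A,
  (∀ β : A →ₐ[K] K, β D = 0 → β a = 0) → a ∈ (Ideal.span {D}).radical

/-- the geometric Frobenius -/
def UFrob : Prop := ∀ (p : ℕ) [Fact p.Prime] [CharP K p], (∀ c : K, ∃ n, 0 < n ∧ c ^ p ^ n = c) →
  ∀ (A : Type) [CommRing A] [IsDomain A] [Algebra K A], Algebra.FiniteType K A →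
  ∀ G : Set A, G.Finite → ∃ m₁ : ℕ, 0 < m₁ ∧ ∀ n : ℕ, ∃ φ : A →ₐ[K] A, Function.Injective φ ∧
    ∀ a ∈ G, φ a = a ^ p ^ (m₁ * n)

/-- a curve with constant projection is a point -/
def UDeg : Prop := ∀ (ι τ : Type) [Fintype ι] (S : Set (MvPolynomial ι K)) (h : τ → ι → K),
  Homog S → Nz S h → ∀ (E : Type) [Field E] [Algebra K E], FF K E 1 → ∀ (y : ι → E) (κ : E)
    (v : τ → K), y ≠ 0 → On S y → (∀ o, lf (h o) y = κ * algebraMap K E (v o)) → ¬ ND K y

/-- the surface maps to a surface -/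
def UNd : Prop := ∀ (ι σ : Type) [Fintype ι] (h : Option (Option σ) → ι → K) (A : Type)
  [CommRing A] [IsDomain A] [Algebra K A] [Algebra K[X] A] [IsScalarTower K K[X] A]
  [Module.Finite K[X] A], FF K (FractionRing A) 1 → ∀ (x : A) (c : σ → A[X]) (s₀ : σ),
  Transcendental K x → (c s₀).Monic → 0 < (c s₀).natDegree →
  ∀ (F : Type) [Field F] [Algebra K F] (i : A →ₐ[K] F) (T : F) (y : ι → F) (D : F), FF K F 2 →
    (∀ f : A[X], f.eval₂ (i : A →+* F) T = 0 → f = 0) → D ≠ 0 →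
    (∀ o, lf (h o) y = oe 1 (oe (i x) fun s => (c s).eval₂ (i : A →+* F) T) o * D) → ND K y

/-- the places of the surface -/
def UVal : Prop := ∀ (ι σ : Type) [Fintype ι] [Finite σ] (S : Set (MvPolynomial ι K))
  (h : Option (Option σ) → ι → K), Homog S → Nz S h → ∀ (A : Type) [CommRing A] [Algebra K A]
  [Algebra K[X] A] [IsScalarTower K K[X] A] [Module.Finite K[X] A] (x : A) (c : σ → A[X])
  (s₀ : σ), (c s₀).Monic → 0 < (c s₀).natDegree →
  (∀ s, s ≠ s₀ → (c s).natDegree < (c s₀).natDegree) →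
  ∃ N : ℕ, ∀ (F : Type) [Field F] [Algebra K F] (i : A →ₐ[K] F) (T Θ : F) (y : ι → F) (D : F),
    FF K F 2 → y ≠ 0 → On S y →
    (∀ o, lf (h o) y = oe 1 (oe (i x) fun s => (c s).eval₂ (i : A →+* F) T) o * D) →
    ∀ O : DV K F, ND K (O.red y) →
      (i (xA K A) ∈ O.O ∧ T ∈ O.O ∧
        ∃ G : A[X][X], ∀ k : K, O.res (ev i T Θ G) ≠ algebraMap K O.K k) ∨
      (i (xA K A) ∉ O.O ∧ O.O.valuation T ≤ O.O.valuation (i (xA K A)) ^ N)

/-- a separating linear combination -/
def ULin : Prop := ∀ (A : Type) [CommRing A] [IsDedekindDomain A] [Algebra K A] [Algebra K[X] A]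
  [IsScalarTower K K[X] A] [Module.Finite K[X] A] [Module.IsTorsionFree K[X] A] (J σ : Type)
  [Finite J] [Finite σ] (t : J → σ → A) (Z : Finset (A →ₐ[K] K)),
  ∃ (μ : J → A) (f : K[X]), f.Monic ∧ (∀ β ∈ Z, f.eval (β (xA K A)) ≠ 0) ∧
    ∀ β : A →ₐ[K] K, f.eval (β (xA K A)) ≠ 0 → ∀ j k,
      β (μ j) = β (μ k) ↔ ∀ s, β (t j s) = β (t k s)

/-- the localisation -/
def ULoA : Prop := ∀ (p : ℕ) [Fact p.Prime] [CharP K p] (A : Type) [CommRing A]
  [IsDedekindDomain A] [Algebra K A] [Algebra K[X] A] [IsScalarTower K K[X] A]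
  [Module.Finite K[X] A] [Module.IsTorsionFree K[X] A] (f : K[X]), f.Monic →
  ∃ (B : Type) (_ : CommRing B) (_ : IsDedekindDomain B) (_ : Algebra K B) (_ : Algebra K[X] B)
    (_ : IsScalarTower K K[X] B) (_ : Module.Finite K[X] B) (_ : Module.IsTorsionFree K[X] B)
    (α : A →ₐ[K] B) (g : B), Lo p f α g

section
variable (A B : Type) [CommRing A] [IsDedekindDomain A] [Algebra K A] [Algebra K[X] A]
  [IsScalarTower K K[X] A] [Module.Finite K[X] A] [Module.IsTorsionFree K[X] A] [CommRing B]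
  [IsDedekindDomain B] [Algebra K B] [Algebra K[X] B] [IsScalarTower K K[X] B]
  [Module.Finite K[X] B] [Module.IsTorsionFree K[X] B]

/-- separability of the localisation -/
def LoS' : Prop := ∀ (p : ℕ) [Fact p.Prime] [CharP K p] (f : K[X]) (α : A →ₐ[K] B) (g : B),
  Lo p f α g → Sr K A → Sr K B

/-- divisors on the localisation -/
def LoD' : Prop := ∀ (p : ℕ) (f : K[X]) (α : A →ₐ[K] B) (g : B), Lo p f α g →
  FF K (FractionRing A) 1 → FF K (FractionRing B) 1 ∧
  ∃ ψ : FractionRing A →ₐ[K] FractionRing B, Function.Surjective ψ ∧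
    (∀ a, ψ (algebraMap A _ a) = algebraMap B _ (α a)) ∧
    ∀ (u : FractionRing A) (ν : (A →ₐ[K] K) →₀ ℤ), Dvs K u ν →
      (∀ β ∈ ν.support, f.eval (β (xA K A)) ≠ 0) →
      ∃ ν' : (B →ₐ[K] K) →₀ ℤ, Dvs K (ψ u) ν' ∧ ∀ β, ν' β = ν (β.comp α)

end

/-- Quantification over the two rings. -/
def AllU (p : ∀ (A B : Type) [CommRing A] [IsDedekindDomain A] [Algebra K A] [Algebra K[X] A]
    [IsScalarTower K K[X] A] [Module.Finite K[X] A] [Module.IsTorsionFree K[X] A] [CommRing B]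
    [IsDedekindDomain B] [Algebra K B] [Algebra K[X] B] [IsScalarTower K K[X] B]
    [Module.Finite K[X] B] [Module.IsTorsionFree K[X] B], Prop) : Prop :=
  ∀ (A B : Type) [CommRing A] [IsDedekindDomain A] [Algebra K A] [Algebra K[X] A]
    [IsScalarTower K K[X] A] [Module.Finite K[X] A] [Module.IsTorsionFree K[X] A] [CommRing B]
    [IsDedekindDomain B] [Algebra K B] [Algebra K[X] B] [IsScalarTower K K[X] B]
    [Module.Finite K[X] B] [Module.IsTorsionFree K[X] B], p A B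

def ULoS : Prop := AllU K fun A B => LoS' K A B
def ULoD : Prop := AllU K fun A B => LoD' K A B

end Pool.Agent.MP_a9d3bd_y
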