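import Pool.Agent.MP_a9d3bd_y.St

namespace Pool.Agent.MP_a9d3bd_y

open MvPolynomial Pool.Agent.MP_a9d3bd_h Pool.Agent.MP_a9d3bd_q Pool.Agent.MP_a9d3bd_g
open Pool.Agent.MP_a9d3bd_yy (xA aff)

theorem mdl_int {K B E R σ : Type} [Field K] [CommRing B] [Algebra K B] [Field E] [Algebra K E]
    [CommRing R] [Algebra R E] (j : B →ₐ[K] E) {v : σ → B} {b : B}
    (hb : IsIntegral (Algebra.adjoin K (Set.range v)) b)
    (hK : ∀ c : K, algebraMap K E c ∈ (algebraMap R E).range)
    (hv : ∀ k, j (v k) ∈ (algebraMap R E).range) : IsIntegral R (j b) := by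
  obtain ⟨p, hm, hp⟩ := hb
  have hall : ∀ a ∈ Algebra.adjoin K (Set.range v), j a ∈ (algebraMap R E).range := by
    intro a ha
    induction ha using Algebra.adjoin_induction with
    | mem a h => obtain ⟨k, rfl⟩ := h; exact hv k
    | algebraMap c => rw [AlgHom.commutes]; exact hK c
    | add a b _ _ h h' => rw [map_add]; exact add_mem h h'
    | mul a b _ _ h h' => rw [map_mul]; exact mul_mem h h'
  have hl : p.map ((j : B →+* E).comp (algebraMap _ B)) ∈ Polynomial.lifts (algebraMap R E) :=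
    (Polynomial.lifts_iff_coeff_lifts _).2 fun n => by
      rw [Polynomial.coeff_map]
      exact hall _ (p.coeff n).2
  obtain ⟨q, hq, -, mq⟩ := Polynomial.lifts_and_natDegree_eq_and_monic hl (hm.map _)
  refine ⟨q, mq, ?_⟩
  rw [← Polynomial.eval_map, hq, Polynomial.eval_map]
  exact (Polynomial.hom_eval₂ p _ (j : B →+* E) b).symm.trans (by rw [hp, map_zero])

theorem mdl_deg {K E : Type} [Field K] [Field E] [Algebra K E] {P : MvPolynomial (Fin 4) K} {d : ℕ}
    (hP : P.IsHomogeneous d) (h0 : eval ![0, 0, 1, 0] P ≠ 0) (ht : Algebra.trdeg K E = (1 : ℕ))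
    {r : Fin 4 → E} (hr : aeval r P = 0) (r0 : r 0 = 0) (r1 : r 1 = 0) : ¬ ND K r := by
  intro h
  have t := (tr_alg_iff ht _).1 h
  have le : kf K r ≤ algebraicClosure K E := by
    by_cases a : r 2 = 0
    · rw [kf_le_iff]
      intro a b
      by_cases e : a = b
      · rw [e]
        by_cases z : r b = 0
        · simp [z]
        · simp [z]
      · have : r a = 0 ∨ r b = 0 := by
          fin_cases a <;> fin_cases b <;> simp_all
        rcases this with z | z <;> simp [z]
    · have e : r = r 2 • ![0, 0, 1, r 3 / r 2] := by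
        funext k
        fin_cases k <;> simp [r0, r1, mul_div_cancel₀ _ a]
      have q : ∀ {L : Type} [CommRing L] [Algebra K L] (u : L),
          Polynomial.aeval u (aeval ![0, 0, 1, Polynomial.X] P : Polynomial K) =
            aeval ![0, 0, 1, u] P := fun u => by
        rw [comp_aeval_apply]
        refine congrArg (fun L => aeval L P) (funext fun k => ?_)
        fin_cases k <;> simp
      have al : IsAlgebraic K (r 3 / r 2) := by
        refine ⟨aeval ![0, 0, 1, Polynomial.X] P, fun z => h0 ?_, ?_⟩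
        · have := q (0 : K)
          rw [z, map_zero] at this
          exact this.symm
        · rw [e, aeval_smul_hom hP] at hr
          rw [q]
          exact (mul_eq_zero.1 hr).resolve_left (pow_ne_zero _ a)
      rw [kf_eq_af a, af_le_iff]
      intro k
      fin_cases k
      · simp [r0]
      · simp [r1]
      · simp [a]
      · exact mem_algebraicClosure_iff.2 al
  have := (tr_td_zero ht (kf K r)).2 fun z hz => mem_algebraicClosure_iff.1 (le hz)
  omega

theorem sMdl (K : Type) [Field K] [IsAlgClosed K] (h1 : SHh1 K) (h2 : SIt K) (h3 : SBval K)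
    (h4 : STop K) : SMdl K := by
  intro A B J Ω _ _ _ _ _ _ _ _ _ _ _ _ _ _ P d i T Θ φ ν ι s η c₁ c z H W d0 hP h0 hy hι ch srf
    hW bir
  obtain ⟨-, -, -, -, a1, a2, a3, -, -⟩ := h1 A B J Ω _ i T Θ φ ν ι s η c₁ c z hy hι ch
  obtain ⟨-, -, -, -, -, -, a4, -⟩ := h2 A B J Ω _ i T Θ s η c₁ hy.top hy.sf ch.it
  obtain ⟨j, hj⟩ : ∃ j : B →ₐ[K] FractionRing B, ∀ b, algebraMap B (FractionRing B) b = j b :=
    ⟨IsScalarTower.toAlgHom K B _, fun _ => rfl⟩
  have inj : Function.Injective j := fun a b e =>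
    IsFractionRing.injective B (FractionRing B) (by rw [hj, hj, e])
  have fr : ∀ w : FractionRing B, ∃ a b, w = j a / j b := fun w => by
    obtain ⟨a, b, -, e⟩ := IsFractionRing.div_surjective (A := B) w
    exact ⟨a, b, by rw [← e, hj, hj]⟩
  simp only [hj]
  have top : af K (fun k => j (z k)) = ⊤ := by
    have m : ∀ b, j b ∈ af K fun k => j (z k) := fun b => by
      obtain ⟨G₁, G₂, n, e⟩ := bir b
      refine (mem_af_iff _ _).2 ⟨G₁, G₂, ?_, ?_⟩
      · rw [← comp_aeval_apply]
        exact (map_ne_zero_iff j inj).2 n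
      · rw [← comp_aeval_apply, ← comp_aeval_apply, e, map_mul,
          mul_div_cancel_right₀ _ ((map_ne_zero_iff j inj).2 n)]
    refine eq_top_iff.2 fun w _ => ?_
    obtain ⟨a, b, rfl⟩ := fr w
    exact div_mem (m a) (m b)
  have f0 := ff_of_gens top
  have ff : FF K (FractionRing B) 2 := by
    have e := (tr_indep_iff f0.tr _).1 (a1.map' inj)
    have al : Algebra.IsAlgebraic (af K (j ∘ ![z 0, z 1])) (FractionRing B) := ⟨fun w => by
      have m : ∀ b, IsIntegral (af K (j ∘ ![z 0, z 1])) (j b) := fun b => mdl_int j (a2 b)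
        (fun c => ⟨⟨_, IntermediateField.algebraMap_mem _ c⟩, rfl⟩) fun k => ⟨⟨_, mem_af _ k⟩, rfl⟩
      obtain ⟨a, b, rfl⟩ := fr w
      rw [div_eq_mul_inv]
      exact ((m a).mul (m b).inv).isAlgebraic⟩
    rw [(tr_alg_iff f0.tr _).1 al, Fintype.card_fin] at e
    rwa [e] at f0
  have y0 : j (![1, i (xA K A), Θ, T] 0) = 1 := map_one j
  have on : aeval (fun k => j (![1, i (xA K A), Θ, T] k)) P = 0 := by
    rw [← comp_aeval_apply, ← (h4 P d d0 hP h0).2, hy.sf.on, map_zero]
  refine ⟨ff, y0, on, ?_, top, srf, ?_, fun k => ?_, fun O nd ni => ?_⟩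
  · refine alg_of_le (F := af K (j ∘ ![i (xA K A), T])) ((af_le_iff _ _).2 fun k => ?_)
      ((tr_alg_iff ff.tr _).2 ((tr_indep_iff ff.tr _).1 (a4.map' inj)))
    fin_cases k
    · simpa using div_mem_kf (k := K) (fun k => j (![1, i (xA K A), Θ, T] k)) 1 0
    · simpa using div_mem_kf (k := K) (fun k => j (![1, i (xA K A), Θ, T] k)) 3 0
  · ext G
    rw [mem_ak, ← comp_aeval_apply, map_eq_zero_iff j inj, hW]
  · exact mdl_int j (a3 _) (fun c => ⟨⟨_, Subalgebra.algebraMap_mem _ c⟩, rfl⟩)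
      fun k => ⟨⟨_, Algebra.subset_adjoin ⟨k, rfl⟩⟩, rfl⟩
  obtain ⟨v, hv⟩ : ∃ v, v = O.O.valuation := ⟨_, rfl⟩
  have mem : ∀ w, w ∈ O.O ↔ v w ≤ 1 := fun w => hv ▸ (O.O.valuation_le_one_iff w).symm
  have bd : ∀ a : A, Bnd K ![s] a → v (j (i a)) ≤ max 1 (v (j (i s))) := fun a ha => by
    rw [hv]
    exact (h3 A _ ![s] a ha).2 _ (j.comp i) O.O O.const _ (le_max_left _ _) fun k => by
      fin_cases k
      exact le_max_right _ _
  have yy : ∀ k, v (j (![1, i (xA K A), Θ, T] k)) ≤ max 1 (v (j (i s))) := fun k => by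
    have key : ∀ l, O.red (fun k => j (![1, i (xA K A), Θ, T] k)) l ≠ 0 →
        v (j (![1, i (xA K A), Θ, T] k)) ≤ v (j (![1, i (xA K A), Θ, T] l)) := fun l hl => by
      have n := ((O.red_ne_iff _ l).1 hl).1
      have := (mem _).1 ((O.int_div_iff (y := fun k => j (![1, i (xA K A), Θ, T] k)) (i := l) n).2 hl k)
      rwa [map_div₀, div_le_one₀ ((Valuation.pos_iff v).2 n)] at this
    by_cases r0 : O.red (fun k => j (![1, i (xA K A), Θ, T] k)) 0 = 0
    · exact (key 1 fun r1 => mdl_deg hP h0 (O.tr_K ff) (O.aeval_red_of_zero hP on) r0 r1 nd).trans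
        (bd _ ch.bx)
    · refine (key 0 r0).trans ?_
      rw [y0, map_one]
      exact le_max_left _ _
  have sm : ∀ (a : K) (b : B), v (j b) ≤ max 1 (v (j (i s))) →
      v (j (b + a • i η)) ≤ max 1 (v (j (i s))) := fun a b hb => by
    rw [map_add, map_smul, Algebra.smul_def]
    refine v.map_add_le hb ?_
    rw [map_mul]
    exact (mul_le_of_le_one_left' ((mem _).1 (O.const a))).trans (bd η ch.be)
  have z1 := sm c₁ T (yy 3)
  have z2 := sm c Θ (yy 2)
  rw [← ch.z1] at z1
  rw [← ch.z2] at z2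
  rw [← ch.z0] at z1 z2
  have n0 : ¬ v (j (z 0)) ≤ 1 := fun h => ni fun k => (mem _).2 (by
    rw [max_eq_left h] at z1 z2
    fin_cases k
    · exact h
    · exact z1
    · exact z2)
  have l := not_le.1 n0
  rw [max_eq_right l.le] at z1 z2
  simp only [mem, map_div₀, div_le_one₀ (zero_lt_one.trans l)]
  exact ⟨n0, z1, z2⟩

end Pool.Agent.MP_a9d3bd_y
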