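import Pool.Agent.MP_a9d3bd_y.OneB

/-! The statement for the sections of one component. -/

namespace Pool.Agent.MP_a9d3bd_y

open MvPolynomial Pool.Agent.MP_a9d3bd_h Pool.Agent.MP_a9d3bd_q Pool.Agent.MP_a9d3bd_g
open Pool.Agent.MP_a9d3bd_x (LF GF lamz)
open Pool.Agent.MP_a9d3bd_yy (xA xL Dvs)

variable {K : Type} [Field K]

open Classical in
theorem one_cl {A J : Type} [CommRing A] [Algebra K A] [Fintype J] (s η : A) (c₁ c : K)
    (t w : J → A) (ζ : J → Fin 3 → A) (h0 : ∀ j, ζ j 0 = s) (h1 : ∀ j, ζ j 1 = w j + c₁ • η)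
    (h2 : ∀ j, ζ j 2 = t j + c • η) (ν : J → (A →ₐ[K] K) →₀ ℤ) (r : J → ℚ)
    (h : ∀ (β : A →ₐ[K] K) (t0 w0 : K), ∑ j,
      (if β (t j) = t0 ∧ β (w j) = w0 then r j * (ν j β : ℚ) else 0) = 0) (x : Fin 3 → K) :
    ∑ j, r j * (ν j).sum (fun β n => if (fun k => β (ζ j k)) = x then (n : ℚ) else 0) = 0 := by
  have e : ∀ j, (ν j).sum (fun β n => if (fun k => β (ζ j k)) = x then (n : ℚ) else 0) =
      ∑ β ∈ Finset.univ.biUnion fun j => (ν j).support,
        if (fun k => β (ζ j k)) = x then (ν j β : ℚ) else 0 := fun j =>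
    Finsupp.sum_of_support_subset _
      (Finset.subset_biUnion_of_mem (fun j => (ν j).support) (Finset.mem_univ j)) _
      fun β _ => by simp
  simp only [e, Finset.mul_sum]
  rw [Finset.sum_comm]
  refine Finset.sum_eq_zero fun β _ => ?_
  have hx : ∀ j, (fun k => β (ζ j k)) = x ↔
      β s = x 0 ∧ β (t j) = x 2 - c * β η ∧ β (w j) = x 1 - c₁ * β η := fun j => by
    rw [funext_iff, Fin.forall_fin_succ, Fin.forall_fin_two]
    change β (ζ j 0) = x 0 ∧ β (ζ j 1) = x 1 ∧ β (ζ j 2) = x 2 ↔ _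
    rw [h0, h1, h2, map_add, map_add, map_smul, map_smul, smul_eq_mul, smul_eq_mul,
      eq_sub_iff_add_eq, eq_sub_iff_add_eq]
    tauto
  by_cases hs : β s = x 0
  · refine Eq.trans (Finset.sum_congr rfl fun j _ => ?_) (h β (x 2 - c * β η) (x 1 - c₁ * β η))
    simp only [hx, hs, true_and, mul_ite, mul_zero]
  · simp [hx, hs]

theorem sOne (halg : ∀ c : K, c ≠ 0 → ∃ n, 0 < n ∧ c ^ n = 1) (hCho : SCho K) (hHh1 : SHh1 K)
    (hHh : SHh K) (hMdl : SMdl K) (hGj : SGj K) (hGp : SGp K) (hUni : SUni K) (hPos : SPos K)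
    (hDvc : SDvc K) (hCon : SCon K) (hCore : SCore K) {P : MvPolynomial (Fin 4) K} {d : ℕ}
    (hd : 0 < d) (hP : P.IsHomogeneous d) (h0 : eval ![0, 0, 1, 0] P ≠ 0) {Λ : LF K (Fin 4)}
    (hΛ : GF {P} Λ) : SOne K P Λ := by
  intro A B J _ _ _ _ _ _ _ _ _ _ _ _ _ _ _ i T Θ φ u ν r hy hu hcl
  let Ω := AlgebraicClosure (FractionRing B)
  let ι : B →ₐ[K] Ω := (IsScalarTower.toAlgHom K (FractionRing B) Ω).comp
    (IsScalarTower.toAlgHom K B (FractionRing B))
  have hι : Function.Injective ι :=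
    (algebraMap (FractionRing B) Ω).injective.comp (IsFractionRing.injective B _)
  obtain ⟨s, η, c₁, c, z, hc⟩ := hCho A B J Ω _ i T Θ φ ν ι hy hι
  obtain ⟨-, -, -, -, hind, hit, -, -, -⟩ := hHh1 A B J Ω _ i T Θ φ ν ι s η c₁ c z hy hι hc
  obtain ⟨H, W, hS, hW, hB, hne⟩ := hHh A B J Ω _ i T Θ φ ν ι s η c₁ c z hy hι hc
  have hM := hMdl A B J Ω P d i T Θ φ ν ι s η c₁ c z H W hd hP h0 hy hι hc hS hW hB
  choose g hg hg' using hGj A B J Ω _ i T Θ φ ν ι s η c₁ c z hy hι hc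
  have hp := fun j => hGp A B J Ω _ i T Θ φ ν ι s η c₁ c z H (g j) W j hy hι hc hS hW hne (hg j)
  choose N a b hN hab ha hb hb0 using fun j => hUni A B J Ω halg (u j) (ν j)
    (aeval (fun k => φ j (z k)) (pderiv 1 (g j) * pderiv 2 H)) hy.ff (hu j)
    (by rw [map_mul]; exact mul_ne_zero (hg j).ne (hp j).2.1)
    (fun β hβ => by rw [map_mul, map_mul]; exact mul_ne_zero (hg' j β hβ) ((hp j).2.2 β hβ))
  have z0 : ∀ j, φ j (z 0) = s := fun j => by rw [hc.z0, hy.sec]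
  have hI : ∀ j, It K fun k => φ j (z k) := fun j x => by
    have hle : Algebra.adjoin K (Set.range ![s]) ≤
        Algebra.adjoin K (Set.range fun k => φ j (z k)) := Algebra.adjoin_mono (by
      rintro _ ⟨k, rfl⟩
      exact ⟨0, by simpa [Subsingleton.elim k 0] using z0 j⟩)
    exact (hc.it x).map_of_comp_eq (Subalgebra.inclusion hle).toRingHom (RingHom.id _) rfl
  have hH : ∀ j, aeval (fun k => φ j (z k)) H = 0 := fun j => by
    rw [← comp_aeval_apply (f := z) (φ j), (hW H).1 (hS.eq ▸ Ideal.mem_span_singleton_self H),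
      map_zero]
  choose hB' ht F G hF hG hq using fun j => hPos A B J Ω (u j) (ν j) _ H (g j) (N j) (a j) (b j)
    hy.ff (hu j) (hI j) (hH j) (hg j) (hp j).1 (hab j) (ha j) (hb j) (hb0 j)
  have hN' : ∀ j, (N j : ℚ) ≠ 0 := fun j => by exact_mod_cast (hN j).ne'
  have key := hCore H W _ hS (oneA_ax halg hP hΛ hM) J _ F G g (fun j => r j / N j) hq fun x => by
    rw [← one_cl s η c₁ c (fun j => φ j Θ) (fun j => φ j T) (fun j k => φ j (z k)) z0
      (fun j => by rw [hc.z1, map_add, map_smul, hy.sec])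
      (fun j => by rw [hc.z2, map_add, map_smul, hy.sec]) ν r hcl x]
    refine Finset.sum_congr rfl fun j _ => ?_
    rw [hDvc A B J Ω (u j) (ν j) _ (F j) (G j) (N j) hy.ff (hu j) (hI j) (hB' j)
      (hG j ▸ hb0 j) (by rw [hF, hG, hab]) x, ← mul_assoc, div_mul_cancel₀ _ (hN' j)]
  have hcon := oneB_con hCon hS hW hind hit hB
  have hon : aeval ![1, i (xA K A), Θ, T] P = 0 := by
    apply IsFractionRing.injective B (FractionRing B)
    rw [map_zero, ← hM.on]
    exact comp_aeval_apply (f := ![1, i (xA K A), Θ, T])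
      (IsScalarTower.toAlgHom K B (FractionRing B)) P
  refine (Rat.cast_eq_zero (α := ℝ)).1 ?_
  rw [← key, Rat.cast_sum]
  refine Finset.sum_congr rfl fun j _ => ?_
  have hl := oneB_sec hΛ hy.ff hM hcon (φ j) rfl (ht j) (hq j).1 (hq j).2.1 (hp j).2.1
  have ey : (fun k => algebraMap A (FractionRing A) (φ j (![1, i (xA K A), Θ, T] k))) =
      ![1, xL K A, algebraMap A _ (φ j Θ), algebraMap A _ (φ j T)] := by
    funext k
    fin_cases k <;> simp [hy.sec]
  have y0 : ![1, xL K A, algebraMap A (FractionRing A) (φ j Θ), algebraMap A _ (φ j T)] ≠ 0 :=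
    fun e => one_ne_zero (congrFun e 0)
  have yo : On {P} ![1, xL K A, algebraMap A (FractionRing A) (φ j Θ), algebraMap A _ (φ j T)] :=
    fun Q (hQ : Q = P) => by
      rw [hQ, ← ey]
      refine (comp_aeval_apply (f := ![1, i (xA K A), Θ, T])
        ((IsScalarTower.toAlgHom K A (FractionRing A)).comp (φ j)) P).symm.trans ?_
      rw [hon, map_zero]
  rw [hl, hl, ey, hF, hG, hab, hΛ.mul _ hy.ff _ _ _ y0 yo (pow_ne_zero _ (hu j).1)
    ((map_ne_zero_iff _ (IsFractionRing.injective A _)).2 (hb0 j)), ← zpow_natCast,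
    hΛ.zpow hy.ff y0 yo (hu j).1]
  have : (N j : ℝ) ≠ 0 := by exact_mod_cast (hN j).ne'
  push_cast
  field_simp
  ring

end Pool.Agent.MP_a9d3bd_y
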