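import Pool.Agent.MP_a9d3bd_y.St
import Pool.Agent.MP_a9d3bd_x.AX

/-! The functional of the model satisfies the rules of the theorem on the model. -/

namespace Pool.Agent.MP_a9d3bd_y

open MvPolynomial Pool.Agent.MP_a9d3bd_h Pool.Agent.MP_a9d3bd_q Pool.Agent.MP_a9d3bd_g
open Pool.Agent.MP_a9d3bd_x (LF GF lamz)

variable {K : Type} [Field K]

theorem oneA_int {F σ : Type} [Field F] [Algebra K F] {z : σ → F} (O : DV K F) (hz : O.Int z)
    {u : F} (hu : IsIntegral (Algebra.adjoin K (Set.range z)) u) :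
    u ∈ O.O ∧ IsAlgebraic (af K (O.ra z)) (O.res u) := by
  obtain ⟨p, pm, hp⟩ := hu
  have hr : ∀ r : Algebra.adjoin K (Set.range z), ∃ G : MvPolynomial σ K, aeval z G = r :=
    fun r => (Algebra.adjoin_range_eq_range_aeval K z).le r.2
  have hO : ∀ r : Algebra.adjoin K (Set.range z), (r : F) ∈ O.O := fun r => by
    obtain ⟨G, e⟩ := hr r
    exact e ▸ O.aeval_mem hz G
  have hu : u ∈ O.O := O.mem_of_root (p.map (algebraMap _ F)) (pm.map _)
    (fun n => by rw [Polynomial.coeff_map]; exact hO _) (by rw [Polynomial.eval_map]; exact hp)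
  obtain ⟨ρ, hρ⟩ := O.exists_resHom
  let φ : Algebra.adjoin K (Set.range z) →+* O.O := (algebraMap _ F).codRestrict O.O hO
  have hχ : ∀ r, (ρ.comp φ) r ∈ af K (O.ra z) := fun r => by
    obtain ⟨G, e⟩ := hr r
    have : (ρ.comp φ) r = O.res (r : F) := hρ _
    rw [this, ← e, O.res_aeval hz]
    exact aeval_mem_af _ G
  let χ : Algebra.adjoin K (Set.range z) →+* af K (O.ra z) := (ρ.comp φ).codRestrict _ hχ
  refine ⟨hu, IsIntegral.isAlgebraic ⟨p.map χ, pm.map _, ?_⟩⟩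
  have e : p.eval₂ φ ⟨u, hu⟩ = 0 := by
    apply Subtype.val_injective
    exact (Polynomial.hom_eval₂ p φ O.O.subtype ⟨u, hu⟩).trans hp
  have e2 := Polynomial.hom_eval₂ p φ ρ ⟨u, hu⟩
  rw [e, map_zero, hρ] at e2
  rw [Polynomial.eval₂_map]
  exact e2.symm

variable {P : MvPolynomial (Fin 4) K} {F : Type} [Field F] [Algebra K F] {y : Fin 4 → F}
  {z : Fin 3 → F} {H : R3 K} {W : Pr K (Fin 3)}

theorem oneA_hI (h : Mdl P y z H W) (O : DV K F) (hN : ND K (O.red y)) :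
    (O.Int z ∧ NDa K (O.ra z)) ∨
      (O.ord (z 0) < 0 ∧ O.ord (z 0) ≤ O.ord (z 1) ∧ O.ord (z 0) ≤ O.ord (z 2)) := by
  by_cases hz : O.Int z
  · refine Or.inl ⟨hz, ?_⟩
    have key := fun i => oneA_int O hz (h.int i)
    have hk : FF K O.K 1 := O.ff_K h.ff
    have h0 : O.ra y ≠ 0 := fun c => by
      have : O.res (y 0) = 0 := congrFun c 0
      rw [h.y0, O.res_one] at this
      exact one_ne_zero this
    rw [O.red_of_int (fun i => (key i).1) h0, nd_iff hk] at hN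
    rw [nda_iff hk]
    have h1 : kf K (O.ra y) ≤ (algebraicClosure (af K (O.ra z)) O.K).restrictScalars K :=
      kf_le_of fun a => mem_algebraicClosure_iff.2 (key a).2
    have h2 := tr_td_mono hk.tr h1
    rw [T1_closure, hN] at h2
    exact le_antisymm (tr_td_le hk.tr _) h2
  · obtain ⟨a, b, c⟩ := h.inf O hN hz
    have z0 : z 0 ≠ 0 := fun e => a (e ▸ zero_mem _)
    have a' := (O.ord_neg_iff _).2 a
    have key : ∀ w : F, w / z 0 ∈ O.O → O.ord (z 0) ≤ O.ord w := fun w hw => by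
      by_cases e : w = 0
      · rw [e, O.ord_zero]
        exact a'.le
      · rw [← O.ord_nonneg_iff, O.ord_div e z0] at hw
        omega
    exact Or.inr ⟨a', key _ b, key _ c⟩

theorem oneA_ax (halg : ∀ c : K, c ≠ 0 → ∃ n, 0 < n ∧ c ^ n = 1) {d : ℕ} (hP : P.IsHomogeneous d)
    {Λ : LF K (Fin 4)} (hΛ : GF {P} Λ) (h : Mdl P y z H W) : Ax H W (lamz Λ y z) := by
  have hs := h.srf
  rw [← h.ker] at hs ⊢
  refine MP_a9d3bd_x.ax halg (fun G (hG : G = P) => ⟨d, hG ▸ hP⟩) hΛ h.ff (fun c => ?_)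
    (fun G (hG : G = P) => hG ▸ h.on) h.nd h.top hs (oneA_hI h)
  have : y 0 = 0 := congrFun c 0
  rw [h.y0] at this
  exact one_ne_zero this

end Pool.Agent.MP_a9d3bd_y
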