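import Pool.Agent.MP_a9d3bd_y.OneA

/-! The functional of the model on a section. -/

namespace Pool.Agent.MP_a9d3bd_y

open MvPolynomial Pool.Agent.MP_a9d3bd_h Pool.Agent.MP_a9d3bd_q Pool.Agent.MP_a9d3bd_g
open Pool.Agent.MP_a9d3bd_x (LF GF lamz)

variable {K : Type} [Field K]

theorem oneB_con (hC : SCon K) {B : Type} [CommRing B] [IsDomain B] [Algebra K B] {z : Fin 3 → B}
    {H : R3 K} {W : Pr K (Fin 3)} (h : Srf H W) (hW : ∀ G, G ∈ W.asIdeal ↔ aeval z G = 0)
    (hi : AlgebraicIndependent K ![z 0, z 1]) (ht : It K ![z 0, z 1]) (hb : Bir K z) (b : B) :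
    ∃ a : R3 K, aeval z a = aeval z (pderiv 2 H) * b := by
  let e : Fin 3 ≃ Option (Fin 2) := finSuccEquivLast
  have e2 : e 2 = none := finSuccEquivLast_last
  have he : oe (z 2) ![z 0, z 1] ∘ e = z := by
    funext k
    fin_cases k <;> rfl
  have hev : ∀ G : R3 K, aeval (oe (z 2) ![z 0, z 1]) (rename e G) = aeval z G := fun G => by
    rw [aeval_rename, he]
  have hs : ∀ G : MvPolynomial (Option (Fin 2)) K, ∃ G' : R3 K, rename e G' = G :=
    (renameEquiv K e).surjective
  have hd : (rename e H).totalDegree = H.totalDegree := totalDegree_renameEquiv e H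
  obtain ⟨G, hG⟩ := hC B (Fin 2) ![z 0, z 1] (z 2) (rename e H) hi ht
    ⟨(MulEquiv.irreducible_iff (renameEquiv K e)).2 h.irr, by
      rw [hd, ← e2, ← Finsupp.mapDomain_single, coeff_rename_mapDomain _ e.injective, h.top], by
      have := h.two
      omega, fun G => by
      obtain ⟨G, rfl⟩ := hs G
      rw [hev, ← hW, h.eq, Ideal.mem_span_singleton]
      exact (map_dvd_iff (renameEquiv K e)).symm⟩
    (fun b => by
      obtain ⟨G₁, G₂, a1, a2⟩ := hb b
      exact ⟨rename e G₁, rename e G₂, by rwa [hev], by rwa [hev, hev]⟩) b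
  obtain ⟨G, rfl⟩ := hs G
  rw [← e2, pderiv_rename e.injective, hev, hev] at hG
  exact ⟨G, hG⟩

theorem oneB_sec {P : MvPolynomial (Fin 4) K} {Λ : LF K (Fin 4)} (hΛ : GF {P} Λ) {A B : Type}
    [CommRing A] [IsDomain A] [Algebra K A] [CommRing B] [IsDomain B] [Algebra K B]
    (hA : FF K (FractionRing A) 1) {y : Fin 4 → B} {z : Fin 3 → B} {H : R3 K} {W : Pr K (Fin 3)}
    (h : Mdl P (fun k => algebraMap B (FractionRing B) (y k))
      (fun k => algebraMap B (FractionRing B) (z k)) H W)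
    (hc : ∀ b : B, ∃ a : R3 K, aeval z a = aeval z (pderiv 2 H) * b) (φ : B →ₐ[K] A)
    (h0 : y 0 = 1) (ht : af K (fun k => algebraMap A (FractionRing A) (φ (z k))) = ⊤)
    (hH : H ∈ (ak K fun k => algebraMap A (FractionRing A) (φ (z k))).asIdeal)
    (hd : dim (ak K fun k => algebraMap A (FractionRing A) (φ (z k))) = 1)
    (h2 : aeval (fun k => φ (z k)) (pderiv 2 H) ≠ 0) (G : R3 K) :
    lamz Λ (fun k => algebraMap B (FractionRing B) (y k))
      (fun k => algebraMap B (FractionRing B) (z k))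
      (ak K fun k => algebraMap A (FractionRing A) (φ (z k))) G =
    Λ (FractionRing A) (fun k => algebraMap A _ (φ (y k)))
      (algebraMap A _ (aeval (fun k => φ (z k)) G)) := by
  have hs := h.srf
  rw [← h.ker] at hs
  have eA : ∀ T : R3 K, aeval (fun k => algebraMap A (FractionRing A) (φ (z k))) T =
      algebraMap A _ (aeval (fun k => φ (z k)) T) := fun T =>
    (comp_aeval_apply (f := fun k => φ (z k)) (IsScalarTower.toAlgHom K A (FractionRing A)) T).symm
  have eB : ∀ T : R3 K, aeval (fun k => algebraMap B (FractionRing B) (z k)) T =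
      algebraMap B _ (aeval z T) := fun T =>
    (comp_aeval_apply (f := z) (IsScalarTower.toAlgHom K B (FractionRing B)) T).symm
  have eφ : ∀ T : R3 K, aeval (fun k => φ (z k)) T = φ (aeval z T) := fun T =>
    (comp_aeval_apply (f := z) φ T).symm
  have h3 : aeval (fun k => algebraMap A (FractionRing A) (φ (z k))) (pderiv 2 H) ≠ 0 := by
    rw [eA]
    exact (map_ne_zero_iff _ (IsFractionRing.injective A _)).2 h2
  rw [← eA]
  refine MP_a9d3bd_x.lam_sec hΛ h.ff h.top hs hA ht ⟨hH, hd, 2, h3⟩ (fun c => ?_) (fun i => ?_) G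
  · have : algebraMap A (FractionRing A) (φ (y 0)) = 0 := congrFun c 0
    rw [h0, map_one, map_one] at this
    exact one_ne_zero this
  · obtain ⟨a, ha⟩ := hc (y i)
    refine ⟨a, pderiv 2 H, h3, ?_, ?_⟩
    · rw [eB, eB, ha, map_mul, mul_comm]
    · rw [eA, eA, eφ, eφ, ha, map_mul, map_mul, mul_comm]

end Pool.Agent.MP_a9d3bd_y
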