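import Pool.Agent.MP_a9d3bd_y.St

namespace Pool.Agent.MP_a9d3bd_y

open MvPolynomial Pool.Agent.MP_a9d3bd_h Pool.Agent.MP_a9d3bd_q Pool.Agent.MP_a9d3bd_g

theorem prim_map {K B F σ : Type} [Field K] [CommRing B] [Algebra K B] [CommRing F] [Algebra K F]
    (j : B →ₐ[K] F) (v : σ → B) (b : B) (G : MvPolynomial (Option σ) K) :
    aeval (oe (j b) fun k => j (v k)) G = j (aeval (oe b v) G) := by
  rw [comp_aeval_apply]
  congr 2
  funext o
  cases o <;> rfl

theorem prim_mem {K F Ω : Type} [Field K] [Field F] [Algebra K F] [Field Ω] [IsAlgClosed Ω]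
    [Algebra K Ω] (E : IntermediateField K F) (ι : F →ₐ[K] Ω) (hi : ∀ y : F, IsIntegral E y)
    (x : F) (hx : IsSeparable E x)
    (hu : ∀ τ : F →ₐ[K] Ω, (∀ y ∈ E, τ y = ι y) → τ x = ι x) : x ∈ E := by
  classical
  by_contra hn
  let : Algebra E Ω := (ι.toRingHom.comp (algebraMap E F)).toAlgebra
  have : IsScalarTower K E Ω := IsScalarTower.of_algebraMap_eq fun c => (ι.commutes c).symm
  have h2 : 2 ≤ (minpoly E x).natDegree := (minpoly.two_le_natDegree_iff (hi x)).2 (by
    rintro ⟨y, rfl⟩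
    exact hn y.2)
  have hs : ((minpoly E x).map (algebraMap E Ω)).Separable := Polynomial.Separable.map hx
  have hc : 1 < ((minpoly E x).map (algebraMap E Ω)).roots.toFinset.card := by
    rw [Multiset.toFinset_card_of_nodup (Polynomial.nodup_roots hs),
      ← (IsAlgClosed.splits _).natDegree_eq_card_roots, Polynomial.natDegree_map]
    omega
  obtain ⟨y, hy, hne⟩ := Finset.exists_mem_ne hc (ι x)
  have hy' : Polynomial.aeval y (minpoly E x) = 0 := by
    rw [Polynomial.aeval_def, ← Polynomial.eval_map]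
    exact Polynomial.isRoot_of_mem_roots (Multiset.mem_toFinset.1 hy)
  obtain ⟨φ, hφ⟩ := IntermediateField.exists_algHom_of_splits_of_aeval
    (fun s => ⟨hi s, IsAlgClosed.splits _⟩) hy'
  exact hne (hφ.symm.trans (hu (φ.restrictScalars K) fun y hy => φ.commutes ⟨y, hy⟩))

theorem sPrim (K : Type) [Field K] [IsAlgClosed K] (h : SSpi K) : SPrim K := by
  intro B σ Ω _ _ _ _ _ _ _ ι v b H _ hι _ hH hv hu
  refine ⟨fun h0 => ?_, fun a => ?_⟩
  · obtain ⟨G, hG, hG'⟩ := hv b
    obtain ⟨Q, rfl⟩ := (hH.2.2.2 G).1 hG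
    refine hG' ?_
    rw [pderiv_mul, map_add, map_mul, map_mul, h0, (hH.2.2.2 H).2 dvd_rfl, zero_mul, zero_mul,
      add_zero]
  let j : B →ₐ[K] FractionRing B := IsScalarTower.toAlgHom K B (FractionRing B)
  have hj : Function.Injective j := IsFractionRing.injective B (FractionRing B)
  let ι' : FractionRing B →ₐ[K] Ω := IsFractionRing.liftAlgHom hι
  have hι' : ∀ c, ι' (j c) = ι c := fun c => IsFractionRing.lift_algebraMap hι c
  let E := IntermediateField.adjoin K (Set.range (oe (j b) fun k => j (v k)))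
  have hle : IntermediateField.adjoin K (Set.range fun k => j (v k)) ≤ E :=
    IntermediateField.adjoin.mono _ _ _ (by rintro _ ⟨k, rfl⟩; exact ⟨some k, rfl⟩)
  have hsep : ∀ c : B, IsSeparable E (j c) := fun c => by
    obtain ⟨G, hG, hG'⟩ := hv c
    have h1 := (h (FractionRing B) σ (fun k => j (v k)) (j c)).1 ⟨G, by
      rw [prim_map, hG, map_zero], by
      rw [prim_map]; exact fun e => hG' (hj (e.trans (map_zero j).symm))⟩
    let := (IntermediateField.inclusion hle).toRingHom.toAlgebra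
    have : IsScalarTower (IntermediateField.adjoin K (Set.range fun k => j (v k))) E
      (FractionRing B) := IsScalarTower.of_algebraMap_eq fun _ => rfl
    exact h1.tower_top E
  have hm : j a ∈ E := prim_mem E ι' (fun y => by
      obtain ⟨c, d, -, rfl⟩ := IsFractionRing.div_surjective (A := B) y
      rw [div_eq_mul_inv]
      exact (hsep c).isIntegral.mul (hsep d).isIntegral.inv) _ (hsep a) fun τ hτ => by
    have h1 := hu (τ.comp j)
      (fun k => (hτ _ (IntermediateField.subset_adjoin _ _ ⟨some k, rfl⟩)).trans (hι' _))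
      ((hτ _ (IntermediateField.subset_adjoin _ _ ⟨none, rfl⟩)).trans (hι' _))
    rw [hι', ← h1]
    rfl
  obtain ⟨r, s, hrs⟩ := (IntermediateField.mem_adjoin_range_iff K _ _).1 hm
  rw [prim_map, prim_map] at hrs
  by_cases hs : aeval (oe b v) s = 0
  · rw [hs, map_zero, div_zero] at hrs
    exact ⟨0, 1, by simp, by simp [hj (hrs.trans (map_zero j).symm)]⟩
  · refine ⟨r, s, hs, hj ?_⟩
    rw [map_mul, hrs, div_mul_cancel₀ _ fun e => hs (hj (e.trans (map_zero j).symm))]

end Pool.Agent.MP_a9d3bd_y
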