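import Pool.Agent.MP_a9d3bd_y.St
import Pool.Agent.MP_a9d3bd_g.ANF

namespace Pool.Agent.MP_a9d3bd_y

open MvPolynomial Pool.Agent.MP_a9d3bd_h Pool.Agent.MP_a9d3bd_q Pool.Agent.MP_a9d3bd_g

theorem ptz_int {K S R σ : Type} [Field K] [CommRing S] [CommRing R] [Algebra K S] [Algebra K R]
    [Algebra S R] [IsScalarTower K S R] [Fintype σ] (a : σ → R) (i : σ) (G : MvPolynomial σ K)
    (top : coeff (Finsupp.single i G.totalDegree) G = 1) (h0 : aeval a G = 0)
    (hS : ∀ j, j ≠ i → a j ∈ Set.range (algebraMap S R)) : IsIntegral S (a i) := by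
  classical
  choose! b hb using hS
  have hle : ∀ s ∈ G.support, ∑ j, s j ≤ G.totalDegree := fun s hs => by
    have := le_totalDegree hs
    rwa [Finsupp.sum_fintype _ _ fun _ => rfl] at this
  refine ⟨∑ s ∈ G.support, Polynomial.monomial (s i)
    (algebraMap K S (coeff s G) * ∏ j ∈ Finset.univ.erase i, b j ^ s j),
    Polynomial.monic_of_natDegree_le_of_coeff_eq_one G.totalDegree ?_ ?_, ?_⟩
  · refine Polynomial.natDegree_sum_le_of_forall_le _ _ fun s hs =>
      (Polynomial.natDegree_monomial_le _).trans ?_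
    exact (Finset.single_le_sum (f := fun j => s j) (fun _ _ => Nat.zero_le _)
      (Finset.mem_univ i)).trans (hle s hs)
  · rw [Polynomial.finsetSum_coeff, Finset.sum_eq_single (Finsupp.single i G.totalDegree)]
    · rw [top, Finsupp.single_eq_same, Polynomial.coeff_monomial, if_pos rfl, map_one, one_mul]
      exact Finset.prod_eq_one fun j hj => by
        rw [Finsupp.single_eq_of_ne (Finset.ne_of_mem_erase hj), pow_zero]
    · intro s hs hne
      rw [Polynomial.coeff_monomial, if_neg]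
      intro h
      refine hne (Finsupp.ext fun j => ?_)
      by_cases hj : j = i
      · rw [hj, h, Finsupp.single_eq_same]
      · rw [Finsupp.single_eq_of_ne hj]
        have h1 := hle s hs
        rw [← Finset.add_sum_erase _ _ (Finset.mem_univ i)] at h1
        have h2 := Finset.single_le_sum (f := fun j => s j) (fun _ _ => Nat.zero_le _)
          (Finset.mem_erase.2 ⟨hj, Finset.mem_univ j⟩)
        omega
    · intro h
      rw [notMem_support_iff.1 h] at top
      exact absurd top zero_ne_one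
  · rw [← h0, aeval_def, eval₂_eq', Polynomial.eval₂_finsetSum]
    refine Finset.sum_congr rfl fun s _ => ?_
    rw [Polynomial.eval₂_monomial, map_mul, ← IsScalarTower.algebraMap_apply, map_prod,
      ← Finset.prod_erase_mul _ _ (Finset.mem_univ i), mul_assoc]
    congr 2
    exact Finset.prod_congr rfl fun j hj => by rw [map_pow, hb j (Finset.ne_of_mem_erase hj)]

theorem ptz_d2 {K R : Type} [Field K] [CommRing R] [Algebra K R] (a : Fin 3 → R) (g : R3 K)
    (h : g.degreeOf 2 = 0) : aeval ![a 0, a 1, 0] g = aeval a g := by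
  rw [aeval_def, aeval_def, eval₂_eq', eval₂_eq']
  refine Finset.sum_congr rfl fun s hs => ?_
  have h1 : s 2 = 0 := Nat.le_zero.1 ((monomial_le_degreeOf 2 hs).trans h.le)
  simp [Fin.prod_univ_three, h1]

theorem ptz_tr {K E : Type} [Field K] [Field E] [Algebra K E] (a : Fin 3 → E) (H g : R3 K)
    (hE : FF K E 1) (ha : af K a = ⊤) (hH : coeff (Finsupp.single 2 H.totalDegree) H = 1)
    (hg : coeff (Finsupp.single 1 g.totalDegree) g = 1) (h2 : g.degreeOf 2 = 0)
    (aH : aeval a H = 0) (ag : aeval a g = 0) : Transcendental K (a 0) := by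
  intro h
  have m0 : a 0 ∈ integralClosure K E := h.isIntegral
  have m1 : a 1 ∈ integralClosure K E := by
    have := ptz_int (S := integralClosure K E) ![a 0, a 1, 0] 1 g hg (by rw [ptz_d2 a g h2, ag])
      fun j hj => by
        fin_cases j
        · exact ⟨⟨a 0, m0⟩, rfl⟩
        · exact absurd rfl hj
        · exact ⟨0, rfl⟩
    exact isIntegral_trans (R := K) _ this
  have m2 : a 2 ∈ integralClosure K E := by
    have := ptz_int (S := integralClosure K E) a 2 H hH aH fun j hj => by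
      fin_cases j
      · exact ⟨⟨a 0, m0⟩, rfl⟩
      · exact ⟨⟨a 1, m1⟩, rfl⟩
      · exact absurd rfl hj
    exact isIntegral_trans (R := K) _ this
  have h3 : af K a ≤ algebraicClosure K E := by
    refine IntermediateField.adjoin_le_iff.2 ?_
    rintro _ ⟨j, rfl⟩
    refine mem_algebraicClosure_iff'.2 ?_
    fin_cases j
    exacts [m0, m1, m2]
  have h4 := (tr_td_zero hE.tr (af K a)).2 fun z hz => mem_algebraicClosure_iff.1 (h3 hz)
  rw [ha, td_top, hE.td_eq] at h4
  exact one_ne_zero h4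

theorem sPtz (K : Type) [Field K] [IsAlgClosed K]  : SPtz K := by
  intro A B J Ω _ _ _ _ _ _ _ _ _ _ _ _ _ _ i ι z ζ H g W Z hinj hS hW hI hG hH hg hd
  obtain ⟨E, _, _, a, hE, ha, hZ⟩ := exists_gen_a Z
  rw [← dim_eq, hd] at hE
  have hm : ∀ G, G ∈ Z.asIdeal ↔ aeval a G = 0 := fun G => by
    rw [← hZ]
    exact RingHom.mem_ker
  have htr := ptz_tr a H g hE ha hS.top hG.top hG.d2 ((hm H).1 hH) ((hm g).1 hg)
  let emb : MvPolynomial (Fin 2) K →ₐ[K] R3 K := aeval ![X 0, X 1]
  let ρ : MvPolynomial (Fin 2) K →ₐ[K] R3 K ⧸ Z.asIdeal := (Ideal.Quotient.mkₐ K _).comp emb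
  let χ : MvPolynomial (Fin 2) K →ₐ[K] Ω := (ι.comp i).comp (aeval ![ζ 0, ζ 1])
  have hk : ∀ G, ρ G = 0 ↔ χ G = 0 := by
    intro G
    have h1 : aeval a (emb G) = aeval ![a 0, a 1] G := by
      simp only [emb]
      rw [comp_aeval_apply]
      congr 2
      ext j
      fin_cases j <;> simp
    simp only [ρ, χ]
    rw [AlgHom.comp_apply, Ideal.Quotient.mkₐ_eq_mk, Ideal.Quotient.eq_zero_iff_mem, hm, h1,
      hG.min E a htr ((hm g).1 hg), AlgHom.comp_apply, map_eq_zero_iff _ hinj]
  let : Algebra (MvPolynomial (Fin 2) K) (R3 K ⧸ Z.asIdeal) := ρ.toRingHom.toAlgebra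
  have hρ : ∀ G, algebraMap (MvPolynomial (Fin 2) K) (R3 K ⧸ Z.asIdeal) G = ρ G := fun _ => rfl
  have : IsScalarTower K (MvPolynomial (Fin 2) K) (R3 K ⧸ Z.asIdeal) :=
    IsScalarTower.of_algebraMap_eq fun c => (ρ.commutes c).symm
  have r0 : ρ (X 0) = Ideal.Quotient.mk _ (X 0) := by simp [ρ, emb]
  have r1 : ρ (X 1) = Ideal.Quotient.mk _ (X 1) := by simp [ρ, emb]
  have rc : ∀ c, ρ (C c) = Ideal.Quotient.mk _ (C c) := fun c => ρ.commutes c
  have i2 : IsIntegral (MvPolynomial (Fin 2) K) (Ideal.Quotient.mk Z.asIdeal (X 2)) := by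
    refine ptz_int (fun j => Ideal.Quotient.mk Z.asIdeal (X j)) 2 H hS.top ?_ fun j hj => ?_
    · have := comp_aeval_apply (f := (X : Fin 3 → R3 K)) (Ideal.Quotient.mkₐ K Z.asIdeal) H
      simp only [aeval_X_left_apply, Ideal.Quotient.mkₐ_eq_mk] at this
      rw [← this]
      exact Ideal.Quotient.eq_zero_iff_mem.2 hH
    · fin_cases j
      · exact ⟨X 0, r0⟩
      · exact ⟨X 1, r1⟩
      · exact absurd rfl hj
  have : Algebra.IsIntegral (MvPolynomial (Fin 2) K) (R3 K ⧸ Z.asIdeal) := ⟨fun u => by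
    obtain ⟨F, rfl⟩ := Ideal.Quotient.mk_surjective u
    induction F using MvPolynomial.induction_on with
    | C c => rw [← rc, ← hρ]; exact isIntegral_algebraMap
    | add p q hp hq => rw [map_add]; exact hp.add hq
    | mul_X p j hp =>
      rw [map_mul]
      refine hp.mul ?_
      fin_cases j
      · exact r0 ▸ isIntegral_algebraMap (x := X 0)
      · exact r1 ▸ isIntegral_algebraMap (x := X 1)
      · exact i2⟩
  obtain ⟨y, hy⟩ := NF_ext (B := R3 K ⧸ Z.asIdeal) χ.toRingHom fun G hG' => (hk G).1 hG'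
  have yi : ∀ u, y u = 0 → u = 0 := by
    intro u hu
    by_contra h
    have := Ideal.comap_lt_comap_of_integral_mem_sdiff (R := MvPolynomial (Fin 2) K)
      (I := (⊥ : Ideal (R3 K ⧸ Z.asIdeal))) (J := RingHom.ker y) bot_le (x := u) ⟨hu, h⟩
      (Algebra.IsIntegral.isIntegral u)
    refine this.not_ge fun G hG' => ?_
    have h1 : y (algebraMap _ _ G) = 0 := hG'
    rw [hy] at h1
    exact (hk G).2 h1
  have hint : (aeval z : R3 K →ₐ[K] B).toRingHom.IsIntegral := by
    have h1 : ∀ b : B, IsIntegral (aeval z : R3 K →ₐ[K] B).range b := by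
      rw [← Algebra.adjoin_range_eq_range_aeval]
      exact hI
    exact RingHom.IsIntegral.trans (aeval z : R3 K →ₐ[K] B).rangeRestrict.toRingHom
      (algebraMap (aeval z : R3 K →ₐ[K] B).range B)
      (RingHom.isIntegral_of_surjective _ (AlgHom.rangeRestrict_surjective _)) h1
  let : Algebra (R3 K) B := (aeval z : R3 K →ₐ[K] B).toRingHom.toAlgebra
  have : Algebra.IsIntegral (R3 K) B := ⟨hint⟩
  obtain ⟨ξ, hξ⟩ := NF_ext (A := R3 K) (B := B) (y.comp (Ideal.Quotient.mk Z.asIdeal))
    fun G hG' => by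
      have h1 : G ∈ W.asIdeal := (hW G).2 hG'
      rw [hS.eq] at h1
      have h2 : G ∈ Z.asIdeal := (Ideal.span_singleton_le_iff_mem _).2 hH h1
      rw [RingHom.mem_ker, RingHom.comp_apply, Ideal.Quotient.eq_zero_iff_mem.2 h2, map_zero]
  have hξ' : ∀ G, ξ (aeval z G) = y (Ideal.Quotient.mk Z.asIdeal G) := hξ
  refine ⟨{ ξ with commutes' := fun c => ?_ }, ?_, ?_, fun G => ?_⟩
  · have := hξ' (C c)
    rw [← rc, ← hρ, hy] at this
    simpa using this
  · have := hξ' (X 0)
    rw [← r0, ← hρ, hy] at this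
    simpa [χ] using this
  · have := hξ' (X 1)
    rw [← r1, ← hρ, hy] at this
    simpa [χ] using this
  · refine ⟨fun h => ?_, fun h => Ideal.Quotient.eq_zero_iff_mem.1 (yi _ ((hξ' G).symm.trans h))⟩
    exact (hξ' G).trans (by rw [Ideal.Quotient.eq_zero_iff_mem.2 h, map_zero])

end Pool.Agent.MP_a9d3bd_y
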