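import Pool.Agent.MP_a9d3bd_y.SC0
import Pool.Agent.MP_a9d3bd_g.CCore

/-! The geometric front by the model in three-space. -/

namespace Pool.Agent.MP_a9d3bd_y

theorem sCore (p : ℕ) [Fact p.Prime] (K : Type) [Field K] [IsAlgClosed K] [CharP K p]
    (halg : ∀ c : K, ∃ n, 0 < n ∧ c ^ p ^ n = c) : SCore K :=
  fun _ _ _ h hl _ _ Z F G g n hP hz => MP_a9d3bd_g.core p halg h hl Z F G g n hP hz

theorem coreK : MP_a9d3bd_x.CoreK := coreK_of_core fun p _ K _ _ _ halg => sCore p K halg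

end Pool.Agent.MP_a9d3bd_y
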