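import Pool.Agent.MP_a9d3bd_y.St
import Pool.Agent.MP_a9d3bd_g.ANF

namespace Pool.Agent.MP_a9d3bd_y

open MvPolynomial Pool.Agent.MP_a9d3bd_h Pool.Agent.MP_a9d3bd_q Pool.Agent.MP_a9d3bd_g

theorem sim_core {R B Ω : Type} [CommRing R] [CommRing B] [Field Ω] [IsAlgClosed Ω] [Algebra R B]
    [Algebra.IsIntegral R B] (ι ξ : B →+* Ω) (hι : Function.Injective ι) (b : B)
    (p : Polynomial R) (hm : p.Monic) (hp : ∀ q : Polynomial R, Polynomial.aeval b q = 0 ↔ p ∣ q)
    (hd : Polynomial.aeval b (Polynomial.derivative p) ≠ 0)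
    (h : ∀ (τ : B →+* Ω) (D : Type) [CommRing D] (j : D →+* Ω) (χ : D →+* Ω) (ι' τ' : B →+* D),
      Function.Injective j → j.comp ι' = ι → j.comp τ' = τ → χ.comp ι' = ξ →
      (∀ r, τ (algebraMap R B r) = ι (algebraMap R B r)) → τ b ≠ ι b → χ (τ' b) ≠ ξ b) :
    ξ (Polynomial.aeval b (Polynomial.derivative p)) ≠ 0 := by
  classical
  let : Algebra R Ω := (ι.comp (algebraMap R B)).toAlgebra
  have m : ∀ τ : B →+* Ω, (∀ r, τ (algebraMap R B r) = ι (algebraMap R B r)) →
      ∀ x, τ x ∈ integralClosure R Ω := fun τ hτ x =>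
    (Algebra.IsIntegral.isIntegral (R := R) x).map (⟨τ, hτ⟩ : B →ₐ[R] Ω)
  let ι' : B →+* integralClosure R Ω := ι.codRestrict _ (m ι fun _ => rfl)
  obtain ⟨χ, hχ⟩ : ∃ χ : integralClosure R Ω →+* Ω, ∀ x, χ (ι' x) = ξ x := by
    let : Algebra B (integralClosure R Ω) := ι'.toAlgebra
    have : IsScalarTower R B (integralClosure R Ω) := .of_algebraMap_eq fun _ => rfl
    have : Algebra.IsIntegral B (integralClosure R Ω) := .tower_top R
    exact NF_ext ξ fun x hx => by
      rw [hι (a₁ := x) (a₂ := 0) ((congrArg Subtype.val hx).trans ι.map_zero.symm)]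
      exact zero_mem _
  have ev : ∀ q : Polynomial R, (q.map (algebraMap R Ω)).eval (ι b) = ι (Polynomial.aeval b q) :=
    fun q => by
      rw [Polynomial.eval_map_algebraMap]
      exact Polynomial.aeval_algHom_apply (⟨ι, fun _ => rfl⟩ : B →ₐ[R] Ω) b q
  have hm' := hm.map (algebraMap R Ω)
  have e := (IsAlgClosed.splits _).eval_root_derivative hm' (x := ι b)
    ((Polynomial.mem_roots hm'.ne_zero).2 (by
      rw [Polynomial.IsRoot, ev, (hp p).2 dvd_rfl, map_zero]))
  rw [Polynomial.derivative_map, ev] at e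
  have k : ∃ z : integralClosure R Ω, z.1 = ι (Polynomial.aeval b (Polynomial.derivative p)) ∧
      χ z ≠ 0 := by
    rw [e]
    refine Multiset.prod_induction (fun w => ∃ z : integralClosure R Ω, z.1 = w ∧ χ z ≠ 0) _
      (fun _ _ ⟨z, h1, h2⟩ ⟨z', h3, h4⟩ => ⟨z * z', h1 ▸ h3 ▸ rfl, by
        rw [map_mul]; exact mul_ne_zero h2 h4⟩) ⟨1, rfl, by simp⟩ fun w hw => ?_
    obtain ⟨ρ, h1, rfl⟩ := Multiset.mem_map.1 hw
    have h2 : ι b - ρ ≠ 0 := fun h0 => hd (hι (by
      rw [e, map_zero]
      exact Multiset.prod_eq_zero (h0 ▸ hw)))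
    have h3 : Polynomial.aeval ρ p = 0 := by
      rw [← Polynomial.eval_map_algebraMap]
      exact Polynomial.isRoot_of_mem_roots (Multiset.mem_of_mem_erase h1)
    obtain ⟨τ, hτ⟩ : ∃ τ : B →+* Ω, ∀ q : Polynomial R,
        τ (Polynomial.aeval b q) = Polynomial.aeval ρ q := by
      let : Algebra (Polynomial R) B := (Polynomial.aeval b : Polynomial R →ₐ[R] B).toAlgebra
      have : IsScalarTower R (Polynomial R) B :=
        .of_algebraMap_eq fun r => ((Polynomial.aeval b).commutes r).symm
      have : Algebra.IsIntegral (Polynomial R) B := .tower_top R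
      refine NF_ext (Polynomial.aeval ρ : Polynomial R →ₐ[R] Ω).toRingHom fun q hq => ?_
      obtain ⟨q', rfl⟩ := (hp q).1 hq
      change Polynomial.aeval ρ (p * q') = 0
      rw [map_mul, h3, zero_mul]
    have t1 : ∀ r, τ (algebraMap R B r) = ι (algebraMap R B r) := fun r => by
      have k := hτ (Polynomial.C r)
      rwa [Polynomial.aeval_C, Polynomial.aeval_C] at k
    have t2 : τ b = ρ := by simpa using hτ Polynomial.X
    refine ⟨ι' b - τ.codRestrict _ (m τ t1) b, t2 ▸ rfl, ?_⟩
    rw [map_sub, hχ]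
    exact sub_ne_zero.2 (h τ _ (integralClosure R Ω).val.toRingHom χ ι' (τ.codRestrict _ (m τ t1))
      Subtype.val_injective rfl rfl (RingHom.ext hχ) t1 (t2 ▸ (sub_ne_zero.1 h2).symm)).symm
  obtain ⟨z, h1, h2⟩ := k
  rw [← hχ]
  exact (Subtype.ext h1 : z = ι' _) ▸ h2

theorem sim_der {K σ : Type} [Field K] (G : MvPolynomial (Option σ) K) :
    optionEquivLeft K σ (pderiv none G) = Polynomial.derivative (optionEquivLeft K σ G) := by
  classical
  induction G using MvPolynomial.induction_on with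
  | C a => simp
  | add p q hp hq => simp only [map_add, hp, hq]
  | mul_X p o hp => rcases o with _ | o <;> simp [hp, mul_comm]

theorem sim_monic {K σ : Type} [Field K] {H : MvPolynomial (Option σ) K}
    (h : coeff (Finsupp.single none H.totalDegree) H = 1) : (optionEquivLeft K σ H).Monic := by
  classical
  refine Polynomial.monic_of_natDegree_le_of_coeff_eq_one H.totalDegree
    ((natDegree_optionEquivLeft K H).trans_le (degreeOf_le_totalDegree _ _))
    (MvPolynomial.ext _ _ fun d => ?_)
  rw [optionEquivLeft_coeff_coeff, coeff_one]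
  split_ifs with k
  · rw [← k, Finsupp.optionElim_zero, h]
  · by_contra e
    obtain ⟨i, hi⟩ := Finsupp.ne_iff.1 k
    have k1 := le_totalDegree (mem_support_iff.2 e)
    have k2 := Finset.sum_le_sum_of_subset (f := d.optionElim H.totalDegree)
      (s := ({none, some i} : Finset (Option σ)).filter fun o => d.optionElim H.totalDegree o ≠ 0)
      (t := (d.optionElim H.totalDegree).support) fun o ho =>
        Finsupp.mem_support_iff.2 (Finset.mem_filter.1 ho).2
    rw [Finset.sum_filter_ne_zero, Finset.sum_pair (by simp)] at k2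
    have k3 := k2.trans k1
    simp only [Finsupp.optionElim_apply_none, Finsupp.optionElim_apply_some] at k3
    exact hi (by rw [Finsupp.zero_apply]; omega)

theorem sSim (K : Type) [Field K] [IsAlgClosed K] : SSim K := by
  intro B σ Ω _ _ _ _ _ _ _ ι ξ v b H hι _ hI hM hd h
  let : Algebra (MvPolynomial σ K) B := (aeval v : MvPolynomial σ K →ₐ[K] B).toAlgebra
  have al : ∀ r, algebraMap (MvPolynomial σ K) B r = aeval v r := fun _ => rfl
  have : Algebra.IsIntegral (MvPolynomial σ K) B := ⟨fun x => by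
    obtain ⟨q, h1, h2⟩ := hI x
    obtain ⟨q', h3, -, h4⟩ := Polynomial.lifts_and_natDegree_eq_and_monic
      (f := algebraMap (MvPolynomial σ K) B) (p := q.map (algebraMap _ B))
      ((Polynomial.lifts_iff_coeff_lifts _).2 fun n => by
        rw [Polynomial.coeff_map]
        exact (Algebra.adjoin_range_eq_range_aeval K v).le (q.coeff n).2) (h1.map _)
    exact ⟨q', h4, by rw [← Polynomial.eval_map, h3, Polynomial.eval_map, h2]⟩⟩
  have ev : ∀ G, Polynomial.aeval b (optionEquivLeft K σ G) = aeval (oe b v) G := fun G => by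
    induction G using MvPolynomial.induction_on with
    | C a => simp [al]
    | add p q hp hq => simp only [map_add, hp, hq]
    | mul_X p o hp => rcases o with _ | o <;> simp [hp, al, oe]
  rw [← ev, sim_der] at hd ⊢
  refine sim_core ι.toRingHom ξ.toRingHom hι b _ (sim_monic hM.2.1) (fun q => ?_) hd
    fun τ D _ j χ ι' τ' hj e1 e2 e3 t1 t2 => ?_
  · obtain ⟨G, rfl⟩ := (optionEquivLeft K σ).surjective q
    rw [ev, hM.2.2.2, map_dvd_iff]
  · have c1 : ∀ x, j (ι' x) = ι x := RingHom.congr_fun e1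
    have c2 : ∀ x, j (τ' x) = τ x := RingHom.congr_fun e2
    have c3 : ∀ x, χ (ι' x) = ξ x := RingHom.congr_fun e3
    have c4 : ∀ r, τ' (aeval v r) = ι' (aeval v r) := fun r => hj (by rw [c1, c2]; exact t1 r)
    have c5 : ∀ c, τ' (algebraMap K B c) = ι' (algebraMap K B c) := fun c => by
      simpa using c4 (C c)
    have c6 : ∀ k, τ' (v k) = ι' (v k) := fun k => by simpa using c4 (X k)
    refine h ⟨τ, fun c => ?_⟩ ⟨χ.comp τ', fun c => ?_⟩ (fun k => ?_) (fun k => ?_) t2 fun G hG => ?_
    · exact (c2 _).symm.trans (by rw [c5, c1, ι.commutes])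
    · exact (congrArg χ (c5 c)).trans (by rw [c3, ξ.commutes])
    · exact (c2 _).symm.trans (by rw [c6, c1])
    · exact (congrArg χ (c6 k)).trans (c3 _)
    · have z : eval₂ (ι'.comp (algebraMap K B)) (Sum.elim ι' τ') G = 0 := hj (by
        rw [map_zero, ← hG, eval₂_comp_left, aeval_def]
        congr 1
        · exact RingHom.ext fun c => (c1 _).trans (ι.commutes c)
        · funext x
          rcases x with x | x
          exacts [c1 x, c2 x])
      rw [← map_zero χ, ← z, eval₂_comp_left, aeval_def]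
      congr 1
      · exact RingHom.ext fun c => ((c3 _).trans (ξ.commutes c)).symm
      · funext x
        rcases x with x | x
        exacts [(c3 x).symm, rfl]

end Pool.Agent.MP_a9d3bd_y
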