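import Pool.Agent.MP_a9d3bd_y.St

namespace Pool.Agent.MP_a9d3bd_y

open MvPolynomial Pool.Agent.MP_a9d3bd_h Pool.Agent.MP_a9d3bd_q Pool.Agent.MP_a9d3bd_g

section
variable {K E σ F : Type} [Field K] [Field E] [Algebra K E] [Field F] [Algebra K F] [Algebra F E]
  [IsScalarTower K F E]

/-- Substitution of the parameters. -/
noncomputable def spi_sub (K : Type) [Field K] [Algebra K F] (w : σ → F) :
    MvPolynomial (Option σ) K →ₐ[K] Polynomial F :=
  aeval fun o => o.elim Polynomial.X fun k => Polynomial.C (w k)

theorem spi_eval (w : σ → F) (b : E) (G : MvPolynomial (Option σ) K) :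
    Polynomial.aeval b (spi_sub K w G) = aeval (oe b fun k => algebraMap F E (w k)) G := by
  have h := comp_aeval_apply (fun o : Option σ => o.elim Polynomial.X fun k => Polynomial.C (w k))
    ((Polynomial.aeval b : Polynomial F →ₐ[F] E).restrictScalars K) G
  refine h.trans ?_
  congr 2
  funext o
  cases o <;> simp [oe]

theorem spi_der (w : σ → F) (G : MvPolynomial (Option σ) K) :
    Polynomial.derivative (spi_sub K w G) = spi_sub K w (pderiv none G) := by
  induction G using MvPolynomial.induction_on with
  | C a => simp [spi_sub, Polynomial.algebraMap_apply]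
  | add p q hp hq => simp only [map_add, hp, hq]
  | mul_X p o hp =>
    rw [map_mul, Polynomial.derivative_mul, hp, Derivation.leibniz, smul_eq_mul, smul_eq_mul,
      map_add, map_mul, map_mul]
    cases o with
    | none => simp [spi_sub]; ring
    | some k => simp [spi_sub]; ring

theorem spi_ren (w : σ → F) (d : MvPolynomial σ K) :
    spi_sub K w (rename some d) = Polynomial.C (aeval w d) := by
  induction d using MvPolynomial.induction_on with
  | C a => simp [spi_sub, Polynomial.algebraMap_apply]
  | add p q hp hq => simp only [map_add, hp, hq]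
  | mul_X p o hp => rw [map_mul, map_mul, hp]; simp [spi_sub]

theorem spi_den (w : σ → F) (hw : ∀ a : F, ∃ r s : MvPolynomial σ K, a = aeval w r / aeval w s)
    (f : Polynomial F) : ∃ (G : MvPolynomial (Option σ) K) (d : MvPolynomial σ K),
      aeval w d ≠ 0 ∧ spi_sub K w G = Polynomial.C (aeval w d) * f := by
  induction f using Polynomial.induction_on' with
  | add p q hp hq =>
    obtain ⟨G₁, d₁, h₁, e₁⟩ := hp
    obtain ⟨G₂, d₂, h₂, e₂⟩ := hq
    refine ⟨rename some d₂ * G₁ + rename some d₁ * G₂, d₁ * d₂, ?_, ?_⟩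
    · rw [map_mul]
      exact mul_ne_zero h₁ h₂
    · simp only [map_add, map_mul, spi_ren, e₁, e₂]
      ring
  | monomial n a =>
    obtain ⟨r, s, rfl⟩ := hw a
    by_cases hs : aeval w s = 0
    · exact ⟨0, 1, by simp, by simp [hs]⟩
    · refine ⟨rename some r * X none ^ n, s, hs, ?_⟩
      rw [map_mul, spi_ren, ← Polynomial.C_mul_X_pow_eq_monomial, ← mul_assoc, ← map_mul,
        mul_div_cancel₀ _ hs]
      simp [spi_sub]

end

theorem sSpi (K : Type) [Field K] [IsAlgClosed K]  : SSpi K := by
  intro E σ _ _ _ v b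
  let w : σ → IntermediateField.adjoin K (Set.range v) := fun k =>
    ⟨v k, IntermediateField.subset_adjoin K _ ⟨k, rfl⟩⟩
  have hev : ∀ G, Polynomial.aeval b (spi_sub K w G) = aeval (oe b v) G := spi_eval w b
  constructor
  · rintro ⟨G, h0, h1⟩
    rw [← hev] at h0 h1
    rw [← spi_der] at h1
    have hne : spi_sub K w G ≠ 0 := fun h => h1 (by simp [h])
    have hint : IsIntegral (IntermediateField.adjoin K (Set.range v)) b :=
      (show IsAlgebraic _ b from ⟨_, hne, h0⟩).isIntegral
    obtain ⟨Q, hQ⟩ := minpoly.dvd _ b h0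
    refine (Polynomial.separable_iff_derivative_ne_zero (minpoly.irreducible hint)).2 fun h => h1 ?_
    rw [hQ, Polynomial.derivative_mul, h]
    simp
  · intro h
    obtain ⟨G, d, hd, hG⟩ := spi_den (K := K) w (fun a => by
      obtain ⟨r, s, e⟩ := (IntermediateField.mem_adjoin_range_iff K v a.1).1 a.2
      refine ⟨r, s, Subtype.ext ?_⟩
      have h2 : ∀ t : MvPolynomial σ K, ((aeval w t : IntermediateField.adjoin K (Set.range v)) : E)
          = aeval v t := fun t => comp_aeval_apply w (IntermediateField.val _) t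
      rw [e, IntermediateField.coe_div, h2, h2]) (minpoly _ b)
    refine ⟨G, ?_, ?_⟩
    · rw [← hev, hG, map_mul, minpoly.aeval, mul_zero]
    · rw [← hev, ← spi_der, hG, Polynomial.derivative_C_mul, map_mul, Polynomial.aeval_C]
      exact mul_ne_zero ((map_ne_zero _).2 hd)
        (Polynomial.Separable.aeval_derivative_ne_zero h (minpoly.aeval _ b))

end Pool.Agent.MP_a9d3bd_y
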