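import Pool.Agent.MP_a9d3bd_y.St

namespace Pool.Agent.MP_a9d3bd_y

open MvPolynomial Pool.Agent.MP_a9d3bd_h Pool.Agent.MP_a9d3bd_q Pool.Agent.MP_a9d3bd_g

theorem uni_pt {K A : Type} [Field K] [IsAlgClosed K] [CommRing A] [Algebra K A]
    [Algebra.FiniteType K A] (m : Ideal A) [m.IsMaximal] :
    ∃ β : A →ₐ[K] K, RingHom.ker β = m := by
  let _ := Ideal.Quotient.field m
  have := finite_of_finite_type_of_isJacobsonRing K (A ⧸ m)
  have hb : Function.Bijective (Algebra.ofId K (A ⧸ m)) :=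
    IsAlgClosed.algebraMap_bijective_of_isIntegral
  refine ⟨(AlgEquiv.ofBijective _ hb).symm.toAlgHom.comp (Ideal.Quotient.mkₐ K m), ?_⟩
  ext x
  simp [RingHom.mem_ker, Ideal.Quotient.eq_zero_iff_mem]

theorem uni_char {K : Type} [Field K] (h : ∀ a : K, a ≠ 0 → ∃ n, 0 < n ∧ a ^ n = 1) :
    ∃ p : ℕ, p.Prime ∧ CharP K p := by
  obtain ⟨p, hp⟩ := CharP.exists K
  rcases CharP.char_is_prime_or_zero K p with h1 | rfl
  · exact ⟨p, h1, hp⟩
  · have := CharP.charP_to_charZero K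
    obtain ⟨n, hn, h2⟩ := h 2 two_ne_zero
    have h3 : 2 ^ n = 1 := by exact_mod_cast h2
    have h4 := Nat.one_lt_two_pow hn.ne'
    omega

open IsDedekindDomain in
theorem uni_ord {K A : Type} [Field K] [IsAlgClosed K] [CommRing A] [IsDedekindDomain A]
    [Algebra K A] [Algebra.FiniteType K A] (h : ∀ a : K, a ≠ 0 → ∃ n, 0 < n ∧ a ^ n = 1)
    {γ a : A} (hγ : γ ≠ 0) (ha : ∀ v : HeightOneSpectrum A, γ ∈ v.asIdeal → a ∉ v.asIdeal) :
    ∃ N, 0 < N ∧ γ ∣ a ^ N - 1 := by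
  obtain ⟨p, hp, _⟩ := uni_char h
  have := Fact.mk hp
  have : CharP A p := charP_of_injective_algebraMap (algebraMap K A).injective p
  have h1 : ∀ v : HeightOneSpectrum A, ∃ n, 0 < n ∧ (γ ∈ v.asIdeal → a ^ n - 1 ∈ v.asIdeal) := by
    intro v
    by_cases hv : γ ∈ v.asIdeal
    · have := v.isMaximal
      obtain ⟨β, hβ⟩ := uni_pt (K := K) v.asIdeal
      obtain ⟨n, hn, h2⟩ := h (β a) fun c => ha v hv (hβ ▸ RingHom.mem_ker.2 c)
      exact ⟨n, hn, fun _ => hβ ▸ RingHom.mem_ker.2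
        (by rw [map_sub, map_pow, h2, map_one, sub_self])⟩
    · exact ⟨1, one_pos, fun c => (hv c).elim⟩
  choose n hn hm using h1
  have hf := Ideal.finite_factors (I := Ideal.span {γ}) (by simpa using hγ)
  have h2 : a ^ (∏ v ∈ hf.toFinset, n v) - 1 ∈ (Ideal.span {γ}).radical := by
    rw [Ideal.radical_eq_sInf, Ideal.mem_sInf]
    rintro J ⟨hJ, hp'⟩
    have h3 : γ ∈ J := hJ (Ideal.mem_span_singleton_self γ)
    let v : HeightOneSpectrum A := ⟨J, hp', fun c => hγ (by simpa [c] using h3)⟩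
    obtain ⟨k, hk⟩ := Finset.dvd_prod_of_mem n
      (hf.mem_toFinset.2 (show v.asIdeal ∣ _ from Ideal.dvd_iff_le.2 hJ))
    rw [hk, pow_mul]
    exact J.mem_of_dvd (sub_one_dvd_pow_sub_one _ k) (hm v h3)
  obtain ⟨k, hk⟩ := h2
  refine ⟨(∏ v ∈ hf.toFinset, n v) * p ^ k,
    Nat.mul_pos (Finset.prod_pos fun v _ => hn v) (pow_pos hp.pos k), ?_⟩
  have h4 := sub_pow_char_pow (p := p) (n := k) (a ^ ∏ v ∈ hf.toFinset, n v) (1 : A)
  rw [pow_mul, ← one_pow (p ^ k), ← h4]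
  exact (Ideal.mem_span_singleton.1 hk).trans
    (pow_dvd_pow _ (Nat.lt_pow_self hp.one_lt).le)

open IsDedekindDomain in
theorem sUni (K : Type) [Field K] [IsAlgClosed K] : SUni K := by
  intro A _ _ _ _ _ _ _ _ _ _ _ _ _ _ _ _ _ h u ν γ _ hD hγ hν
  have : Algebra.FiniteType K A :=
    Algebra.FiniteType.trans (S := Polynomial K) inferInstance inferInstance
  have hi := IsFractionRing.injective A (FractionRing A)
  have hv : ∀ v : HeightOneSpectrum A, γ ∈ v.asIdeal → v.valuation (FractionRing A) u = 1 := by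
    intro v hγv
    have := v.isMaximal
    obtain ⟨β, hβ⟩ := uni_pt (K := K) v.asIdeal
    have he := (v.valuation (FractionRing A)).isEquiv_valuation_valuationSubring
    obtain ⟨π, h1, h2⟩ := Ideal.exists_mem_pow_notMem_pow_succ v.asIdeal v.ne_bot
      v.isPrime.ne_top 1
    have h0 : ν β = 0 := by
      by_contra c
      exact hν β (Finsupp.mem_support_iff.2 c) (RingHom.mem_ker.1 (hβ ▸ hγv))
    have h3 := (hD.2 (v.valuation (FractionRing A)).valuationSubring fun c => by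
      rw [IsScalarTower.algebraMap_apply K A (FractionRing A)]
      exact v.valuation_le_one _).2 β (fun a => he.lt_one_iff_lt_one.1
        ((v.valuation_lt_one_iff_mem _).2 (hβ ▸ RingHom.mem_ker.2 (by simp)))) π
      (RingHom.mem_ker.1 (hβ ▸ pow_one v.asIdeal ▸ h1)) (hβ ▸ h2)
    rw [h0, zpow_zero] at h3
    exact he.eq_one_iff_eq_one.2 h3
  let I : Ideal A :=
    { carrier := {b | ∃ a : A, u * algebraMap A _ b = algebraMap A _ a}
      add_mem' := fun ⟨a, ha⟩ ⟨a', ha'⟩ => ⟨a + a', by rw [map_add, map_add, mul_add, ha, ha']⟩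
      zero_mem' := ⟨0, by simp⟩
      smul_mem' := fun c _ ⟨a, ha⟩ => ⟨c * a, by
        rw [smul_eq_mul, map_mul, map_mul, ← ha, mul_left_comm]⟩ }
  have hI : I ⊔ Ideal.span {γ} = ⊤ := by
    by_contra c
    obtain ⟨m, hm, hle⟩ := Ideal.exists_le_maximal _ c
    have h3 : γ ∈ m := hle (Ideal.mem_sup_right (Ideal.mem_span_singleton_self γ))
    let v : HeightOneSpectrum A := ⟨m, hm.isPrime, fun c => hγ (by simpa [c] using h3)⟩
    obtain ⟨a, d, hd⟩ := v.exists_primeCompl_mul_eq_of_integer u (hv v h3).le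
    exact d.2 (hle (Ideal.mem_sup_left (show d.1 ∈ I from ⟨a, hd⟩)))
  obtain ⟨b, hb, hb1, hb0⟩ : ∃ b ∈ I, γ ∣ b - 1 ∧ b ≠ 0 := by
    obtain ⟨b, hb, c, hc, hbc⟩ := Submodule.mem_sup.1 ((Ideal.eq_top_iff_one _).1 hI)
    have h1 : γ ∣ b - 1 := by
      rw [show b - 1 = -c by rw [← hbc]; ring]
      exact (Ideal.mem_span_singleton.1 hc).neg_right
    by_cases h0 : b = 0
    · obtain ⟨⟨a, d, hd⟩, h2⟩ := IsLocalization.surj (nonZeroDivisors A) u
      refine ⟨γ * d, I.mul_mem_left γ ⟨a, h2⟩, ?_, mul_ne_zero hγ (nonZeroDivisors.ne_zero hd)⟩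
      rw [h0, zero_sub] at h1
      exact (dvd_mul_right γ d).add h1 |>.trans (by rw [sub_eq_add_neg])
    · exact ⟨b, hb, h1, h0⟩
  obtain ⟨a, ha⟩ := hb
  obtain ⟨N, hN, h1⟩ := uni_ord h (a := a) hγ fun v hγv => by
    have h2 : b ∉ v.asIdeal := fun c => v.isPrime.ne_top ((Ideal.eq_top_iff_one _).2 (by
      simpa using v.asIdeal.sub_mem c (v.asIdeal.mem_of_dvd hb1 hγv)))
    rw [← v.valuation_eq_one_iff_notMem (K := FractionRing A)] at h2 ⊢
    rw [← ha, map_mul, hv v hγv, h2, one_mul]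
  exact ⟨N, a ^ N, b ^ N, hN, by rw [map_pow, map_pow, ← ha, mul_pow], h1,
    hb1.trans (sub_one_dvd_pow_sub_one b N), pow_ne_zero N hb0⟩

end Pool.Agent.MP_a9d3bd_y
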