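import Pool.Agent.MP_a9d3bd_y.St

/-! No inertia at an unramified point. -/

namespace Pool.Agent.MP_a9d3bd_y

open MvPolynomial Pool.Agent.MP_a9d3bd_h Pool.Agent.MP_a9d3bd_q Pool.Agent.MP_a9d3bd_g

theorem unr_loc {K A : Type} [Field K] [CommRing A] [IsDedekindDomain A] [Algebra K A]
    (β : A →ₐ[K] K) (t : A) (h0 : β t = 0) (ht : t ∉ RingHom.ker β ^ 2) (a : A) (ha : β a = 0) :
    ∃ u a₁ : A, β u = 1 ∧ u * a = t * a₁ := by
  have h1 : RingHom.ker β ∣ Ideal.span {t} :=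
    Ideal.dvd_iff_le.2 ((Ideal.span_singleton_le_iff_mem _).2 h0)
  obtain ⟨J, hJ⟩ := h1
  have h2 : ¬ J ≤ RingHom.ker β := fun h => ht (by
    rw [pow_two]
    exact Ideal.mul_mono_right h (hJ ▸ Ideal.mem_span_singleton_self t))
  obtain ⟨u, hu, hu'⟩ := Set.not_subset.1 h2
  have h3 : β u ≠ 0 := hu'
  have h4 : a * u ∈ Ideal.span {t} := hJ ▸ Ideal.mul_mem_mul (show a ∈ RingHom.ker β from ha) hu
  obtain ⟨b, hb⟩ := Ideal.mem_span_singleton'.1 h4
  refine ⟨(β u)⁻¹ • u, (β u)⁻¹ • b, by simp [h3], ?_⟩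
  rw [smul_mul_assoc, mul_smul_comm, mul_comm u a, ← hb, mul_comm]

theorem unr_aux {K A R Ω : Type} [Field K] [CommRing A] [Algebra K A] [CommRing R] [Field Ω]
    [Algebra K Ω] [Algebra R Ω] (ι τ : A →ₐ[K] Ω) (β : A →ₐ[K] K) (I : Ideal R)
    (hI : ∀ r : R, r - 1 ∈ I → algebraMap R Ω r ≠ 0)
    (hK : ∀ c : K, ∃ r, algebraMap R Ω r = algebraMap K Ω c)
    (hι : ∀ a, β a = 0 → ∃ r ∈ I, algebraMap R Ω r = ι a)
    (hτ : ∀ a, β a = 0 → ∃ r ∈ I, algebraMap R Ω r = τ a) (t : A) (h0 : β t = 0) (ht : τ t = ι t)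
    (hu : ∀ a, β a = 0 → ∃ u a₁ : A, β u = 1 ∧ u * a = t * a₁) (hft : Algebra.FiniteType K A) :
    τ = ι := by
  obtain ⟨G, hG⟩ := hft.out
  have hall : ∀ f : A →ₐ[K] Ω, (∀ a, β a = 0 → ∃ r ∈ I, algebraMap R Ω r = f a) →
      ∀ a, ∃ r, algebraMap R Ω r = f a := fun f hf a => by
    obtain ⟨r, -, hr⟩ := hf (a - algebraMap K A (β a)) (by simp)
    obtain ⟨r', hr'⟩ := hK (β a)
    exact ⟨r + r', by rw [map_add, hr, hr', map_sub, f.commutes, sub_add_cancel]⟩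
  set N : Submodule R Ω := Submodule.span R ((fun a => ι a - τ a) '' (G : Set A)) with hNd
  have hN : ∀ a, ι a - τ a ∈ N := fun a => by
    have ha : a ∈ Algebra.adjoin K (G : Set A) := hG ▸ Algebra.mem_top
    induction ha using Algebra.adjoin_induction with
    | mem x hx => exact Submodule.subset_span ⟨x, hx, rfl⟩
    | algebraMap c => rw [ι.commutes, τ.commutes, sub_self]; exact N.zero_mem
    | add x y _ _ hx hy =>
      have : ι (x + y) - τ (x + y) = (ι x - τ x) + (ι y - τ y) := by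
        rw [map_add, map_add]; ring
      rw [this]; exact N.add_mem hx hy
    | mul x y _ _ hx hy =>
      obtain ⟨r, hr⟩ := hall ι hι x
      obtain ⟨r', hr'⟩ := hall τ hτ y
      have : ι (x * y) - τ (x * y) = r • (ι y - τ y) + r' • (ι x - τ x) := by
        rw [map_mul, map_mul, Algebra.smul_def, Algebra.smul_def, hr, hr']; ring
      rw [this]; exact N.add_mem (N.smul_mem _ hy) (N.smul_mem _ hx)
  have hle : N ≤ I • N := by
    refine Submodule.span_le.2 ?_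
    rintro _ ⟨a, -, rfl⟩
    obtain ⟨u, a₁, h1, h2⟩ := hu (a - algebraMap K A (β a)) (by simp)
    obtain ⟨r₁, m₁, e₁⟩ := hι (1 - u) (by simp [h1])
    obtain ⟨r₂, m₂, e₂⟩ := hι t h0
    obtain ⟨r₃, m₃, e₃⟩ := hτ (a - algebraMap K A (β a)) (by simp)
    have f₁ := congrArg ι h2
    have f₂ := congrArg τ h2
    rw [map_mul, map_mul, map_sub, AlgHom.commutes] at f₁ f₂
    rw [map_sub, map_one] at e₁
    rw [map_sub, AlgHom.commutes] at e₃
    have : ι a - τ a = r₁ • (ι a - τ a) + r₂ • (ι a₁ - τ a₁) - r₃ • (ι u - τ u) := by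
      rw [Algebra.smul_def, Algebra.smul_def, Algebra.smul_def, e₁, e₂, e₃]
      rw [ht] at f₂
      linear_combination f₁ - f₂
    change ι a - τ a ∈ I • N
    rw [this]
    exact Submodule.sub_mem _ (Submodule.add_mem _ (Submodule.smul_mem_smul m₁ (hN a))
      (Submodule.smul_mem_smul m₂ (hN a₁))) (Submodule.smul_mem_smul m₃ (hN u))
  obtain ⟨r, hr, hr0⟩ := Submodule.exists_sub_one_mem_and_smul_eq_zero_of_fg_of_le_smul I N
    (Submodule.fg_span (G.finite_toSet.image _)) hle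
  refine AlgHom.ext fun a => ?_
  have h := hr0 _ (hN a)
  rw [Algebra.smul_def, mul_eq_zero] at h
  exact (sub_eq_zero.1 (h.resolve_left (hI r hr))).symm

theorem sUnr (K : Type) [Field K] [IsAlgClosed K] : SUnr K := by
  intro A Ω _ _ _ _ _ ι τ β s hft hs hτ hC
  let : Algebra (MvPolynomial (A ⊕ A) K) Ω := (aeval (R := K) (Sum.elim ι τ)).toRingHom.toAlgebra
  have e : ∀ r : MvPolynomial (A ⊕ A) K, algebraMap _ Ω r = aeval (Sum.elim ι τ) r := fun _ => rfl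
  have h0 : β (s - algebraMap K A (β s)) = 0 := by simp
  refine unr_aux (R := MvPolynomial (A ⊕ A) K) ι τ β
    (RingHom.ker (aeval (R := K) (Sum.elim (pt Ω β) (pt Ω β)))) (fun r hr h => ?_)
    (fun c => ⟨C c, by rw [e, aeval_C]⟩) (fun a ha => ⟨X (Sum.inl a), ?_, by rw [e, aeval_X]; rfl⟩)
    (fun a ha => ⟨X (Sum.inr a), ?_, by rw [e, aeval_X]; rfl⟩) _ h0 ?_
    (unr_loc β _ h0 hs) hft
  · rw [RingHom.mem_ker, map_sub, map_one, hC r h] at hr
    simp at hr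
  · rw [RingHom.mem_ker, aeval_X]
    simp [pt, ha]
  · rw [RingHom.mem_ker, aeval_X]
    simp [pt, ha]
  · rw [map_sub, map_sub, hτ, AlgHom.commutes, AlgHom.commutes]

end Pool.Agent.MP_a9d3bd_y
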