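import Pool.Agent.MP_a9d3bd_y.St

/-! No inertia at a generic point. -/

namespace Pool.Agent.MP_a9d3bd_y

open MvPolynomial Pool.Agent.MP_a9d3bd_h Pool.Agent.MP_a9d3bd_q Pool.Agent.MP_a9d3bd_g

open Polynomial in
theorem unr0_int {K A : Type} [Field K] [CommRing A] [Algebra K A] (s : A) (h : It K ![s]) :
    ((Polynomial.aeval s : K[X] →ₐ[K] A) : K[X] →+* A).IsIntegral := by
  have hm : ∀ p : K[X], Polynomial.aeval s p ∈ Algebra.adjoin K (Set.range ![s]) := by
    intro p
    have : Set.range ![s] = {s} := by simp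
    rw [this]
    exact Polynomial.aeval_mem_adjoin_singleton K s
  let φ : K[X] →+* Algebra.adjoin K (Set.range ![s]) :=
    ((Polynomial.aeval s : K[X] →ₐ[K] A) : K[X] →+* A).codRestrict _ hm
  have hφ : Function.Surjective φ := by
    rintro ⟨y, hy⟩
    have e : Set.range ![s] = {s} := by simp
    have hy' := hy
    rw [e, Algebra.adjoin_singleton_eq_range_aeval] at hy'
    obtain ⟨p, hp⟩ := hy'
    exact ⟨p, Subtype.ext hp⟩
  exact RingHom.IsIntegral.trans φ (algebraMap (Algebra.adjoin K (Set.range ![s])) A)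
    (φ.isIntegral_of_surjective hφ) h

open Polynomial in
theorem sUnr0 (K : Type) [Field K] [IsAlgClosed K] : SUnr0 K := by
  intro A Ω _ _ _ _ ι τ ξ s hit htr hs hc
  ext a
  by_contra hne
  let _ : Algebra K[X] Ω := ((Polynomial.aeval (ι s) : K[X] →ₐ[K] Ω) : K[X] →+* Ω).toAlgebra
  have hi : ∀ σ : A →ₐ[K] Ω, σ s = ι s → IsIntegral K[X] (σ a) := by
    intro σ hσ
    have h1 := (unr0_int s hit a).map (σ : A →+* Ω)
    have h2 : (σ : A →+* Ω).comp ((Polynomial.aeval s : K[X] →ₐ[K] A) : K[X] →+* A) =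
        algebraMap K[X] Ω := by
      refine RingHom.ext fun p => ?_
      show σ (Polynomial.aeval s p) = Polynomial.aeval (ι s) p
      rw [← Polynomial.aeval_algHom_apply, hσ]
    rw [h2] at h1
    exact h1
  have hd : IsAlgebraic K[X] (ι a - τ a) := ((hi ι rfl).sub (hi τ hs)).isAlgebraic
  obtain ⟨q, hq0, hq⟩ := hd.exists_nonzero_coeff_and_aeval_eq_zero
    (mem_nonZeroDivisors_of_ne_zero (sub_ne_zero.2 (Ne.symm hne)))
  have key : ∀ u v : A →ₐ[K] Ω, MvPolynomial.aeval (Sum.elim u v)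
      (q.eval₂ ((Polynomial.aeval (MvPolynomial.X (Sum.inl s)) :
        K[X] →ₐ[K] MvPolynomial (A ⊕ A) K) : K[X] →+* MvPolynomial (A ⊕ A) K)
        (MvPolynomial.X (Sum.inl a) - MvPolynomial.X (Sum.inr a))) =
      q.eval₂ ((Polynomial.aeval (u s) : K[X] →ₐ[K] Ω) : K[X] →+* Ω) (u a - v a) := by
    intro u v
    have h := Polynomial.hom_eval₂ q ((Polynomial.aeval (MvPolynomial.X (Sum.inl s)) :
        K[X] →ₐ[K] MvPolynomial (A ⊕ A) K) : K[X] →+* MvPolynomial (A ⊕ A) K)
      ((MvPolynomial.aeval (Sum.elim u v) : MvPolynomial (A ⊕ A) K →ₐ[K] Ω) :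
        MvPolynomial (A ⊕ A) K →+* Ω) (MvPolynomial.X (Sum.inl a) - MvPolynomial.X (Sum.inr a))
    refine h.trans ?_
    congr 1
    · refine RingHom.ext fun p => ?_
      show MvPolynomial.aeval (Sum.elim u v) (Polynomial.aeval (MvPolynomial.X (Sum.inl s)) p) =
        Polynomial.aeval (u s) p
      rw [← Polynomial.aeval_algHom_apply]
      simp
    · simp
  have h0 := hc _ ((key ι τ).trans hq)
  rw [key ξ ξ, sub_self, Polynomial.eval₂_at_zero] at h0
  exact htr ⟨_, hq0, h0⟩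

end Pool.Agent.MP_a9d3bd_y
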