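import Pool.Agent.MP_a9d3bd_y.One
import Pool.Agent.MP_a9d3bd_y.All
import Pool.Agent.MP_a9d3bd_y.Bnd
import Pool.Agent.MP_a9d3bd_y.Bval
import Pool.Agent.MP_a9d3bd_y.Cho
import Pool.Agent.MP_a9d3bd_y.Cmp
import Pool.Agent.MP_a9d3bd_y.Cond
import Pool.Agent.MP_a9d3bd_y.Dd
import Pool.Agent.MP_a9d3bd_y.Disc
import Pool.Agent.MP_a9d3bd_y.Dvc
import Pool.Agent.MP_a9d3bd_y.Eta
import Pool.Agent.MP_a9d3bd_y.Fib
import Pool.Agent.MP_a9d3bd_y.Gj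
import Pool.Agent.MP_a9d3bd_y.Gp
import Pool.Agent.MP_a9d3bd_y.Hh
import Pool.Agent.MP_a9d3bd_y.Hh1
import Pool.Agent.MP_a9d3bd_y.It
import Pool.Agent.MP_a9d3bd_y.Mdl
import Pool.Agent.MP_a9d3bd_y.Min
import Pool.Agent.MP_a9d3bd_y.Pos
import Pool.Agent.MP_a9d3bd_y.Prim
import Pool.Agent.MP_a9d3bd_y.Ptz
import Pool.Agent.MP_a9d3bd_y.Sel
import Pool.Agent.MP_a9d3bd_y.Sim
import Pool.Agent.MP_a9d3bd_y.Spi
import Pool.Agent.MP_a9d3bd_y.Top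
import Pool.Agent.MP_a9d3bd_y.Two
import Pool.Agent.MP_a9d3bd_y.Uni
import Pool.Agent.MP_a9d3bd_y.Unr
import Pool.Agent.MP_a9d3bd_y.Unr0
import Pool.Agent.MP_a9d3bd_yy.Fin0

/-! The statement for sections follows from the theorem on the model. -/

namespace Pool.Agent.MP_a9d3bd_y

open Pool.Agent.MP_a9d3bd_yy (sCtr sPl sDv)

theorem sC_of (K : Type) [Field K] [IsAlgClosed K]
    (halg : ∀ c : K, c ≠ 0 → ∃ n, 0 < n ∧ c ^ n = 1) (hc : SCore K) : MP_a9d3bd_yy.SC K := by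
  intro P d hd hP h0 Λ hΛ
  have a1 := sHh1 K (sIt K) (sBnd K) (sBval K) (sSpi K) (sDisc K)
  have a2 := sPrim K (sSpi K)
  exact sAll K (sCmp K) (sDisc K) P Λ (sTop K P d hd hP h0).1 (sOne halg
    (sCho K (sSel K (sBnd K) (sSpi K)) (sFib K) (sEta K) (sDisc K) (sIt K)) a1
    (sHh K a1 (sTwo K) (sMin K) a2 (sSim K) (sUnr K) (sUnr0 K) (sDd K))
    (sMdl K a1 (sIt K) (sBval K) (sTop K)) (sGj K a1 (sMin K) a2 (sSim K) (sUnr K) (sCon K))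
    (sGp K a1 (sPtz K) (sDisc K)) (sUni K) (sPos K)
    (sDvc K (sPl sCtr) (sDv (sPl sCtr) sCtr) sCtr) (sCon K) hc hd hP h0 hΛ)

theorem root_of (p : ℕ) [hp : Fact p.Prime] {K : Type} [Field K]
    (halg : ∀ a : K, ∃ n, 0 < n ∧ a ^ p ^ n = a) (c : K) (hc : c ≠ 0) :
    ∃ n, 0 < n ∧ c ^ n = 1 := by
  obtain ⟨n, hn, e⟩ := halg c
  have h1 : 1 < p ^ n := Nat.one_lt_pow hn.ne' hp.out.one_lt
  refine ⟨p ^ n - 1, by omega, mul_right_cancel₀ hc ?_⟩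
  rw [← pow_succ, Nat.sub_add_cancel h1.le, e, one_mul]

/-- The geometric front follows from the theorem on the model. -/
theorem coreK_of_core (h : ∀ (p : ℕ) [Fact p.Prime] (K : Type) [Field K] [IsAlgClosed K]
    [CharP K p], (∀ a : K, ∃ n, 0 < n ∧ a ^ p ^ n = a) → SCore K) : MP_a9d3bd_x.CoreK :=
  MP_a9d3bd_yy.coreK_of fun p _ K _ _ _ halg => sC_of K (root_of p halg) (h p K halg)

end Pool.Agent.MP_a9d3bd_y
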