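import Pool.Agent.MP_a9d3bd_y.Defs

/-! The steps of the construction of the model. -/

namespace Pool.Agent.MP_a9d3bd_y

open MvPolynomial Pool.Agent.MP_a9d3bd_h Pool.Agent.MP_a9d3bd_q Pool.Agent.MP_a9d3bd_g
open Pool.Agent.MP_a9d3bd_yy (xA xL Dvs Pl fib aff Gal)
open Pool.Agent.MP_a9d3bd_x (LF GF)

variable (K : Type) [Field K]

/-- valuative bound gives an equation -/
def SBnd : Prop := ∀ (E σ : Type) [Field E] [Algebra K E] [Fintype σ] (v : σ → E) (b : E),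
  (∀ V : ValuationSubring E, (∀ c : K, algebraMap K E c ∈ V) → ∀ γ, 1 ≤ γ →
    (∀ k, V.valuation (v k) ≤ γ) → V.valuation b ≤ γ) → Bnd K v b

/-- an equation gives a valuative bound and integrality -/
def SBval : Prop := ∀ (B σ : Type) [CommRing B] [Algebra K B] [Fintype σ] (v : σ → B) (b : B),
  Bnd K v b → IsIntegral (Algebra.adjoin K (Set.range v)) b ∧
  ∀ (E : Type) [Field E] [Algebra K E] (j : B →ₐ[K] E) (V : ValuationSubring E),
    (∀ c : K, algebraMap K E c ∈ V) → ∀ γ, 1 ≤ γ → (∀ k, V.valuation (j (v k)) ≤ γ) →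
    V.valuation (j b) ≤ γ

/-- the minimal equation -/
def SMin : Prop := ∀ (B σ : Type) [CommRing B] [IsDomain B] [Algebra K B] [Fintype σ] (v : σ → B)
  (b : B), AlgebraicIndependent K v → Bnd K v b → ∃ H, Mp v b (K := K) H

/-- simple roots and separable elements -/
def SSpi : Prop := ∀ (E σ : Type) [Field E] [Algebra K E] [Fintype σ] (v : σ → E) (b : E),
  Sp K v b ↔ IsSeparable (IntermediateField.adjoin K (Set.range v)) b

/-- a point that is determined by its value is a simple root -/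
def SSim : Prop := ∀ (B σ Ω : Type) [CommRing B] [IsDomain B] [Algebra K B] [Fintype σ] [Field Ω]
  [IsAlgClosed Ω] [Algebra K Ω] (ι ξ : B →ₐ[K] Ω) (v : σ → B) (b : B)
  (H : MvPolynomial (Option σ) K), Function.Injective ι → AlgebraicIndependent K v → It K v →
  Mp v b H → aeval (oe b v) (pderiv none H) ≠ 0 →
  (∀ τ ξ' : B →ₐ[K] Ω, (∀ k, τ (v k) = ι (v k)) → (∀ k, ξ' (v k) = ξ (v k)) → τ b ≠ ι b →
    Cmp ι τ ξ ξ' → ξ' b ≠ ξ b) → ξ (aeval (oe b v) (pderiv none H)) ≠ 0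

/-- primitive elements -/
def SPrim : Prop := ∀ (B σ Ω : Type) [CommRing B] [IsDomain B] [Algebra K B] [Fintype σ] [Field Ω]
  [IsAlgClosed Ω] [Algebra K Ω] (ι : B →ₐ[K] Ω) (v : σ → B) (b : B)
  (H : MvPolynomial (Option σ) K), Algebra.FiniteType K B → Function.Injective ι →
  AlgebraicIndependent K v → Mp v b H → (∀ a : B, Sp K v a) →
  (∀ τ : B →ₐ[K] Ω, (∀ k, τ (v k) = ι (v k)) → τ b = ι b → τ = ι) →
  aeval (oe b v) (pderiv none H) ≠ 0 ∧ Bir K (oe b v)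

/-- the conductor contains the derivative -/
def SCon : Prop := ∀ (B σ : Type) [CommRing B] [IsDomain B] [Algebra K B] [Fintype σ] (v : σ → B)
  (b : B) (H : MvPolynomial (Option σ) K), AlgebraicIndependent K v → It K v → Mp v b H →
  Bir K (oe b v) → ∀ a : B, ∃ G : MvPolynomial (Option σ) K,
    aeval (oe b v) G = aeval (oe b v) (pderiv none H) * a

/-- no inertia at an unramified point -/
def SUnr : Prop := ∀ (A Ω : Type) [CommRing A] [IsDedekindDomain A] [Algebra K A] [Field Ω]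
  [Algebra K Ω] (ι τ : A →ₐ[K] Ω) (β : A →ₐ[K] K) (s : A), Algebra.FiniteType K A →
  s - algebraMap K A (β s) ∉ RingHom.ker β ^ 2 → τ s = ι s → Cmp ι τ (pt Ω β) (pt Ω β) → τ = ι

/-- no inertia at a generic point -/
def SUnr0 : Prop := ∀ (A Ω : Type) [CommRing A] [Algebra K A] [Field Ω] [Algebra K Ω]
  (ι τ ξ : A →ₐ[K] Ω) (s : A), It K ![s] → Transcendental K (ξ s) → τ s = ι s → Cmp ι τ ξ ξ →
  τ = ι

/-- two roots that come together give a double root -/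
def SDd : Prop := ∀ (B Ω : Type) [CommRing B] [Algebra K B] [Field Ω] [Algebra K Ω]
  (ι τ ξ : B →ₐ[K] Ω) (P : R3 K) (x Θ T : B), aeval ![x, Θ, T] P = 0 → τ x = ι x → τ T = ι T →
  τ Θ ≠ ι Θ → Cmp ι τ ξ ξ → aeval ![ξ x, ξ Θ, ξ T] (pderiv 1 P) = 0

/-- finite fibres -/
def SFib : Prop := ∀ (B σ Ω : Type) [CommRing B] [Algebra K B] [Field Ω] [Algebra K Ω]
  (v : σ → B) (ω : σ → Ω), Algebra.FiniteType K B → It K v →
  {τ : B →ₐ[K] Ω | ∀ k, τ (v k) = ω k}.Finite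

/-- a separating element -/
def SEta : Prop := ∀ (A Ω : Type) [CommRing A] [Algebra K A] [Field Ω] [Algebra K Ω]
  (S : Set (A →ₐ[K] Ω)) (G : Finset A), Infinite K → S.Finite →
  Algebra.adjoin K (G : Set A) = ⊤ →
  ∃ η ∈ Submodule.span K (G : Set A), ∀ τ ∈ S, ∀ τ' ∈ S, τ η = τ' η → τ = τ'

/-- the discriminant -/
def SDisc : Prop := ∀ P : R3 K, Top P → ∃ δ : MvPolynomial (Fin 2) K,
  ∀ (E : Type) [Field E] [Algebra K E] (x w : E), ((fE P x w).Separable ↔ aeval ![x, w] δ ≠ 0) ∧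
    ∀ t : E, (fE P x w).eval t = aeval ![x, t, w] P ∧
      (fE P x w).derivative.eval t = aeval ![x, t, w] (pderiv 1 P)

/-- the affine equation -/
def STop : Prop := ∀ (P : MvPolynomial (Fin 4) K) (d : ℕ), 0 < d → P.IsHomogeneous d →
  eval ![0, 0, 1, 0] P ≠ 0 → Top (aff P) ∧
  ∀ (E : Type) [CommRing E] [Algebra K E] (x t w : E),
    aeval ![x, t, w] (aff P) = aeval ![1, x, t, w] P

/-- the coordinate `s` -/
def SSel : Prop := ∀ (A : Type) [CommRing A] [IsDedekindDomain A] [Algebra K A]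
  [Algebra (Polynomial K) A] [IsScalarTower K (Polynomial K) A] [Module.Finite (Polynomial K) A]
  [Module.IsTorsionFree (Polynomial K) A], Gal K A → ∀ (S : Finset (A →ₐ[K] K)) (G : Finset A),
  ∃ s : A, It K ![s] ∧ (∀ a ∈ Submodule.span K (G : Set A), Bnd K ![s] a) ∧
    (∀ a : A, Sp K ![s] a) ∧ ∀ β ∈ S, s - algebraMap K A (β s) ∉ RingHom.ker β ^ 2

/-- the components of the surface over `A` -/
def SCmp : Prop := ∀ (A : Type) [CommRing A] [IsDedekindDomain A] [Algebra K A]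
  [Algebra (Polynomial K) A] (P : R3 K), Top P →
  ∃ (C : Type) (B : C → Type) (_ : ∀ k, CommRing (B k)) (_ : ∀ k, IsDomain (B k))
    (_ : ∀ k, Algebra K (B k)) (i : ∀ k, A →ₐ[K] B k) (T Θ : ∀ k, B k),
    (∀ k, Sf P (i k) (T k) (Θ k)) ∧
    (∀ t w : A, aeval ![xA K A, t, w] P = 0 →
      ∃ (k : C) (φ : B k →ₐ[K] A), (∀ a, φ (i k a) = a) ∧ φ (Θ k) = t ∧ φ (T k) = w) ∧
    ∀ (k k' : C) (ξ : B k →ₐ[K] K) (ξ' : B k' →ₐ[K] K), ξ.comp (i k) = ξ'.comp (i k') →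
      ξ (Θ k) = ξ' (Θ k') → ξ (T k) = ξ' (T k') →
      eval ![ξ (i k (xA K A)), ξ (Θ k), ξ (T k)] (pderiv 1 P) ≠ 0 → k = k'

/-- The standing hypotheses. -/
structure Hy (P : R3 K) {A B J : Type} [CommRing A] [IsDomain A] [Algebra K A]
    [Algebra (Polynomial K) A] [CommRing B] [Algebra K B] (i : A →ₐ[K] B) (T Θ : B)
    (φ : J → B →ₐ[K] A) (ν : J → (A →ₐ[K] K) →₀ ℤ) : Prop where
  top : Top P
  gal : Gal K A
  ff : FF K (FractionRing A) 1
  sf : Sf P i T Θ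
  sec : ∀ j a, φ j (i a) = a
  gen : ∃ x0 w0 : K, (fib P x0 w0).Separable
  adm : ∀ j, ∃ β : A →ₐ[K] K, (fib P (β (xA K A)) (β (φ j T))).Separable
  sep : ∀ j, ∀ β ∈ (ν j).support, (fib P (β (xA K A)) (β (φ j T))).Separable

section
variable (A B J Ω : Type) [CommRing A] [IsDedekindDomain A] [Algebra K A]
  [Algebra (Polynomial K) A] [IsScalarTower K (Polynomial K) A] [Module.Finite (Polynomial K) A]
  [Module.IsTorsionFree (Polynomial K) A] [CommRing B] [IsDomain B] [Algebra K B] [Fintype J]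
  [Field Ω] [IsAlgClosed Ω] [Algebra K Ω]

/-- integrality over the plane -/
def It' : Prop := ∀ (P : R3 K) (i : A →ₐ[K] B) (T Θ : B) (s η : A) (c₁ : K), Top P →
  Sf P i T Θ → It K ![s] → Algebra.FiniteType K A ∧ Algebra.FiniteType K B ∧
  Function.Injective i ∧ Transcendental K (xA K A) ∧ Transcendental K s ∧
  AlgebraicIndependent K ![i s, T + c₁ • i η] ∧ AlgebraicIndependent K ![i (xA K A), T] ∧
  It K ![i s, T + c₁ • i η]

/-- the choice of the coordinates -/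
def Cho' : Prop := ∀ (P : R3 K) (i : A →ₐ[K] B) (T Θ : B) (φ : J → B →ₐ[K] A)
  (ν : J → (A →ₐ[K] K) →₀ ℤ) (ι : B →ₐ[K] Ω), Hy K P i T Θ φ ν → Function.Injective ι →
  ∃ s η c₁ c z, Cho P i T Θ φ ν ι s η c₁ c z

/-- first properties of the coordinates -/
def Hh1' : Prop := ∀ (P : R3 K) (i : A →ₐ[K] B) (T Θ : B) (φ : J → B →ₐ[K] A)
  (ν : J → (A →ₐ[K] K) →₀ ℤ) (ι : B →ₐ[K] Ω) (s η : A) (c₁ c : K) (z : Fin 3 → B),
  Hy K P i T Θ φ ν → Function.Injective ι → Cho P i T Θ φ ν ι s η c₁ c z →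
  Algebra.FiniteType K A ∧ Algebra.FiniteType K B ∧ Function.Injective i ∧ Transcendental K s ∧
  AlgebraicIndependent K ![z 0, z 1] ∧ It K ![z 0, z 1] ∧ It K z ∧ Bnd K ![z 0, z 1] (z 2) ∧
  ∀ b : B, Sp K ![z 0, z 1] b

/-- the degree is at least two -/
def Two' : Prop := ∀ (i : A →ₐ[K] B) (s : A) (t θ : B) (H : MvPolynomial (Option (Fin 2)) K),
  Function.Injective i → It K ![s] → Bnd K ![s] (xA K A ^ 2) →
  AlgebraicIndependent K ![i s, t] → Mp ![i s, t] θ H → Bir K (oe θ ![i s, t]) →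
  2 ≤ H.totalDegree

/-- the equation of the model -/
def Hh' : Prop := ∀ (P : R3 K) (i : A →ₐ[K] B) (T Θ : B) (φ : J → B →ₐ[K] A)
  (ν : J → (A →ₐ[K] K) →₀ ℤ) (ι : B →ₐ[K] Ω) (s η : A) (c₁ c : K) (z : Fin 3 → B),
  Hy K P i T Θ φ ν → Function.Injective ι → Cho P i T Θ φ ν ι s η c₁ c z →
  ∃ (H : R3 K) (W : Pr K (Fin 3)), Srf H W ∧ (∀ G, G ∈ W.asIdeal ↔ aeval z G = 0) ∧ Bir K z ∧
    ∀ ξ : B →ₐ[K] Ω, Base i φ ν ι z ξ →
      aeval ![ξ (i (xA K A)), ξ Θ, ξ T] (pderiv 1 P) ≠ 0 →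
      (Transcendental K (ξ (z 0)) ∨ ∃ j, ∃ β ∈ (ν j).support, ξ.comp i = pt Ω β) →
      ξ (aeval z (pderiv 2 H)) ≠ 0

/-- the plane equation of a section -/
def Gj' : Prop := ∀ (P : R3 K) (i : A →ₐ[K] B) (T Θ : B) (φ : J → B →ₐ[K] A)
  (ν : J → (A →ₐ[K] K) →₀ ℤ) (ι : B →ₐ[K] Ω) (s η : A) (c₁ c : K) (z : Fin 3 → B),
  Hy K P i T Θ φ ν → Function.Injective ι → Cho P i T Θ φ ν ι s η c₁ c z →
  ∀ j, ∃ g : R3 K, Gq (fun k => φ j (z k)) g ∧
    ∀ β ∈ (ν j).support, β (aeval (fun k => φ j (z k)) (pderiv 1 g)) ≠ 0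

/-- the generic point of a curve over the plane curve -/
def Ptz' : Prop := ∀ (i : A →ₐ[K] B) (ι : B →ₐ[K] Ω) (z : Fin 3 → B) (ζ : Fin 3 → A)
  (H g : R3 K) (W Z : Pr K (Fin 3)), Function.Injective (ι.comp i) → Srf H W →
  (∀ G, G ∈ W.asIdeal ↔ aeval z G = 0) → It K z → Gq ζ g → H ∈ Z.asIdeal → g ∈ Z.asIdeal →
  dim Z = 1 → ∃ ξ : B →ₐ[K] Ω, ξ (z 0) = ι (i (ζ 0)) ∧ ξ (z 1) = ι (i (ζ 1)) ∧
    ∀ G, G ∈ Z.asIdeal ↔ ξ (aeval z G) = 0

/-- the curves over the plane curve are unramified -/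
def Gp' : Prop := ∀ (P : R3 K) (i : A →ₐ[K] B) (T Θ : B) (φ : J → B →ₐ[K] A)
  (ν : J → (A →ₐ[K] K) →₀ ℤ) (ι : B →ₐ[K] Ω) (s η : A) (c₁ c : K) (z : Fin 3 → B) (H g : R3 K)
  (W : Pr K (Fin 3)) (j : J), Hy K P i T Θ φ ν → Function.Injective ι →
  Cho P i T Θ φ ν ι s η c₁ c z → Srf H W → (∀ G, G ∈ W.asIdeal ↔ aeval z G = 0) →
  (∀ ξ : B →ₐ[K] Ω, Base i φ ν ι z ξ →
      aeval ![ξ (i (xA K A)), ξ Θ, ξ T] (pderiv 1 P) ≠ 0 →
      (Transcendental K (ξ (z 0)) ∨ ∃ j, ∃ β ∈ (ν j).support, ξ.comp i = pt Ω β) →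
      ξ (aeval z (pderiv 2 H)) ≠ 0) → Gq (fun k => φ j (z k)) g →
  Gp H g ∧ aeval (fun k => φ j (z k)) (pderiv 2 H) ≠ 0 ∧
    ∀ β ∈ (ν j).support, β (aeval (fun k => φ j (z k)) (pderiv 2 H)) ≠ 0

/-- the model -/
def Mdl' : Prop := ∀ (P : MvPolynomial (Fin 4) K) (d : ℕ) (i : A →ₐ[K] B) (T Θ : B)
  (φ : J → B →ₐ[K] A) (ν : J → (A →ₐ[K] K) →₀ ℤ) (ι : B →ₐ[K] Ω) (s η : A) (c₁ c : K)
  (z : Fin 3 → B) (H : R3 K) (W : Pr K (Fin 3)), 0 < d → P.IsHomogeneous d →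
  eval ![0, 0, 1, 0] P ≠ 0 → Hy K (aff P) i T Θ φ ν → Function.Injective ι →
  Cho (aff P) i T Θ φ ν ι s η c₁ c z → Srf H W → (∀ G, G ∈ W.asIdeal ↔ aeval z G = 0) →
  Bir K z → Mdl P (fun k => algebraMap B (FractionRing B) (![1, i (xA K A), Θ, T] k))
    (fun k => algebraMap B (FractionRing B) (z k)) H W

/-- a power of the function is a quotient of functions that are one modulo `γ` -/
def Uni' : Prop := (∀ a : K, a ≠ 0 → ∃ n, 0 < n ∧ a ^ n = 1) → ∀ (u : FractionRing A)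
  (ν : (A →ₐ[K] K) →₀ ℤ) (γ : A), FF K (FractionRing A) 1 → Dvs K u ν → γ ≠ 0 →
  (∀ β ∈ ν.support, β γ ≠ 0) → ∃ (N : ℕ) (a b : A), 0 < N ∧
    algebraMap A _ a = u ^ N * algebraMap A _ b ∧ γ ∣ a - 1 ∧ γ ∣ b - 1 ∧ b ≠ 0

/-- the multiplicities on a section -/
def Dvc' : Prop := ∀ (u : FractionRing A) (ν : (A →ₐ[K] K) →₀ ℤ) (ζ : Fin 3 → A) (F G : R3 K)
  (N : ℕ), FF K (FractionRing A) 1 → Dvs K u ν → It K ζ → Bir K ζ → aeval ζ G ≠ 0 →
  algebraMap A (FractionRing A) (aeval ζ F) = u ^ N * algebraMap A _ (aeval ζ G) →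
  ∀ x : Fin 3 → K, dvc F (ak K fun k => algebraMap A (FractionRing A) (ζ k)) (ak K x) -
      dvc G (ak K fun k => algebraMap A (FractionRing A) (ζ k)) (ak K x) =
    N * ν.sum fun β n => (open Classical in if (fun k => β (ζ k)) = x then (n : ℚ) else 0)

/-- general position of a section -/
def Pos' : Prop := ∀ (u : FractionRing A) (ν : (A →ₐ[K] K) →₀ ℤ) (ζ : Fin 3 → A)
  (H g : R3 K) (N : ℕ) (a b : A), FF K (FractionRing A) 1 → Dvs K u ν → It K ζ →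
  aeval ζ H = 0 → Gq ζ g → Gp H g → algebraMap A _ a = u ^ N * algebraMap A _ b →
  aeval ζ (pderiv 1 g * pderiv 2 H) ∣ a - 1 → aeval ζ (pderiv 1 g * pderiv 2 H) ∣ b - 1 → b ≠ 0 →
  Bir K ζ ∧ af K (fun k => algebraMap A (FractionRing A) (ζ k)) = ⊤ ∧
  ∃ F G : R3 K, aeval ζ F = a ∧ aeval ζ G = b ∧
    MP_a9d3bd_g.Pos H (ak K fun k => algebraMap A (FractionRing A) (ζ k)) F G g

end

/-- Quantification over the rings. -/
def All (p : ∀ (A B J Ω : Type) [CommRing A] [IsDedekindDomain A] [Algebra K A]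
    [Algebra (Polynomial K) A] [IsScalarTower K (Polynomial K) A] [Module.Finite (Polynomial K) A]
    [Module.IsTorsionFree (Polynomial K) A] [CommRing B] [IsDomain B] [Algebra K B] [Fintype J]
    [Field Ω] [IsAlgClosed Ω] [Algebra K Ω], Prop) : Prop :=
  ∀ (A B J Ω : Type) [CommRing A] [IsDedekindDomain A] [Algebra K A]
    [Algebra (Polynomial K) A] [IsScalarTower K (Polynomial K) A] [Module.Finite (Polynomial K) A]
    [Module.IsTorsionFree (Polynomial K) A] [CommRing B] [IsDomain B] [Algebra K B] [Fintype J]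
    [Field Ω] [IsAlgClosed Ω] [Algebra K Ω], p A B J Ω

def SIt : Prop := All K fun A B _ _ => It' K A B
def SGp : Prop := All K fun A B J Ω => Gp' K A B J Ω
def SCho : Prop := All K fun A B J Ω => Cho' K A B J Ω
def SHh1 : Prop := All K fun A B J Ω => Hh1' K A B J Ω
def STwo : Prop := All K fun A B _ _ => Two' K A B
def SHh : Prop := All K fun A B J Ω => Hh' K A B J Ω
def SGj : Prop := All K fun A B J Ω => Gj' K A B J Ω
def SPtz : Prop := All K fun A B _ Ω => Ptz' K A B Ω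
def SMdl : Prop := All K fun A B J Ω => Mdl' K A B J Ω
def SUni : Prop := All K fun A _ _ _ => Uni' K A
def SDvc : Prop := All K fun A _ _ _ => Dvc' K A
def SPos : Prop := All K fun A _ _ _ => Pos' K A

/-- the local ring of the surface along a curve outside the singular locus -/
def SLoc : Prop := ∀ (F : Type) [Field F] [Algebra K F] (z : Fin 3 → F) (H : R3 K)
  (W Z : Pr K (Fin 3)), FF K F 2 → af K z = ⊤ → Srf H W → ak K z = W → Cv H Z →
  ∃ O : DV K F, (∀ O' : DV K F, (O'.Int z ∧ ak K (O'.ra z) = Z) ↔ O' = O) ∧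
    (∀ u ∈ O.O, ∃ a b : R3 K, b ∉ Z.asIdeal ∧ aeval z a = u * aeval z b) ∧
    ∀ f : R3 K, f ∉ W.asIdeal → (O.ord (aeval z f) : ℚ) = dvc f W Z

/-- the axioms of the functional on the model -/
def SAx : Prop := (∀ a : K, a ≠ 0 → ∃ n, 0 < n ∧ a ^ n = 1) →
  ∀ (P : MvPolynomial (Fin 4) K) (d : ℕ) (Λ : LF K (Fin 4)) (F : Type) [Field F] [Algebra K F]
    (y : Fin 4 → F) (z : Fin 3 → F) (H : R3 K) (W : Pr K (Fin 3)), P.IsHomogeneous d →
    GF {P} Λ → Mdl P y z H W → Ax H W (lamOf Λ y z)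

/-- the functional on a section -/
def SSec : Prop := ∀ (P : MvPolynomial (Fin 4) K) (Λ : LF K (Fin 4)) (F L : Type) [Field F]
  [Algebra K F] [Field L] [Algebra K L] (y : Fin 4 → F) (z : Fin 3 → F) (H : R3 K)
  (W : Pr K (Fin 3)) (υ : Fin 4 → L) (ζ : Fin 3 → L), GF {P} Λ → Mdl P y z H W → FF K L 1 →
  (∀ G : MvPolynomial (Fin 3 ⊕ Fin 4) K, aeval (Sum.elim z y) G = 0 →
    aeval (Sum.elim ζ υ) G = 0) → af K ζ = ⊤ → aeval ζ (pderiv 2 H) ≠ 0 →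
  ∀ f : R3 K, lamOf Λ y z (ak K ζ) f = (Λ L υ (aeval ζ f) : ℚ)

/-- the theorem on the model -/
def SCore : Prop := ∀ (H : R3 K) (W : Pr K (Fin 3)) (lam : Pr K (Fin 3) → R3 K → ℝ), Srf H W →
  Ax H W lam → ∀ (ι : Type) [Fintype ι] (Z : ι → Pr K (Fin 3)) (F G g : ι → R3 K) (n : ι → ℚ),
  (∀ i, MP_a9d3bd_g.Pos H (Z i) (F i) (G i) (g i)) →
  (∀ x : Fin 3 → K, ∑ i, n i * (dvc (F i) (Z i) (ak K x) - dvc (G i) (Z i) (ak K x)) = 0) →
  ∑ i, (n i : ℝ) * (lam (Z i) (F i) - lam (Z i) (G i)) = 0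

/-- the statement for the sections of one component -/
def One' (P : MvPolynomial (Fin 4) K) (Λ : LF K (Fin 4)) (A B J : Type) [CommRing A] [IsDomain A]
    [Algebra K A] [Algebra (Polynomial K) A] [CommRing B] [Algebra K B] [Fintype J] : Prop :=
  ∀ (i : A →ₐ[K] B) (T Θ : B) (φ : J → B →ₐ[K] A) (u : J → FractionRing A)
    (ν : J → (A →ₐ[K] K) →₀ ℤ) (r : J → ℚ), Hy K (aff P) i T Θ φ ν → (∀ j, Dvs K (u j) (ν j)) →
    (∀ (β : A →ₐ[K] K) (t0 w0 : K), ∑ j, (open Classical in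
      if β (φ j Θ) = t0 ∧ β (φ j T) = w0 then r j * (ν j β : ℚ) else 0) = 0) →
    ∑ j, r j * Λ (FractionRing A)
      ![1, xL K A, algebraMap A _ (φ j Θ), algebraMap A _ (φ j T)] (u j) = 0

def SOne (P : MvPolynomial (Fin 4) K) (Λ : LF K (Fin 4)) : Prop :=
  All K fun A B J _ => One' K P Λ A B J

/-- from the components to all sections -/
def SAll : Prop := ∀ (P : MvPolynomial (Fin 4) K) (Λ : LF K (Fin 4)), Top (aff P) → SOne K P Λ →
  MP_a9d3bd_yy.CoreA (aff P) Λ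

end Pool.Agent.MP_a9d3bd_y
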