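import Pool.Agent.MP_a9d3bd_y.TSt

/-! The choice of the coordinates for sections. -/

namespace Pool.Agent.MP_a9d3bd_y

open MvPolynomial Pool.Agent.MP_a9d3bd_h Pool.Agent.MP_a9d3bd_q Pool.Agent.MP_a9d3bd_g
open Pool.Agent.MP_a9d3bd_yy (xA)

section
variable {K A B : Type} [Field K] [CommRing A] [Algebra K A] [CommRing B] [Algebra K B]

theorem tcho_sec (i : A →ₐ[K] B) (T Θ : B) (φ : B →ₐ[K] A) (h : ∀ a, φ (i a) = a)
    (Q : Polynomial (Polynomial A)) : φ (ev i T Θ Q) = Q.evalEval (φ T) (φ Θ) := by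
  have : (φ : B →+* A).comp (ev i T Θ) = Polynomial.evalEvalRingHom (φ T) (φ Θ) := by
    refine Polynomial.ringHom_ext' (Polynomial.ringHom_ext (fun a => ?_) ?_) ?_ <;> simp [ev, h]
  exact DFunLike.congr_fun this Q

theorem tcho_pt (i : A →ₐ[K] B) (T Θ : B) (ξ : B →ₐ[K] K) (Q : Polynomial (Polynomial A)) :
    ξ (ev i T Θ Q) = Q.eval₂ (Polynomial.eval₂RingHom (ξ.comp i : A →+* K) (ξ T)) (ξ Θ) := by
  have : (ξ : B →+* K).comp (ev i T Θ) =
      Polynomial.eval₂RingHom (Polynomial.eval₂RingHom (ξ.comp i : A →+* K) (ξ T)) (ξ Θ) := by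
    refine Polynomial.ringHom_ext' (Polynomial.ringHom_ext (fun a => ?_) ?_) ?_ <;> simp [ev]
  exact DFunLike.congr_fun this Q

theorem tcho_gen (i : A →ₐ[K] B) (T Θ : B) (h : Function.Surjective (ev i T Θ)) (G : Set A)
    (hG : Algebra.adjoin K G = ⊤) : Algebra.adjoin K (i '' G ∪ {T, Θ}) = ⊤ := by
  have hi : ∀ a, i a ∈ Algebra.adjoin K (i '' G ∪ {T, Θ}) := fun a => by
    refine Algebra.adjoin_mono Set.subset_union_left ?_
    rw [← AlgHom.map_adjoin, hG]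
    exact ⟨a, trivial, rfl⟩
  have hT : T ∈ Algebra.adjoin K (i '' G ∪ {T, Θ}) := Algebra.subset_adjoin (by simp)
  have hΘ : Θ ∈ Algebra.adjoin K (i '' G ∪ {T, Θ}) := Algebra.subset_adjoin (by simp)
  have h1 : ∀ f : Polynomial A,
      f.eval₂ (i : A →+* B) T ∈ Algebra.adjoin K (i '' G ∪ {T, Θ}) := fun f => by
    rw [Polynomial.eval₂_eq_sum, Polynomial.sum_def]
    exact sum_mem fun n _ => mul_mem (hi _) (pow_mem hT n)
  refine top_le_iff.1 fun b _ => ?_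
  obtain ⟨Q, rfl⟩ := h b
  rw [ev, Polynomial.coe_eval₂RingHom, Polynomial.eval₂_eq_sum, Polynomial.sum_def]
  exact sum_mem fun n _ => mul_mem (h1 _) (pow_mem hΘ n)

end

theorem tCho (K : Type) [Field K] [IsAlgClosed K] (h1 : TSel K) (h2 : TDisc) (h3 : TFin K)
    (h4 : SFib K) (h5 : SEta K) (h6 : TAv K) (h7 : TBas K) (h8 : TLeb K) (h9 : TDer K)
    (h10 : TLe K) : TCho K := by
  intro A B J _ _ _ _ _ _ _ _ _ _ _ p hp _ P i T Θ φ ν N hy
  classical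
  obtain ⟨ftA, ftB, inj, itT, hb⟩ := h7 A B J P i T Θ hy.mon hy.sg
  obtain ⟨n, hn⟩ := (h10 B (Fin 2) ![i (xA K A), T] Θ).1 (itT Θ)
  obtain ⟨M, hMn, hM2, hM0⟩ : ∃ M : ℕ, n ≤ M ∧ 2 ≤ M ∧ (M : K) = 0 := by
    refine ⟨p ^ (n + 1), ?_, ?_, ?_⟩
    · exact (Nat.le_succ n).trans (Nat.lt_pow_self hp.out.one_lt).le
    · exact hp.out.two_le.trans (Nat.le_self_pow n.succ_ne_zero p)
    · rw [Nat.cast_pow, CharP.cast_eq_zero, zero_pow n.succ_ne_zero]
  obtain ⟨G0, hG0⟩ := ftA.out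
  let G : Finset A := G0 ∪ {xA K A, xA K A ^ 2, xA K A ^ M, xA K A ^ (N * M)} ∪
    (Finset.univ.image fun j => φ j T) ∪ (Finset.univ.image fun j => φ j T ^ M)
  let S : Finset (A →ₐ[K] K) := Finset.univ.biUnion fun j => (ν j).support
  have hS : ∀ j, ∀ β ∈ (ν j).support, β ∈ S := fun j β hβ =>
    Finset.mem_biUnion.2 ⟨j, Finset.mem_univ _, hβ⟩
  have hG : Algebra.adjoin K (G : Set A) = ⊤ := by
    refine top_le_iff.1 (hG0 ▸ Algebra.adjoin_mono fun a ha => ?_)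
    simp only [G, Finset.coe_union, Set.mem_union]
    exact Or.inl (Or.inl (Or.inl ha))
  obtain ⟨s, e, hit, he, hle, hur⟩ := h1 A hy.sr S G
  obtain ⟨Δ, hΔ⟩ := h2 (Polynomial A) P hy.mon
  have hΔ0 : ∀ j, Δ.eval (φ j T) ≠ 0 := fun j e0 => by
    have h := hy.adm j
    rw [Polynomial.map_map] at h
    refine (hΔ _ _).1 h ?_
    rw [RingHom.comp_apply, Polynomial.coe_evalRingHom, e0, map_zero]
  obtain ⟨s₀, hs₀⟩ := ((h3 A (e * ∏ j, Δ.eval (φ j T))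
    (mul_ne_zero he (Finset.prod_ne_zero_iff.2 fun j _ => hΔ0 j))).image
      fun β => β s).infinite_compl.nonempty
  have hgood : ∀ β : A →ₐ[K] K, β s = s₀ → β e ≠ 0 ∧ ∀ j, β (Δ.eval (φ j T)) ≠ 0 := by
    intro β hβ
    have h : β (e * ∏ j, Δ.eval (φ j T)) ≠ 0 := fun h => hs₀ ⟨β, h, hβ⟩
    rw [map_mul, map_prod, mul_ne_zero_iff, Finset.prod_ne_zero_iff] at h
    exact ⟨h.1, fun j => h.2 j (Finset.mem_univ j)⟩
  have hf1 : ∀ a : K, {τ : A →ₐ[K] K | τ s = a}.Finite := fun a => by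
    refine (h4 A (Fin 1) K ![s] ![a] ftA hit).subset fun τ hτ k => ?_
    fin_cases k
    exact hτ
  let Φ : Set (A →ₐ[K] K) := {τ | τ s = s₀} ∪ ⋃ β ∈ (S : Set (A →ₐ[K] K)), {τ | τ s = β s}
  have hΦ : Φ.Finite := (hf1 _).union (S.finite_toSet.biUnion fun β _ => hf1 _)
  have hΦ1 : ∀ j (β τ : A →ₐ[K] K), (β ∈ (ν j).support ∨ β s = s₀) → τ s = β s → τ ∈ Φ := by
    rintro j β τ (h | h) hτ
    · exact Or.inr (Set.mem_biUnion (hS j β h) hτ)
    · exact Or.inl (hτ.trans h)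
  obtain ⟨η, hη, hsepη⟩ := h5 A K Φ G inferInstance hΦ hG
  let Y : Set (K × K) := (⋃ j, (fun β : A →ₐ[K] K => (β (φ j T), β η)) '' Φ) ∪
    ⋃ β ∈ Φ, (fun t => (t, β η)) '' {t | t ∈ (Δ.map (β : A →+* K)).roots}
  have hY : Y.Finite := (Set.finite_iUnion fun j => hΦ.image _).union
    (hΦ.biUnion fun β _ => (Multiset.finite_toSet _).image _)
  have hY1 : ∀ j, ∀ β ∈ Φ, (β (φ j T), β η) ∈ Y := fun j β hβ =>
    Or.inl (Set.mem_iUnion.2 ⟨j, β, hβ, rfl⟩)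
  obtain ⟨a, c, ha, hac⟩ := h6 Y M hY
  have hz1 : ∀ j, φ j (T ^ M + a • T + c • i η) = φ j T ^ M + a • φ j T + c • η := fun j => by
    rw [map_add, map_add, map_pow, map_smul, map_smul, hy.sec]
  have hz2 : ∀ j (β : A →ₐ[K] K), β (φ j (T ^ M + a • T + c • i η)) =
      β (φ j T) ^ M + a * β (φ j T) + c * β η := fun j β => by
    rw [hz1, map_add, map_add, map_pow, map_smul, map_smul, smul_eq_mul, smul_eq_mul]
  obtain ⟨htr, hind, hitB⟩ := hb s η a c M hit hM2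
  have hf2 : ∀ u v : K,
      {ξ : B →ₐ[K] K | ξ (i s) = u ∧ ξ (T ^ M + a • T + c • i η) = v}.Finite := fun u v => by
    refine (h4 B (Fin 2) K ![i s, T ^ M + a • T + c • i η] ![u, v] ftB hitB).subset
      fun τ hτ k => ?_
    fin_cases k
    · exact hτ.1
    · exact hτ.2
  let Ξ : Set (B →ₐ[K] K) := ⋃ j, ⋃ β ∈ Φ,
    {ξ | ξ (i s) = β s ∧ ξ (T ^ M + a • T + c • i η) = β (φ j (T ^ M + a • T + c • i η))}
  have hΞ : Ξ.Finite := Set.finite_iUnion fun j => hΦ.biUnion fun β _ => hf2 _ _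
  have hc : ((G.image i ∪ {T, Θ} : Finset B) : Set B) = i '' (G : Set A) ∪ {T, Θ} := by
    rw [Finset.coe_union, Finset.coe_image, Finset.coe_pair]
  obtain ⟨θ, hθ, hsepθ⟩ := h5 B K Ξ (G.image i ∪ {T, Θ}) inferInstance hΞ
    (by rw [hc]; exact tcho_gen i T Θ hy.sg.gen _ hG)
  rw [hc] at hθ
  have hG1 : ∀ b ∈ (G : Set A), Le K ![s] b 1 := fun b hb => hle b (Submodule.subset_span hb)
  obtain ⟨hb2, hinf⟩ := h8 A B J i T Θ s η a c M N G θ hM2 (hn M hMn) hG1 (hle η hη)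
    (hG1 _ (by simp [G])) (hG1 _ (by simp [G])) (hG1 _ (by simp [G])) hθ
  refine ⟨s, s₀, ![i s, T ^ M + a • T + c • i η, θ], rfl, hy.sec, ftA, ftB, inj, htr, hit,
    hG1 _ (by simp [G]), hind, hitB, itT, hb2, fun j => ?_, hinf, fun j β hβ => ⟨?_, ?_⟩,
    fun j β ξ h => ?_⟩
  · refine hle _ ?_
    show φ j (T ^ M + a • T + c • i η) ∈ _
    rw [hz1]
    exact add_mem (add_mem (Submodule.subset_span (by simp [G]))
      (Submodule.smul_mem _ _ (Submodule.subset_span (by simp [G])))) (Submodule.smul_mem _ _ hη)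
  · exact hur β (hβ.imp (hS j β) fun h => (hgood β h).1)
  · intro β' e0 e1
    have m := hΦ1 j β β hβ rfl
    have m' := hΦ1 j β β' hβ e0
    have e2 := hac _ (hY1 j β' m') _ (hY1 j β m) ((hz2 j β').symm.trans (e1.trans (hz2 j β)))
    exact hsepη _ m' _ m (congrArg Prod.snd e2)
  have m : β ∈ Φ := hΦ1 j β β (h.imp And.left And.left) rfl
  have e0 : ξ (i s) = β s ∧
      ξ (T ^ M + a • T + c • i η) = β (φ j (T ^ M + a • T + c • i η)) := by
    rcases h with ⟨-, rfl⟩ | ⟨u, v, w⟩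
    · exact ⟨congrArg β (hy.sec j s), rfl⟩
    · exact ⟨v.trans u.symm, w⟩
  refine ⟨?_, fun ξ' e1 => hsepθ _ (Set.mem_iUnion.2 ⟨j, Set.mem_biUnion m
    ⟨(e1 0).trans e0.1, (e1 1).trans e0.2⟩⟩) _ (Set.mem_iUnion.2 ⟨j, Set.mem_biUnion m e0⟩) (e1 2)⟩
  rcases h with ⟨u, rfl⟩ | ⟨u, v, -⟩
  · refine h9 A B P i T Θ s η a c M _ hy.sg hM0 ha ?_ ?_
    · have e2 : (β.comp (φ j)).comp i = β := AlgHom.ext fun x => congrArg β (hy.sec j x)
      rw [e2]
      exact hur β (Or.inl (hS j β u))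
    · rw [AlgHom.comp_apply, tcho_sec i T Θ (φ j) (hy.sec j)]
      exact hy.sep j β u
  have g1 := hgood (ξ.comp i) v
  have m1 : ξ.comp i ∈ Φ := Or.inl v
  refine h9 A B P i T Θ s η a c M ξ hy.sg hM0 ha (hur _ (Or.inr g1.1)) ?_
  have hev : ∀ τ : A →ₐ[K] K,
      (Δ.map (τ : A →+* K)).eval (τ (φ j T)) = τ (Δ.eval (φ j T)) := fun τ => by
    rw [Polynomial.eval_map]
    exact Polynomial.eval₂_at_apply (τ : A →+* K) _
  have hsep := (hΔ K (Polynomial.eval₂RingHom (ξ.comp i : A →+* K) (ξ T))).2 fun e1 => by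
    have n0 : Δ.map (ξ.comp i : A →+* K) ≠ 0 := fun e2 => g1.2 j (by
      rw [← hev, e2, Polynomial.eval_zero])
    have e3 : (Δ.map (ξ.comp i : A →+* K)).eval (ξ T) = 0 := by
      rw [Polynomial.eval_map]
      exact e1
    have y1 : (ξ T, (ξ.comp i) η) ∈ Y :=
      Or.inr (Set.mem_biUnion m1 ⟨ξ T, (Polynomial.mem_roots n0).2 e3, rfl⟩)
    have e4 := hac _ y1 _ (hY1 j β m) (by
      refine Eq.trans ?_ (e0.2.trans (hz2 j β))
      rw [map_add, map_add, map_pow, map_smul, map_smul]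
      rfl)
    have e5 : ξ.comp i = β := hsepη _ m1 _ m (congrArg Prod.snd e4)
    have e6 : ξ T = β (φ j T) := congrArg Prod.fst e4
    rw [e5, e6, hev] at e3
    exact (hgood β u).2 j e3
  have r0 := tcho_pt i T Θ ξ P
  rw [hy.sg.on, map_zero, ← Polynomial.eval_map] at r0
  rw [tcho_pt, ← Polynomial.eval_map, ← Polynomial.derivative_map]
  exact hsep.eval₂_derivative_ne_zero (RingHom.id K) r0.symm

end Pool.Agent.MP_a9d3bd_y
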