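import Pool.Agent.MP_a9d3bd_yy.Defs
import Pool.Agent.MP_a9d3bd_x.GF

/-! Sections of a surface that is a finite cover of the affine line over a curve. -/

namespace Pool.Agent.MP_a9d3bd_y

open Polynomial Pool.Agent.MP_a9d3bd_q
open Pool.Agent.MP_a9d3bd_yy (xA Dvs)
open Pool.Agent.MP_a9d3bd_x (LF)

variable {K ι : Type} [Field K]

/-- The value of `G (T, Θ)`. -/
noncomputable def ev {A B : Type} [CommRing A] [Algebra K A] [CommRing B] [Algebra K B]
    (i : A →ₐ[K] B) (T Θ : B) : A[X][X] →+* B :=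
  eval₂RingHom (eval₂RingHom (i : A →+* B) T) Θ

/-- The behaviour of the point `Y` on the components of the surface `P = 0`. -/
def Gen (S : Set (MvPolynomial ι K)) {A : Type} [CommRing A] [Algebra K A] [Algebra K[X] A]
    (P : A[X][X]) (Y : ι → A[X][X]) (N : ℕ) : Prop :=
  ∀ (F : Type) [Field F] [Algebra K F] (i : A →ₐ[K] F) (T Θ : F), FF K F 2 →
    (∀ f : A[X], f.eval₂ (i : A →+* F) T = 0 → f = 0) → ev i T Θ P = 0 →
    (∀ u : F, ∃ G G' : A[X][X], ev i T Θ G' ≠ 0 ∧ u * ev i T Θ G' = ev i T Θ G) →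
    (fun a => ev i T Θ (Y a)) ≠ 0 ∧ On S (fun a => ev i T Θ (Y a)) ∧
    ND K (fun a => ev i T Θ (Y a)) ∧ ∀ O : DV K F, ND K (O.red fun a => ev i T Θ (Y a)) →
      (i (xA K A) ∈ O.O ∧ T ∈ O.O ∧
        ∃ G : A[X][X], ∀ k : K, O.res (ev i T Θ G) ≠ algebraMap K O.K k) ∨
      (i (xA K A) ∉ O.O ∧ O.O.valuation T ≤ O.O.valuation (i (xA K A)) ^ N)

/-- The statement for sections. -/
def CoreT (S : Set (MvPolynomial ι K)) (Λ : LF K ι) : Prop :=
  ∀ (A : Type) [CommRing A] [IsDedekindDomain A] [Algebra K A] [Algebra K[X] A]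
    [IsScalarTower K K[X] A] [Module.Finite K[X] A] [Module.IsTorsionFree K[X] A],
    (∀ a : A, ∃ Φ : K[X][X], aeval a Φ = 0 ∧ aeval a (derivative Φ) ≠ 0) →
    FF K (FractionRing A) 1 →
    ∀ (P : A[X][X]) (Y : ι → A[X][X]) (N : ℕ), P.Monic → Gen S P Y N →
    ∀ (J : Type) [Fintype J] (t w : J → A) (u : J → FractionRing A)
      (ν : J → (A →ₐ[K] K) →₀ ℤ) (r : J → ℚ),
    (∀ j, P.evalEval (t j) (w j) = 0) → (∀ j, Dvs K (u j) (ν j)) →
    (∀ j, ((P.map (evalRingHom (t j))).map (algebraMap A (FractionRing A))).Separable) →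
    (∀ j, ∀ β ∈ (ν j).support, β ((derivative P).evalEval (t j) (w j)) ≠ 0) →
    (∀ j, (fun a => algebraMap A (FractionRing A) ((Y a).evalEval (t j) (w j))) ≠ 0) →
    (∀ (β : A →ₐ[K] K) (t0 w0 : K), ∑ j, (open Classical in
      if β (t j) = t0 ∧ β (w j) = w0 then r j * (ν j β : ℚ) else 0) = 0) →
    ∑ j, r j * Λ (FractionRing A)
      (fun a => algebraMap A (FractionRing A) ((Y a).evalEval (t j) (w j))) (u j) = 0

end Pool.Agent.MP_a9d3bd_y
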