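import Pool.Agent.MP_a9d3bd_y.TSt

namespace Pool.Agent.MP_a9d3bd_y

open Polynomial

theorem tdisc_res {K : Type} [Field K] (f : K[X]) (d : ℕ) (h1 : f.natDegree ≤ d)
    (h2 : f.coeff d ≠ 0) : f.Separable ↔ resultant f (derivative f) d (d - 1) ≠ 0 := by
  have hd : f.natDegree = d := natDegree_eq_of_le_of_coeff_ne_zero h1 h2
  have hf : f ≠ 0 := by
    rintro rfl
    simp at h2
  have h3 : (derivative f).natDegree ≤ d - 1 := hd ▸ natDegree_derivative_le f
  obtain ⟨k, hk⟩ := Nat.exists_eq_add_of_le h3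
  rw [hk, resultant_add_right_deg _ _ _ _ _ le_rfl, mul_ne_zero_iff,
    and_iff_right (pow_ne_zero _ h2)]
  subst hd
  rw [Ne, resultant_eq_zero_iff, separable_def]
  simp [hf]

theorem tDisc (K : Type) [Field K] : TDisc := by
  intro R _ P hP
  refine ⟨resultant P (derivative P) P.natDegree (P.natDegree - 1), fun E _ ψ => ?_⟩
  rw [tdisc_res _ P.natDegree natDegree_map_le (by
    rw [coeff_map, hP.coeff_natDegree, map_one]
    exact one_ne_zero), derivative_map, resultant_map_map]

end Pool.Agent.MP_a9d3bd_y
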