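import Pool.Agent.MP_a9d3bd_y.TSt
import Pool.Agent.MP_a9d3bd_x.AX

/-! The statement for the sections of one component. -/

namespace Pool.Agent.MP_a9d3bd_y

open MvPolynomial Pool.Agent.MP_a9d3bd_h Pool.Agent.MP_a9d3bd_q Pool.Agent.MP_a9d3bd_g
open Pool.Agent.MP_a9d3bd_x (LF GF lamz)
open Pool.Agent.MP_a9d3bd_yy (xA Dvs)

variable {K : Type} [Field K]

open Classical in
theorem tone_fib {J Y : Type} [Fintype J] (f : J → Y) (c : J → ℚ) (p : J → Prop) [DecidablePred p]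
    (h : ∀ y, ∑ j, (if f j = y then c j else 0) = 0) (hp : ∀ j j', f j = f j' → p j → p j') :
    ∑ j, (if p j then c j else 0) = 0 := by
  rw [← Finset.sum_fiberwise_of_maps_to (s := Finset.univ) (t := Finset.univ.image f) (g := f)
    fun j hj => Finset.mem_image_of_mem f hj]
  refine Finset.sum_eq_zero fun y hy => ?_
  obtain ⟨j0, -, rfl⟩ := Finset.mem_image.1 hy
  by_cases h0 : p j0
  · rw [← h (f j0), Finset.sum_filter]
    refine Finset.sum_congr rfl fun j _ => ?_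
    by_cases e : f j = f j0
    · rw [if_pos e, if_pos e, if_pos (hp _ _ e.symm h0)]
    · rw [if_neg e, if_neg e]
  · exact Finset.sum_eq_zero fun j hj => if_neg fun h1 => h0 (hp _ _ (Finset.mem_filter.1 hj).2 h1)

section
variable {A B : Type} [CommRing A] [Algebra K A] [CommRing B] [Algebra K B]

theorem tone_map {E : Type} [CommRing E] [Algebra K E] (i : A →ₐ[K] B) (T Θ : B) (ψ : B →ₐ[K] E)
    (G : Polynomial (Polynomial A)) : ψ (ev i T Θ G) = ev (ψ.comp i) (ψ T) (ψ Θ) G := by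
  have : (ψ : B →+* E).comp (ev i T Θ) = ev (ψ.comp i) (ψ T) (ψ Θ) := by
    refine Polynomial.ringHom_ext' (Polynomial.ringHom_ext' (RingHom.ext fun a => ?_) ?_) ?_ <;>
      simp [ev]
  exact DFunLike.congr_fun this G

theorem tone_sec {i : A →ₐ[K] B} (T Θ : B) {φ : B →ₐ[K] A} (h : ∀ a, φ (i a) = a)
    (G : Polynomial (Polynomial A)) : φ (ev i T Θ G) = G.evalEval (φ T) (φ Θ) := by
  have : (φ : B →+* A).comp (ev i T Θ) = Polynomial.evalEvalRingHom (φ T) (φ Θ) := by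
    refine Polynomial.ringHom_ext' (Polynomial.ringHom_ext' (RingHom.ext fun a => ?_) ?_) ?_ <;>
      simp [ev, h]
  exact DFunLike.congr_fun this G

open Classical in
theorem tone_cl {J : Type} [Fintype J] {i : A →ₐ[K] B} {T Θ : B}
    (hg : Function.Surjective (ev i T Θ)) (φ : J → B →ₐ[K] A) (hs : ∀ j a, φ j (i a) = a)
    (z : Fin 3 → B) (ν : J → (A →ₐ[K] K) →₀ ℤ) (r : J → ℚ)
    (h : ∀ (β : A →ₐ[K] K) (t0 w0 : K), ∑ j,
      (if β (φ j T) = t0 ∧ β (φ j Θ) = w0 then r j * (ν j β : ℚ) else 0) = 0) (x : Fin 3 → K) :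
    ∑ j, r j * (ν j).sum (fun β n => if (fun k => β (φ j (z k))) = x then (n : ℚ) else 0) = 0 := by
  have e : ∀ j, (ν j).sum (fun β n => if (fun k => β (φ j (z k))) = x then (n : ℚ) else 0) =
      ∑ β ∈ Finset.univ.biUnion fun j => (ν j).support,
        if (fun k => β (φ j (z k))) = x then (ν j β : ℚ) else 0 := fun j =>
    Finsupp.sum_of_support_subset _
      (Finset.subset_biUnion_of_mem (fun j => (ν j).support) (Finset.mem_univ j)) _
      fun β _ => by simp
  simp only [e, Finset.mul_sum]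
  rw [Finset.sum_comm]
  refine Finset.sum_eq_zero fun β _ => ?_
  simp only [mul_ite, mul_zero]
  refine tone_fib (fun j => (β (φ j T), β (φ j Θ))) _ _ (fun y => ?_) fun j j' e hx => ?_
  · refine Eq.trans (Finset.sum_congr rfl fun j _ => ?_) (h β y.1 y.2)
    simp only [Prod.ext_iff]
  · rw [← hx]
    funext k
    obtain ⟨G, hG⟩ := hg (z k)
    have c : ∀ j, (β.comp (φ j)).comp i = β := fun j => AlgHom.ext fun a => by simp [hs]
    have e1 := tone_map i T Θ (β.comp (φ j)) G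
    have e2 := tone_map i T Θ (β.comp (φ j')) G
    rw [c, hG] at e1 e2
    simp only [AlgHom.comp_apply] at e1 e2
    rw [e1, e2, (Prod.mk.inj e).1, (Prod.mk.inj e).2]

end

theorem tOne {ι : Type} [Finite ι] (p : ℕ) [Fact p.Prime] [CharP K p]
    (halg : ∀ c : K, c ≠ 0 → ∃ n, 0 < n ∧ c ^ n = 1) (hCho : TCho K) (hHh : THh K) (hGj : TGj K)
    (hFf : TFf K) (hHi : THi K) (hUni : SUni K) (hPos : SPos K) (hDvc : SDvc K) (hCore : SCore K)
    {S : Set (MvPolynomial ι K)} (hS : Homog S) {Λ : LF K ι} (hΛ : GF S Λ) : TOne S Λ := by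
  intro A B J _ _ _ _ _ _ _ _ _ _ _ P Y N i T Θ φ u ν r hG hy hu hy0 hcl
  rcases isEmpty_or_nonempty J with hJ | hJ
  · exact Finset.sum_eq_zero fun j _ => hJ.elim j
  let Ω := AlgebraicClosure K
  obtain ⟨s, s₀, z, hc⟩ := hCho A B J p P i T Θ φ ν N hy
  obtain ⟨H, W, hh⟩ := hHh A B J i T φ ν N s s₀ z hJ hc
  choose g hg hp hI hne hsup using hGj A B J i T φ ν N s s₀ z H W hc hh
  have eφ : ∀ j (Q : R3 K), aeval (fun k => φ j (z k)) Q = φ j (aeval z Q) := fun j Q =>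
    (comp_aeval_apply (f := z) (φ j) Q).symm
  obtain ⟨j0⟩ := hJ
  obtain ⟨hF2, htop, hker⟩ := hFf B z H W hh.srf hh.ker hh.con fun e => hne j0 (by
    rw [eφ, e, map_zero])
  let b0 : B →ₐ[K] FractionRing B := IsScalarTower.toAlgHom K B (FractionRing B)
  have hb0i : Function.Injective b0 := IsFractionRing.injective B (FractionRing B)
  have ea := fun Q => (tone_map i T Θ b0 Q).symm
  obtain ⟨y0, yo, yn, yp⟩ := hG (FractionRing B) (b0.comp i) (b0 T) (b0 Θ) hF2
    (fun f hf => hy.sg.tr f (hb0i (by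
      rw [map_zero, ← hf]
      exact Polynomial.hom_eval₂ f (i : A →+* B) (b0 : B →+* FractionRing B) T)))
    (by rw [ea, hy.sg.on, map_zero]) fun v => by
      obtain ⟨c, d, hd, rfl⟩ := IsFractionRing.div_surjective (A := B) v
      obtain ⟨c, rfl⟩ := hy.sg.gen c
      obtain ⟨d, rfl⟩ := hy.sg.gen d
      have h1 : b0 (ev i T Θ d) ≠ 0 := (map_ne_zero_iff _ hb0i).2 (nonZeroDivisors.ne_zero hd)
      exact ⟨c, d, by rwa [ea], by rw [ea, ea]; exact div_mul_cancel₀ _ h1⟩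
  have hs := hh.srf
  rw [← hker] at hs
  have hAx := MP_a9d3bd_x.ax halg hS hΛ hF2 y0 yo yn htop hs fun O hO => by
    obtain ⟨q1, q2⟩ := hHi (FractionRing B) O hF2
    rcases yp O hO with ⟨a1, a2, Q, a3⟩ | ⟨a1, a2⟩
    · refine Or.inl (q1 B b0 _ z hc.itT hh.it (fun k => ?_) ⟨ev i T Θ Q, by rwa [← ea]⟩)
      fin_cases k
      · exact a1
      · exact a2
    · obtain ⟨c1, c2, c3⟩ := hc.inf (FractionRing B) b0 O.O (fun k => by
        rw [RingHom.coe_coe, AlgHom.commutes]; exact O.const k) a1 a2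
      exact Or.inr ⟨(q2 _ _ c1 c2).1, (q2 _ _ c1 c2).2, (q2 _ _ c1 c3).2⟩
  choose n a b hN hab ha hb hb0 using fun j => hUni A B J Ω halg (u j) (ν j)
    (aeval (fun k => φ j (z k)) (pderiv 1 (g j) * pderiv 2 H)) hy.ff (hu j)
    (by rw [map_mul]; exact mul_ne_zero (hg j).ne (hne j)) (hsup j)
  have hH : ∀ j, aeval (fun k => φ j (z k)) H = 0 := fun j => by
    rw [eφ, (hh.ker H).1 (hh.srf.eq ▸ Ideal.mem_span_singleton_self H), map_zero]
  choose hB' ht F G hF hG' hq using fun j => hPos A B J Ω (u j) (ν j) _ H (g j) (n j) (a j) (b j)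
    hy.ff (hu j) (hI j) (hH j) (hg j) (hp j) (hab j) (ha j) (hb j) (hb0 j)
  have hN' : ∀ j, (n j : ℚ) ≠ 0 := fun j => by exact_mod_cast (hN j).ne'
  have key := hCore H _ _ hs hAx J _ F G g (fun j => r j / n j) hq fun x => by
    rw [← tone_cl hy.sg.gen φ hy.sec z ν r hcl x]
    refine Finset.sum_congr rfl fun j _ => ?_
    rw [hDvc A B J Ω (u j) (ν j) _ (F j) (G j) (n j) hy.ff (hu j) (hI j) (hB' j)
      (hG' j ▸ hb0 j) (by rw [hF, hG', hab]) x, ← mul_assoc, div_mul_cancel₀ _ (hN' j)]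
  refine (Rat.cast_eq_zero (α := ℝ)).1 ?_
  rw [← key, Rat.cast_sum]
  refine Finset.sum_congr rfl fun j _ => ?_
  have eA : ∀ Q : R3 K, aeval (fun k => algebraMap A (FractionRing A) (φ j (z k))) Q =
      algebraMap A _ (aeval (fun k => φ j (z k)) Q) := fun Q =>
    (comp_aeval_apply (f := fun k => φ j (z k))
      (IsScalarTower.toAlgHom K A (FractionRing A)) Q).symm
  have eB : ∀ Q : R3 K, aeval (fun k => algebraMap B (FractionRing B) (z k)) Q =
      b0 (aeval z Q) := fun Q => (comp_aeval_apply (f := z) b0 Q).symm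
  have h3 : aeval (fun k => algebraMap A (FractionRing A) (φ j (z k))) (pderiv 2 H) ≠ 0 := by
    rw [eA]
    exact (map_ne_zero_iff _ (IsFractionRing.injective A _)).2 (hne j)
  have hl := MP_a9d3bd_x.lam_sec hΛ hF2 htop hs hy.ff (ht j) ⟨(hq j).1, (hq j).2.1, 2, h3⟩ (hy0 j)
    (y := fun a => ev (b0.comp i) (b0 T) (b0 Θ) (Y a)) fun c => by
      obtain ⟨f, hf⟩ := hh.con (ev i T Θ (Y c))
      refine ⟨f, pderiv 2 H, h3, ?_, ?_⟩
      · rw [eB, eB, hf, map_mul, mul_comm, ea]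
      · rw [eA, eA, eφ, eφ, hf, map_mul, map_mul, mul_comm, tone_sec T Θ (hy.sec j)]
  have yo' : On S fun c => algebraMap A (FractionRing A) ((Y c).evalEval (φ j T) (φ j Θ)) :=
    fun Q hQ => by
      have e1 := yo Q hQ
      simp only [ea] at e1
      rw [← comp_aeval_apply (f := fun c => ev i T Θ (Y c)) b0, map_eq_zero_iff _ hb0i] at e1
      simp only [← tone_sec T Θ (hy.sec j)]
      refine (comp_aeval_apply (f := fun c => ev i T Θ (Y c))
        ((IsScalarTower.toAlgHom K A (FractionRing A)).comp (φ j)) Q).symm.trans ?_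
      rw [e1, map_zero]
  rw [hl, hl, eA, eA, hF, hG', hab, hΛ.mul _ hy.ff _ _ _ (hy0 j) yo' (pow_ne_zero _ (hu j).1)
    ((map_ne_zero_iff _ (IsFractionRing.injective A _)).2 (hb0 j)), ← zpow_natCast,
    hΛ.zpow hy.ff (hy0 j) yo' (hu j).1]
  have : (n j : ℝ) ≠ 0 := by exact_mod_cast (hN j).ne'
  push_cast
  field_simp
  ring

end Pool.Agent.MP_a9d3bd_y
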