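import Pool.Agent.MP_a9d3bd_y.YSimple

namespace Pool.Agent.MP_a9d3bd_y

open Polynomial

variable (K : Type) {B σ : Type} [Field K] [CommRing B] [Algebra K B]

/-- At every place `a` has a pole of order at most `n` times the largest pole of the `z i`. -/
def Le (z : σ → B) (a : B) (n : ℕ) : Prop :=
  ∀ (Ω : Type) [Field Ω] (φ : B →+* Ω) (V : ValuationSubring Ω),
    (∀ k, φ (algebraMap K B k) ∈ V) → ∀ g : V.ValueGroup, 1 ≤ g →
    (∀ i, V.valuation (φ (z i)) ≤ g) → V.valuation (φ a) ≤ g ^ n

variable {K}

theorem val_vieta {Ω Γ : Type} [Field Ω] [LinearOrderedCommGroupWithZero Γ] (v : Valuation Ω Γ)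
    {g : Γ} (s : Multiset Ω) (hs : ∀ r ∈ s, v r ≤ g) :
    ∀ i, v ((s.map fun r => X - C r).prod.coeff i) * g ^ i ≤ g ^ s.card := by
  induction s using Multiset.induction_on with
  | empty =>
    intro i
    rcases i with _ | i <;> simp [coeff_one]
  | cons r s ih =>
    have ih := ih fun r hr => hs r (Multiset.mem_cons_of_mem hr)
    have hr := hs r (Multiset.mem_cons_self _ _)
    have h1 : ∀ i, v (r * (s.map fun r => X - C r).prod.coeff i) * g ^ i ≤ g ^ (s.card + 1) :=
      fun i => by
        rw [map_mul, mul_assoc, pow_succ']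
        exact mul_le_mul' hr (ih i)
    intro i
    rw [Multiset.map_cons, Multiset.prod_cons, Multiset.card_cons]
    rcases i with _ | i
    · simpa using h1 0
    · rw [coeff_X_sub_C_mul]
      refine (mul_le_mul_left (v.map_sub _ _) _).trans ?_
      rcases le_total (v ((s.map fun r => X - C r).prod.coeff i))
        (v (r * (s.map fun r => X - C r).prod.coeff (i + 1))) with h | h
      · rw [max_eq_right h]
        exact h1 _
      · rw [max_eq_left h, pow_succ, pow_succ, ← mul_assoc]
        exact mul_le_mul_left (ih i) _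

theorem val_poly {E Ω Γ : Type} [Field E] [Field Ω] [LinearOrderedCommGroupWithZero Γ]
    (v : Valuation Ω Γ) (ι : E →+* Ω) (hι : ∀ c, v (ι c) ≤ 1) {t : Ω} (ht : 1 < v t) {p : E[X]}
    (hp : p ≠ 0) : v (p.eval₂ ι t) = v t ^ p.natDegree := by
  have h1 : ∀ c, c ≠ 0 → v (ι c) = 1 := fun c hc => le_antisymm (hι c) (by
    have := hι c⁻¹
    rwa [map_inv₀, map_inv₀, inv_le_one₀ (zero_lt_iff.2 (by simpa using hc))] at this)
  have h2 : v (ι p.leadingCoeff * t ^ p.natDegree) = v t ^ p.natDegree := by
    rw [map_mul, h1 _ (leadingCoeff_ne_zero.2 hp), one_mul, map_pow]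
  rw [eval₂_eq_sum_range, Finset.sum_range_succ, Valuation.map_add_eq_of_lt_right]
  · exact h2
  · rw [coeff_natDegree, h2]
    refine v.map_sum_lt (pow_ne_zero _ (zero_lt_one.trans ht).ne') fun i hi => ?_
    rw [map_mul, map_pow]
    exact (mul_le_of_le_one_left' (hι _)).trans_lt (pow_lt_pow_right₀ ht (Finset.mem_range.1 hi))

theorem exists_deg (K σ : Type) [Field K] : ∃ (Ω : Type) (_ : Field Ω) (_ : IsAlgClosed Ω)
    (ψ : MvPolynomial σ K →+* Ω) (V : ValuationSubring Ω) (g : V.ValueGroup), 1 < g ∧
    ∀ a, a ≠ 0 → V.valuation (ψ a) = g ^ a.totalDegree := by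
  classical
  let R := MvPolynomial σ K
  let E := FractionRing R
  let Ω := AlgebraicClosure (FractionRing E[X])
  let ι : E[X] →+* Ω := (algebraMap (FractionRing E[X]) Ω).comp (algebraMap _ _)
  have hι : Function.Injective ι :=
    (algebraMap (FractionRing E[X]) Ω).injective.comp (IsFractionRing.injective _ _)
  let ψ : R →+* E[X] := MvPolynomial.eval₂Hom (C.comp (algebraMap K E))
    fun i => C (algebraMap R E (MvPolynomial.X i)) * X
  have h1 : ∀ a n, (ψ a).coeff n = algebraMap R E (MvPolynomial.homogeneousComponent n a) := by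
    intro a n
    induction a using MvPolynomial.induction_on' with
    | add a b ha hb => simp only [map_add, coeff_add, ha, hb]
    | monomial d c =>
      have h2 : ψ (MvPolynomial.monomial d c) =
          C (algebraMap R E (MvPolynomial.monomial d c)) * X ^ d.degree := by
        rw [show ψ (MvPolynomial.monomial d c) = _ from MvPolynomial.eval₂Hom_monomial _ _ d c]
        simp only [Finsupp.prod, mul_pow,
          Finset.prod_mul_distrib, Finset.prod_pow_eq_pow_sum, MvPolynomial.monomial_eq, map_mul,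
          map_prod, map_pow, Finsupp.degree_apply, mul_assoc]
        rfl
      rw [h2, coeff_C_mul_X_pow, MvPolynomial.homogeneousComponent_of_mem
        (MvPolynomial.isHomogeneous_monomial c rfl)]
      split_ifs <;> simp
  have h2 : ∀ a, a ≠ 0 → ψ a ≠ 0 ∧ (ψ a).natDegree = a.totalDegree := fun a ha => by
    obtain ⟨d, hd, hd'⟩ := Finset.exists_mem_eq_sup a.support (by simpa using ha)
      fun s => s.sum fun _ e => e
    have h3 : (ψ a).coeff a.totalDegree ≠ 0 := by
      rw [h1, map_ne_zero_iff _ (IsFractionRing.injective R E)]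
      intro h
      have := congrArg (MvPolynomial.coeff d) h
      rw [MvPolynomial.coeff_homogeneousComponent, if_pos (by exact hd'.symm)] at this
      exact MvPolynomial.mem_support_iff.1 hd this
    refine ⟨fun h => h3 (by simp [h]), natDegree_eq_of_le_of_coeff_ne_zero
      (natDegree_le_iff_coeff_eq_zero.2 fun n hn => ?_) h3⟩
    rw [h1, MvPolynomial.homogeneousComponent_eq_zero _ _ hn, map_zero]
  obtain ⟨V, hV, hT⟩ : ∃ V : ValuationSubring Ω, (∀ c, ι (C c) ∈ V) ∧ ι X ∉ V := by
    by_contra h
    push Not at h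
    have h3 : ι X ∈ (integralClosure (Subring.closure (Set.range (ι.comp C))) Ω).toSubring := by
      rw [← iInf_valuationSubring_superset, Subring.mem_iInf]
      exact fun V => h V.1 fun c => V.2 ⟨c, rfl⟩
    obtain ⟨p, hp, hpu⟩ : IsIntegral (Subring.closure (Set.range (ι.comp C))) (ι X) := h3
    have h4 : p.map (algebraMap _ Ω) ∈ lifts (ι.comp C) := (lifts_iff_coeff_lifts _).2 fun n => by
      rw [coeff_map]
      exact (Subring.closure_le (t := (ι.comp C).range)).2 le_rfl (p.coeff n).2
    obtain ⟨q, hq, -, hq'⟩ := lifts_and_degree_eq_and_monic h4 (hp.map _)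
    rw [← eval_map, ← hq, eval_map, ← hom_eval₂, eval₂_C_X, map_eq_zero_iff _ hι] at hpu
    exact hq'.ne_zero hpu
  have hg : 1 < V.valuation (ι X) := not_le.1 fun h => hT ((V.valuation_le_one_iff _).1 h)
  refine ⟨Ω, inferInstance, inferInstance, ι.comp ψ, V, _, hg, fun a ha => ?_⟩
  rw [← (h2 a ha).2, ← val_poly V.valuation (ι.comp C)
    (fun c => (V.valuation_le_one_iff _).2 (hV c)) hg (h2 a ha).1, ← hom_eval₂, eval₂_C_X]
  rfl

/-- Bounds for the poles give bounds for the degrees of the minimal equation. -/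
theorem growth [IsDomain B] [Algebra (MvPolynomial σ K) B] [IsScalarTower K (MvPolynomial σ K) B]
    [Module.IsTorsionFree (MvPolynomial σ K) B] [Algebra.IsIntegral (MvPolynomial σ K) B]
    [IsIntegrallyClosed (MvPolynomial σ K)] (θ : B) (n : ℕ)
    (h : Le K (fun i => algebraMap (MvPolynomial σ K) B (MvPolynomial.X i)) θ n) (i : ℕ)
    (hi : (minpoly (MvPolynomial σ K) θ).coeff i ≠ 0) :
    ((minpoly (MvPolynomial σ K) θ).coeff i).totalDegree + n * i ≤
      n * (minpoly (MvPolynomial σ K) θ).natDegree := by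
  obtain ⟨Ω, _, _, ψ, V, g, hg, hψ⟩ := exists_deg K σ
  set R := MvPolynomial σ K
  have hint : IsIntegral R θ := Algebra.IsIntegral.isIntegral θ
  have hm := (minpoly.monic hint).map ψ
  have hs := (IsAlgClosed.splits ((minpoly R θ).map ψ)).eq_prod_roots_of_monic hm
  let _ : Algebra R[X] B := (aeval θ).toRingHom.toAlgebra
  have : IsScalarTower R R[X] B := IsScalarTower.of_algebraMap_eq fun r => (aeval_C θ r).symm
  have : Algebra.IsIntegral R[X] B := Algebra.IsIntegral.tower_top R
  have h1 := val_vieta V.valuation (g := g ^ n) ((minpoly R θ).map ψ).roots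
    (fun r hr => by
      obtain ⟨φ, hφ⟩ := MP_a9d3bd_g.NF_ext (B := B) (eval₂RingHom ψ r) fun Q hQ => by
        obtain ⟨G, rfl⟩ := minpoly.isIntegrallyClosed_dvd hint (p := Q) hQ
        rw [RingHom.mem_ker, map_mul, coe_eval₂RingHom, ← eval_map, (mem_roots hm.ne_zero).1 hr,
          zero_mul]
      have h2 : ∀ a : R, φ (algebraMap R B a) = ψ a := fun a => by
        rw [IsScalarTower.algebraMap_apply R R[X] B, hφ]
        simp
      have h3 : φ θ = r := by simpa [RingHom.algebraMap_toAlgebra] using hφ X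
      refine h3 ▸ h Ω φ V (fun k => ?_) g hg.le fun j => ?_
      · rw [IsScalarTower.algebraMap_apply K R B, h2, ← V.valuation_le_one_iff]
        by_cases hk : k = 0
        · simp [hk]
        · rw [hψ _ (by simpa using hk)]
          simp [R]
      · rw [h2, hψ _ (MvPolynomial.X_ne_zero j)]
        simp) i
  rw [← hs, coeff_map, hψ _ hi, ← (IsAlgClosed.splits _).natDegree_eq_card_roots,
    (minpoly.monic hint).natDegree_map, ← pow_mul, ← pow_mul, ← pow_add] at h1
  exact (pow_le_pow_iff_right₀ hg).1 h1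

end Pool.Agent.MP_a9d3bd_y
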