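import Pool.Agent.MP_a9d3bd_y.TDefs
import Pool.Agent.MP_a9d3bd_y.St
import Pool.Agent.MP_a9d3bd_y.YGrow

/-! Steps for the statement on sections. -/

namespace Pool.Agent.MP_a9d3bd_y

open MvPolynomial Pool.Agent.MP_a9d3bd_h Pool.Agent.MP_a9d3bd_q Pool.Agent.MP_a9d3bd_g
open Pool.Agent.MP_a9d3bd_yy (xA Dvs)
open Pool.Agent.MP_a9d3bd_x (LF GF)

section
variable {K A B J : Type} [Field K] [CommRing A] [Algebra K A] [CommRing B] [Algebra K B]

/-- `B = A[T, Θ]` is a component of the surface `P = 0`. -/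
structure Sg (P : Polynomial (Polynomial A)) (i : A →ₐ[K] B) (T Θ : B) : Prop where
  on : ev i T Θ P = 0
  gen : Function.Surjective (ev i T Θ)
  tr : ∀ f : Polynomial A, f.eval₂ (i : A →+* B) T = 0 → f = 0

/-- The point `ξ` is unramified over `K[v]`. -/
def Ur {σ : Type} (v : σ → B) (ξ : B →ₐ[K] K) : Prop :=
  ∀ δ, Der ξ δ → (∀ k, δ (v k) = 0) → δ = 0

variable [Algebra (Polynomial K) A]

/-- The standing hypotheses. -/
structure HyT [IsDomain A] (P : Polynomial (Polynomial A)) (i : A →ₐ[K] B) (T Θ : B)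
    (φ : J → B →ₐ[K] A) (ν : J → (A →ₐ[K] K) →₀ ℤ) : Prop where
  mon : P.Monic
  sr : ∀ a : A, ∃ Φ : Polynomial (Polynomial K), Polynomial.aeval a Φ = 0 ∧
    Polynomial.aeval a (Polynomial.derivative Φ) ≠ 0
  ff : FF K (FractionRing A) 1
  sg : Sg P i T Θ
  sec : ∀ j a, φ j (i a) = a
  adm : ∀ j, ((P.map (Polynomial.evalRingHom (φ j T))).map
    (algebraMap A (FractionRing A))).Separable
  sep : ∀ j, ∀ β ∈ (ν j).support, β ((Polynomial.derivative P).evalEval (φ j T) (φ j Θ)) ≠ 0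

/-- The behaviour at infinity. -/
def AtInf (i : A →ₐ[K] B) (T : B) (N : ℕ) (z : Fin 3 → B) : Prop :=
  ∀ (Ω : Type) [Field Ω] (ψ : B →+* Ω) (V : ValuationSubring Ω),
    (∀ k, ψ (algebraMap K B k) ∈ V) → ψ (i (xA K A)) ∉ V →
    V.valuation (ψ T) ≤ V.valuation (ψ (i (xA K A))) ^ N →
    ψ (z 0) ∉ V ∧ V.valuation (ψ (z 1)) ≤ V.valuation (ψ (z 0)) ∧
      V.valuation (ψ (z 2)) ≤ V.valuation (ψ (z 0))

/-- The choice of the coordinates. -/
structure ChT (i : A →ₐ[K] B) (T : B) (φ : J → B →ₐ[K] A) (ν : J → (A →ₐ[K] K) →₀ ℤ) (N : ℕ)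
    (s : A) (s₀ : K) (z : Fin 3 → B) : Prop where
  z0 : z 0 = i s
  sec : ∀ j a, φ j (i a) = a
  ftA : Algebra.FiniteType K A
  ftB : Algebra.FiniteType K B
  inj : Function.Injective i
  tr : Transcendental K s
  it : It K ![s]
  bx2 : Le K ![s] (xA K A ^ 2) 1
  ind : AlgebraicIndependent K ![z 0, z 1]
  itB : It K ![z 0, z 1]
  itT : It K ![i (xA K A), T]
  b2 : Le K ![z 0, z 1] (z 2) 1
  ba : ∀ j, Le K ![s] (φ j (z 1)) 1
  inf : AtInf i T N z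
  nA : ∀ j (β : A →ₐ[K] K), (β ∈ (ν j).support ∨ β s = s₀) → Ur ![s] β ∧
    ∀ β' : A →ₐ[K] K, β' s = β s → β' (φ j (z 1)) = β (φ j (z 1)) → β' = β
  nB : ∀ j (β : A →ₐ[K] K) (ξ : B →ₐ[K] K), ((β ∈ (ν j).support ∧ ξ = β.comp (φ j)) ∨
      (β s = s₀ ∧ ξ (z 0) = s₀ ∧ ξ (z 1) = β (φ j (z 1)))) → Ur ![z 0, z 1] ξ ∧
    ∀ ξ' : B →ₐ[K] K, (∀ k, ξ' (z k) = ξ (z k)) → ξ' = ξ

/-- The equation of the model. -/
structure HhT (φ : J → B →ₐ[K] A) (ν : J → (A →ₐ[K] K) →₀ ℤ) (s : A) (s₀ : K) (z : Fin 3 → B)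
    (H : R3 K) (W : Pr K (Fin 3)) : Prop where
  srf : Srf H W
  ker : ∀ G, G ∈ W.asIdeal ↔ aeval z G = 0
  it : It K z
  con : ∀ b : B, ∃ f : R3 K, aeval z f = aeval z (pderiv 2 H) * b
  ne : ∀ j (β : A →ₐ[K] K) (ξ : B →ₐ[K] K), ((β ∈ (ν j).support ∧ ξ = β.comp (φ j)) ∨
      (β s = s₀ ∧ ξ (z 0) = s₀ ∧ ξ (z 1) = β (φ j (z 1)))) → ξ (aeval z (pderiv 2 H)) ≠ 0

end

variable (K : Type) [Field K]

/-- the components -/
def TCmp : Prop := ∀ (A : Type) [CommRing A] [IsDedekindDomain A] [Algebra K A]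
  (P : Polynomial (Polynomial A)), P.Monic →
  ∃ (C : Type) (B : C → Type) (_ : ∀ k, CommRing (B k)) (_ : ∀ k, IsDomain (B k))
    (_ : ∀ k, Algebra K (B k)) (i : ∀ k, A →ₐ[K] B k) (T Θ : ∀ k, B k),
    (∀ k, Sg P (i k) (T k) (Θ k)) ∧
    (∀ t w : A, P.evalEval t w = 0 →
      ∃ (k : C) (φ : B k →ₐ[K] A), (∀ a, φ (i k a) = a) ∧ φ (T k) = t ∧ φ (Θ k) = w) ∧
    ∀ (k k' : C) (ξ : B k →ₐ[K] K) (ξ' : B k' →ₐ[K] K), ξ.comp (i k) = ξ'.comp (i k') →
      ξ (T k) = ξ' (T k') → ξ (Θ k) = ξ' (Θ k') →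
      ξ (ev (i k) (T k) (Θ k) (Polynomial.derivative P)) ≠ 0 → k = k'

/-- the coordinate `s` -/
def TSel : Prop := ∀ (A : Type) [CommRing A] [IsDedekindDomain A] [Algebra K A]
  [Algebra (Polynomial K) A] [IsScalarTower K (Polynomial K) A] [Module.Finite (Polynomial K) A]
  [Module.IsTorsionFree (Polynomial K) A],
  (∀ a : A, ∃ Φ : Polynomial (Polynomial K), Polynomial.aeval a Φ = 0 ∧
    Polynomial.aeval a (Polynomial.derivative Φ) ≠ 0) →
  ∀ (S : Finset (A →ₐ[K] K)) (G : Finset A), ∃ s e : A, It K ![s] ∧ e ≠ 0 ∧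
    (∀ a ∈ Submodule.span K (G : Set A), Le K ![s] a 1) ∧
    ∀ β : A →ₐ[K] K, (β ∈ S ∨ β e ≠ 0) → Ur ![s] β

/-- a curve has a point in every fibre -/
def TGp : Prop := ∀ (H g : R3 K) (s₀ : K), coeff (Finsupp.single 2 H.totalDegree) H = 1 →
  g.degreeOf 2 = 0 → coeff (Finsupp.single 1 g.totalDegree) g = 1 →
  (∀ ξ : Fin 3 → K, ξ 0 = s₀ → eval ξ H = 0 → eval ξ g = 0 →
    eval ξ (pderiv 1 g * pderiv 2 H) ≠ 0) → Gp H g

/-- the two kinds of places -/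
def THi : Prop := ∀ (F : Type) [Field F] [Algebra K F] (O : DV K F), FF K F 2 →
  (∀ (B : Type) [CommRing B] [Algebra K B] (j : B →ₐ[K] F) (v : Fin 2 → B) (z : Fin 3 → B),
    It K v → It K z → (∀ k, j (v k) ∈ O.O) → (∃ b, ∀ k : K, O.res (j b) ≠ algebraMap K O.K k) →
    O.Int (fun k => j (z k)) ∧ NDa K (O.ra fun k => j (z k))) ∧
  ∀ a b : F, a ∉ O.O → O.O.valuation b ≤ O.O.valuation a → O.ord a < 0 ∧ O.ord a ≤ O.ord b

/-- the discriminant -/
def TDisc : Prop := ∀ (R : Type) [CommRing R] (P : Polynomial R), P.Monic → ∃ Δ : R,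
  ∀ (E : Type) [Field E] (ψ : R →+* E), (P.map ψ).Separable ↔ ψ Δ ≠ 0

/-- finiteness of zeros -/
def TFin : Prop := ∀ (A : Type) [CommRing A] [IsDedekindDomain A] [Algebra K A] (a : A), a ≠ 0 →
  {β : A →ₐ[K] K | β a = 0}.Finite

/-- integral elements have bounded poles; bounds give equations -/
def TLe : Prop := ∀ (B σ : Type) [CommRing B] [Algebra K B] [Fintype σ] (v : σ → B) (b : B),
  (IsIntegral (Algebra.adjoin K (Set.range v)) b → ∃ n, ∀ m, n ≤ m → Le K v b m) ∧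
  (IsDomain B → Le K v b 1 → Bnd K v b)

/-- a separating additive polynomial -/
def TAv : Prop := ∀ (Y : Set (K × K)) (M : ℕ), Y.Finite → ∃ a c : K, a ≠ 0 ∧
  ∀ p ∈ Y, ∀ q ∈ Y, p.1 ^ M + a * p.1 + c * p.2 = q.1 ^ M + a * q.1 + c * q.2 → p = q

/-- an unramified point that is determined by its value is a simple root -/
def TSim : Prop := ∀ (B σ : Type) [CommRing B] [IsDomain B] [Algebra K B] [Fintype σ] (v : σ → B)
  (b : B) (H : MvPolynomial (Option σ) K) (ξ : B →ₐ[K] K), Algebra.FiniteType K B →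
  AlgebraicIndependent K v → It K v → Mp v b H → Ur v ξ →
  (∀ ξ' : B →ₐ[K] K, (∀ k, ξ' (v k) = ξ (v k)) → ξ' b = ξ b → ξ' = ξ) →
  ξ (aeval (oe b v) (pderiv none H)) ≠ 0 ∧ Bir K (oe b v)

/-- unramified points of the surface -/
def TDer : Prop := ∀ (A B : Type) [CommRing A] [Algebra K A] [CommRing B] [Algebra K B]
  (P : Polynomial (Polynomial A)) (i : A →ₐ[K] B) (T Θ : B) (s η : A) (a c : K) (M : ℕ)
  (ξ : B →ₐ[K] K), Sg P i T Θ → (M : K) = 0 → a ≠ 0 → Ur ![s] (ξ.comp i) →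
  ξ (ev i T Θ (Polynomial.derivative P)) ≠ 0 → Ur ![i s, T ^ M + a • T + c • i η] ξ

/-- the function field of the component -/
def TFf : Prop := ∀ (B : Type) [CommRing B] [IsDomain B] [Algebra K B] (z : Fin 3 → B) (H : R3 K)
  (W : Pr K (Fin 3)), Srf H W → (∀ G, G ∈ W.asIdeal ↔ aeval z G = 0) →
  (∀ b : B, ∃ f : R3 K, aeval z f = aeval z (pderiv 2 H) * b) → aeval z (pderiv 2 H) ≠ 0 →
  FF K (FractionRing B) 2 ∧ af K (fun k => algebraMap B (FractionRing B) (z k)) = ⊤ ∧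
  ak K (fun k => algebraMap B (FractionRing B) (z k)) = W

section
variable (A B J : Type) [CommRing A] [IsDedekindDomain A] [Algebra K A]
  [Algebra (Polynomial K) A] [IsScalarTower K (Polynomial K) A] [Module.Finite (Polynomial K) A]
  [Module.IsTorsionFree (Polynomial K) A] [CommRing B] [IsDomain B] [Algebra K B] [Fintype J]

/-- first properties -/
def Bas' : Prop := ∀ (P : Polynomial (Polynomial A)) (i : A →ₐ[K] B) (T Θ : B), P.Monic →
  Sg P i T Θ → Algebra.FiniteType K A ∧ Algebra.FiniteType K B ∧ Function.Injective i ∧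
  It K ![i (xA K A), T] ∧ ∀ (s η : A) (a c : K) (M : ℕ), It K ![s] → 2 ≤ M →
    Transcendental K s ∧ AlgebraicIndependent K ![i s, T ^ M + a • T + c • i η] ∧
    It K ![i s, T ^ M + a • T + c • i η]

/-- the bounds for the poles -/
def Leb' : Prop := ∀ (i : A →ₐ[K] B) (T Θ : B) (s η : A) (a c : K) (M N : ℕ) (G : Set A)
  (θ : B), 2 ≤ M → Le K ![i (xA K A), T] Θ M → (∀ b ∈ G, Le K ![s] b 1) → Le K ![s] η 1 →
  Le K ![s] (xA K A) 1 → Le K ![s] (xA K A ^ M) 1 → Le K ![s] (xA K A ^ (N * M)) 1 →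
  θ ∈ Submodule.span K (i '' G ∪ {T, Θ}) →
  Le K ![i s, T ^ M + a • T + c • i η] θ 1 ∧ AtInf i T N ![i s, T ^ M + a • T + c • i η, θ]

/-- the choice of the coordinates -/
def Cht' : Prop := ∀ (p : ℕ) [Fact p.Prime] [CharP K p] (P : Polynomial (Polynomial A))
  (i : A →ₐ[K] B) (T Θ : B) (φ : J → B →ₐ[K] A) (ν : J → (A →ₐ[K] K) →₀ ℤ) (N : ℕ),
  HyT P i T Θ φ ν → ∃ s s₀ z, ChT i T φ ν N s s₀ z

/-- the equation of the model -/
def Hht' : Prop := ∀ (i : A →ₐ[K] B) (T : B) (φ : J → B →ₐ[K] A) (ν : J → (A →ₐ[K] K) →₀ ℤ)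
  (N : ℕ) (s : A) (s₀ : K) (z : Fin 3 → B), Nonempty J → ChT i T φ ν N s s₀ z →
  ∃ H W, HhT φ ν s s₀ z H W

/-- the plane equations of the sections -/
def Gjt' : Prop := ∀ (i : A →ₐ[K] B) (T : B) (φ : J → B →ₐ[K] A) (ν : J → (A →ₐ[K] K) →₀ ℤ)
  (N : ℕ) (s : A) (s₀ : K) (z : Fin 3 → B) (H : R3 K) (W : Pr K (Fin 3)),
  ChT i T φ ν N s s₀ z → HhT φ ν s s₀ z H W → ∀ j, ∃ g : R3 K, Gq (fun k => φ j (z k)) g ∧
    Gp H g ∧ It K (fun k => φ j (z k)) ∧ aeval (fun k => φ j (z k)) (pderiv 2 H) ≠ 0 ∧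
    ∀ β ∈ (ν j).support, β (aeval (fun k => φ j (z k)) (pderiv 1 g * pderiv 2 H)) ≠ 0

variable {K} in
/-- the statement for the sections of one component -/
def Onet' {ι : Type} (S : Set (MvPolynomial ι K)) (Λ : LF K ι) : Prop :=
  ∀ (P : Polynomial (Polynomial A)) (Y : ι → Polynomial (Polynomial A)) (N : ℕ) (i : A →ₐ[K] B)
    (T Θ : B) (φ : J → B →ₐ[K] A) (u : J → FractionRing A) (ν : J → (A →ₐ[K] K) →₀ ℤ)
    (r : J → ℚ), Gen S P Y N → HyT P i T Θ φ ν → (∀ j, Dvs K (u j) (ν j)) →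
    (∀ j, (fun a => algebraMap A (FractionRing A) ((Y a).evalEval (φ j T) (φ j Θ))) ≠ 0) →
    (∀ (β : A →ₐ[K] K) (t0 w0 : K), ∑ j, (open Classical in
      if β (φ j T) = t0 ∧ β (φ j Θ) = w0 then r j * (ν j β : ℚ) else 0) = 0) →
    ∑ j, r j * Λ (FractionRing A)
      (fun a => algebraMap A (FractionRing A) ((Y a).evalEval (φ j T) (φ j Θ))) (u j) = 0

end

/-- Quantification over the rings. -/
def AllT (p : ∀ (A B J : Type) [CommRing A] [IsDedekindDomain A] [Algebra K A]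
    [Algebra (Polynomial K) A] [IsScalarTower K (Polynomial K) A] [Module.Finite (Polynomial K) A]
    [Module.IsTorsionFree (Polynomial K) A] [CommRing B] [IsDomain B] [Algebra K B] [Fintype J],
    Prop) : Prop :=
  ∀ (A B J : Type) [CommRing A] [IsDedekindDomain A] [Algebra K A]
    [Algebra (Polynomial K) A] [IsScalarTower K (Polynomial K) A] [Module.Finite (Polynomial K) A]
    [Module.IsTorsionFree (Polynomial K) A] [CommRing B] [IsDomain B] [Algebra K B] [Fintype J],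
    p A B J

def TBas : Prop := AllT K fun A B _ => Bas' K A B
def TLeb : Prop := AllT K fun A B _ => Leb' K A B
def TCho : Prop := AllT K fun A B J => Cht' K A B J
def THh : Prop := AllT K fun A B J => Hht' K A B J
def TGj : Prop := AllT K fun A B J => Gjt' K A B J

variable {K}

def TOne {ι : Type} (S : Set (MvPolynomial ι K)) (Λ : LF K ι) : Prop :=
  AllT K fun A B J => Onet' A B J S Λ

end Pool.Agent.MP_a9d3bd_y
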