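import Pool.Agent.MP_a9d3bd_y.TDefs2
import Pool.Agent.MP_a9d3bd_y.TSt

/-! Steps for the statement on sections, second form. -/

namespace Pool.Agent.MP_a9d3bd_y

open MvPolynomial Pool.Agent.MP_a9d3bd_h Pool.Agent.MP_a9d3bd_q Pool.Agent.MP_a9d3bd_g
open Pool.Agent.MP_a9d3bd_yy (xA Dvs)
open Pool.Agent.MP_a9d3bd_x (LF GF)

/-- The standing hypotheses. -/
structure HyU {K A B J : Type} [Field K] [CommRing A] [Algebra K A] [CommRing B] [Algebra K B]
    [Algebra (Polynomial K) A] [IsDomain A] (P : Polynomial (Polynomial A)) (i : A →ₐ[K] B)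
    (T Θ : B) (φ : J → B →ₐ[K] A) (ν : J → (A →ₐ[K] K) →₀ ℤ) : Prop where
  mon : P.Monic
  sr : ∀ a : A, ∃ Φ : Polynomial (Polynomial K), Polynomial.aeval a Φ = 0 ∧
    Polynomial.aeval a (Polynomial.derivative Φ) ≠ 0
  ff : FF K (FractionRing A) 1
  sg : Sg P i T Θ
  sec : ∀ j a, φ j (i a) = a
  adm : ∀ j, (Polynomial.derivative P).evalEval (φ j T) (φ j Θ) ≠ 0
  sep : ∀ j, ∀ β ∈ (ν j).support, β ((Polynomial.derivative P).evalEval (φ j T) (φ j Θ)) ≠ 0

variable (K : Type) [Field K]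

/-- unramified points of the surface -/
def UDer : Prop := ∀ (A B : Type) [CommRing A] [Algebra K A] [CommRing B] [Algebra K B]
  (P : Polynomial (Polynomial A)) (i : A →ₐ[K] B) (T Θ u : B) (s : A) (a : K) (M p : ℕ)
  (ξ : B →ₐ[K] K), Sg P i T Θ → (M : K) = 0 → (p : K) = 0 → Ur ![s] (ξ.comp i) →
  ξ (ev i T Θ (Polynomial.derivative P)) ≠ 0 → Ur ![i s, T ^ M + T + a • u ^ p] ξ

/-- a curve on the surface meets a general fibre in finitely many points -/
def URf : Prop := ∀ (B : Type) [CommRing B] [IsDomain B] [Algebra K B] (s T D : B),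
  Algebra.FiniteType K B → AlgebraicIndependent K ![s, T] → It K ![s, T] → D ≠ 0 →
  {s₀ : K | ¬ {ξ : B →ₐ[K] K | ξ s = s₀ ∧ ξ D = 0}.Finite}.Finite

/-- independence from integrality -/
def UInd : Prop := ∀ (B : Type) [CommRing B] [IsDomain B] [Algebra K B] (v w : Fin 2 → B),
  AlgebraicIndependent K v → It K w → AlgebraicIndependent K w

/-- powers of linear combinations -/
def USp : Prop := ∀ (B σ : Type) [CommRing B] [Algebra K B] (v : σ → B) (G : Set B) (p : ℕ),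
  0 < p → (∀ b ∈ G, Le K v (b ^ p) 1) → ∀ b ∈ Submodule.span K G, Le K v (b ^ p) 1 ∧ Le K v b 1

/-- a separating coordinate -/
def UAv : Prop := ∀ (X : Type) (S : Set X) (f h : X → K), S.Finite → Set.InjOn h S →
  ∃ a : K, Set.InjOn (fun x => f x + a * h x) S

section
variable (A B J : Type) [CommRing A] [IsDedekindDomain A] [Algebra K A]
  [Algebra (Polynomial K) A] [IsScalarTower K (Polynomial K) A] [Module.Finite (Polynomial K) A]
  [Module.IsTorsionFree (Polynomial K) A] [CommRing B] [IsDomain B] [Algebra K B] [Fintype J]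

/-- first properties -/
def Ubas' : Prop := ∀ (P : Polynomial (Polynomial A)) (i : A →ₐ[K] B) (T Θ : B), P.Monic →
  Sg P i T Θ → Algebra.FiniteType K A ∧ Algebra.FiniteType K B ∧ Function.Injective i ∧
  It K ![i (xA K A), T] ∧ ∀ s : A, It K ![s] →
    Transcendental K s ∧ AlgebraicIndependent K ![i s, T] ∧ It K ![i s, T]

/-- the bounds for the poles -/
def Uleb' : Prop := ∀ (i : A →ₐ[K] B) (T Θ u θ : B) (s : A) (a : K) (n p M N : ℕ) (G : Set A),
  0 < n → 0 < p → n * p < M → Le K ![i (xA K A), T] Θ n → (∀ b ∈ G, Le K ![s] (b ^ p) 1) →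
  Le K ![s] (xA K A ^ M) 1 → Le K ![s] (xA K A ^ (N * M)) 1 →
  u ∈ Submodule.span K (i '' G ∪ {T, Θ}) → θ ∈ Submodule.span K (i '' G ∪ {T, Θ}) →
  Le K ![i s, T ^ M + T + a • u ^ p] θ 1 ∧ AtInf i T N ![i s, T ^ M + T + a • u ^ p, θ]

/-- the choice of the coordinates -/
def Ucho' : Prop := ∀ (p : ℕ) [Fact p.Prime] [CharP K p] (P : Polynomial (Polynomial A))
  (i : A →ₐ[K] B) (T Θ : B) (φ : J → B →ₐ[K] A) (ν : J → (A →ₐ[K] K) →₀ ℤ) (N : ℕ),
  Nonempty J → HyU P i T Θ φ ν → ∃ s s₀ z, ChT i T φ ν N s s₀ z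

variable {K} in
/-- the statement for the sections of one component -/
def Uone' {ι : Type} (S : Set (MvPolynomial ι K)) (Λ : LF K ι) : Prop :=
  ∀ (P : Polynomial (Polynomial A)) (Y : ι → Polynomial (Polynomial A)) (N : ℕ) (i : A →ₐ[K] B)
    (T Θ : B) (φ : J → B →ₐ[K] A) (u : J → FractionRing A) (ν : J → (A →ₐ[K] K) →₀ ℤ)
    (r : J → ℚ), Gen' S P Y N → HyU P i T Θ φ ν → (∀ j, Dvs K (u j) (ν j)) →
    (∀ j, (fun a => algebraMap A (FractionRing A) ((Y a).evalEval (φ j T) (φ j Θ))) ≠ 0) →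
    (∀ (β : A →ₐ[K] K) (t0 w0 : K), ∑ j, (open Classical in
      if β (φ j T) = t0 ∧ β (φ j Θ) = w0 then r j * (ν j β : ℚ) else 0) = 0) →
    ∑ j, r j * Λ (FractionRing A)
      (fun a => algebraMap A (FractionRing A) ((Y a).evalEval (φ j T) (φ j Θ))) (u j) = 0

end

def UBas : Prop := AllT K fun A B _ => Ubas' K A B
def ULeb : Prop := AllT K fun A B _ => Uleb' K A B
def UCho : Prop := AllT K fun A B J => Ucho' K A B J

variable {K}

def UOne {ι : Type} (S : Set (MvPolynomial ι K)) (Λ : LF K ι) : Prop :=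
  AllT K fun A B J => Uone' A B J S Λ

end Pool.Agent.MP_a9d3bd_y
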