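import Pool.Agent.MP_a9d3bd_y.St

namespace Pool.Agent.MP_a9d3bd_y

open MvPolynomial Pool.Agent.MP_a9d3bd_h Pool.Agent.MP_a9d3bd_q Pool.Agent.MP_a9d3bd_g

theorem top_mon {K : Type} [Field K] (m : Fin 4 →₀ ℕ) (c : K) :
    Pool.Agent.MP_a9d3bd_yy.aff (monomial m c) = monomial m.tail c := by
  rw [Pool.Agent.MP_a9d3bd_yy.aff, aeval_monomial, monomial_eq,
    Finsupp.prod_fintype _ _ fun _ => pow_zero _, Finsupp.prod_fintype _ _ fun _ => pow_zero _]
  simp [Fin.prod_univ_succ, Finsupp.tail_apply]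

theorem top_sum {K : Type} [Field K] (P : MvPolynomial (Fin 4) K) :
    Pool.Agent.MP_a9d3bd_yy.aff P = ∑ m ∈ P.support, monomial m.tail (coeff m P) := by
  conv_lhs => rw [P.as_sum, Pool.Agent.MP_a9d3bd_yy.aff, map_sum]
  exact Finset.sum_congr rfl fun m _ => top_mon m _

theorem top_main {K : Type} [Field K] (P : MvPolynomial (Fin 4) K) (d : ℕ)
    (h : P.IsHomogeneous d) : (Pool.Agent.MP_a9d3bd_yy.aff P).totalDegree ≤ d ∧
      coeff (Finsupp.single 1 d) (Pool.Agent.MP_a9d3bd_yy.aff P) = eval ![0, 0, 1, 0] P := by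
  have hd : ∀ m ∈ P.support, m 0 + m 1 + m 2 + m 3 = d := by
    intro m hm
    by_contra hn
    refine mem_support_iff.1 hm (h.coeff_eq_zero ?_)
    rwa [Finsupp.degree_eq_sum, Fin.sum_univ_four]
  rw [top_sum]
  constructor
  · refine totalDegree_finsetSum_le fun m hm => (totalDegree_monomial_le _ _).trans ?_
    rw [Finsupp.sum_fintype _ _ fun _ => rfl, Fin.sum_univ_three]
    have := hd m hm
    change m 1 + m 2 + m 3 ≤ d
    omega
  · rw [coeff_sum, eval_eq']
    refine Finset.sum_congr rfl fun m hm => ?_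
    have h1 := hd m hm
    rw [coeff_monomial, Fin.prod_univ_four]
    change _ = coeff m P * ((0 : K) ^ m 0 * 0 ^ m 1 * 1 ^ m 2 * 0 ^ m 3)
    split_ifs with h2
    · have a0 : m 1 = 0 := by simpa [Finsupp.tail_apply] using DFunLike.congr_fun h2 0
      have a1 : m 2 = d := by simpa [Finsupp.tail_apply] using DFunLike.congr_fun h2 1
      have a2 : m 3 = 0 := by simpa [Finsupp.tail_apply] using DFunLike.congr_fun h2 2
      have a3 : m 0 = 0 := by omega
      simp [a0, a2, a3]
    · by_cases a0 : m 0 = 0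
      · by_cases a1 : m 1 = 0
        · by_cases a3 : m 3 = 0
          · refine absurd (Finsupp.ext fun i => ?_) h2
            have a2 : m 2 = d := by omega
            fin_cases i
            · simpa [Finsupp.tail_apply] using a1
            · simpa [Finsupp.tail_apply] using a2
            · simpa [Finsupp.tail_apply] using a3
          · simp [a3]
        · simp [a1]
      · simp [a0]

theorem top_ev {K : Type} [Field K] (P : MvPolynomial (Fin 4) K) (E : Type) [CommRing E]
    [Algebra K E] (x t w : E) :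
    aeval ![x, t, w] (Pool.Agent.MP_a9d3bd_yy.aff P) = aeval ![1, x, t, w] P := by
  rw [Pool.Agent.MP_a9d3bd_yy.aff, ← AlgHom.comp_apply, comp_aeval]
  congr 2
  funext i
  fin_cases i <;> simp

theorem sTop (K : Type) [Field K] [IsAlgClosed K]  : STop K := by
  intro P d hd h h0
  obtain ⟨h1, h2⟩ := top_main P d h
  rw [← h2] at h0
  have h3 := le_totalDegree (mem_support_iff.2 h0)
  rw [Finsupp.sum_single_index rfl] at h3
  have h4 := le_antisymm h1 h3
  refine ⟨⟨?_, ?_⟩, top_ev P⟩
  · exact h4 ▸ hd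
  · exact h4.symm ▸ h0

end Pool.Agent.MP_a9d3bd_y
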