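import Pool.Agent.MP_a9d3bd_y.MSt
import Pool.Agent.MP_a9d3bd_x.AX
import Pool.Agent.MP_a9d3bd_gx.St

/-! Sections lie on a family of rational curves after a localisation and a Frobenius twist. -/

namespace Pool.Agent.MP_a9d3bd_y

open MvPolynomial Pool.Agent.MP_a9d3bd_q
open Pool.Agent.MP_a9d3bd_yy (xA Dvs)
open Pool.Agent.MP_a9d3bd_x (LF GF)
open Pool.Agent.MP_a9d3bd_gx (Ok)

variable {K ι : Type} [Field K] (S : Set (MvPolynomial ι K)) (e δ : MvPolynomial ι K) (Λ : LF K ι)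

/-- The statement for the sections `σ j`. -/
def SecA {A J : Type} [CommRing A] [IsDomain A] [Algebra K A] [Algebra (Polynomial K) A]
    [Fintype J] (σ : J → ι → A) : Prop :=
  ∀ (u : J → FractionRing A) (ν : J → (A →ₐ[K] K) →₀ ℤ) (r : J → ℚ),
    (∀ j, Ok S e δ (σ j) ∧ Dvs K (u j) (ν j)) →
    (∀ j, ∀ β ∈ (ν j).support, β (aeval (σ j) δ) ≠ 0) →
    (∀ (β : A →ₐ[K] K) (p : ι → K), ∑ j, (open Classical in
      if (fun b => β (σ j b)) = p then r j * (ν j β : ℚ) else 0) = 0) →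
    ∑ j, r j * Λ (FractionRing A) (fun b => algebraMap A _ (σ j b)) (u j) = 0

/-- Sections over a separable cover of the line. -/
def CoreA1 : Prop :=
  ∀ (A : Type) [CommRing A] [IsDedekindDomain A] [Algebra K A] [Algebra (Polynomial K) A]
    [IsScalarTower K (Polynomial K) A] [Module.Finite (Polynomial K) A]
    [Module.IsTorsionFree (Polynomial K) A], Sr K A → FF K (FractionRing A) 1 →
    ∀ (J : Type) [Fintype J] (σ : J → ι → A), SecA S e δ Λ σ

/-- Sections that are separated by one function. -/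
def CoreA2 : Prop :=
  ∀ (A : Type) [CommRing A] [IsDedekindDomain A] [Algebra K A] [Algebra (Polynomial K) A]
    [IsScalarTower K (Polynomial K) A] [Module.Finite (Polynomial K) A]
    [Module.IsTorsionFree (Polynomial K) A], Sr K A → FF K (FractionRing A) 1 →
    ∀ (J : Type) [Fintype J] (σ : J → ι → A) (μ : J → A),
    (∀ (β : A →ₐ[K] K) j k, β (μ j) = β (μ k) ↔ ∀ b, β (σ j b) = β (σ k b)) → SecA S e δ Λ σ

/-- Points on a family of rational curves over a separable cover of the line. -/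
def CoreS1 : Prop :=
  ∀ (A : Type) [CommRing A] [IsDedekindDomain A] [Algebra K A] [Algebra (Polynomial K) A]
    [IsScalarTower K (Polynomial K) A] [Module.Finite (Polynomial K) A]
    [Module.IsTorsionFree (Polynomial K) A], Sr K A → FF K (FractionRing A) 1 →
    ∀ (J : Type) [Fintype J] (C : ι → Polynomial A) (t : J → A) (u : J → FractionRing A)
      (ν : J → (A →ₐ[K] K) →₀ ℤ) (r : J → ℚ),
    (∀ j, Ok S e δ (fun b => (C b).eval (t j)) ∧ Dvs K (u j) (ν j)) →
    (∀ j, ∀ β ∈ (ν j).support, β (aeval (fun b => (C b).eval (t j)) δ) ≠ 0) →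
    (∀ (β : A →ₐ[K] K) (t0 : K), ∑ j, (open Classical in
      if β (t j) = t0 then r j * (ν j β : ℚ) else 0) = 0) →
    ∑ j, r j * Λ (FractionRing A) (fun b => algebraMap A _ ((C b).eval (t j))) (u j) = 0

variable {S e δ Λ}

theorem ua_ok {A B : Type} [CommRing A] [Algebra K A] [CommRing B] [Algebra K B] {σ : ι → A}
    (φ : A →ₐ[K] B) (hφ : Function.Injective φ) (h : Ok S e δ σ) :
    Ok S e δ fun b => φ (σ b) :=
  ⟨fun G hG => by rw [← comp_aeval_apply (f := σ) φ, h.1 G hG, map_zero],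
    by rw [← comp_aeval_apply (f := σ) φ, h.2.1, map_one],
    by rw [← comp_aeval_apply (f := σ) φ]; exact (map_ne_zero_iff _ hφ).2 h.2.2⟩

theorem coreA1_of (p : ℕ) [Fact p.Prime] [CharP K p] (h1 : ULin K) (h2 : ULoA K) (h3 : ULoS K)
    (h4 : ULoD K) [Finite ι] (hΛ : GF S Λ) (h : CoreA2 S e δ Λ) : CoreA1 S e δ Λ := by
  classical
  intro A _ _ _ _ _ _ _ hs hF J _ σ u ν r ho hd hcl
  obtain ⟨μ, f, fm, f1, f2⟩ := h1 A J ι σ (Finset.univ.biUnion fun j => (ν j).support)
  obtain ⟨B, _, _, _, _, _, _, _, α, g, hl⟩ := h2 p A f fm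
  obtain ⟨hF', ψ, hψ, hψ', hD⟩ := h4 A B p f α g hl hF
  choose ν' hν hν' using fun j => hD (u j) (ν j) (ho j).2 fun β hβ =>
    f1 β (Finset.mem_biUnion.2 ⟨j, Finset.mem_univ j, hβ⟩)
  have hf : ∀ β : B →ₐ[K] K, f.eval ((β.comp α) (xA K A)) ≠ 0 := fun β c => by
    have := congrArg β hl.inv
    rw [map_mul, map_one, ← AlgHom.comp_apply β α, ← Polynomial.aeval_algHom_apply,
      Polynomial.coe_aeval_eq_eval, c, mul_zero] at this
    exact zero_ne_one this
  have key := h B (h3 A B p f α g hl hs) hF' J (fun j s => α (σ j s)) (fun j => α (μ j))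
    (fun β j k => f2 (β.comp α) (hf β) j k) (fun j => ψ (u j)) ν' r
    (fun j => ⟨ua_ok α hl.inj (ho j).1, hν j⟩)
    (fun j β hβ => by
      rw [← comp_aeval_apply (f := σ j) α]
      exact hd j (β.comp α) (by rwa [Finsupp.mem_support_iff, ← hν', ← Finsupp.mem_support_iff]))
    (fun β x => by
      simp only [hν']
      exact hcl (β.comp α) x)
  rw [← key]
  refine Finset.sum_congr rfl fun j _ => ?_
  have e := hΛ.ext _ _ hF hF' ψ (fun a => algebraMap A (FractionRing A) (σ j a)) (u j)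
  rw [hdeg_eq_one (AlgHom.fieldRange_eq_top.2 hψ), Nat.cast_one, one_mul] at e
  simp only [hψ'] at e
  rw [e]

theorem coreA2_of (p : ℕ) [hp : Fact p.Prime] [CharP K p]
    (halg : ∀ c : K, ∃ n, 0 < n ∧ c ^ p ^ n = c) (h1 : UInt) (h2 : URad K) (h3 : UFrob K)
    [Finite ι] (he : e.IsHomogeneous 1) (hΛ : GF S Λ) (hT : CoreS1 S e δ Λ) :
    CoreA2 S e δ Λ := by
  classical
  intro A _ _ _ _ _ _ _ hs hF J _ σ μ hμ u ν r ho hd hcl
  have ft : Algebra.FiniteType K A :=
    Algebra.FiniteType.trans (S := Polynomial K) inferInstance inferInstance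
  have : CharP A p := charP_of_injective_algebraMap (algebraMap K A).injective p
  have inj := IsFractionRing.injective A (FractionRing A)
  obtain ⟨m₀, hm₀⟩ := h1 p A ι J μ σ fun j k s => h2 A ft _ _ fun β hβ => by
    rw [map_sub, sub_eq_zero] at hβ ⊢
    exact (hμ β j k).1 hβ s
  choose a b hb hab using fun j => IsFractionRing.div_surjective A (u j)
  obtain ⟨m₁, hm₁, hφ⟩ := h3 p halg A ft (Set.range (fun k : J × ι => σ k.1 k.2) ∪
    Set.range a ∪ Set.range b ∪ Set.range fun j => aeval (σ j) δ) (by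
      simp only [Set.finite_union, Set.finite_range, and_self])
  obtain ⟨φ, φi, hφ⟩ := hφ m₀
  obtain ⟨c, hc⟩ := hm₀ (m₁ * m₀) (Nat.le_mul_of_pos_left _ hm₁)
  set q := p ^ (m₁ * m₀) with hq
  have q0 : q ≠ 0 := pow_ne_zero _ hp.out.ne_zero
  have ce : ∀ j s, (c s).eval (μ j) = φ (σ j s) := fun j s =>
    (hc j s).trans (hφ _ (Or.inl (Or.inl (Or.inl ⟨(j, s), rfl⟩)))).symm
  have φa : ∀ j, φ (a j) = a j ^ q := fun j => hφ _ (Or.inl (Or.inl (Or.inr ⟨j, rfl⟩)))
  have φb : ∀ j, φ (b j) = b j ^ q := fun j => hφ _ (Or.inl (Or.inr ⟨j, rfl⟩))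
  have φd : ∀ j, φ (aeval (σ j) δ) = aeval (σ j) δ ^ q := fun j => hφ _ (Or.inr ⟨j, rfl⟩)
  let Φ : FractionRing A →ₐ[K] FractionRing A := IsFractionRing.liftAlgHom
    (g := (IsScalarTower.toAlgHom K A (FractionRing A)).comp φ) (inj.comp φi)
  have hΦ : ∀ z : A, Φ (algebraMap A _ z) = algebraMap A _ (φ z) := fun z =>
    IsFractionRing.lift_algebraMap (g := ((IsScalarTower.toAlgHom K A (FractionRing A)).comp φ :
      A →+* FractionRing A)) (inj.comp φi) z
  have hy : ∀ j, Ok S e δ fun s => algebraMap A (FractionRing A) (φ (σ j s)) := fun j =>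
    ua_ok (IsScalarTower.toAlgHom K A (FractionRing A)) inj (ua_ok φ φi (ho j).1)
  have hy0 : ∀ j, (fun s => algebraMap A (FractionRing A) (φ (σ j s))) ≠ 0 := fun j c => by
    have h1 := (hy j).2.1
    have h2 := aeval_smul_hom he (0 : FractionRing A) (0 : ι → FractionRing A)
    rw [c] at h1
    rw [zero_smul, h1, pow_one, zero_mul] at h2
    exact one_ne_zero h2
  have key := hT A hs hF J c μ u ν r
    (fun j => by simp only [ce]; exact ⟨ua_ok φ φi (ho j).1, (ho j).2⟩)
    (fun j β hβ => by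
      simp only [ce]
      rw [← comp_aeval_apply (f := σ j) φ, φd, map_pow]
      exact pow_ne_zero _ (hd j β hβ))
    (fun β t0 => by
      by_cases e : ∃ k, β (μ k) = t0
      · obtain ⟨k, rfl⟩ := e
        refine Eq.trans (Finset.sum_congr rfl fun j _ => if_congr ?_ rfl rfl)
          (hcl β fun s => β (σ k s))
        rw [hμ, funext_iff]
      · exact Finset.sum_eq_zero fun j _ => if_neg fun c => e ⟨j, c⟩)
  simp only [ce] at key
  have d0 : (hdeg Φ : ℚ) ≠ 0 := by exact_mod_cast (hdeg_pos hF hF Φ).ne'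
  refine (mul_eq_zero.1 ?_).resolve_left d0
  rw [← mul_zero (q : ℚ), ← key, Finset.mul_sum, Finset.mul_sum]
  refine Finset.sum_congr rfl fun j _ => ?_
  have e := hΛ.ext _ _ hF hF Φ (fun s => algebraMap A (FractionRing A) (σ j s)) (u j)
  have eu : Φ (u j) = u j ^ (q : ℤ) := by
    rw [← hab j, map_div₀, hΦ, hΦ, φa, φb, map_pow, map_pow, zpow_natCast, div_pow]
  simp only [hΦ] at e
  rw [eu, hΛ.zpow hF (hy0 j) (hy j).1 (ho j).2.1] at e
  rw [mul_left_comm, ← e]
  push_cast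
  ring

end Pool.Agent.MP_a9d3bd_y
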