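import Pool.Agent.MP_a9d3bd_y.UOne
import Pool.Agent.MP_a9d3bd_y.UCho
import Pool.Agent.MP_a9d3bd_y.UDer
import Pool.Agent.MP_a9d3bd_y.UInd
import Pool.Agent.MP_a9d3bd_y.ULeb
import Pool.Agent.MP_a9d3bd_y.URf_h9
import Pool.Agent.MP_a9d3bd_y.USp
import Pool.Agent.MP_a9d3bd_y.TBas
import Pool.Agent.MP_a9d3bd_y.TCmp
import Pool.Agent.MP_a9d3bd_y.TSel
import Pool.Agent.MP_a9d3bd_y.TGp
import Pool.Agent.MP_a9d3bd_y.THi
import Pool.Agent.MP_a9d3bd_y.TFin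
import Pool.Agent.MP_a9d3bd_y.TLe
import Pool.Agent.MP_a9d3bd_y.TSim
import Pool.Agent.MP_a9d3bd_y.THh
import Pool.Agent.MP_a9d3bd_y.TGj
import Pool.Agent.MP_a9d3bd_y.TFf
import Pool.Agent.MP_a9d3bd_y.Bnd
import Pool.Agent.MP_a9d3bd_y.Bval
import Pool.Agent.MP_a9d3bd_y.Min
import Pool.Agent.MP_a9d3bd_y.Two
import Pool.Agent.MP_a9d3bd_y.Cond
import Pool.Agent.MP_a9d3bd_y.Uni
import Pool.Agent.MP_a9d3bd_y.Pos
import Pool.Agent.MP_a9d3bd_y.Dvc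
import Pool.Agent.MP_a9d3bd_y.Fib
import Pool.Agent.MP_a9d3bd_y.Eta
import Pool.Agent.MP_a9d3bd_yy.Dv
import Pool.Agent.MP_a9d3bd_yy.Pl
import Pool.Agent.MP_a9d3bd_yy.Ctr
import Pool.Agent.MP_a9d3bd_g.CCore

/-! The statement for sections. -/

namespace Pool.Agent.MP_a9d3bd_y

open Pool.Agent.MP_a9d3bd_q
open Pool.Agent.MP_a9d3bd_x (LF GF)

theorem ucore_alg {K : Type} [Field K] (p : ℕ) [hp : Fact p.Prime]
    (halg : ∀ c : K, ∃ n, 0 < n ∧ c ^ p ^ n = c) (c : K) (hc : c ≠ 0) :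
    ∃ n, 0 < n ∧ c ^ n = 1 := by
  obtain ⟨n, hn, e⟩ := halg c
  have h1 : 1 < p ^ n := Nat.one_lt_pow hn.ne' hp.out.one_lt
  refine ⟨p ^ n - 1, by omega, mul_right_cancel₀ hc ?_⟩
  rw [← pow_succ, Nat.sub_add_cancel h1.le, e, one_mul]

theorem ucore_bas (K : Type) [Field K] [IsAlgClosed K] : UBas K := by
  intro A B J _ _ _ _ _ _ _ _ _ _ _ P i T Θ hP hS
  obtain ⟨a, b, c, d, e⟩ := tBas K A B J P i T Θ hP hS
  exact ⟨a, b, c, d, fun s hI => have hs := (e s 0 0 0 2 hI le_rfl).1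
    ⟨hs, it_ind i c _ hS.tr s hs, tbas_all hP hS _ (tbas_up i hI T) (tbas_snd _ _)⟩⟩

theorem coreT' (p : ℕ) [Fact p.Prime] {K ι : Type} [Field K] [IsAlgClosed K] [CharP K p]
    [Finite ι] (halg : ∀ c : K, ∃ n, 0 < n ∧ c ^ p ^ n = c) {S : Set (MvPolynomial ι K)}
    (hS : Homog S) {Λ : LF K ι} (hΛ : GF S Λ) : CoreT' S Λ :=
  have a := tLe K (sBnd K)
  have c := MP_a9d3bd_yy.sPl (K := K) MP_a9d3bd_yy.sCtr
  uAll S Λ (tCmp K) (uOne p (ucore_alg p halg)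
    (uCho K (tSel K) (sBval K) (tFin K) (sFib K) (sEta K) (uAv K) (ucore_bas K) (uLeb K) (uDer K) a
      (uRf K (sFib K)) (uInd K) (uSp K))
    (tHh K a (sTwo K) (sMin K) (tSim K) (sCon K))
    (tGj K a (sMin K) (tSim K) (sCon K) (tGp K)) (tFf K) (tHi K) (sUni K) (sPos K)
    (sDvc K c (MP_a9d3bd_yy.sDv c MP_a9d3bd_yy.sCtr) MP_a9d3bd_yy.sCtr)
    (fun _ _ _ h hl _ _ Z F G g n hP hz => MP_a9d3bd_g.core p halg h hl Z F G g n hP hz) hS hΛ)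

end Pool.Agent.MP_a9d3bd_y
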