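import Pool.Agent.MP_a9d3bd_y.MSt
import Pool.Agent.MP_a9d3bd_x.B4

/-! A curve with constant projection is a point. -/

namespace Pool.Agent.MP_a9d3bd_y

open Polynomial Pool.Agent.MP_a9d3bd_q

theorem udeg_form {K ι : Type} [Field K] [Fintype ι] (h : ι → K) :
    ∃ F : MvPolynomial ι K, F.IsHomogeneous 1 ∧
      ∀ (B : Type) [CommRing B] [Algebra K B] (y : ι → B), MvPolynomial.aeval y F = lf h y := by
  refine ⟨∑ a, MvPolynomial.C (h a) * MvPolynomial.X a,
    MvPolynomial.IsHomogeneous.sum _ _ _ fun a _ => (MvPolynomial.isHomogeneous_X K a).C_mul _,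
    fun B _ _ y => ?_⟩
  simp [lf, Algebra.smul_def]

theorem uDeg (K : Type) [Field K] [IsAlgClosed K] : UDeg K := by
  intro ι τ _ S h hS hN E _ _ hE y κ v hy hon hl
  obtain ⟨o, ho⟩ := hN E y hy hon
  have hκ : κ ≠ 0 := fun e => ho (by rw [hl, e, zero_mul])
  by_cases ha : ∀ a, IsAlgebraic K (y a / κ)
  · obtain ⟨i, hi⟩ := Function.ne_iff.1 hy
    refine MP_a9d3bd_x.B4_nd hE (i := i) hi fun a => ?_
    have e : y a / y i = y a / κ * (y i / κ)⁻¹ := by
      have : y i ≠ 0 := hi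
      field_simp
    rw [e]
    exact (ha a).mul (ha i).inv
  · exfalso
    obtain ⟨a, ha⟩ := not_forall.1 ha
    have ht : Transcendental K (y a / κ)⁻¹ := fun h' => ha (IsAlgebraic.inv_iff.1 h')
    obtain ⟨O, hO⟩ := exists_ord_pos hE ht
    have hya : y a ≠ 0 := fun e => ha (by rw [e, zero_div]; exact isAlgebraic_zero)
    rw [O.ord_inv, O.ord_div hya hκ] at hO
    have hm := O.mu_le hya
    obtain ⟨o', ho'⟩ := hN O.K (O.red y) (O.red_ne hy) (O.on_red hS hon)
    obtain ⟨F, hF, hev⟩ := udeg_form (h o')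
    refine ho' ?_
    rw [← hev]
    by_cases h0 : MvPolynomial.aeval y F = 0
    · exact O.aeval_red_of_zero hF h0
    · rw [O.aeval_red_eq_zero_iff hF h0]
      rw [hev, hl] at h0 ⊢
      rw [O.ord_mul hκ (right_ne_zero_of_mul h0), O.ord_algebraMap]
      push_cast
      omega

end Pool.Agent.MP_a9d3bd_y
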