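import Pool.Agent.MP_a9d3bd_y.MSt

namespace Pool.Agent.MP_a9d3bd_y

open Polynomial Pool.Agent.MP_a9d3bd_q

theorem ufrob_pow {K : Type} [Field K] {p k : ℕ} {c : K} (h : c ^ p ^ k = c) (j : ℕ) :
    c ^ p ^ (k * j) = c := by
  induction j with
  | zero => rw [Nat.mul_zero, pow_zero, pow_one]
  | succ j ih => rw [Nat.mul_succ, pow_add, pow_mul c, ih, h]

theorem ufrob_map {K σ : Type} [Field K] (R : Finset (MvPolynomial σ K)) (τ : K →+* K)
    (h : ∀ r ∈ R, MvPolynomial.map τ r = r) {F : MvPolynomial σ K}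
    (hF : F ∈ Ideal.span (R : Set (MvPolynomial σ K))) :
    MvPolynomial.map τ F ∈ Ideal.span (R : Set (MvPolynomial σ K)) := by
  have h1 : Ideal.span (R : Set (MvPolynomial σ K)) ≤
      (Ideal.span (R : Set (MvPolynomial σ K))).comap (MvPolynomial.map τ) :=
    Ideal.span_le.2 fun r hr => by
      rw [SetLike.mem_coe, Ideal.mem_comap, h r hr]
      exact Ideal.subset_span hr
  exact h1 hF

theorem uFrob (K : Type) [Field K] [IsAlgClosed K] : UFrob K := by
  classical
  intro p _ _ hc A _ _ _ hA G hG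
  have : CharP A p := charP_of_injective_algebraMap (algebraMap K A).injective p
  obtain ⟨s, hs⟩ := hA.out
  let T : Finset A := s ∪ hG.toFinset
  let π : MvPolynomial T K →ₐ[K] A := MvPolynomial.aeval Subtype.val
  have hπ : Function.Surjective π := by
    rw [← AlgHom.range_eq_top, ← Algebra.adjoin_range_eq_range_aeval, eq_top_iff, ← hs]
    exact Algebra.adjoin_mono fun a ha => ⟨⟨a, Finset.mem_union_left _ ha⟩, rfl⟩
  obtain ⟨R, hR⟩ : (RingHom.ker π).FG := IsNoetherian.noetherian _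
  choose k k0 hk using hc
  refine ⟨∏ c ∈ R.biUnion MvPolynomial.coeffs, k c, Finset.prod_pos fun c _ => k0 c, fun n => ?_⟩
  generalize hN : (∏ c ∈ R.biUnion MvPolynomial.coeffs, k c) * n = N
  let τ : K ≃+* K := iterateFrobeniusEquiv K p N
  have h1 : ∀ r ∈ R, MvPolynomial.map (τ : K →+* K) r = r := fun r hr => by
    ext m
    rw [MvPolynomial.coeff_map]
    by_cases h0 : MvPolynomial.coeff m r = 0
    · rw [h0, map_zero]
    · obtain ⟨j, hj⟩ : k (MvPolynomial.coeff m r) ∣ N := hN ▸ (Finset.dvd_prod_of_mem k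
        (Finset.mem_biUnion.2 ⟨r, hr, MvPolynomial.coeff_mem_coeffs m h0⟩)).mul_right n
      change MvPolynomial.coeff m r ^ p ^ N = _
      rw [hj]
      exact ufrob_pow (hk _) j
  have h2 : ∀ F : MvPolynomial T K,
      MvPolynomial.map (τ : K →+* K) (MvPolynomial.map (τ.symm : K →+* K) F) = F := fun F => by
    rw [MvPolynomial.map_map, RingEquiv.comp_symm, MvPolynomial.map_id]
  have h3 : ∀ r ∈ R, MvPolynomial.map (τ.symm : K →+* K) r = r := fun r hr =>
    MvPolynomial.map_injective (τ : K →+* K) τ.injective ((h2 r).trans (h1 r hr).symm)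
  let ψ : MvPolynomial T K →ₐ[K] A := MvPolynomial.aeval fun t => (t : A) ^ p ^ N
  have h4 : (ψ : MvPolynomial T K →+* A).comp (MvPolynomial.map (τ : K →+* K)) =
      (iterateFrobenius A p N).comp (π : MvPolynomial T K →+* A) := by
    refine MvPolynomial.ringHom_ext (fun c => ?_) fun t => ?_
    · simp [ψ, π, τ, iterateFrobenius_def]
    · simp [ψ, π, iterateFrobenius_def]
  have h5 : ∀ F, ψ F = π (MvPolynomial.map (τ.symm : K →+* K) F) ^ p ^ N := fun F => by
    conv_lhs => rw [← h2 F]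
    exact RingHom.congr_fun h4 _
  have h6 : ∀ F, ψ F = 0 ↔ π F = 0 := fun F => by
    rw [h5, pow_eq_zero_iff (pow_ne_zero _ (Fact.out : p.Prime).ne_zero), ← RingHom.mem_ker,
      ← RingHom.mem_ker, ← hR]
    exact ⟨fun h => h2 F ▸ ufrob_map R _ h1 h, ufrob_map R _ h3⟩
  let φ : A →ₐ[K] A := AlgHom.liftOfSurjective π hπ ψ fun F hF => (h6 F).2 hF
  have h7 : ∀ F, φ (π F) = ψ F := fun F => AlgHom.liftOfSurjective_apply _ _ _ _ _
  refine ⟨φ, (injective_iff_map_eq_zero φ).2 fun a ha => ?_, fun a ha => ?_⟩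
  · obtain ⟨F, rfl⟩ := hπ a
    exact (h6 F).1 ((h7 F).symm.trans ha)
  · have h8 := h7 (MvPolynomial.X ⟨a, Finset.mem_union_right _ (hG.mem_toFinset.2 ha)⟩)
    rwa [MvPolynomial.aeval_X, MvPolynomial.aeval_X] at h8

end Pool.Agent.MP_a9d3bd_y
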