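import Pool.Agent.MP_a9d3bd_y.MSt

namespace Pool.Agent.MP_a9d3bd_y

open Polynomial Pool.Agent.MP_a9d3bd_q

theorem uint_one (p : ℕ) [Fact p.Prime] {R J : Type} [CommRing R] [CharP R p] (μ t : J → R)
    (h : ∀ j k, t j - t k ∈ (Ideal.span {μ j - μ k}).radical) (s : Finset J) :
    ∃ (m : ℕ) (c : R[X]), ∀ j ∈ s, c.eval (μ j) = t j ^ p ^ m := by
  classical
  induction s using Finset.induction_on with
  | empty => exact ⟨0, 0, fun j hj => absurd hj (Finset.notMem_empty j)⟩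
  | insert k s _ ih =>
    obtain ⟨m, c, hc⟩ := ih
    have he : t k ^ p ^ m - c.eval (μ k) ∈ (Ideal.span {∏ j ∈ s, (μ k - μ j)}).radical := by
      rw [Ideal.radical_eq_sInf, Submodule.mem_sInf]
      rintro P ⟨hP, hp⟩
      obtain ⟨j, hj, h1⟩ := Ideal.IsPrime.prod_mem_iff.1
        ((Ideal.span_singleton_le_iff_mem P).1 hP)
      have h2 : t k - t j ∈ P :=
        (hp.radical_le_iff.2 ((Ideal.span_singleton_le_iff_mem P).2 h1)) (h k j)
      have h3 := Ideal.mem_of_dvd P (sub_dvd_pow_sub_pow (t k) (t j) (p ^ m)) h2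
      have h4 := Ideal.mem_of_dvd P (sub_dvd_eval_sub (μ k) (μ j) c) h1
      have h5 := P.sub_mem h3 h4
      rw [hc j hj, sub_sub_sub_cancel_right] at h5
      exact h5
    obtain ⟨n, hn⟩ := he
    have h6 := Ideal.pow_mem_of_pow_mem _ hn
      (Nat.lt_pow_self (Fact.out : p.Prime).one_lt : n < p ^ n).le
    obtain ⟨a, ha⟩ := Ideal.mem_span_singleton'.1 h6
    refine ⟨m + n, c ^ p ^ n + C a * ∏ j ∈ s, (X - C (μ j)), fun j hj => ?_⟩
    rw [eval_add, eval_pow, eval_mul, eval_C, eval_prod]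
    simp only [eval_sub, eval_X, eval_C]
    rcases Finset.mem_insert.1 hj with rfl | hj
    · rw [ha, sub_pow_char_pow, pow_add, pow_mul, add_sub_cancel]
    · rw [Finset.prod_eq_zero hj (sub_self _), mul_zero, add_zero, hc j hj, pow_add, pow_mul]

theorem uint_all (p : ℕ) [Fact p.Prime] (R σ J : Type) [CommRing R] [CharP R p] [Finite σ]
    [Finite J] (μ : J → R) (t : J → σ → R)
    (h : ∀ j k s, t j s - t k s ∈ (Ideal.span {μ j - μ k}).radical) :
    ∃ m₀ : ℕ, ∀ m, m₀ ≤ m → ∃ c : σ → R[X], ∀ j s, (c s).eval (μ j) = t j s ^ p ^ m := by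
  have := Fintype.ofFinite J
  choose m c hc using fun s => uint_one p μ (fun j => t j s) (fun j k => h j k s) Finset.univ
  obtain ⟨M, hM⟩ := (Set.finite_range m).bddAbove
  refine ⟨M, fun n hn => ⟨fun s => c s ^ p ^ (n - m s), fun j s => ?_⟩⟩
  rw [eval_pow, hc s j (Finset.mem_univ j), ← pow_mul, ← pow_add,
    Nat.add_sub_cancel' ((hM ⟨s, rfl⟩).trans hn)]

theorem uInt : UInt :=
  fun p _ R σ J _ _ _ _ μ t h => uint_all p R σ J μ t h

end Pool.Agent.MP_a9d3bd_y
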