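import Pool.Agent.MP_a9d3bd_y.MSt
import Pool.Agent.MP_a9d3bd_y.TFin

/-! A separating linear combination. -/

namespace Pool.Agent.MP_a9d3bd_y

open Polynomial Pool.Agent.MP_a9d3bd_q

theorem ulin_av {K V σ I : Type} [Field K] [Infinite K] [AddCommGroup V] [Module K V] [Fintype σ]
    [Finite I] (w : I → σ → V) : ∃ l : σ → K, ∀ i, w i ≠ 0 → ∑ s, l s • w i s ≠ 0 := by
  classical
  obtain ⟨l, hl⟩ := Submodule.exists_forall_notMem_of_forall_ne_top
    (fun i : {i // w i ≠ 0} => LinearMap.ker (Fintype.linearCombination K (w i)))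
    (fun i e => i.2 (funext fun s => by
      have : (Pi.single s 1 : σ → K) ∈ LinearMap.ker (Fintype.linearCombination K (w i)) := by
        rw [e]; trivial
      rwa [LinearMap.mem_ker, Fintype.linearCombination_apply_single, one_smul] at this))
  exact ⟨l, fun i hi e => hl ⟨i, hi⟩ e⟩

theorem ulin_core {K A J σ : Type} [Field K] [Infinite K] [CommRing A] [Nontrivial A]
    [Algebra K A] [Finite J] [Finite σ] (x : A) (hx : ∀ c, x - algebraMap K A c ≠ 0)
    (hfin : ∀ a : A, a ≠ 0 → {β : A →ₐ[K] K | β a = 0}.Finite) (t : J → σ → A)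
    (Z : Finset (A →ₐ[K] K)) :
    ∃ (μ : J → A) (f : K[X]), f.Monic ∧ (∀ β ∈ Z, f.eval (β x) ≠ 0) ∧
      ∀ β : A →ₐ[K] K, f.eval (β x) ≠ 0 → ∀ j k,
        β (μ j) = β (μ k) ↔ ∀ s, β (t j s) = β (t k s) := by
  classical
  let _ := Fintype.ofFinite σ
  have hZ : {β : A →ₐ[K] K | ∃ β' ∈ Z, β x = β' x}.Finite := by
    refine (Z.finite_toSet.biUnion fun β' _ => hfin _ (hx (β' x))).subset ?_
    rintro β ⟨β', h1, h2⟩
    exact Set.mem_biUnion h1 (by simp [h2])
  have := hZ.to_subtype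
  obtain ⟨l, hl⟩ := ulin_av (K := K)
    (fun (i : J × J × Option {β : A →ₐ[K] K | ∃ β' ∈ Z, β x = β' x}) (s : σ) =>
      (i.2.2.elim (t i.1 s - t i.2.1 s)
        fun β => algebraMap K A (β.1 (t i.1 s - t i.2.1 s)) : A))
  obtain ⟨μ, hμ⟩ : ∃ μ : J → A, ∀ j, μ j = ∑ s, l s • t j s := ⟨_, fun _ => rfl⟩
  have hd : ∀ j k, μ j - μ k = ∑ s, l s • (t j s - t k s) := fun j k => by
    simp only [hμ, smul_sub, Finset.sum_sub_distrib]
  have hB : {β : A →ₐ[K] K | ∃ j k, β (μ j) = β (μ k) ∧ ¬ ∀ s, β (t j s) = β (t k s)}.Finite := by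
    refine (Set.finite_iUnion fun i : {i : J × J // μ i.1 - μ i.2 ≠ 0} => hfin _ i.2).subset ?_
    rintro β ⟨j, k, h1, h2⟩
    refine Set.mem_iUnion.2 ⟨⟨(j, k), ?_⟩, by simp [h1]⟩
    rw [hd]
    refine hl (j, k, none) fun e => h2 fun s => ?_
    have : t j s - t k s = 0 := congrFun e s
    rw [sub_eq_zero.1 this]
  refine ⟨μ, ∏ β ∈ hB.toFinset, (X - C (β x)),
    monic_prod_of_monic _ _ fun _ _ => monic_X_sub_C _, fun β hβ => ?_, fun β hβ j k => ?_⟩
  · rw [eval_prod, Finset.prod_ne_zero_iff]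
    intro γ hγ e
    obtain ⟨j, k, h1, h2⟩ := hB.mem_toFinset.1 hγ
    rw [eval_sub, eval_X, eval_C, sub_eq_zero] at e
    refine hl (j, k, some ⟨γ, β, hβ, e.symm⟩) (fun e' => h2 fun s => ?_) ?_
    · have : algebraMap K A (γ (t j s - t k s)) = 0 := congrFun e' s
      rwa [map_eq_zero, map_sub, sub_eq_zero] at this
    · have h3 : algebraMap K A (γ (μ j - μ k)) = 0 := by rw [map_sub, h1, sub_self, map_zero]
      rw [hd, map_sum, map_sum] at h3
      refine Eq.trans (Finset.sum_congr rfl fun s _ => ?_) h3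
      rw [map_smul, smul_eq_mul, map_mul, ← Algebra.smul_def]
      rfl
  · refine ⟨fun h => ?_, fun h => by simp only [hμ, map_sum, map_smul, h]⟩
    by_contra h'
    rw [eval_prod, Finset.prod_ne_zero_iff] at hβ
    exact hβ β (hB.mem_toFinset.2 ⟨j, k, h, h'⟩) (by simp)

theorem uLin (K : Type) [Field K] [IsAlgClosed K] : ULin K := by
  intro A _ _ _ _ _ _ _ J σ _ _ t Z
  refine ulin_core _ (fun c e => X_sub_C_ne_zero c ?_) (tFin K A) t Z
  refine FaithfulSMul.algebraMap_injective K[X] A ?_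
  rw [map_zero, map_sub, ← e, ← algebraMap_eq, ← IsScalarTower.algebraMap_apply]

end Pool.Agent.MP_a9d3bd_y
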