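import Pool.Agent.MP_a9d3bd_y.MSt

namespace Pool.Agent.MP_a9d3bd_y

open Polynomial Pool.Agent.MP_a9d3bd_q
open Pool.Agent.MP_a9d3bd_yy (xA)

variable {K : Type} [Field K]

theorem uloa_trans {R A B : Type} [CommRing R] [CommRing A] [CommRing B] [Algebra R B]
    [Algebra K[X] A] (ψ : A →+* B) (hc : ∀ c : K, IsIntegral R (ψ (algebraMap K[X] A (C c))))
    (hx : IsIntegral R (ψ (algebraMap K[X] A X))) {a : A} (ha : IsIntegral K[X] a) :
    IsIntegral R (ψ a) := by
  have h1 : ∀ p : K[X], (ψ.comp (algebraMap K[X] A)) p ∈ (integralClosure R B).toSubring := by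
    intro p
    induction p using Polynomial.induction_on with
    | C c => exact hc c
    | add p q hp hq => rw [map_add]; exact add_mem hp hq
    | monomial n c h => rw [pow_succ, ← mul_assoc, map_mul]; exact mul_mem h hx
  exact isIntegral_trans (A := integralClosure R B) _
    (IsIntegral.map_of_comp_eq (T := integralClosure R B)
      (RingHom.codRestrict _ (integralClosure R B).toSubring h1) ψ rfl ha)

theorem uloa_gen {A B : Type} [CommRing A] [IsDomain A] [Algebra K A] [Algebra K[X] A]
    [IsScalarTower K K[X] A] [Module.Finite K[X] A] [Module.IsTorsionFree K[X] A] [CommRing B]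
    [IsDomain B] [Algebra K B] [Algebra K[X] B] [IsScalarTower K K[X] B] {p : ℕ} (hp : 0 < p)
    {f : K[X]} (hf : f.Monic) {α : A →ₐ[K] B} {g : B} (h : Lo p f α g) :
    Module.Finite K[X] B ∧ Module.IsTorsionFree K[X] B := by
  have hx : IsIntegral K[X] (α (xA K A)) := by
    have h1 : ((X - C X) * f.map (algebraMap K K[X]) ^ p : K[X][X]).Monic :=
      (monic_X_sub_C _).mul ((hf.map _).pow p)
    refine ⟨(X - C X) * f.map (algebraMap K K[X]) ^ p + 1, h1.add_of_left ?_, ?_⟩
    · rw [degree_one, ← natDegree_pos_iff_degree_pos,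
        (monic_X_sub_C _).natDegree_mul ((hf.map _).pow p), natDegree_X_sub_C]
      omega
    · have h2 := h.inv
      have h3 : algebraMap K[X] B X = α (xA K A) + g ^ p := h.co
      rw [← aeval_algHom_apply] at h2
      rw [← aeval_def, map_add, map_mul, map_pow, map_sub, aeval_X, aeval_C, map_one,
        aeval_map_algebraMap, h3, sub_add_cancel_left, neg_mul, ← mul_pow, h2, one_pow,
        neg_add_cancel]
  have hg : IsIntegral K[X] g := by
    refine IsIntegral.of_pow hp ?_
    rw [← sub_eq_of_eq_add' h.co]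
    exact isIntegral_algebraMap.sub hx
  have hc : ∀ c : K, α (algebraMap K[X] A (C c)) = algebraMap K[X] B (C c) := fun c => by
    rw [← algebraMap_eq, ← IsScalarTower.algebraMap_apply, ← IsScalarTower.algebraMap_apply,
      AlgHom.commutes]
  have ha : ∀ a, IsIntegral K[X] (α a) := fun a =>
    uloa_trans (K := K) (α : A →+* B) (fun c => (hc c).symm ▸ isIntegral_algebraMap) hx
      (Algebra.IsIntegral.isIntegral a)
  have hi : Algebra.IsIntegral K[X] B := ⟨fun b => by
    obtain ⟨a, n, rfl⟩ := h.sur b
    exact (ha a).mul (hg.pow n)⟩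
  have h4 : Algebra.FiniteType K A := Algebra.FiniteType.trans (S := K[X]) inferInstance inferInstance
  have h5 : Algebra.FiniteType K A[X] := Algebra.FiniteType.trans (S := A) h4 inferInstance
  have h6 : Algebra.FiniteType K B := Algebra.FiniteType.of_surjective (aevalTower α g) fun b => by
    obtain ⟨a, n, rfl⟩ := h.sur b
    exact ⟨C a * X ^ n, by simp⟩
  have h7 : Algebra.FiniteType K[X] B := Algebra.FiniteType.of_restrictScalars_finiteType K _ _
  refine ⟨Algebra.IsIntegral.finite, Module.isTorsionFree_iff_algebraMap_injective.2 ?_⟩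
  have h8 : Transcendental K (algebraMap K[X] B X) := fun h9 => by
    have h10 : IsIntegral K (α (xA K A)) :=
      uloa_trans (K := K) (RingHom.id B) (fun c => by
        rw [RingHom.id_apply, ← algebraMap_eq, ← IsScalarTower.algebraMap_apply]
        exact isIntegral_algebraMap) h9.isIntegral hx
    rw [isIntegral_algHom_iff α h.inj, isIntegral_algebraMap_iff
      (Module.isTorsionFree_iff_algebraMap_injective.1 inferInstance)] at h10
    exact transcendental_X K h10.isAlgebraic
  have h11 := transcendental_iff_injective.1 h8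
  intro q r hqr
  apply h11
  rwa [aeval_algebraMap_apply, aeval_algebraMap_apply, aeval_X_left_apply, aeval_X_left_apply]

theorem uLoA (K : Type) [Field K] [IsAlgClosed K] : ULoA K := by
  intro p hp _ A _ _ _ _ _ _ _ f hf
  have h0 : aeval (xA K A) f ≠ 0 := by
    rw [aeval_algebraMap_apply, aeval_X_left_apply]
    exact (map_ne_zero_iff _
      (Module.isTorsionFree_iff_algebraMap_injective.1 inferInstance)).2 hf.ne_zero
  obtain ⟨B, _, _, _, α, g, h1, h2, h3⟩ : ∃ (B : Type) (_ : CommRing B) (_ : IsDedekindDomain B)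
      (_ : Algebra K B) (α : A →ₐ[K] B) (g : B), Function.Injective α ∧
      g * α (aeval (xA K A) f) = 1 ∧ ∀ b : B, ∃ (a : A) (n : ℕ), b = α a * g ^ n := by
    have hM := powers_le_nonZeroDivisors_of_noZeroDivisors h0
    have := IsLocalization.isDomain_localization hM
    have h2 : IsLocalization.Away.invSelf (aeval (xA K A) f) *
        algebraMap A (Localization.Away (aeval (xA K A) f)) (aeval (xA K A) f) = 1 := by
      rw [mul_comm, IsLocalization.Away.mul_invSelf]
    refine ⟨Localization.Away (aeval (xA K A) f), inferInstance,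
      IsLocalization.isDedekindDomain A hM _, inferInstance, IsScalarTower.toAlgHom K A _, _,
      IsLocalization.injective _ hM, h2, fun b => ?_⟩
    obtain ⟨n, a, h⟩ := IsLocalization.Away.surj (aeval (xA K A) f) b
    refine ⟨a, n, ?_⟩
    rw [IsScalarTower.toAlgHom_apply, ← h, mul_assoc, ← mul_pow, mul_comm (algebraMap _ _ _), h2,
      one_pow, mul_one]
  let _ : Algebra K[X] B := (aeval (α (xA K A) + g ^ p) : K[X] →ₐ[K] B).toRingHom.toAlgebra
  have : IsScalarTower K K[X] B := IsScalarTower.of_algebraMap_eq fun c =>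
    ((aeval (α (xA K A) + g ^ p) : K[X] →ₐ[K] B).commutes c).symm
  have h : Lo p f α g := ⟨h1, h2, h3, aeval_X (R := K) _⟩
  obtain ⟨h4, h5⟩ := uloa_gen hp.out.pos hf h
  exact ⟨B, _, inferInstance, _, _, this, h4, h5, α, g, h⟩

end Pool.Agent.MP_a9d3bd_y
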