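import Pool.Agent.MP_a9d3bd_y.MSt

namespace Pool.Agent.MP_a9d3bd_y

open Polynomial Pool.Agent.MP_a9d3bd_q
open Pool.Agent.MP_a9d3bd_yy (xA Dvs)

theorem ulod_pt {K A : Type} [Field K] [IsAlgClosed K] [CommRing A] [Algebra K A]
    [Algebra.FiniteType K A] (m : Ideal A) [m.IsMaximal] :
    ∃ β : A →ₐ[K] K, RingHom.ker β = m := by
  let _ := Ideal.Quotient.field m
  have := finite_of_finite_type_of_isJacobsonRing K (A ⧸ m)
  have hb : Function.Bijective (Algebra.ofId K (A ⧸ m)) :=
    IsAlgClosed.algebraMap_bijective_of_isIntegral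
  refine ⟨(AlgEquiv.ofBijective _ hb).symm.toAlgHom.comp (Ideal.Quotient.mkₐ K m), ?_⟩
  ext x
  simp [RingHom.mem_ker, Ideal.Quotient.eq_zero_iff_mem]

theorem ulod_int {K A E : Type} [Field K] [CommRing A] [Algebra K A] [Algebra K[X] A]
    [IsScalarTower K K[X] A] [Module.Finite K[X] A] [Field E] [Algebra K E] (j : A →ₐ[K] E)
    (O : ValuationSubring E) (hO : ∀ c : K, algebraMap K E c ∈ O) (hx : j (xA K A) ∈ O) (a : A) :
    j a ∈ O := by
  have hp : ∀ p : K[X], ((j : A →+* E).comp (algebraMap K[X] A)) p ∈ O := by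
    intro p
    induction p using Polynomial.induction_on with
    | C c =>
      rw [RingHom.comp_apply, ← Polynomial.algebraMap_eq, ← IsScalarTower.algebraMap_apply]
      exact (j.commutes c).symm ▸ hO c
    | add p q hp hq => rw [map_add]; exact add_mem hp hq
    | monomial n c h => rw [pow_succ, ← mul_assoc, map_mul]; exact mul_mem h hx
  have h' : IsIntegral K[X] a := Algebra.IsIntegral.isIntegral a
  have h'' : IsIntegral O (j a) := by
    obtain ⟨p, hm, hp0⟩ := h'
    refine ⟨p.map (((j : A →+* E).comp (algebraMap K[X] A)).codRestrict O hp), hm.map _, ?_⟩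
    rw [Polynomial.eval₂_map]
    have := congrArg (j : A →+* E) hp0
    rw [Polynomial.hom_eval₂, map_zero] at this
    exact this
  obtain ⟨y, hy⟩ := IsIntegrallyClosed.algebraMap_eq_of_integral h''
  exact hy ▸ y.2

theorem ulod_const {K E : Type} [Field K] [Field E] [Algebra K E] (O : ValuationSubring E)
    (hO : ∀ c : K, algebraMap K E c ∈ O) {c : K} (hc : c ≠ 0) :
    O.valuation (algebraMap K E c) = 1 := by
  have h3 := (O.valuation_le_one_iff _).2 (hO c⁻¹)
  rw [map_inv₀, map_inv₀, inv_le_one₀ (zero_lt_iff.2 (by simpa using hc))] at h3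
  exact le_antisymm ((O.valuation_le_one_iff _).2 (hO c)) h3

theorem ulod_pull {K A E : Type} [Field K] [CommRing A] [IsDomain A] [Algebra K A]
    [Algebra K[X] A] [Field E] [Algebra K E] (ψ : FractionRing A →ₐ[K] E) (j : A →ₐ[K] E)
    (hj : ∀ a, ψ (algebraMap A _ a) = j a) {u : FractionRing A} {ν : (A →ₐ[K] K) →₀ ℤ}
    (hD : Dvs K u ν) (O : ValuationSubring E) (hO : ∀ c : K, algebraMap K E c ∈ O) :
    (j (xA K A) ∉ O → O.valuation (ψ u) = 1) ∧
    ∀ β : A →ₐ[K] K, (∀ a : A, O.valuation (j (a - algebraMap K A (β a))) < 1) →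
      ∀ π : A, β π = 0 → π ∉ RingHom.ker β ^ 2 →
        O.valuation (ψ u) = O.valuation (j π) ^ ν β := by
  have he := (O.valuation.comap (ψ : FractionRing A →+* E)).isEquiv_valuation_valuationSubring
  have hm : ∀ z, z ∈ (O.valuation.comap (ψ : FractionRing A →+* E)).valuationSubring ↔ ψ z ∈ O :=
    fun z => O.valuation_le_one_iff (ψ z)
  obtain ⟨d1, d2⟩ := hD.2 _ fun c => (hm _).2 ((ψ.commutes c).symm ▸ hO c)
  refine ⟨fun hx => he.eq_one_iff_eq_one.2 (d1 fun h => hx (hj _ ▸ (hm _).1 h)),
    fun β hβ π h1 h2 => ?_⟩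
  have h3 := d2 β (fun a => he.lt_one_iff_lt_one.1 (by
    show O.valuation (ψ _) < 1
    rw [hj]
    exact hβ a)) π h1 h2
  rw [← map_zpow₀] at h3
  have h4 : O.valuation (ψ u) = O.valuation (ψ (algebraMap A _ π ^ ν β)) := he.eq_iff.2 h3
  rw [h4, map_zpow₀, map_zpow₀, hj]

theorem uLoD (K : Type) [Field K] [IsAlgClosed K] : ULoD K := by
  intro A B _ _ _ _ _ _ _ _ _ _ _ _ _ _ p f α g lo hE
  have : Algebra.FiniteType K A :=
    Algebra.FiniteType.trans (S := Polynomial K) inferInstance inferInstance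
  let j : A →ₐ[K] FractionRing B := (IsScalarTower.toAlgHom K B (FractionRing B)).comp α
  have hj0 : ∀ a, j a = algebraMap B (FractionRing B) (α a) := fun _ => rfl
  have ij : Function.Injective j := (IsFractionRing.injective B _).comp lo.inj
  let ψ : FractionRing A →ₐ[K] FractionRing B := IsFractionRing.liftAlgHom ij
  have hj : ∀ a, ψ (algebraMap A _ a) = j a := fun a => IsFractionRing.lift_algebraMap ij a
  have hg : algebraMap B (FractionRing B) g * j (aeval (xA K A) f) = 1 := by
    rw [hj0, ← map_mul, lo.inv, map_one]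
  have sB : ∀ b : B, algebraMap B (FractionRing B) b ∈ ψ.fieldRange := fun b => by
    obtain ⟨a, n, rfl⟩ := lo.sur b
    rw [map_mul, map_pow, eq_inv_of_mul_eq_one_left hg, ← hj0, ← hj, ← hj]
    have h : ∀ z, ψ z ∈ ψ.fieldRange := fun z => ⟨z, rfl⟩
    exact mul_mem (h _) (pow_mem (inv_mem (h _)) n)
  have sur : Function.Surjective ψ := fun z => by
    obtain ⟨b, c, -, rfl⟩ := IsFractionRing.div_surjective (A := B) z
    exact div_mem (sB b) (sB c)
  have e := AlgEquiv.ofBijective ψ ⟨ψ.toRingHom.injective, sur⟩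
  have unit : ∀ β : B →ₐ[K] K, β g * β (α (aeval (xA K A) f)) = 1 := fun β => by
    rw [← map_mul, lo.inv, map_one]
  have inj : Function.Injective fun β : B →ₐ[K] K => β.comp α := fun β β' h => by
    have h1 : ∀ a, β (α a) = β' (α a) := fun a => AlgHom.congr_fun h a
    have h2 : β g = β' g := by
      rw [eq_inv_of_mul_eq_one_left (unit β), eq_inv_of_mul_eq_one_left (unit β'), h1]
    ext b
    obtain ⟨a, n, rfl⟩ := lo.sur b
    rw [map_mul, map_mul, map_pow, map_pow, h1, h2]
  refine ⟨⟨?_, e.trdeg_eq ▸ hE.tr⟩, ψ, sur, hj, fun u ν hD hν =>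
    ⟨ν.comapDomain _ inj.injOn, ⟨(_root_.map_ne_zero ψ).2 hD.1, fun O hO => ?_⟩, fun _ => rfl⟩⟩
  · have := hE.ess
    exact Algebra.EssFiniteType.of_surjective ψ sur
  obtain ⟨d1, d2⟩ := ulod_pull ψ j hj hD O hO
  refine ⟨fun hx => ?_, fun β hβ π h1 h2 => ?_⟩
  · by_cases hx' : j (xA K A) ∈ O
    swap
    · exact d1 hx'
    have hgO : algebraMap B (FractionRing B) g ∉ O := fun h => hx (by
      rw [lo.co, map_add, map_pow]
      exact add_mem hx' (pow_mem h p))
    have hA := fun a => (O.valuation_le_one_iff _).2 (ulod_int j O hO hx' a)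
    let m : Ideal A :=
      { carrier := {a | O.valuation (j a) < 1}
        add_mem' := fun {a b} ha hb => by
          show O.valuation (j (a + b)) < 1
          rw [map_add]
          exact O.valuation.map_add_lt ha hb
        zero_mem' := by
          show O.valuation (j 0) < 1
          simp
        smul_mem' := fun c a ha => by
          show O.valuation (j (c * a)) < 1
          rw [map_mul, map_mul, mul_comm]
          exact mul_lt_one_of_lt_of_le ha (hA c) }
    have mm : ∀ a, a ∈ m ↔ O.valuation (j a) < 1 := fun _ => Iff.rfl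
    have pr : m.IsPrime := ⟨fun h => by simpa using (mm 1).1 (h ▸ Submodule.mem_top),
      fun {a b} h => by
        by_contra hc
        rw [not_or, mm, mm, not_lt, not_lt] at hc
        rw [mm, map_mul, map_mul, le_antisymm (hA a) hc.1, le_antisymm (hA b) hc.2, one_mul] at h
        exact lt_irrefl _ h⟩
    have fm : aeval (xA K A) f ∈ m := by
      by_contra hc
      have h1 := congrArg O.valuation hg
      rw [map_mul, le_antisymm (hA _) (not_lt.1 hc), mul_one, map_one] at h1
      exact hgO ((O.valuation_le_one_iff _).1 h1.le)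
    have nb : m ≠ ⊥ := fun h => by
      rw [h, Ideal.mem_bot] at fm
      rw [fm, map_zero, mul_zero] at hg
      exact zero_ne_one hg
    have := pr.isMaximal nb
    obtain ⟨β, hβ⟩ := ulod_pt (K := K) m
    obtain ⟨π, h1, h2⟩ := Ideal.exists_mem_pow_notMem_pow_succ m nb pr.ne_top 1
    have h0 : ν β = 0 := by
      by_contra c
      refine hν β (Finsupp.mem_support_iff.2 c) ?_
      rw [← coe_aeval_eq_eval, aeval_algHom_apply]
      exact RingHom.mem_ker.1 (hβ ▸ fm)
    have h3 := d2 β (fun a => (mm _).1 (hβ ▸ RingHom.mem_ker.2 (by simp))) π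
      (RingHom.mem_ker.1 (hβ ▸ pow_one m ▸ h1)) (hβ ▸ h2)
    rwa [h0, zpow_zero] at h3
  · obtain ⟨a, n, rfl⟩ := lo.sur π
    have g0 : β g ≠ 0 := left_ne_zero_of_mul_eq_one (unit β)
    have vg : O.valuation (algebraMap B (FractionRing B) g) = 1 := by
      have h3 := hβ g
      have h4 := ulod_const O hO g0
      rw [map_sub, ← IsScalarTower.algebraMap_apply, ← h4] at h3
      rw [← h4]
      exact O.valuation.map_eq_of_sub_lt h3
    have a0 : β (α a) = 0 := by
      rw [map_mul, map_pow] at h1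
      exact (mul_eq_zero.1 h1).resolve_right (pow_ne_zero n g0)
    have h3 := d2 (β.comp α) (fun c => by
      rw [hj0, map_sub α, AlgHom.commutes]
      exact hβ (α c)) a a0 fun h => h2 (Ideal.mul_mem_right _ _ (by
        have h5 := Ideal.mem_map_of_mem α h
        rw [Ideal.map_pow] at h5
        exact Ideal.pow_right_mono (Ideal.map_le_iff_le_comap.2 fun c hc => hc) 2 h5))
    rw [h3, map_mul, map_mul, map_pow, map_pow, vg, one_pow, mul_one]
    rfl

end Pool.Agent.MP_a9d3bd_y
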