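import Pool.Agent.MP_a9d3bd_y.MSt

namespace Pool.Agent.MP_a9d3bd_y

open Polynomial Pool.Agent.MP_a9d3bd_q
open Pool.Agent.MP_a9d3bd_yy (xA)

theorem ulos_one {E L : Type} [Field E] [Field L] [Algebra E L] (Ψ : E[X]) (y : L)
    (h0 : aeval y Ψ = 0) (h1 : aeval y (derivative Ψ) ≠ 0) : IsSeparable E y := by
  have hne : Ψ ≠ 0 := fun h => h1 (by simp [h])
  have hint : IsIntegral E y := (show IsAlgebraic _ y from ⟨_, hne, h0⟩).isIntegral
  obtain ⟨Q, hQ⟩ := minpoly.dvd _ y h0
  refine (separable_iff_derivative_ne_zero (minpoly.irreducible hint)).2 fun h => h1 ?_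
  rw [hQ, derivative_mul, h]
  simp

theorem ulos_two {E L R B : Type} [Field E] [Field L] [Algebra E L] [CommRing R] [CommRing B]
    (ι : B →+* L) (hι : Function.Injective ι) (j : R →+* B)
    (hj : ∀ r, ι (j r) ∈ separableClosure E L) (Φ : R[X]) (b : B) (h0 : Φ.eval₂ j b = 0)
    (h1 : (derivative Φ).eval₂ j b ≠ 0) : ι b ∈ separableClosure E L := by
  let j' : R →+* separableClosure E L := (ι.comp j).codRestrict _ hj
  have e : ∀ Ψ : R[X], aeval (ι b) (Ψ.map j') = ι (Ψ.eval₂ j b) := fun Ψ => by
    rw [aeval_def, eval₂_map, hom_eval₂]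
    rfl
  refine IsSeparable.of_algebra_isSeparable_of_isSeparable E
    (ulos_one (Φ.map j') (ι b) ?_ ?_)
  · rw [e, h0, map_zero]
  · rw [derivative_map, e]
    exact (map_ne_zero_iff ι hι).2 h1

theorem uLoS (K : Type) [Field K] [IsAlgClosed K] : ULoS K := by
  intro A B _ _ _ _ _ _ _ _ _ _ _ _ _ _ p hp _ f α g lo sr b
  let _ : Algebra (FractionRing K[X]) (FractionRing B) := FractionRing.liftAlgebra K[X] _
  have hι : Function.Injective (algebraMap B (FractionRing B)) := IsFractionRing.injective _ _
  have s1 : ∀ q : K[X], algebraMap B (FractionRing B) (algebraMap K[X] B q) ∈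
      separableClosure (FractionRing K[X]) (FractionRing B) := fun q => by
    rw [← IsScalarTower.algebraMap_apply,
      IsScalarTower.algebraMap_apply K[X] (FractionRing K[X]) (FractionRing B)]
    exact IntermediateField.algebraMap_mem _ _
  have ef : (f.map C).eval₂ (algebraMap K[X] B) (α (xA K A)) = α (aeval (xA K A) f) := by
    rw [eval₂_map, ← aeval_algHom_apply, aeval_def, IsScalarTower.algebraMap_eq K K[X] B]
    rfl
  have p0 : ((p : ℕ) : K[X][X]) = 0 := CharP.cast_eq_zero _ p
  have s2 : algebraMap B (FractionRing B) (α (xA K A)) ∈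
      separableClosure (FractionRing K[X]) (FractionRing B) := by
    refine ulos_two _ hι _ s1 ((X - C X) * (f.map C) ^ p + 1) _ ?_ ?_
    · have c : algebraMap K[X] B X = α (xA K A) + g ^ p := lo.co
      rw [eval₂_add, eval₂_mul, eval₂_pow, ef, eval₂_sub, eval₂_X, eval₂_C, eval₂_one, c]
      have := congrArg (· ^ p) lo.inv
      simp only [mul_pow, one_pow] at this
      linear_combination -this
    · rw [derivative_add, derivative_mul, derivative_pow, map_natCast, p0]
      simp only [derivative_X_sub_C, derivative_one, zero_mul, mul_zero, add_zero, one_mul]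
      rw [eval₂_pow, ef]
      exact pow_ne_zero _ (right_ne_zero_of_mul_eq_one lo.inv)
  have s3 : ∀ q : K[X], algebraMap B (FractionRing B) (α (algebraMap K[X] A q)) ∈
      separableClosure (FractionRing K[X]) (FractionRing B) := fun q => by
    induction q using Polynomial.induction_on' with
    | add u v hu hv =>
      rw [map_add, map_add, map_add]
      exact add_mem hu hv
    | monomial n k =>
      rw [← C_mul_X_pow_eq_monomial, map_mul, map_mul, map_mul, map_pow, map_pow, map_pow]
      refine mul_mem ?_ (pow_mem s2 n)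
      rw [← algebraMap_eq, ← IsScalarTower.algebraMap_apply, α.commutes,
        IsScalarTower.algebraMap_apply K K[X] B]
      exact s1 _
  have s4 : ∀ a : A, algebraMap B (FractionRing B) (α a) ∈
      separableClosure (FractionRing K[X]) (FractionRing B) := fun a => by
    obtain ⟨Φ, h0, h1⟩ := sr a
    have e : ∀ Ψ : K[X][X], Ψ.eval₂ ((α : A →+* B).comp (algebraMap K[X] A)) (α a) =
        α (aeval a Ψ) := fun Ψ => (hom_eval₂ Ψ (algebraMap K[X] A) (α : A →+* B) a).symm
    refine ulos_two _ hι ((α : A →+* B).comp (algebraMap K[X] A)) s3 Φ _ ?_ ?_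
    · rw [e, h0, map_zero]
    · rw [e]
      exact (map_ne_zero_iff α lo.inj).2 h1
  have s5 : algebraMap B (FractionRing B) g ∈
      separableClosure (FractionRing K[X]) (FractionRing B) := by
    have := congrArg (algebraMap B (FractionRing B)) lo.inv
    rw [map_mul, map_one] at this
    rw [eq_inv_of_mul_eq_one_left this]
    exact inv_mem (s4 _)
  have s6 : IsSeparable (FractionRing K[X]) (algebraMap B (FractionRing B) b) := by
    obtain ⟨a, n, rfl⟩ := lo.sur b
    rw [← mem_separableClosure_iff, map_mul, map_pow]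
    exact mul_mem (s4 a) (pow_mem s5 n)
  have hb : IsIntegral K[X] b := Algebra.IsIntegral.isIntegral b
  refine ⟨minpoly K[X] b, minpoly.aeval _ _, fun h => ?_⟩
  have := Separable.aeval_derivative_ne_zero s6
    (minpoly.aeval _ (algebraMap B (FractionRing B) b))
  rw [minpoly.isIntegrallyClosed_eq_field_fractions _ _ hb, derivative_map, aeval_map_algebraMap,
    aeval_algebraMap_apply, h, map_zero] at this
  exact this rfl

end Pool.Agent.MP_a9d3bd_y
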