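import Pool.Agent.MP_a9d3bd_y.MSt
import Pool.Agent.MP_a9d3bd_x.AX

/-! From separated sections to all sections. -/

namespace Pool.Agent.MP_a9d3bd_y

open Polynomial Pool.Agent.MP_a9d3bd_q
open Pool.Agent.MP_a9d3bd_yy (xA Dvs)
open Pool.Agent.MP_a9d3bd_x (LF GF)

variable {K ι τ σ : Type} [Field K]

theorem em_map {B B' : Type} [CommRing B] [Algebra K B] [CommRing B'] [Algebra K B']
    (φ : B →ₐ[K] B') (x : τ → B) (θ : B) (G : (MvPolynomial τ K)[X]) :
    φ (em x θ G) = em (fun o => φ (x o)) (φ θ) G := by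
  refine (hom_eval₂ G _ (φ : B →+* B') θ).trans ?_
  have : (φ : B →+* B').comp (MvPolynomial.aeval x : MvPolynomial τ K →ₐ[K] B) =
      (MvPolynomial.aeval (fun o => φ (x o)) : MvPolynomial τ K →ₐ[K] B') :=
    RingHom.ext fun F => MvPolynomial.comp_aeval_apply (f := x) φ F
  rw [this]
  rfl

theorem em_map' {B B' : Type} [CommRing B] [Algebra K B] [CommRing B'] [Algebra K B']
    (φ : B →ₐ[K] B') (x : B) (t : σ → B) (θ : B) (G : (MvPolynomial (Option σ) K)[X]) :
    φ (em (oe x t) θ G) = em (oe (φ x) fun s => φ (t s)) (φ θ) G := by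
  rw [em_map]
  congr 2
  funext o
  cases o <;> rfl

theorem coreH_of (p : ℕ) [Fact p.Prime] [CharP K p] (h1 : ULin K) (h2 : ULoA K) (h3 : ULoS K)
    (h4 : ULoD K) [Finite σ] {S : Set (MvPolynomial ι K)} {Λ : LF K ι} (hΛ : GF S Λ)
    {P : (MvPolynomial (Option σ) K)[X]} {Y : ι → (MvPolynomial (Option σ) K)[X]}
    (h : CoreN Λ P Y) : CoreH Λ P Y := by
  classical
  intro A _ _ _ _ _ _ _ hs hF J _ t w u ν r hP hu hd hd' hcl
  obtain ⟨μ, f, fm, f1, f2⟩ := h1 A J σ t (Finset.univ.biUnion fun j => (ν j).support)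
  obtain ⟨B, _, _, _, _, _, _, _, α, g, hl⟩ := h2 p A f fm
  obtain ⟨hF', ψ, hψ, hψ', hD⟩ := h4 A B p f α g hl hF
  choose ν' hν hν' using fun j => hD (u j) (ν j) (hu j) fun β hβ =>
    f1 β (Finset.mem_biUnion.2 ⟨j, Finset.mem_univ j, hβ⟩)
  have hx : Transcendental K (xA K A) := by
    rw [transcendental_algebraMap_iff (FaithfulSMul.algebraMap_injective K[X] A)]
    exact transcendental_X K
  have hf : ∀ β : B →ₐ[K] K, f.eval ((β.comp α) (xA K A)) ≠ 0 := fun β c => by
    have := congrArg β hl.inv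
    rw [map_mul, map_one, ← AlgHom.comp_apply β α, ← aeval_algHom_apply, coe_aeval_eq_eval, c,
      mul_zero] at this
    exact zero_ne_one this
  have key := h B (h3 A B p f α g hl hs) hF' J (α (xA K A)) (fun j s => α (t j s))
    (fun j => α (μ j)) (fun c => hx ((isAlgebraic_algHom_iff α hl.inj).1 c))
    (fun β j k => f2 (β.comp α) (hf β) j k) (fun j => α (w j)) (fun j => ψ (u j)) ν' r
    (fun j => by rw [← em_map', hP, map_zero]) hν
    (fun j => by rw [← em_map']; exact (map_ne_zero_iff _ hl.inj).2 (hd j))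
    (fun j β hβ => by
      rw [← em_map']
      exact hd' j (β.comp α) (by rwa [Finsupp.mem_support_iff, ← hν', ← Finsupp.mem_support_iff]))
    (fun β t0 w0 => by
      simp only [hν']
      exact hcl (β.comp α) t0 w0)
  rw [← key]
  refine Finset.sum_congr rfl fun j _ => ?_
  have e := hΛ.ext _ _ hF hF' ψ
    (fun a => algebraMap A (FractionRing A) (em (oe (xA K A) (t j)) (w j) (Y a))) (u j)
  rw [hdeg_eq_one (AlgHom.fieldRange_eq_top.2 hψ), Nat.cast_one, one_mul] at e
  simp only [hψ', em_map'] at e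
  rw [e]

end Pool.Agent.MP_a9d3bd_y
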