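import Pool.Agent.MP_a9d3bd_y.UM

/-! Separated sections lie on a surface after a Frobenius twist. -/

namespace Pool.Agent.MP_a9d3bd_y

open Polynomial Pool.Agent.MP_a9d3bd_q
open Pool.Agent.MP_a9d3bd_yy (xA Dvs)
open Pool.Agent.MP_a9d3bd_x (LF GF)

variable {K ι σ : Type} [Field K]

/-- The substitution of the curve. -/
noncomputable def unS (K : Type) [Field K] {A : Type} [CommRing A] [Algebra K A] (x : A)
    (c : σ → A[X]) : MvPolynomial (Option σ) K →+* A[X] :=
  (MvPolynomial.aeval (oe (C x) c) : MvPolynomial (Option σ) K →ₐ[K] A[X])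

theorem un_ev {A F : Type} [CommRing A] [Algebra K A] [CommRing F] [Algebra K F] (i : A →ₐ[K] F)
    (T Θ : F) (x : A) (c : σ → A[X]) (G : (MvPolynomial (Option σ) K)[X]) :
    ev i T Θ (G.map (unS K x c)) = em (oe (i x) fun s => (c s).eval₂ (i : A →+* F) T) Θ G := by
  have : (eval₂RingHom (i : A →+* F) T).comp (unS K x c) =
      (MvPolynomial.aeval (oe (i x) fun s => (c s).eval₂ (i : A →+* F) T) :
        MvPolynomial (Option σ) K →ₐ[K] F) := by
    refine MvPolynomial.ringHom_ext (fun k => ?_) fun o => ?_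
    · simp [unS]
    · cases o <;> simp [unS, oe]
  simp only [ev, em, coe_eval₂RingHom, eval₂_map, this]

theorem un_ee {A : Type} [CommRing A] [Algebra K A] (T Θ : A) (x : A) (c : σ → A[X])
    (G : (MvPolynomial (Option σ) K)[X]) :
    (G.map (unS K x c)).evalEval T Θ = em (oe x fun s => (c s).eval T) Θ G := by
  refine Eq.trans ?_ (un_ev (AlgHom.id K A) T Θ x c G)
  have := eval₂_eval₂RingHom_apply (RingHom.id A) T Θ (G.map (unS K x c))
  rw [mapRingHom_id, Polynomial.map_id] at this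
  exact this.symm

theorem un_ne [Fintype ι] {τ E : Type} [Field E] [Algebra K E] {h : Option τ → ι → K} {y : ι → E}
    {x : τ → E} {D : E} (hD : D ≠ 0) (e : ∀ o, lf (h o) y = oe 1 x o * D) : y ≠ 0 := fun c => by
  have := e none
  rw [c] at this
  simp [lf, oe, hD.symm] at this

theorem coreN_of (p : ℕ) [hp : Fact p.Prime] [CharP K p]
    (halg : ∀ c : K, ∃ n, 0 < n ∧ c ^ p ^ n = c) (h1 : UInt) (h2 : URad K) (h3 : UFrob K)
    (h4 : UNd K) (h5 : UVal K) [Fintype ι] [Finite σ] [Nonempty σ] {S : Set (MvPolynomial ι K)}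
    (hS : Homog S) {Λ : LF K ι} (hΛ : GF S Λ) {h : Option (Option σ) → ι → K}
    {P : (MvPolynomial (Option σ) K)[X]} {Y : ι → (MvPolynomial (Option σ) K)[X]}
    (hM : Mo S h P Y) (hT : CoreT' S Λ) : CoreN Λ P Y := by
  classical
  intro A _ _ _ _ _ _ _ hs hF J _ x t μ hx hμ w u ν r hP hu hd hd' hcl
  have ft : Algebra.FiniteType K A :=
    Algebra.FiniteType.trans (S := K[X]) inferInstance inferInstance
  have : CharP A p := charP_of_injective_algebraMap (algebraMap K A).injective p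
  have inj := IsFractionRing.injective A (FractionRing A)
  obtain ⟨m₀, hm₀⟩ := h1 p A σ J μ t fun j k s => h2 A ft _ _ fun β hβ => by
    rw [map_sub, sub_eq_zero] at hβ ⊢
    exact (hμ β j k).1 hβ s
  choose a b hb hab using fun j => IsFractionRing.div_surjective A (u j)
  obtain ⟨m₁, hm₁, hφ⟩ := h3 p halg A ft ({x} ∪ Set.range (fun k : J × σ => t k.1 k.2) ∪
    Set.range w ∪ Set.range a ∪ Set.range b ∪
    Set.range fun j => em (oe x (t j)) (w j) (derivative P)) (by
      simp only [Set.finite_union, Set.finite_singleton, Set.finite_range, and_self])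
  obtain ⟨φ, φi, hφ⟩ := hφ m₀
  obtain ⟨c₀, hc₀⟩ := hm₀ (m₁ * m₀) (Nat.le_mul_of_pos_left _ hm₁)
  set q := p ^ (m₁ * m₀) with hq
  have q0 : q ≠ 0 := pow_ne_zero _ hp.out.ne_zero
  have φt : ∀ j s, φ (t j s) = t j s ^ q := fun j s => hφ _
    (Or.inl (Or.inl (Or.inl (Or.inl (Or.inr ⟨(j, s), rfl⟩)))))
  have φw : ∀ j, φ (w j) = w j ^ q := fun j => hφ _ (Or.inl (Or.inl (Or.inl (Or.inr ⟨j, rfl⟩))))
  have φa : ∀ j, φ (a j) = a j ^ q := fun j => hφ _ (Or.inl (Or.inl (Or.inr ⟨j, rfl⟩)))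
  have φb : ∀ j, φ (b j) = b j ^ q := fun j => hφ _ (Or.inl (Or.inr ⟨j, rfl⟩))
  have φd := fun j => hφ _ (Or.inr ⟨j, rfl⟩)
  obtain ⟨s₀⟩ := ‹Nonempty σ›
  obtain ⟨M, hM'⟩ : ∃ M, ∀ s, (c₀ s).natDegree < M := by
    obtain ⟨M, hM⟩ := (Set.finite_range fun s => (c₀ s).natDegree).bddAbove
    exact ⟨M + 1, fun s => Nat.lt_succ_of_le (hM ⟨s, rfl⟩)⟩
  obtain ⟨D, Dm, Dd, De⟩ : ∃ D : A[X], D.Monic ∧ M ≤ D.natDegree ∧ ∀ j, D.eval (μ j) = 0 := by
    have := monic_prod_X_sub_C μ Finset.univ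
    refine ⟨(∏ j, (X - C (μ j))) * X ^ M, this.mul (monic_X_pow M), ?_, fun j => ?_⟩
    · rw [this.natDegree_mul (monic_X_pow M), natDegree_X_pow]
      omega
    · rw [eval_mul, eval_prod, Finset.prod_eq_zero (Finset.mem_univ j) (by simp), zero_mul]
  obtain ⟨c, cm, cd, ce, cl⟩ : ∃ c : σ → A[X], (c s₀).Monic ∧ 0 < (c s₀).natDegree ∧
      (∀ j s, (c s).eval (μ j) = φ (t j s)) ∧
      ∀ s, s ≠ s₀ → (c s).natDegree < (c s₀).natDegree := by
    have e := natDegree_add_eq_left_of_natDegree_lt ((hM' s₀).trans_le Dd)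
    refine ⟨fun s => if s = s₀ then D + c₀ s else c₀ s, ?_, ?_, fun j s => ?_, fun s hs => ?_⟩ <;>
      beta_reduce
    · rw [if_pos rfl]
      exact Dm.add_of_left (degree_lt_degree ((hM' s₀).trans_le Dd))
    · have := hM' s₀
      rw [if_pos rfl, e]
      omega
    · split_ifs <;> simp [De, hc₀, φt]
    · rw [if_neg hs, if_pos rfl, e]
      exact (hM' s).trans_le Dd
  have hx' : Transcendental K (φ x) := fun c => hx ((isAlgebraic_algHom_iff φ φi).1 c)
  obtain ⟨N, hN⟩ := h5 ι σ S h hS hM.nz A (φ x) c s₀ cm cd cl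
  have hee : ∀ j G, (Polynomial.map (unS K (φ x) c) G).evalEval (μ j) (φ (w j)) =
      φ (em (oe x (t j)) (w j) G) := fun j G => by
    simp only [un_ee, em_map', ce]
  let Φ : FractionRing A →ₐ[K] FractionRing A := IsFractionRing.liftAlgHom
    (g := (IsScalarTower.toAlgHom K A (FractionRing A)).comp φ) (inj.comp φi)
  have hΦ : ∀ z : A, Φ (algebraMap A _ z) = algebraMap A _ (φ z) := fun z =>
    IsFractionRing.lift_algebraMap (g := ((IsScalarTower.toAlgHom K A (FractionRing A)).comp φ :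
      A →+* FractionRing A)) (inj.comp φi) z
  have hy : ∀ j, (fun a => algebraMap A (FractionRing A) (φ (em (oe x (t j)) (w j) (Y a)))) ≠ 0 ∧
      On S fun a => algebraMap A (FractionRing A) (φ (em (oe x (t j)) (w j) (Y a))) := fun j => by
    have e := em_map ((IsScalarTower.toAlgHom K A (FractionRing A)).comp φ) (oe x (t j)) (w j)
    have d : ((IsScalarTower.toAlgHom K A (FractionRing A)).comp φ)
        (em (oe x (t j)) (w j) (derivative P)) ≠ 0 := fun c =>
      hd j (φi ((inj (c.trans (map_zero _).symm)).trans (map_zero φ).symm))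
    rw [e] at d
    obtain ⟨o1, o2⟩ := hM.on _ _ _ (by rw [← e, hP, map_zero]) d
    have o3 := un_ne d o2
    simp only [← e] at o1 o3
    exact ⟨o3, o1⟩
  have key := hT A hs hF (P.map (unS K (φ x) c)) (fun a => (Y a).map (unS K (φ x) c)) N
    (hM.mon.map _) (fun F _ _ i T Θ hF2 tr on _ d => by
      rw [derivative_map] at d
      simp only [un_ev] at on d ⊢
      obtain ⟨o1, o2⟩ := hM.on F _ Θ on d
      exact ⟨un_ne d o2, o1, h4 ι σ h A hF (φ x) c s₀ hx' cm cd F i T _ _ hF2 tr d o2,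
        hN F i T Θ _ _ hF2 (un_ne d o2) o1 o2⟩)
    J μ (fun j => φ (w j)) u ν r (fun j => by rw [hee, hP, map_zero]) hu
    (fun j => by rw [derivative_map, hee]; exact (map_ne_zero_iff _ φi).2 (hd j))
    (fun j β hβ => by
      rw [derivative_map, hee, φd, map_pow]
      exact pow_ne_zero _ (hd' j β hβ))
    (fun j => by simp only [hee]; exact (hy j).1)
    (fun β t0 w0 => by
      by_cases e : ∃ k, β (μ k) = t0 ∧ β (φ (w k)) = w0
      · obtain ⟨k, rfl, rfl⟩ := e
        refine Eq.trans (Finset.sum_congr rfl fun j _ => if_congr ?_ rfl rfl)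
          (hcl β (fun s => β (t k s)) (β (w k)))
        rw [hμ, funext_iff, φw, φw, map_pow, map_pow, ← sub_eq_zero (a := β (w j) ^ q), hq,
          ← sub_pow_char_pow, pow_eq_zero_iff q0, sub_eq_zero]
      · exact Finset.sum_eq_zero fun j _ => if_neg fun c => e ⟨j, c⟩)
  simp only [hee] at key
  have d0 : (hdeg Φ : ℚ) ≠ 0 := by exact_mod_cast (hdeg_pos hF hF Φ).ne'
  refine (mul_eq_zero.1 ?_).resolve_left d0
  rw [← mul_zero (q : ℚ), ← key, Finset.mul_sum, Finset.mul_sum]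
  refine Finset.sum_congr rfl fun j _ => ?_
  have e := hΛ.ext _ _ hF hF Φ
    (fun a => algebraMap A (FractionRing A) (em (oe x (t j)) (w j) (Y a))) (u j)
  have eu : Φ (u j) = u j ^ (q : ℤ) := by
    rw [← hab j, map_div₀, hΦ, hΦ, φa, φb, map_pow, map_pow, zpow_natCast, div_pow]
  simp only [hΦ] at e
  rw [eu, hΛ.zpow hF (hy j).1 (hy j).2 (hu j).1] at e
  rw [mul_left_comm, ← e]
  push_cast
  ring

end Pool.Agent.MP_a9d3bd_y
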