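import Pool.Agent.MP_a9d3bd_y.MSt
import Pool.Agent.MP_a9d3bd_y.It

namespace Pool.Agent.MP_a9d3bd_y

open Polynomial Pool.Agent.MP_a9d3bd_q

theorem und_lf {K ι F : Type} [Field K] [Fintype ι] [Field F] [Algebra K F] (h : ι → K)
    (y : ι → F) (a : ι) : lf h y / y a ∈ kf K y := by
  unfold lf
  rw [Finset.sum_div]
  refine sum_mem fun b _ => ?_
  rw [smul_div_assoc]
  exact IntermediateField.smul_mem _
    (IntermediateField.subset_adjoin K {z | ∃ a b, z = y a / y b} ⟨b, a, rfl⟩)

theorem uNd (K : Type) [Field K] [IsAlgClosed K] : UNd K := by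
  intro ι σ _ h A _ _ _ _ _ _ _ x c s₀ hx _ hc F _ _ i T y D hF tr hD hl
  have hi : Function.Injective i := (injective_iff_map_eq_zero i).2 fun a ha =>
    C_eq_zero.1 (tr (C a) (by rw [eval₂_C]; exact ha))
  have tr' : ∀ f : A[X], f.eval₂ (i : A →+* F) ((c s₀).eval₂ (i : A →+* F) T) = 0 → f = 0 := by
    intro f hf
    rcases comp_eq_zero_iff.1 (tr (f.comp (c s₀)) (by rw [eval₂_comp, hf])) with h0 | ⟨-, h0⟩
    · exact h0
    · rw [h0, natDegree_C] at hc
      exact absurd hc (lt_irrefl 0)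
  have hind := (tr_indep_iff hF.tr _).1 (it_ind i hi _ tr' x hx)
  have h0 : lf (h none) y = D := (hl none).trans (one_mul D)
  obtain ⟨a, ha⟩ : ∃ a, y a ≠ 0 := by
    by_contra hn
    push Not at hn
    apply hD
    rw [← h0]
    exact Finset.sum_eq_zero fun b _ => by rw [hn b, smul_zero]
  have key : ∀ o z, lf (h o) y = z * D → z ∈ kf K y := fun o z e => by
    have e1 : z = lf (h o) y / y a / (lf (h none) y / y a) := by
      rw [e, h0]
      field_simp
    rw [e1]
    exact div_mem (und_lf _ _ _) (und_lf _ _ _)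
  have hle : af K ![i x, (c s₀).eval₂ (i : A →+* F) T] ≤ kf K y := by
    refine IntermediateField.adjoin_le_iff.2 ?_
    rintro _ ⟨j, rfl⟩
    fin_cases j
    · exact key _ _ (hl (some none))
    · exact key _ _ (hl (some (some s₀)))
  have h1 := tr_td_mono hF.tr hle
  rw [hind, Fintype.card_fin] at h1
  exact (nd_iff hF y).2 (le_antisymm (tr_td_le hF.tr _) h1)

end Pool.Agent.MP_a9d3bd_y
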