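import Pool.Agent.MP_a9d3bd_y.TSt2
import Pool.Agent.MP_a9d3bd_y.TOne

/-! The statement for the sections, second form. -/

namespace Pool.Agent.MP_a9d3bd_y

open MvPolynomial Pool.Agent.MP_a9d3bd_h Pool.Agent.MP_a9d3bd_q Pool.Agent.MP_a9d3bd_g
open Pool.Agent.MP_a9d3bd_x (LF GF lamz)
open Pool.Agent.MP_a9d3bd_yy (xA Dvs)

variable {K : Type} [Field K]

theorem uOne {ι : Type} [Finite ι] (p : ℕ) [Fact p.Prime] [CharP K p]
    (halg : ∀ c : K, c ≠ 0 → ∃ n, 0 < n ∧ c ^ n = 1) (hCho : UCho K) (hHh : THh K) (hGj : TGj K)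
    (hFf : TFf K) (hHi : THi K) (hUni : SUni K) (hPos : SPos K) (hDvc : SDvc K) (hCore : SCore K)
    {S : Set (MvPolynomial ι K)} (hS : Homog S) {Λ : LF K ι} (hΛ : GF S Λ) : UOne S Λ := by
  intro A B J _ _ _ _ _ _ _ _ _ _ _ P Y N i T Θ φ u ν r hG hy hu hy0 hcl
  rcases isEmpty_or_nonempty J with hJ | hJ
  · exact Finset.sum_eq_zero fun j _ => hJ.elim j
  let Ω := AlgebraicClosure K
  obtain ⟨s, s₀, z, hc⟩ := hCho A B J p P i T Θ φ ν N hJ hy
  obtain ⟨H, W, hh⟩ := hHh A B J i T φ ν N s s₀ z hJ hc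
  choose g hg hp hI hne hsup using hGj A B J i T φ ν N s s₀ z H W hc hh
  have eφ : ∀ j (Q : R3 K), aeval (fun k => φ j (z k)) Q = φ j (aeval z Q) := fun j Q =>
    (comp_aeval_apply (f := z) (φ j) Q).symm
  obtain ⟨j0⟩ := hJ
  obtain ⟨hF2, htop, hker⟩ := hFf B z H W hh.srf hh.ker hh.con fun e => hne j0 (by
    rw [eφ, e, map_zero])
  let b0 : B →ₐ[K] FractionRing B := IsScalarTower.toAlgHom K B (FractionRing B)
  have hb0i : Function.Injective b0 := IsFractionRing.injective B (FractionRing B)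
  have ea := fun Q => (tone_map i T Θ b0 Q).symm
  obtain ⟨y0, yo, yn, yp⟩ := hG (FractionRing B) (b0.comp i) (b0 T) (b0 Θ) hF2
    (fun f hf => hy.sg.tr f (hb0i (by
      rw [map_zero, ← hf]
      exact Polynomial.hom_eval₂ f (i : A →+* B) (b0 : B →+* FractionRing B) T)))
    (by rw [ea, hy.sg.on, map_zero]) (fun v => by
      obtain ⟨c, d, hd, rfl⟩ := IsFractionRing.div_surjective (A := B) v
      obtain ⟨c, rfl⟩ := hy.sg.gen c
      obtain ⟨d, rfl⟩ := hy.sg.gen d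
      have h1 : b0 (ev i T Θ d) ≠ 0 := (map_ne_zero_iff _ hb0i).2 (nonZeroDivisors.ne_zero hd)
      exact ⟨c, d, by rwa [ea], by rw [ea, ea]; exact div_mul_cancel₀ _ h1⟩) (by
      rw [ea, map_ne_zero_iff _ hb0i]
      intro e
      exact hy.adm j0 (by rw [← tone_sec T Θ (hy.sec j0), e, map_zero]))
  have hs := hh.srf
  rw [← hker] at hs
  have hAx := MP_a9d3bd_x.ax halg hS hΛ hF2 y0 yo yn htop hs fun O hO => by
    obtain ⟨q1, q2⟩ := hHi (FractionRing B) O hF2
    rcases yp O hO with ⟨a1, a2, Q, a3⟩ | ⟨a1, a2⟩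
    · refine Or.inl (q1 B b0 _ z hc.itT hh.it (fun k => ?_) ⟨ev i T Θ Q, by rwa [← ea]⟩)
      fin_cases k
      · exact a1
      · exact a2
    · obtain ⟨c1, c2, c3⟩ := hc.inf (FractionRing B) b0 O.O (fun k => by
        rw [RingHom.coe_coe, AlgHom.commutes]; exact O.const k) a1 a2
      exact Or.inr ⟨(q2 _ _ c1 c2).1, (q2 _ _ c1 c2).2, (q2 _ _ c1 c3).2⟩
  choose n a b hN hab ha hb hb0 using fun j => hUni A B J Ω halg (u j) (ν j)
    (aeval (fun k => φ j (z k)) (pderiv 1 (g j) * pderiv 2 H)) hy.ff (hu j)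
    (by rw [map_mul]; exact mul_ne_zero (hg j).ne (hne j)) (hsup j)
  have hH : ∀ j, aeval (fun k => φ j (z k)) H = 0 := fun j => by
    rw [eφ, (hh.ker H).1 (hh.srf.eq ▸ Ideal.mem_span_singleton_self H), map_zero]
  choose hB' ht F G hF hG' hq using fun j => hPos A B J Ω (u j) (ν j) _ H (g j) (n j) (a j) (b j)
    hy.ff (hu j) (hI j) (hH j) (hg j) (hp j) (hab j) (ha j) (hb j) (hb0 j)
  have hN' : ∀ j, (n j : ℚ) ≠ 0 := fun j => by exact_mod_cast (hN j).ne'
  have key := hCore H _ _ hs hAx J _ F G g (fun j => r j / n j) hq fun x => by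
    rw [← tone_cl hy.sg.gen φ hy.sec z ν r hcl x]
    refine Finset.sum_congr rfl fun j _ => ?_
    rw [hDvc A B J Ω (u j) (ν j) _ (F j) (G j) (n j) hy.ff (hu j) (hI j) (hB' j)
      (hG' j ▸ hb0 j) (by rw [hF, hG', hab]) x, ← mul_assoc, div_mul_cancel₀ _ (hN' j)]
  refine (Rat.cast_eq_zero (α := ℝ)).1 ?_
  rw [← key, Rat.cast_sum]
  refine Finset.sum_congr rfl fun j _ => ?_
  have eA : ∀ Q : R3 K, aeval (fun k => algebraMap A (FractionRing A) (φ j (z k))) Q =
      algebraMap A _ (aeval (fun k => φ j (z k)) Q) := fun Q =>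
    (comp_aeval_apply (f := fun k => φ j (z k))
      (IsScalarTower.toAlgHom K A (FractionRing A)) Q).symm
  have eB : ∀ Q : R3 K, aeval (fun k => algebraMap B (FractionRing B) (z k)) Q =
      b0 (aeval z Q) := fun Q => (comp_aeval_apply (f := z) b0 Q).symm
  have h3 : aeval (fun k => algebraMap A (FractionRing A) (φ j (z k))) (pderiv 2 H) ≠ 0 := by
    rw [eA]
    exact (map_ne_zero_iff _ (IsFractionRing.injective A _)).2 (hne j)
  have hl := MP_a9d3bd_x.lam_sec hΛ hF2 htop hs hy.ff (ht j) ⟨(hq j).1, (hq j).2.1, 2, h3⟩ (hy0 j)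
    (y := fun a => ev (b0.comp i) (b0 T) (b0 Θ) (Y a)) fun c => by
      obtain ⟨f, hf⟩ := hh.con (ev i T Θ (Y c))
      refine ⟨f, pderiv 2 H, h3, ?_, ?_⟩
      · rw [eB, eB, hf, map_mul, mul_comm, ea]
      · rw [eA, eA, eφ, eφ, hf, map_mul, map_mul, mul_comm, tone_sec T Θ (hy.sec j)]
  have yo' : On S fun c => algebraMap A (FractionRing A) ((Y c).evalEval (φ j T) (φ j Θ)) :=
    fun Q hQ => by
      have e1 := yo Q hQ
      simp only [ea] at e1
      rw [← comp_aeval_apply (f := fun c => ev i T Θ (Y c)) b0, map_eq_zero_iff _ hb0i] at e1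
      simp only [← tone_sec T Θ (hy.sec j)]
      refine (comp_aeval_apply (f := fun c => ev i T Θ (Y c))
        ((IsScalarTower.toAlgHom K A (FractionRing A)).comp (φ j)) Q).symm.trans ?_
      rw [e1, map_zero]
  rw [hl, hl, eA, eA, hF, hG', hab, hΛ.mul _ hy.ff _ _ _ (hy0 j) yo' (pow_ne_zero _ (hu j).1)
    ((map_ne_zero_iff _ (IsFractionRing.injective A _)).2 (hb0 j)), ← zpow_natCast,
    hΛ.zpow hy.ff (hy0 j) yo' (hu j).1]
  have : (n j : ℝ) ≠ 0 := by exact_mod_cast (hN j).ne'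
  push_cast
  field_simp
  ring

theorem uAll {ι : Type} (S : Set (MvPolynomial ι K))
    (L : MP_a9d3bd_x.LF K ι) (h1 : TCmp K) (h2 : UOne S L) : CoreT' S L := by
  intro A _ _ _ _ _ _ _ hsr hF P Y N hm hG J _ t w u ν r hon hD hadm hsep hY hcl
  classical
  obtain ⟨C, B, _, _, _, i, T, Θ, s1, s2, s3⟩ := h1 A P hm
  choose k φ p1 p2 p3 using fun j => s2 (t j) (w j) (hon j)
  rw [← Finset.sum_fiberwise_of_maps_to (s := Finset.univ) (t := Finset.univ.image k) (g := k)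
    fun j hj => Finset.mem_image_of_mem k hj]
  refine Finset.sum_eq_zero fun c hc => ?_
  rw [Finset.sum_subtype (p := fun j => k j = c) _ (by simp)]
  have tr : ∀ j : {j // k j = c}, ∃ ψ : B c →ₐ[K] A,
      (∀ a, ψ (i c a) = a) ∧ ψ (T c) = t j ∧ ψ (Θ c) = w j := by
    rintro ⟨j, rfl⟩
    exact ⟨φ j, p1 j, p2 j, p3 j⟩
  choose ψ q1 q2 q3 using tr
  have key := h2 A (B c) {j // k j = c} P Y N (i c) (T c) (Θ c) ψ (fun j => u j)
    (fun j => ν j) (fun j => r j) hG ⟨hm, hsr, hF, s1 c, q1, fun j => by rw [q2, q3]; exact hadm j,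
      fun j => by rw [q2, q3]; exact hsep j⟩ (fun j => hD j)
    (fun j => by rw [q2, q3]; exact hY j)
    fun β t0 w0 => by
      simp only [q2, q3]
      by_cases hx : ∃ j : {j // k j = c}, (β (t j) = t0 ∧ β (w j) = w0) ∧ ν j β ≠ 0
      · obtain ⟨j0, ⟨a1, a2⟩, a3⟩ := hx
        refine Eq.trans ?_ (hcl β t0 w0)
        rw [← Finset.sum_filter_of_ne (s := Finset.univ) (p := fun j => k j = c) fun j _ hj => ?_,
          Finset.sum_subtype (p := fun j => k j = c) _ (by simp)]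
        have b : β (t j) = t0 ∧ β (w j) = w0 := by_contra fun h => hj (if_neg h)
        refine ((s3 (k j0) (k j) (β.comp (φ j0)) (β.comp (φ j)) (AlgHom.ext fun a => ?_) ?_ ?_
          ?_).symm).trans j0.2
        · simp only [AlgHom.comp_apply, p1]
        · simp only [AlgHom.comp_apply, p2, a1, b.1]
        · simp only [AlgHom.comp_apply, p3, a2, b.2]
        · rw [AlgHom.comp_apply, tone_sec _ _ (p1 j0), p2, p3]
          exact hsep j0 β (Finsupp.mem_support_iff.2 a3)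
      · refine Finset.sum_eq_zero fun j _ => ?_
        split_ifs with h
        · rw [not_not.1 fun h' => hx ⟨j, h, h'⟩, Int.cast_zero, mul_zero]
        · rfl
  simp only [q2, q3] at key
  exact key

end Pool.Agent.MP_a9d3bd_y
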