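import Pool.Agent.MP_a9d3bd_y.MSt

/-! The Nullstellensatz. -/

namespace Pool.Agent.MP_a9d3bd_y

open Polynomial Pool.Agent.MP_a9d3bd_q

theorem urad_pt {K A : Type} [Field K] [IsAlgClosed K] [CommRing A] [Algebra K A]
    [Algebra.FiniteType K A] (m : Ideal A) (hm : m.IsMaximal) :
    ∃ β : A →ₐ[K] K, ∀ a, β a = 0 ↔ a ∈ m := by
  let : Field (A ⧸ m) := Ideal.Quotient.field m
  have h1 : Module.Finite K (A ⧸ m) := finite_of_finite_type_of_isJacobsonRing K (A ⧸ m)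
  have h2 : Function.Bijective (algebraMap K (A ⧸ m)) :=
    IsAlgClosed.algebraMap_bijective_of_isIntegral
  let e : K ≃ₐ[K] (A ⧸ m) := AlgEquiv.ofBijective (Algebra.ofId K (A ⧸ m)) h2
  refine ⟨(e.symm : (A ⧸ m) →ₐ[K] K).comp (Ideal.Quotient.mkₐ K m), fun a => ?_⟩
  change e.symm (Ideal.Quotient.mk m a) = 0 ↔ _
  rw [map_eq_zero_iff _ e.symm.injective, Ideal.Quotient.eq_zero_iff_mem]

theorem uRad (K : Type) [Field K] [IsAlgClosed K] : URad K := by
  intro A _ _ hA a D h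
  have hJ : IsJacobsonRing A := isJacobsonRing_of_finiteType (A := K)
  rw [← hJ.out (Ideal.radical_isRadical (Ideal.span {D})), Ideal.jacobson, Ideal.mem_sInf]
  rintro m ⟨h1, hm⟩
  obtain ⟨β, hβ⟩ := urad_pt (K := K) m hm
  exact (hβ a).1 (h β ((hβ D).2 (h1 (Ideal.le_radical (Ideal.mem_span_singleton_self D)))))

end Pool.Agent.MP_a9d3bd_y
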