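import Pool.Agent.MP_a9d3bd_y.MSt

/-! The places of the surface. -/

namespace Pool.Agent.MP_a9d3bd_y

open Polynomial Pool.Agent.MP_a9d3bd_q
open Pool.Agent.MP_a9d3bd_yy (xA)

theorem uval_lf {K F ι : Type} [Field K] [Field F] [Algebra K F] [Fintype ι] (O : DV K F)
    (h : ι → K) (y : ι → F) : lf h y * O.pi ^ (-O.mu y) ∈ O.O ∧
      lf h (O.red y) = O.res (lf h y * O.pi ^ (-O.mu y)) := by
  have e : lf h y * O.pi ^ (-O.mu y) =
      ∑ a, algebraMap K F (h a) * (y a * O.pi ^ (-O.mu y)) := by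
    simp only [lf, Finset.sum_mul, Algebra.smul_def, mul_assoc]
  have m : ∀ a, algebraMap K F (h a) * (y a * O.pi ^ (-O.mu y)) ∈ O.O := fun a =>
    mul_mem (O.const _) (O.norm_mem y a)
  rw [e]
  refine ⟨sum_mem fun a _ => m a, ?_⟩
  rw [O.res_sum _ _ fun a _ => m a]
  refine Finset.sum_congr rfl fun a _ => ?_
  rw [O.res_mul (O.const _) (O.norm_mem y a), O.res_algebraMap, O.red_def, Algebra.smul_def]

theorem uval_key {K F ι τ : Type} [Field K] [Field F] [Algebra K F] [Fintype ι] (h1 : UDeg K)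
    {S : Set (MvPolynomial ι K)} {h : τ → ι → K} (hS : Homog S) (hN : Nz S h) (hF : FF K F 2)
    {y : ι → F} (hy : y ≠ 0) (hon : On S y) {z : τ → F} {D : F} (hz : ∀ o, lf (h o) y = z o * D)
    (O : DV K F) (o₀ : τ)
    (hu : ∀ o, ∃ u ∈ O.O, z o = z o₀ * u ∧ ∃ k, O.res u = algebraMap K O.K k) :
    ¬ ND K (O.red y) := by
  choose u hu1 hu2 v hv using hu
  refine h1 ι τ S h hS hN O.K (O.ff_K hF) (O.red y)
    (O.res (lf (h o₀) y * O.pi ^ (-O.mu y))) v (O.red_ne hy) (O.on_red hS hon) fun o => ?_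
  rw [(uval_lf O (h o) y).2, ← hv, ← O.res_mul (uval_lf O (h o₀) y).1 (hu1 o), hz, hz, hu2 o]
  congr 1
  ring

theorem uval_lt {A F Γ : Type} [CommRing A] [Field F] [LinearOrderedCommGroupWithZero Γ]
    (v : Valuation F Γ) (φ : A →+* F) {T : F} (hT : 1 < v T) (f : A[X]) (D : ℕ)
    (hc : ∀ j, v (φ (f.coeff j)) < v T) :
    v (∑ j ∈ Finset.range D, φ (f.coeff j) * T ^ j) < v T ^ D := by
  have h0 : 0 < v T := zero_lt_one.trans hT
  refine v.map_sum_lt (pow_ne_zero _ h0.ne') fun j hj => ?_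
  rw [map_mul, map_pow]
  calc _ < v T * v T ^ j := mul_lt_mul_of_pos_right (hc j) (pow_pos h0 j)
    _ = v T ^ (j + 1) := (pow_succ' _ _).symm
    _ ≤ _ := pow_le_pow_right₀ hT.le (Finset.mem_range.1 hj)

theorem uval_int {K A : Type} [Field K] [CommRing A] [Algebra K A] [Algebra K[X] A]
    [IsScalarTower K K[X] A] [Module.Finite K[X] A] (a : A) :
    IsIntegral (Algebra.adjoin K (Set.range fun _ : Unit => xA K A)) a := by
  have m : ∀ p : K[X], algebraMap K[X] A p ∈ Algebra.adjoin K (Set.range fun _ : Unit => xA K A) :=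
    fun p => by
      rw [Set.range_const, ← aeval_X_left_apply p, ← aeval_algebraMap_apply]
      exact aeval_mem_adjoin_singleton K _
  exact IsIntegral.map_of_comp_eq ((algebraMap K[X] A).codRestrict _ m) (RingHom.id A) rfl
    (Algebra.IsIntegral.isIntegral (R := K[X]) a)

theorem uVal (K : Type) [Field K] [IsAlgClosed K] (h1 : UDeg K) (h2 : TLe K) : UVal K := by
  classical
  intro ι σ _ _ S h hS hN A _ _ _ _ _ x c s₀ hm hd hlt
  have := Fintype.ofFinite σ
  choose n hn using fun a : A => (h2 A Unit (fun _ => xA K A) a).1 (uval_int a)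
  obtain ⟨N, hx, hc⟩ : ∃ N, n x ≤ N ∧ ∀ s, ∀ j ≤ (c s₀).natDegree, n ((c s).coeff j) ≤ N :=
    ⟨n x ⊔ ((Finset.univ : Finset σ) ×ˢ Finset.range ((c s₀).natDegree + 1)).sup
      fun p => n ((c p.1).coeff p.2), le_sup_left, fun s j hj => le_sup_of_le_right
        (Finset.le_sup (f := fun p : σ × ℕ => n ((c p.1).coeff p.2)) (b := (s, j))
          (by simp [hj]))⟩
  refine ⟨N, fun F _ _ i T Θ y D hF hy hon hz O hnd => ?_⟩
  have hb : ∀ a, n a ≤ N → O.O.valuation (i a) ≤ max 1 (O.O.valuation (i (xA K A))) ^ N :=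
    fun a ha => hn a N ha F (i : A →+* F) O.O (fun k => by simpa using O.const k) _
      (le_max_left _ _) fun _ => le_max_right _ _
  have hbc : ∀ s j, O.O.valuation (i ((c s).coeff j)) ≤
      max 1 (O.O.valuation (i (xA K A))) ^ N := fun s j => by
    by_cases hj : j ≤ (c s₀).natDegree
    · exact hb _ (hc s j hj)
    · have : (c s).natDegree < j := by
        by_cases e : s = s₀
        · rw [e]
          omega
        · have := hlt s e
          omega
      simp [coeff_eq_zero_of_natDegree_lt this]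
  have hT : O.O.valuation T ≤ max 1 (O.O.valuation (i (xA K A))) ^ N := by
    by_contra hT
    push Not at hT
    have t1 : 1 < O.O.valuation T := (one_le_pow₀ (le_max_left _ _)).trans_lt hT
    have t2 : O.O.valuation T ≤ O.O.valuation T ^ (c s₀).natDegree := le_self_pow₀ t1.le hd.ne'
    have hs : ∀ s, O.O.valuation (∑ j ∈ Finset.range (c s₀).natDegree,
        (i : A →+* F) ((c s).coeff j) * T ^ j) < O.O.valuation T ^ (c s₀).natDegree := fun s =>
      uval_lt _ _ t1 _ _ fun j => (hbc s j).trans_lt hT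
    have e0 : O.O.valuation ((c s₀).eval₂ (i : A →+* F) T) =
        O.O.valuation T ^ (c s₀).natDegree := by
      rw [eval₂_eq_sum_range, Finset.sum_range_succ, hm.coeff_natDegree, map_one, one_mul,
        Valuation.map_add_eq_of_lt_right _ (by rw [map_pow]; exact hs s₀), map_pow]
    have p0 : 0 < O.O.valuation ((c s₀).eval₂ (i : A →+* F) T) := by
      rw [e0]
      exact pow_pos (zero_lt_one.trans t1) _
    have n0 : (c s₀).eval₂ (i : A →+* F) T ≠ 0 := by
      intro e
      simp [e] at p0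
    have sm : ∀ w : F, O.O.valuation w < O.O.valuation T ^ (c s₀).natDegree →
        ∃ u ∈ O.O, w = (c s₀).eval₂ (i : A →+* F) T * u ∧ ∃ k, O.res u = algebraMap K O.K k :=
      fun w hw => by
        have l : O.O.valuation (w / (c s₀).eval₂ (i : A →+* F) T) < 1 := by
          rw [map_div₀, div_lt_one₀ p0, e0]
          exact hw
        have m := (O.O.valuation_le_one_iff _).1 l.le
        exact ⟨_, m, by field_simp, 0, by
          rw [map_zero, O.res_eq_zero_iff' m]
          exact l⟩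
    refine uval_key h1 hS hN hF hy hon hz O (some (some s₀)) (fun o => ?_) hnd
    rcases o with _ | _ | s
    · exact sm 1 (by rw [map_one]; exact t1.trans_le t2)
    · exact sm (i x) (((hb x hx).trans_lt hT).trans_le t2)
    · by_cases e : s = s₀
      · exact ⟨1, one_mem _, by rw [e, mul_one], 1, by rw [O.res_one, map_one]⟩
      · refine sm ((c s).eval₂ (i : A →+* F) T) ?_
        rw [eval₂_eq_sum_range' _ (hlt s e)]
        exact hs s
  by_cases hX : i (xA K A) ∈ O.O
  · rw [max_eq_left ((O.O.valuation_le_one_iff _).2 hX), one_pow] at hb hbc hT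
    have mT := (O.O.valuation_le_one_iff _).1 hT
    refine Or.inl ⟨hX, mT, ?_⟩
    by_contra hG
    push Not at hG
    refine uval_key h1 hS hN hF hy hon hz O none (fun o => ?_) hnd
    rcases o with _ | _ | s
    · exact ⟨1, one_mem _, (mul_one _).symm, 1, by rw [O.res_one, map_one]⟩
    · refine ⟨i x, (O.O.valuation_le_one_iff _).1 (hb x hx), (one_mul _).symm, ?_⟩
      simpa [ev] using hG (C (C x))
    · refine ⟨(c s).eval₂ (i : A →+* F) T, ?_, (one_mul _).symm, ?_⟩
      · rw [eval₂_eq_sum_range]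
        exact sum_mem fun j _ => mul_mem ((O.O.valuation_le_one_iff _).1 (hbc s j)) (pow_mem mT j)
      · simpa [ev] using hG (C (c s))
  · have : 1 ≤ O.O.valuation (i (xA K A)) :=
      (not_le.1 fun e => hX ((O.O.valuation_le_one_iff _).1 e)).le
    rw [max_eq_right this] at hT
    exact Or.inr ⟨hX, hT⟩

end Pool.Agent.MP_a9d3bd_y
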