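import Pool.Agent.MP_a9d3bd_g.ANF

namespace Pool.Agent.MP_a9d3bd_y

open Polynomial

variable {K R B : Type} [Field K] [CommRing R] [CommRing B] [Algebra K B]

/-- A derivation at a point. -/
def Der (b : B →ₐ[K] K) (δ : B →ₗ[K] K) : Prop := ∀ u v, δ (u * v) = b u * δ v + b v * δ u

theorem Der.one {b : B →ₐ[K] K} {δ : B →ₗ[K] K} (h : Der b δ) : δ 1 = 0 := by
  have := h 1 1
  rw [mul_one, map_one b, one_mul] at this
  exact left_eq_add.1 this

theorem Der.const {b : B →ₐ[K] K} {δ : B →ₗ[K] K} (h : Der b δ) (k : K) :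
    δ (algebraMap K B k) = 0 := by
  rw [Algebra.algebraMap_eq_smul_one, map_smul, h.one, smul_zero]

theorem der_sq (b : B →ₐ[K] K) (I : Ideal B) (hI : I ≤ RingHom.ker b)
    (h : ∀ δ, Der b δ → (∀ u ∈ I, δ u = 0) → δ = 0) :
    RingHom.ker b ≤ I ⊔ RingHom.ker b ^ 2 := by
  intro u hu
  by_contra hn
  have hk : ∀ v : B, v - algebraMap K B (b v) ∈ RingHom.ker b := fun v => by
    simp [RingHom.mem_ker]
  have h1 : u ∉ (I ⊔ RingHom.ker b ^ 2).restrictScalars K ⊔ Submodule.span K {(1 : B)} := by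
    intro h1
    obtain ⟨i, hi, j, hj, rfl⟩ := Submodule.mem_sup.1 h1
    obtain ⟨k, rfl⟩ := Submodule.mem_span_singleton.1 hj
    have h2 : b i = 0 := (sup_le hI (Ideal.pow_le_self two_ne_zero)) hi
    have h3 : k = 0 := by simpa [RingHom.mem_ker, h2] using hu
    rw [h3, zero_smul, add_zero] at hn
    exact hn hi
  obtain ⟨δ, h2, h3⟩ := Submodule.exists_dual_map_eq_bot_of_notMem h1 inferInstance
  have h4 : ∀ v ∈ (I ⊔ RingHom.ker b ^ 2).restrictScalars K ⊔ Submodule.span K {(1 : B)},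
      δ v = 0 := fun v hv => (Submodule.mem_bot K).1 (h3 ▸ Submodule.mem_map_of_mem hv)
  have h5 : δ 1 = 0 := h4 1 (Submodule.mem_sup_right (Submodule.mem_span_singleton_self _))
  refine h2 (DFunLike.congr_fun (h δ (fun v w => ?_) fun v hv =>
    h4 v (Submodule.mem_sup_left (Ideal.mem_sup_left hv))) u)
  have h6 := h4 _ (Submodule.mem_sup_left (Ideal.mem_sup_right
    (sq (RingHom.ker b) ▸ Ideal.mul_mem_mul (hk v) (hk w))))
  have h7 : (v - algebraMap K B (b v)) * (w - algebraMap K B (b w)) =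
      v * w - b v • w - b w • v + (b v * b w) • (1 : B) := by
    simp only [Algebra.smul_def, map_mul]
    ring
  rw [h7, map_add, map_sub, map_sub, map_smul, map_smul, map_smul, h5] at h6
  simp only [smul_eq_mul] at h6
  linear_combination h6

theorem pt_of_prime [IsAlgClosed K] {C : Type} [CommRing C] [Algebra C B] [Algebra.IsIntegral C B]
    (a : C →+* K) (J : Ideal B) [J.IsPrime]
    (h : ∀ c, algebraMap C B c - algebraMap K B (a c) ∈ J) :
    ∃ b : B →ₐ[K] K, RingHom.ker b = J := by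
  have : Algebra.IsIntegral K (B ⧸ J) := ⟨fun u => by
    obtain ⟨u, rfl⟩ := Ideal.Quotient.mk_surjective u
    obtain ⟨p, hp, hu⟩ := Algebra.IsIntegral.isIntegral (R := C) u
    refine ⟨p.map a, hp.map a, ?_⟩
    rw [eval₂_map, show (algebraMap K (B ⧸ J)).comp a = (Ideal.Quotient.mk J).comp
      (algebraMap C B) from RingHom.ext fun c => (Ideal.Quotient.eq.2 (h c)).symm,
      ← hom_eval₂, hu, map_zero]⟩
  let e := AlgEquiv.ofBijective (Algebra.ofId K (B ⧸ J))
    IsAlgClosed.algebraMap_bijective_of_isIntegral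
  refine ⟨(e.symm : B ⧸ J →ₐ[K] K).comp (Ideal.Quotient.mkₐ K J), Ideal.ext fun u => ?_⟩
  simp [RingHom.mem_ker, Ideal.Quotient.eq_zero_iff_mem]

variable [Algebra K R] [Algebra R B] [IsScalarTower K R B]

/-- A point that is unramified and separated by `θ`. -/
theorem simple [IsAlgClosed K] [IsDomain R] [IsIntegrallyClosed R] [IsDomain B]
    [Module.IsTorsionFree R B] [Module.Finite R B] [IsNoetherianRing R] (θ : B) (b : B →ₐ[K] K)
    (h1 : ∀ b' : B →ₐ[K] K, (∀ r, b' (algebraMap R B r) = b (algebraMap R B r)) → b' θ = b θ →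
      b' = b)
    (h2 : ∀ δ, Der b δ → (∀ r, δ (algebraMap R B r) = 0) → δ = 0) :
    (∃ Q : R[X], b (aeval θ Q) = 1 ∧ ∀ u : B, ∃ Q' : R[X], aeval θ Q * u = aeval θ Q') ∧
      b (aeval θ (derivative (minpoly R θ))) ≠ 0 := by
  have : IsNoetherianRing B := IsNoetherianRing.of_finite R B
  let _ : Algebra R[X] B := (aeval θ).toRingHom.toAlgebra
  have : IsScalarTower R R[X] B := IsScalarTower.of_algebraMap_eq fun r => (aeval_C θ r).symm
  have : Module.Finite R[X] B := Module.Finite.of_restrictScalars_finite R R[X] B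
  have hal : ∀ Q : R[X], algebraMap R[X] B Q = aeval θ Q := fun _ => rfl
  set m := RingHom.ker b with hm
  let a : R[X] →+* K := (b : B →+* K).comp (algebraMap R[X] B)
  let I₀ : Ideal B := (m.comap (algebraMap R B)).map (algebraMap R B)
  let I : Ideal B := (RingHom.ker a).map (algebraMap R[X] B)
  have hc : ∀ k : K, algebraMap K B k = algebraMap R[X] B (C (algebraMap K R k)) := fun k => by
    rw [hal, aeval_C, ← IsScalarTower.algebraMap_apply]
  have hI : ∀ c, algebraMap R[X] B c - algebraMap K B (a c) ∈ I := fun c => by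
    rw [hc, ← map_sub]
    refine Ideal.mem_map_of_mem _ ?_
    rw [RingHom.mem_ker, map_sub, sub_eq_zero]
    change _ = b (algebraMap R[X] B _)
    rw [← hc]
    simp
  have s1 : m ≤ I.radical := by
    rw [Ideal.radical_eq_sInf]
    refine le_sInf fun J hJ => ?_
    have := hJ.2
    obtain ⟨b', hb'⟩ := pt_of_prime a J fun c => hJ.1 (hI c)
    have h3 : ∀ c, b' (algebraMap R[X] B c) = b (algebraMap R[X] B c) := fun c => by
      have := hJ.1 (hI c)
      rw [← hb', RingHom.mem_ker, map_sub, sub_eq_zero] at this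
      exact this.trans (b'.commutes _)
    rw [← hb', h1 b' (fun r => by simpa [hal] using h3 (C r)) (by simpa [hal] using h3 X)]
  have s2 : m ≤ I₀ ⊔ m ^ 2 := der_sq b I₀ Ideal.map_comap_le fun δ hδ h => h2 δ hδ fun r => by
    have := h (algebraMap R B (r - algebraMap K R (b (algebraMap R B r))))
      (Ideal.mem_map_of_mem _ (by
        simp [hm, RingHom.mem_ker, ← IsScalarTower.algebraMap_apply]))
    rwa [map_sub, map_sub, ← IsScalarTower.algebraMap_apply, hδ.const, sub_zero] at this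
  have s3 : I₀ ≤ I := Ideal.map_le_iff_le_comap.2 fun r hr => by
    rw [Ideal.mem_comap, IsScalarTower.algebraMap_apply R R[X] B]
    refine Ideal.mem_map_of_mem _ ?_
    change b (algebraMap R[X] B _) = 0
    rwa [← IsScalarTower.algebraMap_apply]
  have s4 : ∀ k, m ≤ I ⊔ m ^ (k + 1) := fun k => by
    induction k with
    | zero => simp
    | succ k ih =>
      refine (s2.trans (sup_le_sup_right s3 _)).trans (sup_le le_sup_left ?_)
      rw [sq, pow_succ]
      refine (Ideal.mul_mono_left ih).trans ?_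
      rw [Ideal.sup_mul]
      exact sup_le_sup_right Ideal.mul_le_left _
  obtain ⟨N, hN⟩ := Ideal.exists_pow_le_of_le_radical_of_fg s1 (IsNoetherian.noetherian m)
  have s5 : m ≤ I := (s4 N).trans (sup_le le_rfl ((Ideal.pow_le_pow_right (Nat.le_succ N)).trans hN))
  obtain ⟨Q, hQ1, hQ2⟩ := Submodule.exists_sub_one_mem_and_smul_le_of_fg_of_le_sup
    (I := RingHom.ker a) (N := (1 : Submodule R[X] B)) (N' := ⊤) (P := ⊤) Module.Finite.fg_top
    le_rfl fun u _ => by
      rw [← add_sub_cancel (algebraMap K B (b u)) u]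
      refine Submodule.add_mem_sup (Submodule.mem_one.2 ⟨_, (hc _).symm⟩) ?_
      rw [Ideal.smul_top_eq_map]
      exact s5 (by simp [hm, RingHom.mem_ker])
  have hb1 : b (aeval θ Q) = 1 := by
    rw [RingHom.mem_ker, map_sub, map_one, sub_eq_zero] at hQ1
    exact hQ1
  have hQ3 : ∀ u : B, ∃ Q' : R[X], aeval θ Q * u = aeval θ Q' := fun u => by
    obtain ⟨Q', h⟩ := Submodule.mem_one.1 (hQ2 (Submodule.smul_mem_pointwise_smul u Q ⊤ trivial))
    exact ⟨Q', h.symm⟩
  refine ⟨⟨Q, hb1, hQ3⟩, fun h0 => ?_⟩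
  have key : ∀ u ∈ I₀ ⊔ m ^ 2, ∃ Q' : R[X], aeval θ Q ^ 2 * u = aeval θ Q' ∧
      b (aeval θ (derivative Q')) = 0 := by
    let T : AddSubmonoid B :=
      { carrier := {u | ∃ Q' : R[X], aeval θ Q ^ 2 * u = aeval θ Q' ∧
          b (aeval θ (derivative Q')) = 0}
        zero_mem' := ⟨0, by simp, by simp⟩
        add_mem' := by
          rintro u v ⟨P, p1, p2⟩ ⟨P', q1, q2⟩
          exact ⟨P + P', by rw [mul_add, p1, q1, map_add], by simp [p2, q2]⟩ }
    intro u hu
    obtain ⟨i, hi, j, hj, rfl⟩ := Submodule.mem_sup.1 hu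
    refine T.add_mem ?_ ?_
    · have : i ∈ (m.comap (algebraMap R B)) • (⊤ : Submodule R B) := by
        rw [Ideal.smul_top_eq_map]
        exact hi
      refine Submodule.smul_induction_on this (fun r hr v _ => ?_) fun _ _ => T.add_mem
      obtain ⟨P, hP⟩ := hQ3 (aeval θ Q * v)
      have h3 : b (algebraMap R B r) = 0 := hr
      exact ⟨C r * P, by rw [map_mul, aeval_C, ← hP, Algebra.smul_def]; ring, by simp [h3]⟩
    · rw [sq] at hj
      refine Submodule.mul_induction_on hj (fun v hv w hw => ?_) fun _ _ => T.add_mem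
      obtain ⟨P, hP⟩ := hQ3 v
      obtain ⟨P', hP'⟩ := hQ3 w
      have h3 : b v = 0 := hv
      have h4 : b w = 0 := hw
      exact ⟨P * P', by rw [map_mul, ← hP, ← hP']; ring, by simp [← hP, ← hP', h3, h4]⟩
  obtain ⟨P, p1, p2⟩ := key (θ - algebraMap K B (b θ)) (s2 (by simp [hm, RingHom.mem_ker]))
  obtain ⟨G, hG⟩ := minpoly.isIntegrallyClosed_dvd (R := R) (s := θ) (Algebra.IsIntegral.isIntegral θ)
    (p := Q ^ 2 * (X - C (algebraMap K R (b θ))) - P) (by
      simp [← p1, ← IsScalarTower.algebraMap_apply])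
  have h3 := congrArg (fun P => b (aeval θ (derivative P))) hG
  simp [p2, h0, hb1, ← IsScalarTower.algebraMap_apply] at h3

end Pool.Agent.MP_a9d3bd_y
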